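import Pool.Agent.FKB.RankA

open Finset
noncomputable section
namespace FKB

variable {d : ℕ}

theorem mem_cube {c x : Pt d} {n : ℕ} : x ∈ cube c n ↔ ∀ i, |x i - c i| ≤ n := by
  rw [cube, Finset.mem_Icc, Pi.le_def, Pi.le_def]
  constructor
  · rintro ⟨h1, h2⟩ i
    have a := h1 i
    have b := h2 i
    rw [abs_le]
    constructor <;> linarith
  · intro h
    constructor
    · intro i
      have := abs_le.1 (h i)
      linarith [this.1]
    · intro i
      have := abs_le.1 (h i)
      linarith [this.2]

theorem card_cube (c : Pt d) (n : ℕ) : (cube c n).card = (2 * n + 1) ^ d := by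
  rw [cube, Pi.card_Icc]
  have h : ∀ i ∈ (Finset.univ : Finset (Fin d)),
      (Finset.Icc (c i - (n : ℤ)) (c i + (n : ℤ))).card = 2 * n + 1 := by
    intro i _
    rw [Int.card_Icc]
    omega
  rw [Finset.prod_congr rfl h]
  simp

theorem latgeo_single_ne {i j : Fin d} (h : j ≠ i) (x : Pt d) :
    (x + (Pi.single i 1 : Pt d)) j = x j := by
  simp [Pi.single_apply, h]

theorem latgeo_single_ne' {i j : Fin d} (h : j ≠ i) (x : Pt d) :
    (x - (Pi.single i 1 : Pt d)) j = x j := by
  simp [Pi.single_apply, h]

theorem mem_bd_cube {c x : Pt d} {n : ℕ} :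
    x ∈ bd (cube c n) ↔ x ∈ cube c n ∧ ∃ i, |x i - c i| = n := by
  rw [bd, Finset.mem_filter]
  refine and_congr_right fun hx => ?_
  rw [mem_cube] at hx
  constructor
  · rintro ⟨i, h | h⟩
    · rw [mem_cube] at h
      push Not at h
      obtain ⟨j, hj⟩ := h
      by_cases hji : j = i
      · subst hji
        refine ⟨j, ?_⟩
        have h1 := abs_le.1 (hx j)
        have h2 : (x + (Pi.single j 1 : Pt d)) j = x j + 1 := by simp
        rw [h2] at hj
        have h3 : x j - c j = n := by
          rcases lt_abs.1 hj with h | h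
          · omega
          · omega
        rw [h3]; simp
      · rw [latgeo_single_ne hji] at hj
        exact absurd (hx j) (not_le.2 hj)
    · rw [mem_cube] at h
      push Not at h
      obtain ⟨j, hj⟩ := h
      by_cases hji : j = i
      · subst hji
        refine ⟨j, ?_⟩
        have h1 := abs_le.1 (hx j)
        have h2 : (x - (Pi.single j 1 : Pt d)) j = x j - 1 := by simp
        rw [h2] at hj
        have h3 : x j - c j = -n := by
          rcases lt_abs.1 hj with h | h
          · omega
          · omega
        rw [h3]; simp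
      · rw [latgeo_single_ne' hji] at hj
        exact absurd (hx j) (not_le.2 hj)
  · rintro ⟨i, hi⟩
    refine ⟨i, ?_⟩
    rcases abs_eq (Int.natCast_nonneg n) |>.1 hi with h | h
    · left
      rw [mem_cube]
      push Not
      refine ⟨i, ?_⟩
      have h2 : (x + (Pi.single i 1 : Pt d)) i = x i + 1 := by simp
      rw [h2]
      refine lt_abs.2 (Or.inl ?_)
      omega
    · right
      rw [mem_cube]
      push Not
      refine ⟨i, ?_⟩
      have h2 : (x - (Pi.single i 1 : Pt d)) i = x i - 1 := by simp
      rw [h2]
      refine lt_abs.2 (Or.inr ?_)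
      omega

theorem latgeo_mem_lat {R : Finset (Pt d)} {e : Pt d × Pt d} :
    e ∈ lat R ↔ (e.1 ∈ R ∧ e.2 ∈ R) ∧ ∃ i, e.2 = e.1 + Pi.single i 1 := by
  rw [lat, Finset.mem_filter, Finset.mem_product]

theorem isLat_lat (R : Finset (Pt d)) : IsLat (lat R) := by
  intro e he
  exact (latgeo_mem_lat.1 he).2

theorem verts_lat (R : Finset (Pt d)) : Verts (lat R) R := by
  intro e he
  exact (latgeo_mem_lat.1 he).1

theorem lat_mono {R R' : Finset (Pt d)} (h : R ⊆ R') : lat R ⊆ lat R' := by
  intro e he
  obtain ⟨⟨h1, h2⟩, h3⟩ := latgeo_mem_lat.1 he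
  exact latgeo_mem_lat.2 ⟨⟨h h1, h h2⟩, h3⟩

/-- a lattice edge touching the interior of `K` is an edge of `K` -/
theorem lat_local {K : Finset (Pt d)} {e : Pt d × Pt d} (he : ∃ i, e.2 = e.1 + Pi.single i 1)
    (h : e ∉ lat K) : (e.1 ∈ K → e.1 ∈ bd K) ∧ (e.2 ∈ K → e.2 ∈ bd K) := by
  obtain ⟨i, hi⟩ := he
  have hn : ¬ (e.1 ∈ K ∧ e.2 ∈ K) := fun hh => h (latgeo_mem_lat.2 ⟨hh, i, hi⟩)
  constructor
  · intro h1
    rw [bd, Finset.mem_filter]
    refine ⟨h1, i, Or.inl ?_⟩
    rw [← hi]
    exact fun h2 => hn ⟨h1, h2⟩
  · intro h2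
    rw [bd, Finset.mem_filter]
    refine ⟨h2, i, Or.inr ?_⟩
    have : e.2 - Pi.single i 1 = e.1 := by rw [hi]; simp
    rw [this]
    exact fun h1 => hn ⟨h1, h2⟩

/-- a connected lattice box -/
theorem conn_lat_cube {c x y : Pt d} {n : ℕ} (hx : x ∈ cube c n) (hy : y ∈ cube c n) :
    Conn (lat (cube c n)) x y := by
  have key : ∀ (N : ℕ) (x : Pt d), x ∈ cube c n → ∑ i, (x i - y i).natAbs = N →
      Conn (lat (cube c n)) x y := by
    intro N
    induction N using Nat.strong_induction_on with
    | _ N ih =>
      intro x hx hN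
      by_cases hxy : x = y
      · rw [hxy]; exact Conn.rfl' _ _
      · have : ∃ i, x i ≠ y i := by
          by_contra hcon
          push Not at hcon
          exact hxy (funext hcon)
        obtain ⟨i, hi⟩ := this
        have hxc := mem_cube.1 hx
        have hyc := mem_cube.1 hy
        rcases lt_or_gt_of_ne hi with hlt | hgt
        · -- move up
          have hx' : x + Pi.single i 1 ∈ cube c n := by
            rw [mem_cube]
            intro j
            by_cases hji : j = i
            · subst hji
              have h2 : (x + (Pi.single j 1 : Pt d)) j = x j + 1 := by simp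
              rw [h2, abs_le]
              have a := abs_le.1 (hxc j)
              have b := abs_le.1 (hyc j)
              constructor <;> omega
            · rw [latgeo_single_ne hji]; exact hxc j
          have hsum : ∑ j, ((x + (Pi.single i 1 : Pt d)) j - y j).natAbs < N := by
            rw [← hN]
            refine Finset.sum_lt_sum (fun j _ => ?_) ⟨i, Finset.mem_univ i, ?_⟩
            · by_cases hji : j = i
              · subst hji
                have h2 : (x + (Pi.single j 1 : Pt d)) j = x j + 1 := by simp
                rw [h2]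
                omega
              · rw [latgeo_single_ne hji]
            · have h2 : (x + (Pi.single i 1 : Pt d)) i = x i + 1 := by simp
              rw [h2]
              omega
          have h1 := ih _ hsum (x + Pi.single i 1) hx' rfl
          have h2 : Conn (lat (cube c n)) x (x + Pi.single i 1) :=
            Conn.edge (A := lat (cube c n)) (e := (x, x + Pi.single i 1))
              (latgeo_mem_lat.2 ⟨⟨hx, hx'⟩, i, rfl⟩)
          exact h2.trans' h1
        · have hx' : x - Pi.single i 1 ∈ cube c n := by
            rw [mem_cube]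
            intro j
            by_cases hji : j = i
            · subst hji
              have h2 : (x - (Pi.single j 1 : Pt d)) j = x j - 1 := by simp
              rw [h2, abs_le]
              have a := abs_le.1 (hxc j)
              have b := abs_le.1 (hyc j)
              constructor <;> omega
            · rw [latgeo_single_ne' hji]; exact hxc j
          have hsum : ∑ j, ((x - (Pi.single i 1 : Pt d)) j - y j).natAbs < N := by
            rw [← hN]
            refine Finset.sum_lt_sum (fun j _ => ?_) ⟨i, Finset.mem_univ i, ?_⟩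
            · by_cases hji : j = i
              · subst hji
                have h2 : (x - (Pi.single j 1 : Pt d)) j = x j - 1 := by simp
                rw [h2]
                omega
              · rw [latgeo_single_ne' hji]
            · have h2 : (x - (Pi.single i 1 : Pt d)) i = x i - 1 := by simp
              rw [h2]
              omega
          have h1 := ih _ hsum (x - Pi.single i 1) hx' rfl
          have h2 : Conn (lat (cube c n)) (x - Pi.single i 1) x :=
            Conn.edge (A := lat (cube c n)) (e := (x - Pi.single i 1, x))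
              (latgeo_mem_lat.2 ⟨⟨hx', hx⟩, i, by simp⟩)
          exact h2.symm'.trans' h1
  exact key _ x hx rfl

theorem latgeo_self_mem (x : Pt d) (l : ℕ) : x ∈ cube x l := by
  rw [mem_cube]; intro i; simp

theorem notFar_cluster {l : ℕ} {A : Finset (Pt d × Pt d)} (hA : IsLat A) {x y : Pt d}
    (h : ¬ Far l A x) (hxy : Conn A x y) : y ∈ cube x l := by
  have key := hxy.inv (fun v => v ∈ cube x l ∧ Conn (A ∩ lat (cube x l)) x v) (by
    intro e he
    have hbd : ∀ v, Conn (A ∩ lat (cube x l)) x v → v ∉ bd (cube x l) :=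
      fun v hv hb => h ⟨v, hb, hv⟩
    have hl := hA e he
    constructor
    · rintro ⟨h1, h2⟩
      by_cases hlat : e ∈ lat (cube x l)
      · have hv := verts_lat _ e hlat
        exact ⟨hv.2, h2.trans' (Conn.edge (Finset.mem_inter.2 ⟨he, hlat⟩))⟩
      · exact absurd ((lat_local hl hlat).1 h1) (hbd _ h2)
    · rintro ⟨h1, h2⟩
      by_cases hlat : e ∈ lat (cube x l)
      · have hv := verts_lat _ e hlat
        exact ⟨hv.1, h2.trans' (Conn.edge (Finset.mem_inter.2 ⟨he, hlat⟩)).symm'⟩
      · exact absurd ((lat_local hl hlat).2 h1) (hbd _ h2))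
  exact (key.1 ⟨latgeo_self_mem x l, Conn.rfl' _ _⟩).1

/-- if a point of the cluster is not far, the cluster is small -/
theorem latgeo_small {l : ℕ} {A : Finset (Pt d × Pt d)} (hA : IsLat A) (Q : Finset (Pt d))
    {x z : Pt d} (hz : Conn A x z) (hf : ¬ Far l A z) :
    (cl A Q x).card ≤ (2 * l + 1) ^ d := by
  rw [← card_cube z l]
  refine Finset.card_le_card fun y hy => ?_
  exact notFar_cluster hA hf (hz.symm'.trans' (mem_cl.1 hy).2)

theorem latgeo_nFar {l : ℕ} {A : Finset (Pt d × Pt d)} (T S : Finset (Pt d)) (hS : S ⊆ T)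
    (hf : ∀ y ∈ S, Far l A y) : S.card ≤ nFar l A T := by
  classical
  unfold nFar
  refine Finset.card_le_card fun y hy => ?_
  rw [Finset.mem_filter]
  exact ⟨hS hy, hf y hy⟩

theorem card_cl_le {l : ℕ} {A : Finset (Pt d × Pt d)} (hA : IsLat A) (Q : Finset (Pt d))
    (x : Pt d) : (cl A Q x).card ≤ max (nFar l A Q) ((2 * l + 1) ^ d) := by
  by_cases h : ∃ z ∈ cl A Q x, ¬ Far l A z
  · obtain ⟨z, hz, hf⟩ := h
    exact le_trans (latgeo_small hA Q (mem_cl.1 hz).2 hf) (le_max_right _ _)
  · push Not at h
    exact le_trans (latgeo_nFar Q _ (fun y hy => (mem_cl.1 hy).1) h) (le_max_left _ _)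

theorem card_cl_add_le {l : ℕ} {A : Finset (Pt d × Pt d)} (hA : IsLat A) (Q : Finset (Pt d))
    {x y : Pt d} (hxy : ¬ Conn A x y) (hx : (2 * l + 1) ^ d < (cl A Q x).card) :
    (cl A Q y).card + (cl A Q x).card ≤ max (nFar l A Q) ((2 * l + 1) ^ d + (cl A Q x).card) := by
  classical
  by_cases h : ∃ z ∈ cl A Q y, ¬ Far l A z
  · obtain ⟨z, hz, hf⟩ := h
    refine le_trans ?_ (le_max_right _ _)
    have := latgeo_small hA Q (mem_cl.1 hz).2 hf
    omega
  · push Not at h
    refine le_trans ?_ (le_max_left _ _)
    have hx' : ∀ z ∈ cl A Q x, Far l A z := by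
      intro z hz
      by_contra hf
      have := latgeo_small hA Q (mem_cl.1 hz).2 hf
      omega
    have hdisj : Disjoint (cl A Q y) (cl A Q x) := by
      rw [Finset.disjoint_left]
      intro z hz1 hz2
      exact hxy ((mem_cl.1 hz2).2.trans' (mem_cl.1 hz1).2.symm')
    rw [← Finset.card_union_of_disjoint hdisj]
    refine latgeo_nFar Q _ ?_ ?_
    · intro z hz
      rcases Finset.mem_union.1 hz with hz | hz
      · exact (mem_cl.1 hz).1
      · exact (mem_cl.1 hz).1
    · intro z hz
      rcases Finset.mem_union.1 hz with hz | hz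
      · exact h z hz
      · exact hx' z hz

end FKB
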