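import Pool.Agent.FKB.RankA

open Finset
noncomputable section
namespace FKB

variable {V : Type*} [DecidableEq V]

theorem RankB_aux {A O O' : Finset (V × V)} {T : Finset V} (hA : Verts A T)
    (h : ∀ x ∈ T, ∀ y ∈ T, (Conn O x y ↔ Conn O' x y)) {x y : V} (hx : x ∈ T) (hy : y ∈ T)
    (hxy : Conn (A ∪ O) x y) : Conn (A ∪ O') x y := by
  have h1 := hxy.inv (fun u => ∃ t ∈ T, Conn (A ∪ O') x t ∧ Conn O t u) (by
    intro e he
    rcases Finset.mem_union.1 he with he | he
    · obtain ⟨h1, h2⟩ := hA e he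
      have he' : Conn (A ∪ O') e.1 e.2 := Conn.edge (Finset.mem_union_left _ he)
      constructor
      · rintro ⟨t, ht, h3, h4⟩
        have h5 : Conn (A ∪ O') t e.1 :=
          ((h t ht e.1 h1).1 h4).mono' Finset.subset_union_right
        exact ⟨e.2, h2, (h3.trans' h5).trans' he', Conn.rfl' _ _⟩
      · rintro ⟨t, ht, h3, h4⟩
        have h5 : Conn (A ∪ O') t e.2 :=
          ((h t ht e.2 h2).1 h4).mono' Finset.subset_union_right
        exact ⟨e.1, h1, (h3.trans' h5).trans' he'.symm', Conn.rfl' _ _⟩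
    · have he' : Conn O e.1 e.2 := Conn.edge he
      constructor
      · rintro ⟨t, ht, h3, h4⟩
        exact ⟨t, ht, h3, h4.trans' he'⟩
      · rintro ⟨t, ht, h3, h4⟩
        exact ⟨t, ht, h3, h4.trans' he'.symm'⟩)
  obtain ⟨t, ht, h3, h4⟩ := h1.1 ⟨x, hx, Conn.rfl' _ _, Conn.rfl' _ _⟩
  exact h3.trans' (((h t ht y hy).1 h4).mono' Finset.subset_union_right)

theorem conn_union_congr {A O O' : Finset (V × V)} {T : Finset V} (hA : Verts A T)
    (h : ∀ x ∈ T, ∀ y ∈ T, (Conn O x y ↔ Conn O' x y)) {x y : V} (hx : x ∈ T) (hy : y ∈ T) :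
    Conn (A ∪ O) x y ↔ Conn (A ∪ O') x y :=
  ⟨RankB_aux hA h hx hy, RankB_aux hA (fun x hx y hy => (h x hx y hy).symm) hx hy⟩

theorem rk_union_congr {A O O' : Finset (V × V)} {T : Finset V} (hA : Verts A T)
    (h : ∀ x ∈ T, ∀ y ∈ T, (Conn O x y ↔ Conn O' x y)) :
    rk (A ∪ O) + rk O' = rk (A ∪ O') + rk O := by
  induction A using Finset.induction_on with
  | empty => rw [Finset.empty_union, Finset.empty_union, add_comm]
  | @insert e A he ih =>
    have hA' : Verts A T := fun f hf => hA f (Finset.mem_insert_of_mem hf)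
    obtain ⟨h1, h2⟩ := hA e (Finset.mem_insert_self _ _)
    have ih' := ih hA'
    have hr := rk_insert (A ∪ O) e
    have hr' := rk_insert (A ∪ O') e
    have hc := conn_union_congr hA' h h1 h2
    rw [Finset.insert_union, Finset.insert_union]
    rw [ind_congr hc] at hr
    have ih2 : (rk (A ∪ O) : ℝ) + rk O' = rk (A ∪ O') + rk O := by exact_mod_cast ih'
    have : (rk (insert e (A ∪ O)) : ℝ) + rk O' = rk (insert e (A ∪ O')) + rk O := by
      rw [hr, hr']
      linarith
    exact_mod_cast this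

theorem conn_map {V' : Type*} [DecidableEq V'] (φ : V ↪ V') (A : Finset (V × V)) (x y : V) :
    Conn (A.map (φ.prodMap φ)) (φ x) (φ y) ↔ Conn A x y := by
  constructor
  · intro h
    have h1 := h.inv (fun u => ∃ v, φ v = u ∧ Conn A x v) (by
      intro e he
      obtain ⟨⟨a, b⟩, hab, rfl⟩ := Finset.mem_map.1 he
      have hc : Conn A a b := Conn.edge (e := (a, b)) hab
      constructor
      · rintro ⟨v, hv, h2⟩
        have hv' : v = a := φ.injective hv
        subst hv'
        exact ⟨b, rfl, h2.trans' hc⟩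
      · rintro ⟨v, hv, h2⟩
        have hv' : v = b := φ.injective hv
        subst hv'
        exact ⟨a, rfl, h2.trans' hc.symm'⟩)
    obtain ⟨v, hv, h2⟩ := h1.1 ⟨x, rfl, Conn.rfl' _ _⟩
    rwa [φ.injective hv] at h2
  · intro h
    induction h with
    | rel x y h => exact Relation.EqvGen.rel _ _ (Finset.mem_map.2 ⟨(x, y), h, rfl⟩)
    | refl x => exact Conn.rfl' _ _
    | symm x y _ ih => exact ih.symm'
    | trans x y z _ _ ih1 ih2 => exact ih1.trans' ih2

theorem rk_map {V' : Type*} [DecidableEq V'] (φ : V ↪ V') (A : Finset (V × V)) :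
    rk (A.map (φ.prodMap φ)) = rk A := by
  induction A using Finset.induction_on with
  | empty => rw [Finset.map_empty, rk_empty, rk_empty]
  | @insert e A he ih =>
    have hr := rk_insert A e
    have hr' := rk_insert (A.map (φ.prodMap φ)) (φ.prodMap φ e)
    rw [Finset.map_insert]
    have hc : Conn (A.map (φ.prodMap φ)) (φ.prodMap φ e).1 (φ.prodMap φ e).2 ↔
        Conn A e.1 e.2 := conn_map φ A e.1 e.2
    rw [ind_congr hc, ih] at hr'
    have : (rk (insert (φ.prodMap φ e) (A.map (φ.prodMap φ))) : ℝ) = rk (insert e A) := by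
      rw [hr, hr']
    exact_mod_cast this

end FKB
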