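import Pool.Agent.FKB.RankA

open Finset
noncomputable section
namespace FKB

variable {V : Type*} [DecidableEq V]

omit [DecidableEq V] in
theorem Clus_cl_eq {A : Finset (V × V)} {S : Finset V} {x y : V} (h : Conn A x y) :
    cl A S x = cl A S y := by
  ext z
  rw [mem_cl, mem_cl]
  exact and_congr_right fun _ => ⟨fun h1 => h.symm'.trans' h1, fun h1 => h.trans' h1⟩

theorem self_mem_clusters {A : Finset (V × V)} {S : Finset V} {x : V} (hx : x ∈ S) :
    cl A S x ∈ clusters A S := Finset.mem_image_of_mem _ hx

theorem cl_eq_iff {A : Finset (V × V)} {S : Finset V} {x y : V} (hx : x ∈ S) :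
    cl A S x = cl A S y ↔ Conn A x y := by
  refine ⟨fun h => ?_, Clus_cl_eq⟩
  have h1 : x ∈ cl A S x := mem_cl.2 ⟨hx, Conn.rfl' A x⟩
  rw [h] at h1
  exact (mem_cl.1 h1).2.symm'

theorem mem_clusters_disj {A : Finset (V × V)} {S : Finset V} {C C' : Finset V}
    (hC : C ∈ clusters A S) (hC' : C' ∈ clusters A S) (h : C ≠ C') : Disjoint C C' := by
  obtain ⟨x, hx, rfl⟩ := Finset.mem_image.1 hC
  obtain ⟨y, hy, rfl⟩ := Finset.mem_image.1 hC'
  rw [Finset.disjoint_left]
  intro z hz hz'
  apply h
  exact Clus_cl_eq ((mem_cl.1 hz).2.trans' (mem_cl.1 hz').2.symm')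

theorem biUnion_clusters (A : Finset (V × V)) (S : Finset V) :
    (clusters A S).biUnion id = S := by
  ext z
  simp only [Finset.mem_biUnion, id]
  constructor
  · rintro ⟨C, hC, hz⟩
    obtain ⟨x, hx, rfl⟩ := Finset.mem_image.1 hC
    exact (mem_cl.1 hz).1
  · intro hz
    exact ⟨cl A S z, self_mem_clusters hz, mem_cl.2 ⟨hz, Conn.rfl' A z⟩⟩

theorem sum_clusters (A : Finset (V × V)) (S : Finset V) (f : V → ℝ) :
    ∑ C ∈ clusters A S, ∑ x ∈ C, f x = ∑ x ∈ S, f x := by
  conv_rhs => rw [← biUnion_clusters A S]
  rw [Finset.sum_biUnion]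
  · rfl
  · intro C hC C' hC' h
    exact mem_clusters_disj hC hC' h

/-- adding an edge inside a cluster does not change the connections -/
theorem Clus_conn_insert_of {A : Finset (V × V)} {e : V × V} (h : Conn A e.1 e.2) {x y : V} :
    Conn (insert e A) x y ↔ Conn A x y := by
  constructor
  · intro h1
    induction h1 with
    | rel x y h2 =>
      rcases Finset.mem_insert.1 h2 with h3 | h3
      · subst h3
        exact h
      · exact Relation.EqvGen.rel _ _ h3
    | refl x => exact Conn.rfl' A x
    | symm x y _ ih => exact ih.symm'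
    | trans x y z _ _ ih1 ih2 => exact ih1.trans' ih2
  · exact fun h1 => h1.mono' (Finset.subset_insert _ _)

/-- the cluster of a point after adding an edge -/
theorem Clus_conn_insert {A : Finset (V × V)} {e : V × V} {x y : V} :
    Conn (insert e A) x y ↔ Conn A x y ∨
      ((Conn A x e.1 ∨ Conn A x e.2) ∧ (Conn A y e.1 ∨ Conn A y e.2)) := by
  constructor
  · intro h1
    induction h1 with
    | rel x y h2 =>
      rcases Finset.mem_insert.1 h2 with h3 | h3
      · subst h3
        exact Or.inr ⟨Or.inl (Conn.rfl' A _), Or.inr (Conn.rfl' A _)⟩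
      · exact Or.inl (Relation.EqvGen.rel _ _ h3)
    | refl x => exact Or.inl (Conn.rfl' A x)
    | symm x y _ ih =>
      rcases ih with ih | ⟨ih1, ih2⟩
      · exact Or.inl ih.symm'
      · exact Or.inr ⟨ih2, ih1⟩
    | trans x y z _ _ ih1 ih2 =>
      rcases ih1 with h1 | ⟨h1, h2⟩
      · rcases ih2 with h3 | ⟨h3, h4⟩
        · exact Or.inl (h1.trans' h3)
        · exact Or.inr ⟨h3.imp (fun h => h1.trans' h) (fun h => h1.trans' h), h4⟩
      · rcases ih2 with h3 | ⟨h3, h4⟩
        · exact Or.inr ⟨h1, h2.imp (fun h => h3.symm'.trans' h) (fun h => h3.symm'.trans' h)⟩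
        · exact Or.inr ⟨h1, h4⟩
  · have he : Conn (insert e A) e.1 e.2 := Conn.edge (Finset.mem_insert_self _ _)
    have key : ∀ u : V, (Conn A u e.1 ∨ Conn A u e.2) → Conn (insert e A) u e.1 := by
      rintro u (h | h)
      · exact h.mono' (Finset.subset_insert _ _)
      · exact (h.mono' (Finset.subset_insert _ _)).trans' he.symm'
    rintro (h | ⟨h1, h2⟩)
    · exact h.mono' (Finset.subset_insert _ _)
    · exact (key x h1).trans' (key y h2).symm'

theorem card_clusters {A : Finset (V × V)} {S : Finset V} (h : Verts A S) :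
    (clusters A S).card + rk A = S.card := by
  induction A using Finset.induction_on with
  | empty =>
    rw [rk_empty, add_zero]
    unfold clusters
    rw [Finset.card_image_of_injOn]
    intro x hx y hy hxy
    have h1 : Conn (∅ : Finset (V × V)) x y := (cl_eq_iff hx).1 hxy
    have h2 := h1.inv (fun v => v = x) (by simp)
    exact (h2.1 rfl).symm
  | @insert e A he ih =>
    have hA : Verts A S := fun f hf => h f (Finset.mem_insert_of_mem hf)
    have ih' := ih hA
    have hr := rk_insert A e
    by_cases hc : Conn A e.1 e.2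
    · rw [ind_true hc] at hr
      have hr' : rk (insert e A) = rk A := by
        have : (rk (insert e A) : ℝ) = rk A := by linarith
        exact_mod_cast this
      have h1 : clusters (insert e A) S = clusters A S := by
        unfold clusters
        apply Finset.image_congr
        intro x _
        ext z
        rw [mem_cl, mem_cl, Clus_conn_insert_of hc]
      rw [h1, hr', ih']
    · rw [ind_false hc] at hr
      have hr' : rk (insert e A) = rk A + 1 := by
        have : (rk (insert e A) : ℝ) = rk A + 1 := by linarith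
        exact_mod_cast this
      obtain ⟨h1, h2⟩ := h e (Finset.mem_insert_self _ _)
      -- the new clusters
      have hne : cl A S e.1 ≠ cl A S e.2 := fun h3 => hc ((cl_eq_iff h1).1 h3)
      have h3 : clusters A S =
          insert (cl A S e.2) ((clusters A S).erase (cl A S e.2)) :=
        (Finset.insert_erase (self_mem_clusters h2)).symm
      -- map merging the two clusters
      have hclm : ∀ x ∈ S, (Conn A x e.1 ∨ Conn A x e.2) →
          cl (insert e A) S x = cl A S e.1 ∪ cl A S e.2 := by
        intro x hx hxe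
        ext z
        rw [mem_cl, Finset.mem_union, mem_cl, mem_cl, Clus_conn_insert]
        constructor
        · rintro ⟨hz, h4 | ⟨-, h4 | h4⟩⟩
          · rcases hxe with h5 | h5
            · exact Or.inl ⟨hz, h5.symm'.trans' h4⟩
            · exact Or.inr ⟨hz, h5.symm'.trans' h4⟩
          · exact Or.inl ⟨hz, h4.symm'⟩
          · exact Or.inr ⟨hz, h4.symm'⟩
        · rintro (⟨hz, h4⟩ | ⟨hz, h4⟩)
          · exact ⟨hz, Or.inr ⟨hxe, Or.inl h4.symm'⟩⟩
          · exact ⟨hz, Or.inr ⟨hxe, Or.inr h4.symm'⟩⟩
      have hcln : ∀ x ∈ S, ¬ (Conn A x e.1 ∨ Conn A x e.2) →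
          cl (insert e A) S x = cl A S x := by
        intro x hx hxe
        ext z
        rw [mem_cl, mem_cl, Clus_conn_insert]
        constructor
        · rintro ⟨hz, h4 | ⟨h4, -⟩⟩
          · exact ⟨hz, h4⟩
          · exact absurd h4 hxe
        · rintro ⟨hz, h4⟩
          exact ⟨hz, Or.inl h4⟩
      have h4 : clusters (insert e A) S = insert (cl A S e.1 ∪ cl A S e.2)
          (((clusters A S).erase (cl A S e.2)).erase (cl A S e.1)) := by
        ext C
        rw [Finset.mem_insert, Finset.mem_erase, Finset.mem_erase]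
        constructor
        · intro hC
          obtain ⟨x, hx, rfl⟩ := Finset.mem_image.1 hC
          by_cases hxe : Conn A x e.1 ∨ Conn A x e.2
          · exact Or.inl (hclm x hx hxe)
          · right
            rw [hcln x hx hxe]
            push Not at hxe
            exact ⟨fun h5 => hxe.1 ((cl_eq_iff hx).1 h5), fun h5 => hxe.2 ((cl_eq_iff hx).1 h5),
              self_mem_clusters hx⟩
        · rintro (hC | ⟨hC1, hC2, hC3⟩)
          · rw [hC, ← hclm e.1 h1 (Or.inl (Conn.rfl' A _))]
            exact self_mem_clusters h1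
          · obtain ⟨x, hx, rfl⟩ := Finset.mem_image.1 hC3
            rw [← hcln x hx]
            · exact self_mem_clusters hx
            · rintro (h5 | h5)
              · exact hC1 (Clus_cl_eq h5)
              · exact hC2 (Clus_cl_eq h5)
      have hmem1 : e.1 ∈ cl A S e.1 ∪ cl A S e.2 :=
        Finset.mem_union_left _ (mem_cl.2 ⟨h1, Conn.rfl' A _⟩)
      have hmem2 : e.2 ∈ cl A S e.1 ∪ cl A S e.2 :=
        Finset.mem_union_right _ (mem_cl.2 ⟨h2, Conn.rfl' A _⟩)
      have h5 : (cl A S e.1 ∪ cl A S e.2) ∉
          (((clusters A S).erase (cl A S e.2)).erase (cl A S e.1)) := by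
        intro h6
        rw [Finset.mem_erase, Finset.mem_erase] at h6
        obtain ⟨x, hx, hxe⟩ := Finset.mem_image.1 h6.2.2
        rw [← hxe] at hmem1 hmem2
        have h7 := (mem_cl.1 hmem1).2.symm'.trans' (mem_cl.1 hmem2).2
        exact hc h7
      rw [h4, Finset.card_insert_of_notMem h5, Finset.card_erase_of_mem, Finset.card_erase_of_mem,
        hr']
      · have h6 : 2 ≤ (clusters A S).card := by
          have : ({cl A S e.1, cl A S e.2} : Finset (Finset V)) ⊆ clusters A S := by
            intro C hC
            rw [Finset.mem_insert, Finset.mem_singleton] at hC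
            rcases hC with rfl | rfl
            · exact self_mem_clusters h1
            · exact self_mem_clusters h2
          calc 2 = ({cl A S e.1, cl A S e.2} : Finset (Finset V)).card :=
                (Finset.card_pair hne).symm
            _ ≤ _ := Finset.card_le_card this
        omega
      · exact self_mem_clusters h2
      · rw [Finset.mem_erase]
        exact ⟨hne, self_mem_clusters h1⟩

end FKB
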