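import Pool.Agent.FKB.Base

open Finset
noncomputable section
namespace FKB

variable {V : Type*} [DecidableEq V]

theorem wt_nonneg {D : Finset (V × V)} {w : V × V → ℝ} {q : ℝ} (hq : 0 < q) (hw : Adm D w)
    {A : Finset (V × V)} (hA : A ⊆ D) : 0 ≤ wt D w q A := by
  unfold wt
  refine mul_nonneg (mul_nonneg (prod_nonneg fun e he => (hw e (hA he)).1)
    (prod_nonneg fun e he => ?_)) (pow_nonneg (inv_nonneg.mpr hq.le) _)
  have := (hw e (mem_sdiff.mp he).1).2
  linarith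

theorem wt_eq_zero {D : Finset (V × V)} {w : V × V → ℝ} {q : ℝ} {A : Finset (V × V)}
    (h : ¬ ((∀ e ∈ D, w e = 1 → e ∈ A) ∧ (∀ e ∈ A, w e ≠ 0))) : wt D w q A = 0 := by
  unfold wt
  rw [not_and_or] at h
  rcases h with h | h
  · push Not at h
    obtain ⟨e, he, h1, h2⟩ := h
    rw [prod_eq_zero (mem_sdiff.mpr ⟨he, h2⟩) (by rw [h1]; ring)]
    simp
  · push Not at h
    obtain ⟨e, he, h1⟩ := h
    rw [prod_eq_zero he h1]
    simp

theorem Z_pos {D : Finset (V × V)} {w : V × V → ℝ} {q : ℝ} (hq : 0 < q) (hw : Adm D w) :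
    0 < Z D w q := by
  classical
  unfold Z
  refine sum_pos' (fun A hA => wt_nonneg hq hw (mem_powerset.mp hA))
    ⟨D.filter (fun e => w e ≠ 0), mem_powerset.mpr (filter_subset _ _), ?_⟩
  unfold wt
  refine mul_pos (mul_pos (prod_pos fun e he => ?_) (prod_pos fun e he => ?_))
    (pow_pos (inv_pos.mpr hq) _)
  · rw [mem_filter] at he
    exact lt_of_le_of_ne (hw e he.1).1 (Ne.symm he.2)
  · rw [mem_sdiff, mem_filter, not_and, not_not] at he
    rw [he.2 he.1]; norm_num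

theorem E_mono {D : Finset (V × V)} {w : V × V → ℝ} {q : ℝ} (hq : 0 < q) (hw : Adm D w)
    {F G : Finset (V × V) → ℝ} (h : ∀ A, A ⊆ D → F A ≤ G A) : E D w q F ≤ E D w q G := by
  unfold E
  refine div_le_div_of_nonneg_right (sum_le_sum fun A hA => ?_) (Z_pos hq hw).le
  exact mul_le_mul_of_nonneg_left (h A (mem_powerset.mp hA))
    (wt_nonneg hq hw (mem_powerset.mp hA))

theorem E_congr {D : Finset (V × V)} {w : V × V → ℝ} {q : ℝ}
    {F G : Finset (V × V) → ℝ} (h : ∀ A, A ⊆ D → F A = G A) : E D w q F = E D w q G := by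
  unfold E
  congr 1
  exact sum_congr rfl fun A hA => by rw [h A (mem_powerset.mp hA)]

/-- only configurations of positive weight matter -/
theorem E_mono' {D : Finset (V × V)} {w : V × V → ℝ} {q : ℝ} (hq : 0 < q) (hw : Adm D w)
    {F G : Finset (V × V) → ℝ}
    (h : ∀ A, A ⊆ D → (∀ e ∈ D, w e = 1 → e ∈ A) → (∀ e ∈ A, w e ≠ 0) → F A ≤ G A) :
    E D w q F ≤ E D w q G := by
  unfold E
  refine div_le_div_of_nonneg_right (sum_le_sum fun A hA => ?_) (Z_pos hq hw).le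
  by_cases hc : (∀ e ∈ D, w e = 1 → e ∈ A) ∧ (∀ e ∈ A, w e ≠ 0)
  · exact mul_le_mul_of_nonneg_left (h A (mem_powerset.mp hA) hc.1 hc.2)
      (wt_nonneg hq hw (mem_powerset.mp hA))
  · rw [wt_eq_zero hc]; simp

theorem E_w_congr {D : Finset (V × V)} {w w' : V × V → ℝ} {q : ℝ} (h : ∀ e ∈ D, w e = w' e)
    (F : Finset (V × V) → ℝ) : E D w q F = E D w' q F := by
  have hwt : ∀ A ∈ D.powerset, wt D w q A = wt D w' q A := by
    intro A hA
    unfold wt
    have e1 : ∏ e ∈ A, w e = ∏ e ∈ A, w' e :=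
      prod_congr rfl fun e he => h e (mem_powerset.mp hA he)
    have e2 : ∏ e ∈ D \ A, (1 - w e) = ∏ e ∈ D \ A, (1 - w' e) :=
      prod_congr rfl fun e he => by rw [h e (mem_sdiff.mp he).1]
    rw [e1, e2]
  have e3 : ∑ A ∈ D.powerset, wt D w q A * F A = ∑ A ∈ D.powerset, wt D w' q A * F A :=
    sum_congr rfl fun A hA => by rw [hwt A hA]
  unfold E Z
  rw [sum_congr rfl hwt, e3]

theorem E_add {D : Finset (V × V)} {w : V × V → ℝ} {q : ℝ} (F G : Finset (V × V) → ℝ) :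
    E D w q (fun A => F A + G A) = E D w q F + E D w q G := by
  unfold E
  rw [← add_div, ← sum_add_distrib]
  simp only [mul_add]

theorem E_sub {D : Finset (V × V)} {w : V × V → ℝ} {q : ℝ} (F G : Finset (V × V) → ℝ) :
    E D w q (fun A => F A - G A) = E D w q F - E D w q G := by
  unfold E
  rw [← sub_div, ← sum_sub_distrib]
  simp only [mul_sub]

theorem E_smul {D : Finset (V × V)} {w : V × V → ℝ} {q : ℝ} (c : ℝ) (F : Finset (V × V) → ℝ) :
    E D w q (fun A => c * F A) = c * E D w q F := by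
  unfold E
  rw [← mul_div_assoc, mul_sum]
  congr 1
  exact sum_congr rfl fun A _ => by ring

theorem E_const {D : Finset (V × V)} {w : V × V → ℝ} {q : ℝ} (hq : 0 < q) (hw : Adm D w)
    (c : ℝ) : E D w q (fun _ => c) = c := by
  unfold E
  rw [← sum_mul]
  have h := (Z_pos hq hw).ne'
  unfold Z at h ⊢
  field_simp

theorem E_sum {ι : Type*} (I : Finset ι) {D : Finset (V × V)} {w : V × V → ℝ} {q : ℝ}
    (F : ι → Finset (V × V) → ℝ) :
    E D w q (fun A => ∑ i ∈ I, F i A) = ∑ i ∈ I, E D w q (F i) := by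
  unfold E
  rw [← sum_div]
  congr 1
  simp only [mul_sum]
  exact sum_comm

theorem P_nonneg {D : Finset (V × V)} {w : V × V → ℝ} {q : ℝ} (hq : 0 < q) (hw : Adm D w)
    (S : Finset (V × V) → Prop) : 0 ≤ P D w q S := by
  unfold P
  calc (0 : ℝ) = E D w q (fun _ => 0) := (E_const hq hw 0).symm
    _ ≤ _ := E_mono hq hw fun A _ => ind_nonneg _

theorem P_le_one {D : Finset (V × V)} {w : V × V → ℝ} {q : ℝ} (hq : 0 < q) (hw : Adm D w)
    (S : Finset (V × V) → Prop) : P D w q S ≤ 1 := by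
  unfold P
  calc _ ≤ E D w q (fun _ => 1) := E_mono hq hw fun A _ => ind_le_one _
    _ = 1 := E_const hq hw 1

theorem P_mono {D : Finset (V × V)} {w : V × V → ℝ} {q : ℝ} (hq : 0 < q) (hw : Adm D w)
    {S T : Finset (V × V) → Prop}
    (h : ∀ A, A ⊆ D → (∀ e ∈ D, w e = 1 → e ∈ A) → (∀ e ∈ A, w e ≠ 0) → S A → T A) :
    P D w q S ≤ P D w q T :=
  E_mono' hq hw fun A hA h1 h2 => ind_mono (h A hA h1 h2)

theorem P_compl {D : Finset (V × V)} {w : V × V → ℝ} {q : ℝ} (hq : 0 < q) (hw : Adm D w)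
    (S : Finset (V × V) → Prop) : P D w q (fun A => ¬ S A) = 1 - P D w q S := by
  unfold P
  rw [← E_const hq hw 1 (D := D) (w := w), ← E_sub]
  exact E_congr fun A _ => ind_not _

theorem P_union_le {ι : Type*} (I : Finset ι) {D : Finset (V × V)} {w : V × V → ℝ} {q : ℝ}
    (hq : 0 < q) (hw : Adm D w) (S : ι → Finset (V × V) → Prop) :
    P D w q (fun A => ∃ i ∈ I, S i A) ≤ ∑ i ∈ I, P D w q (S i) := by
  unfold P
  rw [← E_sum]
  refine E_mono hq hw fun A _ => ?_
  by_cases h : ∃ i ∈ I, S i A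
  · rw [ind_true h]
    obtain ⟨i, hi, hS⟩ := h
    calc (1 : ℝ) = ind (S i A) := (ind_true hS).symm
      _ ≤ _ := single_le_sum (f := fun i => ind (S i A)) (fun j _ => ind_nonneg _) hi
  · rw [ind_false h]
    exact sum_nonneg fun j _ => ind_nonneg _

theorem adm_pr {D O : Finset (V × V)} {p : ℝ} (h0 : 0 ≤ p) (h1 : p ≤ 1) : Adm D (pr O p) := by
  intro e _
  unfold pr
  split_ifs
  · exact ⟨zero_le_one, le_rfl⟩
  · exact ⟨h0, h1⟩

end FKB
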