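import Pool.Agent.FKB.Holley

open Finset
noncomputable section
namespace FKB

variable {V : Type*} [DecidableEq V]

theorem domA_sum_drop {D D' : Finset (V × V)} {w : V × V → ℝ} {q : ℝ}
    (hD : D ⊆ D') (h0 : ∀ e ∈ D' \ D, w e = 0) (G : Finset (V × V) → ℝ) :
    ∑ A ∈ D'.powerset, wt D' w q A * G A = ∑ A ∈ D.powerset, wt D w q A * G A := by
  symm
  have hsub : D.powerset ⊆ D'.powerset := Finset.powerset_mono.mpr hD
  have h1 : ∑ A ∈ D.powerset, wt D w q A * G A = ∑ A ∈ D.powerset, wt D' w q A * G A := by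
    apply Finset.sum_congr rfl
    intro A hA
    rw [Finset.mem_powerset] at hA
    have h2 : ∏ e ∈ D \ A, (1 - w e) = ∏ e ∈ D' \ A, (1 - w e) := by
      apply Finset.prod_subset (Finset.sdiff_subset_sdiff hD (Finset.Subset.refl A))
      intro e he hne
      rw [Finset.mem_sdiff] at he hne
      have : e ∉ D := fun h => hne ⟨h, he.2⟩
      rw [h0 e (Finset.mem_sdiff.mpr ⟨he.1, this⟩), sub_zero]
    unfold wt
    rw [h2]
  rw [h1]
  apply Finset.sum_subset hsub
  intro A hA hnA
  rw [Finset.mem_powerset] at hA hnA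
  rw [Finset.not_subset] at hnA
  obtain ⟨e, heA, heD⟩ := hnA
  have : ∏ e ∈ A, w e = 0 :=
    Finset.prod_eq_zero heA (h0 e (Finset.mem_sdiff.mpr ⟨hA heA, heD⟩))
  unfold wt
  rw [this]
  ring

/-- edges with parameter 0 may be dropped -/
theorem E_drop {D D' : Finset (V × V)} {w : V × V → ℝ} {q : ℝ} (hq : 0 < q) (hw : Adm D' w)
    (hD : D ⊆ D')
    (h0 : ∀ e ∈ D' \ D, w e = 0) (F : Finset (V × V) → ℝ) : E D' w q F = E D w q F := by
  have hZ : Z D' w q = Z D w q := by
    have := domA_sum_drop (q := q) hD h0 (fun _ => 1)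
    simpa [Z] using this
  unfold E
  rw [domA_sum_drop hD h0 F, hZ]

/-- monotonicity in the domain and the parameters -/
theorem E_dom {D D' : Finset (V × V)} {w w' : V × V → ℝ} {q : ℝ} (hq : 1 ≤ q)
    (hw : Adm D w) (hw' : Adm D' w') (hD : D ⊆ D') (hle : ∀ e ∈ D, w e ≤ w' e)
    {F : Finset (V × V) → ℝ} (hF : Inc D' F) : E D w q F ≤ E D' w' q F := by
  have hq0 : 0 < q := lt_of_lt_of_le one_pos hq
  set w0 : V × V → ℝ := fun e => if e ∈ D then w e else 0 with hw0
  have hA0 : Adm D' w0 := by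
    intro e he
    by_cases h : e ∈ D
    · simp only [hw0, h, if_true]; exact hw e h
    · simp only [hw0, h, if_false]; exact ⟨le_refl _, zero_le_one⟩
  have h1 : E D w q F = E D w0 q F := by
    apply E_w_congr
    intro e he
    simp only [hw0, he, if_true]
  have h2 : E D' w0 q F = E D w0 q F := by
    apply E_drop hq0 hA0 hD
    intro e he
    rw [Finset.mem_sdiff] at he
    simp only [hw0, he.2, if_false]
  rw [h1, ← h2]
  apply E_holley hq hA0 hw' _ hF
  intro e he
  by_cases h : e ∈ D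
  · simp only [hw0, h, if_true]; exact hle e h
  · simp only [hw0, h, if_false]; exact (hw' e he).1

theorem domA_adm_pin {D D1 B : Finset (V × V)} {w : V × V → ℝ} (hw : Adm D w) :
    Adm D (pin w D1 B) := by
  intro e he
  unfold pin
  by_cases h1 : e ∈ D1
  · simp only [h1, if_true]; exact hw e he
  · by_cases h2 : e ∈ B
    · simp only [h1, h2, if_true, if_false]; exact ⟨zero_le_one, le_refl _⟩
    · simp only [h1, h2, if_false]; exact ⟨le_refl _, zero_le_one⟩

theorem domA_wt_pin {D D1 B A : Finset (V × V)} {w : V × V → ℝ} {q : ℝ}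
    (hD : D1 ⊆ D) (hA : A ⊆ D) (hB : A \ D1 = B) :
    wt D w q A = ((∏ e ∈ B, w e) * ∏ e ∈ (D \ D1) \ B, (1 - w e)) * wt D (pin w D1 B) q A := by
  have hBA : B ⊆ A := by rw [← hB]; exact Finset.sdiff_subset
  have hBD1 : Disjoint B D1 := by rw [← hB]; exact Finset.sdiff_disjoint
  have e1 : A = (A ∩ D1) ∪ B := by
    rw [← hB]
    ext e; simp only [Finset.mem_union, Finset.mem_inter, Finset.mem_sdiff]; tauto
  have e2 : D \ A = (D1 \ A) ∪ ((D \ D1) \ B) := by
    rw [← hB]
    ext e; simp only [Finset.mem_union, Finset.mem_sdiff]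
    constructor
    · rintro ⟨h1, h2⟩
      by_cases h : e ∈ D1
      · left; exact ⟨h, h2⟩
      · right; exact ⟨⟨h1, h⟩, fun h3 => h2 h3.1⟩
    · rintro (⟨h1, h2⟩ | ⟨⟨h1, h2⟩, h3⟩)
      · exact ⟨hD h1, h2⟩
      · exact ⟨h1, fun h4 => h3 ⟨h4, h2⟩⟩
  have d1 : Disjoint (A ∩ D1) B :=
    (hBD1.mono_right (Finset.inter_subset_right)).symm
  have d2 : Disjoint (D1 \ A) ((D \ D1) \ B) := by
    rw [Finset.disjoint_left]
    intro e h1 h2
    simp only [Finset.mem_sdiff] at h1 h2
    exact h2.1.2 h1.1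
  have p1 : ∏ e ∈ A, w e = (∏ e ∈ A ∩ D1, w e) * ∏ e ∈ B, w e := by
    conv_lhs => rw [e1]
    exact Finset.prod_union d1
  have p1' : ∏ e ∈ A, pin w D1 B e = ∏ e ∈ A ∩ D1, w e := by
    conv_lhs => rw [e1]
    rw [Finset.prod_union d1]
    have a1 : ∏ e ∈ A ∩ D1, pin w D1 B e = ∏ e ∈ A ∩ D1, w e := by
      apply Finset.prod_congr rfl
      intro e he
      have : e ∈ D1 := (Finset.mem_inter.mp he).2
      simp only [pin, this, if_true]
    have a2 : ∏ e ∈ B, pin w D1 B e = 1 := by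
      apply Finset.prod_eq_one
      intro e he
      have : e ∉ D1 := Finset.disjoint_left.mp hBD1 he
      simp only [pin, this, he, if_true, if_false]
    rw [a1, a2, mul_one]
  have p2 : ∏ e ∈ D \ A, (1 - w e) =
      (∏ e ∈ D1 \ A, (1 - w e)) * ∏ e ∈ (D \ D1) \ B, (1 - w e) := by
    rw [e2]
    exact Finset.prod_union d2
  have p2' : ∏ e ∈ D \ A, (1 - pin w D1 B e) = ∏ e ∈ D1 \ A, (1 - w e) := by
    rw [e2]
    rw [Finset.prod_union d2]
    have a1 : ∏ e ∈ D1 \ A, (1 - pin w D1 B e) = ∏ e ∈ D1 \ A, (1 - w e) := by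
      apply Finset.prod_congr rfl
      intro e he
      have : e ∈ D1 := (Finset.mem_sdiff.mp he).1
      simp only [pin, this, if_true]
    have a2 : ∏ e ∈ (D \ D1) \ B, (1 - pin w D1 B e) = 1 := by
      apply Finset.prod_eq_one
      intro e he
      simp only [Finset.mem_sdiff] at he
      simp only [pin, he.1.2, he.2, if_false, sub_zero]
    rw [a1, a2, mul_one]
  unfold wt
  rw [p1, p1', p2, p2']
  ring

theorem domA_wt_pin_zero {D D1 B A : Finset (V × V)} {w : V × V → ℝ} {q : ℝ}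
    (hA : A ⊆ D) (hBD : B ⊆ D \ D1) (hB : A \ D1 ≠ B) :
    wt D (pin w D1 B) q A = 0 := by
  have h : (∃ e ∈ A, e ∉ D1 ∧ e ∉ B) ∨ (∃ e ∈ B, e ∉ A) := by
    by_contra hcon
    push Not at hcon
    apply hB
    ext e
    rw [Finset.mem_sdiff]
    constructor
    · rintro ⟨h1, h2⟩; exact hcon.1 e h1 h2
    · intro h1
      exact ⟨hcon.2 e h1, (Finset.mem_sdiff.mp (hBD h1)).2⟩
  rcases h with ⟨e, he, h1, h2⟩ | ⟨e, he, h1⟩
  · have : ∏ e ∈ A, pin w D1 B e = 0 := by
      apply Finset.prod_eq_zero he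
      simp only [pin, h1, h2, if_false]
    unfold wt
    rw [this]; ring
  · have heD := Finset.mem_sdiff.mp (hBD he)
    have : ∏ e ∈ D \ A, (1 - pin w D1 B e) = 0 := by
      apply Finset.prod_eq_zero (Finset.mem_sdiff.mpr ⟨heD.1, h1⟩)
      simp only [pin, heD.2, he, if_true, if_false, sub_self]
    unfold wt
    rw [this]; ring

/-- conditioning on the configuration off `D1` -/
theorem E_cond {D D1 : Finset (V × V)} {w : V × V → ℝ} {q : ℝ} (hq : 0 < q) (hw : Adm D w)
    (hD : D1 ⊆ D) (G F : Finset (V × V) → ℝ) :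
    E D w q (fun A => G (A \ D1) * F A) =
      ∑ B ∈ (D \ D1).powerset,
        G B * P D w q (fun A => A \ D1 = B) * E D (pin w D1 B) q F := by
  have hmaps : ∀ A ∈ D.powerset, A \ D1 ∈ (D \ D1).powerset := by
    intro A hA
    rw [Finset.mem_powerset] at hA ⊢
    exact Finset.sdiff_subset_sdiff hA (Finset.Subset.refl _)
  have hZ : Z D w q ≠ 0 := (Z_pos hq hw).ne'
  have step : ∀ B ∈ (D \ D1).powerset,
      (∑ A ∈ D.powerset with A \ D1 = B, wt D w q A * (G (A \ D1) * F A)) / Z D w q =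
        G B * P D w q (fun A => A \ D1 = B) * E D (pin w D1 B) q F := by
    intro B hB
    rw [Finset.mem_powerset] at hB
    set c : ℝ := (∏ e ∈ B, w e) * ∏ e ∈ (D \ D1) \ B, (1 - w e) with hc
    have hZB : Z D (pin w D1 B) q ≠ 0 := (Z_pos hq (domA_adm_pin hw)).ne'
    have hsum : ∀ H : Finset (V × V) → ℝ,
        ∑ A ∈ D.powerset with A \ D1 = B, wt D w q A * H A =
          c * ∑ A ∈ D.powerset, wt D (pin w D1 B) q A * H A := by
      intro H
      rw [Finset.mul_sum]
      rw [Finset.sum_filter]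
      apply Finset.sum_congr rfl
      intro A hA
      rw [Finset.mem_powerset] at hA
      by_cases h : A \ D1 = B
      · rw [if_pos h, domA_wt_pin hD hA h]; ring
      · rw [if_neg h, domA_wt_pin_zero hA hB h]; ring
    have h1 : ∑ A ∈ D.powerset with A \ D1 = B, wt D w q A * (G (A \ D1) * F A) =
        G B * (c * ∑ A ∈ D.powerset, wt D (pin w D1 B) q A * F A) := by
      rw [← hsum, Finset.mul_sum]
      apply Finset.sum_congr rfl
      intro A hA
      rw [(Finset.mem_filter.mp hA).2]; ring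
    have h2 : P D w q (fun A => A \ D1 = B) = c * Z D (pin w D1 B) q / Z D w q := by
      unfold P E
      congr 1
      have : ∑ A ∈ D.powerset, wt D w q A * ind (A \ D1 = B) =
          ∑ A ∈ D.powerset with A \ D1 = B, wt D w q A * 1 := by
        rw [Finset.sum_filter]
        apply Finset.sum_congr rfl
        intro A _
        by_cases h : A \ D1 = B
        · rw [if_pos h, ind_true h]
        · rw [if_neg h, ind_false h]; ring
      rw [this, hsum (fun _ => 1)]
      simp [Z]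
    rw [h1, h2]
    unfold E
    field_simp
  unfold E at *
  rw [← Finset.sum_fiberwise_of_maps_to hmaps, Finset.sum_div]
  exact Finset.sum_congr rfl step

end FKB
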