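import Pool.Agent.FKB.DenseFree

open Finset
noncomputable section
namespace FKB

variable {d : ℕ}

theorem to_cl_card {V : Type*} (A : Finset (V × V)) (Q : Finset V) (x : V) :
    ((cl A Q x).card : ℝ) = ∑ z ∈ Q, ind (Conn A x z) := by
  classical
  unfold cl ind
  rw [Finset.card_filter]
  push_cast
  refine Finset.sum_congr rfl fun z _ => ?_
  by_cases h : Conn A x z <;> simp [h]

theorem to_cl_le {V : Type*} (A : Finset (V × V)) (Q : Finset V) (x : V) :
    (cl A Q x).card ≤ Q.card :=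
  Finset.card_le_card fun _ hy => (mem_cl.1 hy).1

theorem to_dim {l : ℕ} {p q : ℝ} (hth : 0 < th d l p q) : 1 ≤ d := by
  rcases Nat.eq_zero_or_pos d with h | h
  · exfalso
    subst h
    have h0 : th 0 l p q = 0 := by
      unfold th P E
      rw [Finset.sum_eq_zero, zero_div]
      intro A _
      have : ind (Far l A (0 : Pt 0)) = 0 := by
        refine ind_false ?_
        rintro ⟨y, hy, _⟩
        unfold bd at hy
        rw [Finset.mem_filter] at hy
        obtain ⟨i, _⟩ := hy.2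
        exact i.elim0
      simp only [this, mul_zero]
    linarith
  · exact h

/-- the pointwise bound -/
theorem to_point {l : ℕ} {A : Finset (Pt d × Pt d)} (hA : IsLat A) (Q : Finset (Pt d))
    (x0 : Pt d) {θ δ β n N : ℝ} (hN : N = ((2 * l + 1 : ℕ) : ℝ) ^ d) (hn : n = (Q.card : ℝ))
    (hθ : 0 ≤ θ) (hδ0 : 0 < δ) (hδ4 : δ ≤ 1 / 4) (hβ : 0 < β) (hβ2 : β ≤ 1 / 2)
    (hNn : N < δ * θ * n) :
    ((cl A Q x0).card : ℝ) ≤
      (1 + δ) * θ * n * ind (∃ y, (1 - β) * θ * n ≤ ((cl A Q y).card : ℝ) ∧ Conn A x0 y) +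
        ((β + δ) * θ * n + (n * ind (¬ Dense A Q ((1 - β) * θ * n)) +
          n * ind ((1 + δ) * θ * n < nFar l A Q))) := by
  have hn0 : 0 ≤ n := by
    rw [hn]
    positivity
  have h0 : 0 ≤ θ * n := by positivity
  have hQn : ((cl A Q x0).card : ℝ) ≤ n := by
    rw [hn]
    exact_mod_cast to_cl_le A Q x0
  have hβθ : 0 ≤ (β + δ) * θ * n := by positivity
  have i1 : 0 ≤ (1 + δ) * θ * n *
      ind (∃ y, (1 - β) * θ * n ≤ ((cl A Q y).card : ℝ) ∧ Conn A x0 y) :=
    mul_nonneg (by positivity) (ind_nonneg _)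
  have i2 : 0 ≤ n * ind (¬ Dense A Q ((1 - β) * θ * n)) := mul_nonneg hn0 (ind_nonneg _)
  have i3 : 0 ≤ n * ind ((1 + δ) * θ * n < nFar l A Q) := mul_nonneg hn0 (ind_nonneg _)
  by_cases hb : ¬ Dense A Q ((1 - β) * θ * n)
  · rw [ind_true hb] at i2 ⊢
    linarith only [i1, i2, i3, hβθ, hQn]
  · by_cases hf : (1 + δ) * θ * n < nFar l A Q
    · rw [ind_true hf] at i3 ⊢
      linarith only [i1, i2, i3, hβθ, hQn]
    · have hf' : (nFar l A Q : ℝ) ≤ (1 + δ) * θ * n := not_lt.1 hf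
      rw [ind_false hb, ind_false hf]
      by_cases ht : ∃ y, (1 - β) * θ * n ≤ ((cl A Q y).card : ℝ) ∧ Conn A x0 y
      · rw [ind_true ht]
        have h1 := card_cl_le hA Q x0 (l := l)
        have h2 : ((cl A Q x0).card : ℝ) ≤ max (nFar l A Q : ℝ) N := by
          rw [hN]
          exact_mod_cast h1
        have h3 : max (nFar l A Q : ℝ) N ≤ (1 + δ) * θ * n := by
          refine max_le hf' (hNn.le.trans ?_)
          rw [mul_assoc, mul_assoc]
          exact mul_le_mul_of_nonneg_right (by linarith only [hδ0]) h0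
        linarith only [h2, h3, hβθ]
      · rw [ind_false ht]
        obtain ⟨y, hy⟩ := not_not.1 hb
        have hxy : ¬ Conn A y x0 := fun h => ht ⟨y, hy, h.symm'⟩
        have hbig : (2 * l + 1) ^ d < (cl A Q y).card := by
          have h1 : N < ((cl A Q y).card : ℝ) := by
            refine lt_of_lt_of_le (hNn.trans_le ?_) hy
            rw [mul_assoc, mul_assoc]
            exact mul_le_mul_of_nonneg_right (by linarith only [hδ4, hβ2]) h0
          rw [hN] at h1
          exact_mod_cast h1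
        have h1 := card_cl_add_le hA Q hxy hbig
        have h2 : ((cl A Q x0).card : ℝ) + (cl A Q y).card ≤
            max (nFar l A Q : ℝ) (N + (cl A Q y).card) := by
          rw [hN]
          exact_mod_cast h1
        have e1 : (1 + δ) * θ * n - (1 - β) * θ * n = (β + δ) * θ * n := by ring
        rcases le_total (nFar l A Q : ℝ) (N + (cl A Q y).card) with h3 | h3
        · rw [max_eq_right h3] at h2
          have h4 : δ * θ * n ≤ (β + δ) * θ * n := by
            rw [mul_assoc, mul_assoc]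
            exact mul_le_mul_of_nonneg_right (by linarith only [hβ]) h0
          linarith only [h2, h4, hNn]
        · rw [max_eq_left h3] at h2
          linarith only [h2, hf', hy, e1]

theorem top_bound {l : ℕ} {p q ε : ℝ} (hq : 1 ≤ q) (hp0 : 0 ≤ p) (hp1 : p ≤ 1) (hε : 0 < ε)
    (hth : 0 < th d l p q) :
    ∃ L0 : ℕ, ∀ (D : Finset (Pt d × Pt d)) (w : Pt d × Pt d → ℝ) (c x0 : Pt d) (L : ℕ)
      (β η v : ℝ), IsLat D → Adm D w → L0 ≤ L → 0 < β → β ≤ 1 / 2 → 0 ≤ η → 0 ≤ v →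
      (∀ x ∈ cube c L, ∀ e ∈ D, e ∈ lat (cube x l) → w e ≤ p) →
      (∀ z ∈ cube c L, v ≤ P D w q (fun A => Conn A x0 z)) →
      P D w q (fun A => ¬ Dense A (cube c L) ((1 - β) * th d l p q * (cube c L).card)) ≤ η →
      v / th d l p q - (β + η / th d l p q + ε) ≤
        P D w q (fun A => ∃ y, (1 - β) * th d l p q * (cube c L).card ≤
          (cl A (cube c L) y).card ∧ Conn A x0 y) := by
  have hq0 : 0 < q := lt_of_lt_of_le one_pos hq
  have hd := to_dim hth
  set θ := th d l p q with hθ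
  set δ : ℝ := min (ε / 4) (1 / 4) with hδ
  have hδ0 : 0 < δ := by positivity
  have hδε : δ ≤ ε / 4 := min_le_left _ _
  have hδ4 : δ ≤ 1 / 4 := min_le_right _ _
  obtain ⟨c1, hc1, hch⟩ := chernoff (d := d) (l := l) hq hp0 hp1 hth hδ0
  obtain ⟨L0, hL0⟩ := exists_nat_ge (max (((2 * l + 1 : ℕ) : ℝ) ^ d / (δ * θ)) (2 / (c1 * θ * ε)) + 1)
  refine ⟨L0, fun D w c x0 L β η v hD hw hL hβ hβ2 hη hv hle hconn hdense => ?_⟩
  set Q := cube c L with hQ
  obtain ⟨n, hn⟩ : ∃ n : ℝ, n = (Q.card : ℝ) := ⟨_, rfl⟩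
  obtain ⟨N, hN⟩ : ∃ N : ℝ, N = ((2 * l + 1 : ℕ) : ℝ) ^ d := ⟨_, rfl⟩
  rw [← hN] at hL0
  rw [← hn] at hdense ⊢
  have hnL : (L : ℝ) ≤ n := by
    rw [hn, hQ, card_cube]
    have h1 : L ≤ 2 * L + 1 := by omega
    have h2 : 2 * L + 1 ≤ (2 * L + 1) ^ d := Nat.le_self_pow (by omega) _
    exact_mod_cast h1.trans h2
  have hLr : (L0 : ℝ) ≤ L := by exact_mod_cast hL
  have hn1 : N / (δ * θ) < n := by
    have := le_max_left (N / (δ * θ)) (2 / (c1 * θ * ε))
    linarith only [this, hL0, hLr, hnL]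
  have hn2 : 2 / (c1 * θ * ε) ≤ n := by
    have := le_max_right (N / (δ * θ)) (2 / (c1 * θ * ε))
    linarith only [this, hL0, hLr, hnL]
  have hn0 : 0 < n := by
    have : 0 ≤ N / (δ * θ) := by
      rw [hN]
      positivity
    linarith only [this, hn1]
  have hNn : N < δ * θ * n := by
    rw [div_lt_iff₀ (by positivity)] at hn1
    linarith only [hn1]
  have hexp : Real.exp (-c1 * n) ≤ ε / 2 * θ := by
    have h1 : c1 * n ≤ Real.exp (c1 * n) := by
      have := Real.add_one_le_exp (c1 * n)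
      linarith only [this]
    rw [div_le_iff₀ (by positivity)] at hn2
    have h2 : Real.exp (-c1 * n) * Real.exp (c1 * n) = 1 := by
      rw [← Real.exp_add]
      simp
    have h3 : Real.exp (-c1 * n) * (c1 * n) ≤ 1 := by
      rw [← h2]
      exact mul_le_mul_of_nonneg_left h1 (Real.exp_pos _).le
    have h5 : 0 < c1 * n := by positivity
    by_contra hlt
    push Not at hlt
    have h6 : ε / 2 * θ * (c1 * n) < Real.exp (-c1 * n) * (c1 * n) :=
      mul_lt_mul_of_pos_right hlt h5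
    linarith only [h6, h3, hn2]
  -- expectations
  set T : Finset (Pt d × Pt d) → Prop := fun A => ∃ y, (1 - β) * θ * n ≤
    ((cl A Q y).card : ℝ) ∧ Conn A x0 y with hT
  set Bd : Finset (Pt d × Pt d) → Prop := fun A => ¬ Dense A Q ((1 - β) * θ * n) with hBd
  set Fb : Finset (Pt d × Pt d) → Prop := fun A => (1 + δ) * θ * n < nFar l A Q with hFb
  have hpt : ∀ A, A ⊆ D → ((cl A Q x0).card : ℝ) ≤
      (1 + δ) * θ * n * ind (T A) + ((β + δ) * θ * n + (n * ind (Bd A) + n * ind (Fb A))) :=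
    fun A hA => to_point (fun e he => hD e (hA he)) Q x0 hN hn hth.le hδ0 hδ4 hβ hβ2 hNn
  have hE1 : v * n ≤ E D w q (fun A => ((cl A Q x0).card : ℝ)) := by
    have h1 : E D w q (fun A => ((cl A Q x0).card : ℝ)) =
        ∑ z ∈ Q, P D w q (fun A => Conn A x0 z) := by
      simp_rw [to_cl_card]
      exact E_sum Q _
    rw [h1]
    calc v * n = ∑ z ∈ Q, v := by
          rw [Finset.sum_const, nsmul_eq_mul, hn]
          ring
      _ ≤ _ := Finset.sum_le_sum fun z hz => hconn z hz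
  have hE2 : E D w q (fun A => ((cl A Q x0).card : ℝ)) ≤
      (1 + δ) * θ * n * P D w q T + ((β + δ) * θ * n + (n * P D w q Bd + n * P D w q Fb)) := by
    refine (E_mono hq0 hw hpt).trans (le_of_eq ?_)
    rw [E_add, E_add, E_add, E_const hq0 hw, E_smul, E_smul, E_smul]
    rfl
  have hFbP : P D w q Fb ≤ Real.exp (-c1 * n) := by
    rw [hn]
    rw [hFb, hn]
    exact hch D w hD hw Q hle
  have hBdP : P D w q Bd ≤ η := hdense
  have hT1 : P D w q T ≤ 1 := P_le_one hq0 hw T
  have hT0 : 0 ≤ P D w q T := P_nonneg hq0 hw T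
  obtain ⟨t, ht⟩ : ∃ t, t = P D w q T := ⟨_, rfl⟩
  rw [← ht] at hE2 hT1 hT0
  have hmain : v * n ≤ (t + δ) * θ * n + ((β + δ) * θ * n + (n * η + n * (ε / 2 * θ))) := by
    have h1 : (1 + δ) * θ * n * t ≤ (t + δ) * θ * n := by
      have h0 : 0 ≤ θ * n * δ := by positivity
      have := mul_nonneg h0 (sub_nonneg.2 hT1)
      linarith only [this]
    have h2 : n * P D w q Bd ≤ n * η := mul_le_mul_of_nonneg_left hBdP hn0.le
    have h3 : n * P D w q Fb ≤ n * (ε / 2 * θ) :=
      mul_le_mul_of_nonneg_left (hFbP.trans hexp) hn0.le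
    linarith only [h1, h2, h3, hE1, hE2]
  have hdiv : v ≤ (t + δ) * θ + ((β + δ) * θ + (η + ε / 2 * θ)) := by
    have h1 : v * n ≤ ((t + δ) * θ + ((β + δ) * θ + (η + ε / 2 * θ))) * n := by
      linarith only [hmain]
    exact le_of_mul_le_mul_right h1 hn0
  have hfin : v / θ ≤ t + δ + (β + δ) + η / θ + ε / 2 := by
    rw [div_le_iff₀ hth]
    have : (t + δ + (β + δ) + η / θ + ε / 2) * θ =
        (t + δ) * θ + ((β + δ) * θ + (η / θ * θ + ε / 2 * θ)) := by ring
    rw [this, div_mul_cancel₀ _ hth.ne']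
    exact hdiv
  rw [← ht]
  linarith only [hfin, hδε]

end FKB
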