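import Pool.Agent.FKB.DomainB
import Pool.Agent.FKB.LatGeo

open Finset
noncomputable section
namespace FKB

variable {d : ℕ}

/-- translation by `v` -/
def tr (v : Pt d) : Pt d ↪ Pt d := addRightEmbedding v

theorem tr_apply (v x : Pt d) : tr v x = x + v := rfl

theorem tr_mem (v : Pt d) (H : Finset (Pt d)) (x : Pt d) : x ∈ H.map (tr v) ↔ x - v ∈ H := by
  rw [mem_map]
  constructor
  · rintro ⟨y, hy, rfl⟩
    rw [tr_apply, add_sub_cancel_right]
    exact hy
  · intro h
    exact ⟨x - v, h, by rw [tr_apply, sub_add_cancel]⟩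

theorem tr_lat (v : Pt d) (H : Finset (Pt d)) :
    lat (H.map (tr v)) = (lat H).map ((tr v).prodMap (tr v)) := by
  ext e
  unfold lat
  rw [mem_filter, mem_product, tr_mem, tr_mem, mem_map]
  constructor
  · rintro ⟨⟨h1, h2⟩, i, hi⟩
    refine ⟨(e.1 - v, e.2 - v), mem_filter.2 ⟨mem_product.2 ⟨h1, h2⟩, i, ?_⟩, ?_⟩
    · show e.2 - v = e.1 - v + Pi.single i 1
      rw [hi]; abel
    · show (e.1 - v + v, e.2 - v + v) = e
      rw [sub_add_cancel, sub_add_cancel]
  · rintro ⟨e', he', rfl⟩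
    rw [mem_filter, mem_product] at he'
    obtain ⟨⟨h1, h2⟩, i, hi⟩ := he'
    refine ⟨⟨?_, ?_⟩, i, ?_⟩
    · show e'.1 + v - v ∈ H
      rw [add_sub_cancel_right]; exact h1
    · show e'.2 + v - v ∈ H
      rw [add_sub_cancel_right]; exact h2
    · show e'.2 + v = e'.1 + v + Pi.single i 1
      rw [hi]; abel

theorem tr_bd (v : Pt d) (H : Finset (Pt d)) : bd (H.map (tr v)) = (bd H).map (tr v) := by
  ext x
  rw [tr_mem]
  unfold bd
  rw [mem_filter, mem_filter, tr_mem]
  refine and_congr Iff.rfl (exists_congr (fun i => ?_))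
  rw [tr_mem, tr_mem]
  have h1 : x + Pi.single i 1 - v = x - v + Pi.single i 1 := by abel
  have h2 : x - Pi.single i 1 - v = x - v - Pi.single i 1 := by abel
  rw [h1, h2]

theorem tr_wO (v : Pt d) (H : Finset (Pt d)) :
    wO (H.map (tr v)) = (wO H).map ((tr v).prodMap (tr v)) := by
  unfold wO
  rw [tr_bd]
  ext e
  rw [mem_product, tr_mem, tr_mem, mem_map]
  constructor
  · rintro ⟨h1, h2⟩
    refine ⟨(e.1 - v, e.2 - v), mem_product.2 ⟨h1, h2⟩, ?_⟩
    show (e.1 - v + v, e.2 - v + v) = e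
    rw [sub_add_cancel, sub_add_cancel]
  · rintro ⟨e', he', rfl⟩
    rw [mem_product] at he'
    constructor
    · show e'.1 + v - v ∈ bd H
      rw [add_sub_cancel_right]; exact he'.1
    · show e'.2 + v - v ∈ bd H
      rw [add_sub_cancel_right]; exact he'.2

theorem tr_wD (v : Pt d) (H : Finset (Pt d)) :
    wD (H.map (tr v)) = (wD H).map ((tr v).prodMap (tr v)) := by
  have h1 : wD (H.map (tr v)) = lat (H.map (tr v)) ∪ wO (H.map (tr v)) := rfl
  have h2 : wD H = lat H ∪ wO H := rfl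
  rw [h1, h2, tr_lat, tr_wO, Finset.map_union]

theorem tr_pr (v : Pt d) (H : Finset (Pt d)) (p : ℝ) :
    (fun e : Pt d × Pt d => pr (wO (H.map (tr v))) p (tr v e.1, tr v e.2)) = pr (wO H) p := by
  funext e
  unfold pr
  have h : ((tr v e.1, tr v e.2) ∈ wO (H.map (tr v))) ↔ e ∈ wO H := by
    rw [tr_wO]
    exact Finset.mem_map' ((tr v).prodMap (tr v))
  by_cases he : e ∈ wO H
  · rw [if_pos he, if_pos (h.2 he)]
  · rw [if_neg he, if_neg (fun h' => he (h.1 h'))]

theorem fP_translate (H : Finset (Pt d)) (p q : ℝ) (v x y : Pt d) :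
    fP (H.map (addRightEmbedding v)) p q (x + v) (y + v) = fP H p q x y := by
  have h1 : H.map (addRightEmbedding v) = H.map (tr v) := rfl
  unfold fP P
  rw [h1, tr_lat, E_map (tr v) (lat H)]
  refine E_congr (fun A _ => ind_congr ?_)
  exact conn_map (tr v) A x y

theorem wP_translate (H : Finset (Pt d)) (p q : ℝ) (v x y : Pt d) :
    wP (H.map (addRightEmbedding v)) p q (x + v) (y + v) = wP H p q x y := by
  have h1 : H.map (addRightEmbedding v) = H.map (tr v) := rfl
  unfold wP P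
  rw [h1, tr_wD, E_map (tr v) (wD H), tr_pr]
  refine E_congr (fun A _ => ind_congr ?_)
  exact conn_map (tr v) A x y

theorem tr_cube (v c : Pt d) (l : ℕ) : (cube c l).map (tr v) = cube (c + v) l := by
  ext x
  rw [tr_mem, mem_cube, mem_cube]
  refine forall_congr' (fun i => ?_)
  have h : (x - v) i - c i = x i - (c + v) i := by
    rw [Pi.sub_apply, Pi.add_apply]; ring
  rw [h]

theorem tr_far (v c : Pt d) (l : ℕ) (A : Finset (Pt d × Pt d)) :
    Far l (A.map ((tr v).prodMap (tr v))) (c + v) ↔ Far l A c := by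
  unfold Far
  rw [← tr_cube, tr_bd, tr_lat, ← Finset.map_inter]
  constructor
  · rintro ⟨y, hy, h⟩
    rw [mem_map] at hy
    obtain ⟨y', hy', rfl⟩ := hy
    exact ⟨y', hy', (conn_map (tr v) _ c y').1 h⟩
  · rintro ⟨y, hy, h⟩
    exact ⟨tr v y, mem_map_of_mem _ hy, (conn_map (tr v) _ c y).2 h⟩

theorem th_translate (x : Pt d) (l : ℕ) (p q : ℝ) :
    P (wD (cube x l)) (pr (wO (cube x l)) p) q (fun A => Far l A x) = th d l p q := by
  have hx : cube x l = (cube (0 : Pt d) l).map (tr x) := by rw [tr_cube, zero_add]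
  unfold th P
  rw [hx, tr_wD, E_map (tr x) (wD (cube (0 : Pt d) l)), tr_pr]
  refine E_congr (fun A _ => ind_congr ?_)
  have h := tr_far x 0 l A
  rwa [zero_add] at h

end FKB
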