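import Pool.Agent.FKB.WiredA
import Pool.Agent.FKB.WiredT

open Finset
noncomputable section
namespace FKB

variable {d : ℕ}

theorem wirB_far_mono {l : ℕ} {A B : Finset (Pt d × Pt d)} (hAB : A ⊆ B) {x : Pt d}
    (h : Far l A x) : Far l B x := by
  obtain ⟨y, hy, hc⟩ := h
  exact ⟨y, hy, hc.mono' (Finset.inter_subset_inter_right hAB)⟩

theorem wirB_far_inter {l : ℕ} {A : Finset (Pt d × Pt d)} {x : Pt d} :
    Far l (A ∩ lat (cube x l)) x ↔ Far l A x := by
  unfold Far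
  rw [Finset.inter_assoc, Finset.inter_self]

theorem th_nonneg {l : ℕ} {p q : ℝ} (hq : 1 ≤ q) (hp0 : 0 ≤ p) (hp1 : p ≤ 1) :
    0 ≤ th d l p q :=
  P_nonneg (lt_of_lt_of_le one_pos hq) (adm_pr hp0 hp1) _

theorem th_le_one {l : ℕ} {p q : ℝ} (hq : 1 ≤ q) (hp0 : 0 ≤ p) (hp1 : p ≤ 1) :
    th d l p q ≤ 1 :=
  P_le_one (lt_of_lt_of_le one_pos hq) (adm_pr hp0 hp1) _

theorem th_anti {l l' : ℕ} (h : l ≤ l') {p q : ℝ} (hq : 1 ≤ q) (hp0 : 0 ≤ p) (hp1 : p ≤ 1) :
    th d l' p q ≤ th d l p q := by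
  rcases h.eq_or_lt with h | h
  · rw [h]
  have hq0 : 0 < q := lt_of_lt_of_le one_pos hq
  have hsub : cube (0 : Pt d) l ⊆ cube (0 : Pt d) l' := by
    intro x hx
    rw [mem_cube] at hx ⊢
    intro i
    have := hx i
    have h2 : (l : ℤ) < l' := by exact_mod_cast h
    omega
  set F : Finset (Pt d × Pt d) → ℝ := fun B => ind (Far l B (0 : Pt d)) with hF
  have hInc : Inc (lat (cube (0 : Pt d) l)) F := fun A B hAB _ =>
    ind_mono (wirB_far_mono hAB)
  have s1 : th d l' p q ≤ E (wD (cube (0 : Pt d) l')) (pr (wO (cube (0 : Pt d) l')) p) q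
      (fun A => F (A ∩ lat (cube (0 : Pt d) l))) := by
    apply E_mono hq0 (adm_pr hp0 hp1)
    intro A _
    apply ind_mono
    intro hfar
    rw [wirB_far_inter]
    obtain ⟨y, hy, hc⟩ := hfar
    by_contra hn
    have hn' : ¬ Far l (A ∩ lat (cube (0 : Pt d) l')) 0 :=
      fun hh => hn (wirB_far_mono Finset.inter_subset_left hh)
    have hL : IsLat (A ∩ lat (cube (0 : Pt d) l')) :=
      fun e he => isLat_lat _ e (Finset.mem_inter.mp he).2
    have h3 := notFar_cluster hL hn' hc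
    rw [mem_bd_cube] at hy
    obtain ⟨_, i, hi⟩ := hy
    rw [mem_cube] at h3
    have := h3 i
    have h2 : (l : ℤ) < l' := by exact_mod_cast h
    omega
  have s2 := E_le_wired (D := wD (cube (0 : Pt d) l')) (w := pr (wO (cube (0 : Pt d) l')) p)
    hq hp0 hp1 (adm_pr hp0 hp1) (cube (0 : Pt d) l)
    (fun e he hn => wirA_loc_wD hsub he hn) (fun e _ hn => wirA_le_wD hsub hn) hInc
  have s3 : E (wD (cube (0 : Pt d) l)) (pr (wO (cube (0 : Pt d) l)) p) q
      (fun A => F (A ∩ lat (cube (0 : Pt d) l))) = th d l p q := by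
    apply E_congr
    intro A _
    exact ind_congr wirB_far_inter
  rw [← s3]
  exact s1.trans s2

theorem th_mono {l : ℕ} {p p' q : ℝ} (hq : 1 ≤ q) (hp0 : 0 ≤ p) (hpp : p ≤ p') (hp1 : p' ≤ 1) :
    th d l p q ≤ th d l p' q := by
  apply E_dom hq (adm_pr hp0 (hpp.trans hp1)) (adm_pr (hp0.trans hpp) hp1)
    (Finset.Subset.refl _)
  · intro e _
    unfold pr
    by_cases h : e ∈ wO (cube (0 : Pt d) l)
    · rw [if_pos h, if_pos h]
    · rw [if_neg h, if_neg h]; exact hpp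
  · intro A B hAB _
    exact ind_mono (wirB_far_mono hAB)

theorem wirB_bdd {p q : ℝ} (hq : 1 ≤ q) (hp0 : 0 ≤ p) (hp1 : p ≤ 1) :
    BddBelow (Set.range (fun l : ℕ => th d l p q)) :=
  ⟨0, by rintro _ ⟨l, rfl⟩; exact th_nonneg hq hp0 hp1⟩

theorem th1_le {l : ℕ} {p q : ℝ} (hq : 1 ≤ q) (hp0 : 0 ≤ p) (hp1 : p ≤ 1) :
    th1 d p q ≤ th d l p q :=
  ciInf_le (wirB_bdd hq hp0 hp1) l

theorem th1_mono {p p' q : ℝ} (hq : 1 ≤ q) (hp0 : 0 ≤ p) (hpp : p ≤ p') (hp1 : p' ≤ 1) :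
    th1 d p q ≤ th1 d p' q :=
  ciInf_mono (wirB_bdd hq hp0 (hpp.trans hp1)) (fun _ => th_mono hq hp0 hpp hp1)

theorem th1_nonneg {p q : ℝ} (hq : 1 ≤ q) (hp0 : 0 ≤ p) (hp1 : p ≤ 1) : 0 ≤ th1 d p q :=
  Real.iInf_nonneg (fun _ => th_nonneg hq hp0 hp1)

theorem th_lt_of_pos {p q : ℝ} (hq : 1 ≤ q) (hp0 : 0 ≤ p) (hp1 : p ≤ 1) {r : ℝ}
    (h : th1 d p q < r) : ∃ l, th d l p q < r :=
  exists_lt_of_ciInf_lt h

/-- wired one-arm event around any point -/
theorem far_le_th {D : Finset (Pt d × Pt d)} {w : Pt d × Pt d → ℝ} {p q : ℝ} (hq : 1 ≤ q)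
    (hp0 : 0 ≤ p) (hp1 : p ≤ 1) (hD : IsLat D) (hw : Adm D w) {x : Pt d} {l : ℕ}
    (hle : ∀ e ∈ D, e ∈ lat (cube x l) → w e ≤ p) {F : ℝ → ℝ} (hF : Monotone F) :
    E D (pin w (D ∩ lat (cube x l)) D) q (fun A => F (ind (Far l (A ∩ (D ∩ lat (cube x l))) x))) ≤
      F 0 + (F 1 - F 0) * th d l p q := by
  have hq0 : 0 < q := lt_of_lt_of_le one_pos hq
  have hadm : Adm D (pin w (D ∩ lat (cube x l)) D) := domA_adm_pin hw
  set K := cube x l with hK
  have h1 : E D (pin w (D ∩ lat K) D) q (fun A => F (ind (Far l (A ∩ (D ∩ lat K)) x))) =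
      E D (pin w (D ∩ lat K) D) q
        (fun A => F 0 + (F 1 - F 0) * ind (Far l (A ∩ lat K) x)) := by
    apply E_congr
    intro A hA
    have : A ∩ (D ∩ lat K) = A ∩ lat K := by
      rw [← Finset.inter_assoc, Finset.inter_eq_left.mpr hA]
    rw [this]
    by_cases h : Far l (A ∩ lat K) x
    · rw [ind_true h]; ring
    · rw [ind_false h]; ring
  rw [h1, E_add, E_smul, E_const hq0 hadm]
  have h2 : E D (pin w (D ∩ lat K) D) q (fun A => ind (Far l (A ∩ lat K) x)) ≤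
      th d l p q := by
    have s2 := E_le_wired (D := D) (w := pin w (D ∩ lat K) D) (p := p)
      hq hp0 hp1 hadm K
      (fun e he hn => lat_local (hD e he) hn)
      (fun e he hn => Or.inl (by
        have : e ∈ D ∩ lat K := Finset.mem_inter.mpr ⟨he, hn⟩
        simp only [pin, this, if_true]
        exact hle e he hn))
      (F := fun B => ind (Far l B x)) (fun A B hAB _ => ind_mono (wirB_far_mono hAB))
    refine s2.trans (le_of_eq ?_)
    rw [← th_translate x l p q]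
    unfold P
    apply E_congr
    intro A _
    exact ind_congr wirB_far_inter
  have h3 : 0 ≤ F 1 - F 0 := sub_nonneg.mpr (hF zero_le_one)
  have := mul_le_mul_of_nonneg_left h2 h3
  linarith

end FKB
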