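import Pool.Agent.FKB.Seq
import Pool.Agent.FKB.WiredB

open Finset
noncomputable section
namespace FKB

variable {d : ℕ}

theorem mo_far_mono {l : ℕ} {A B : Finset (Pt d × Pt d)} (h : A ⊆ B) {x : Pt d}
    (hA : Far l A x) : Far l B x := by
  obtain ⟨y, hy, hc⟩ := hA
  exact ⟨y, hy, hc.mono' (Finset.inter_subset_inter_right h)⟩

theorem mo_far_local {l : ℕ} {A D : Finset (Pt d × Pt d)} (hA : A ⊆ D) (x : Pt d) :
    Far l (A ∩ (D ∩ lat (cube x l))) x ↔ Far l A x := by
  have h : (A ∩ (D ∩ lat (cube x l))) ∩ lat (cube x l) = A ∩ lat (cube x l) := by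
    ext e
    simp only [Finset.mem_inter]
    constructor
    · rintro ⟨⟨h1, _, _⟩, h2⟩
      exact ⟨h1, h2⟩
    · rintro ⟨h1, h2⟩
      exact ⟨⟨h1, hA h1, h2⟩, h2⟩
  unfold Far
  rw [h]

theorem mo_nFar (l : ℕ) (A : Finset (Pt d × Pt d)) (T : Finset (Pt d)) :
    (nFar l A T : ℝ) = ∑ x ∈ T, ind (Far l A x) := by
  classical
  unfold nFar ind
  rw [Finset.card_filter]
  push_cast
  refine Finset.sum_congr rfl fun x _ => ?_
  by_cases h : Far l A x <;> simp [h]

/-- the residue class of a point -/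
def mo_cls (l : ℕ) (x : Pt d) : Fin d → ZMod (2 * l + 1) := fun i => (x i : ZMod (2 * l + 1))

theorem mo_disj {l : ℕ} {x y : Pt d} (h : mo_cls l x = mo_cls l y) (hxy : x ≠ y)
    (D : Finset (Pt d × Pt d)) :
    Disjoint (D ∩ lat (cube x l)) (D ∩ lat (cube y l)) := by
  rw [Finset.disjoint_left]
  intro e h1 h2
  have h3 := ((verts_lat (cube x l)) e (Finset.mem_inter.1 h1).2).1
  have h4 := ((verts_lat (cube y l)) e (Finset.mem_inter.1 h2).2).1
  rw [mem_cube] at h3 h4
  refine hxy (funext fun i => ?_)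
  have h5 := h3 i
  have h6 := h4 i
  have h7 : ((x i : ℤ) : ZMod (2 * l + 1)) = ((y i : ℤ) : ZMod (2 * l + 1)) := congrFun h i
  rw [ZMod.intCast_eq_intCast_iff_dvd_sub] at h7
  rw [abs_le] at h5 h6
  obtain ⟨m, hm⟩ := h7
  push_cast at hm
  have h8 : m = 0 := by
    by_contra hne
    rcases lt_or_gt_of_ne hne with h9 | h9
    · have : (2 * (l : ℤ) + 1) * m ≤ (2 * (l : ℤ) + 1) * (-1) :=
        mul_le_mul_of_nonneg_left (by omega) (by positivity)
      linarith [h5.1, h5.2, h6.1, h6.2]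
    · have : (2 * (l : ℤ) + 1) * 1 ≤ (2 * (l : ℤ) + 1) * m :=
        mul_le_mul_of_nonneg_left (by omega) (by positivity)
      linarith [h5.1, h5.2, h6.1, h6.2]
  rw [h8, mul_zero] at hm
  linarith

/-- one residue class -/
theorem mo_class {l : ℕ} {p q : ℝ} (hq : 1 ≤ q) (hp0 : 0 ≤ p) (hp1 : p ≤ 1)
    {D : Finset (Pt d × Pt d)} {w : Pt d × Pt d → ℝ} (hD : IsLat D) (hw : Adm D w)
    (T : Finset (Pt d)) (hle : ∀ x ∈ T, ∀ e ∈ D, e ∈ lat (cube x l) → w e ≤ p)
    (hT : ∀ x ∈ T, ∀ y ∈ T, mo_cls l x = mo_cls l y) {u : ℝ} (hu : 0 ≤ u) :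
    E D w q (fun A => Real.exp (u * nFar l A T)) ≤
      Real.exp (T.card * ((Real.exp u - 1) * th d l p q)) := by
  have hth := th_nonneg (d := d) (l := l) hq hp0 hp1
  have hexp : 1 ≤ Real.exp u := Real.one_le_exp hu
  have h1 : E D w q (fun A => Real.exp (u * nFar l A T)) =
      E D w q (fun A => ∏ x ∈ T, (fun B : Finset (Pt d × Pt d) =>
        Real.exp (u * ind (Far l B x))) (A ∩ (D ∩ lat (cube x l)))) := by
    refine E_congr fun A hA => ?_
    simp only
    rw [mo_nFar, Finset.mul_sum, Real.exp_sum]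
    refine Finset.prod_congr rfl fun x _ => ?_
    rw [ind_congr (mo_far_local hA x)]
  rw [h1]
  have h2 := E_prod_le T hq hw (fun x => D ∩ lat (cube x l)) (fun x _ => Finset.inter_subset_left)
    (fun x hx y hy hxy => mo_disj (hT x hx y hy) hxy D)
    (fun x B => Real.exp (u * ind (Far l B x))) (fun x _ A => (Real.exp_pos _).le)
    (fun x _ A B hAB _ => by
      refine Real.exp_le_exp.2 (mul_le_mul_of_nonneg_left (ind_mono (mo_far_mono hAB)) hu))
    (fun _ => 1 + (Real.exp u - 1) * th d l p q)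
    (fun x hx => by
      have h3 := far_le_th hq hp0 hp1 hD hw (x := x) (l := l) (hle x hx)
        (F := fun y => Real.exp (u * y))
        (fun a b hab => Real.exp_le_exp.2 (mul_le_mul_of_nonneg_left hab hu))
      simpa using h3)
  refine h2.trans ?_
  rw [Finset.prod_const, Real.exp_nat_mul]
  refine pow_le_pow_left₀ ?_ ?_ _
  · have : 0 ≤ (Real.exp u - 1) * th d l p q := mul_nonneg (by linarith) hth
    linarith
  · have := Real.add_one_le_exp ((Real.exp u - 1) * th d l p q)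
    linarith

theorem moment {l : ℕ} {p q : ℝ} (hq : 1 ≤ q) (hp0 : 0 ≤ p) (hp1 : p ≤ 1)
    {D : Finset (Pt d × Pt d)} {w : Pt d × Pt d → ℝ} (hD : IsLat D) (hw : Adm D w)
    (T : Finset (Pt d)) (hle : ∀ x ∈ T, ∀ e ∈ D, e ∈ lat (cube x l) → w e ≤ p)
    {t : ℝ} (ht : 0 ≤ t) :
    E D w q (fun A => Real.exp (t * nFar l A T)) ≤
      Real.exp (T.card * ((Real.exp (t * (2 * l + 1) ^ d) - 1) * th d l p q / (2 * l + 1) ^ d)) := by
  classical
  have hq0 : 0 < q := lt_of_lt_of_le one_pos hq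
  have : NeZero (2 * l + 1) := ⟨by omega⟩
  set R : Finset (Fin d → ZMod (2 * l + 1)) := Finset.univ with hR
  set N : ℝ := (2 * l + 1) ^ d with hN
  have hN0 : 0 < N := by positivity
  have hRN : (R.card : ℝ) = N := by
    rw [hR, Finset.card_univ, Fintype.card_fun, ZMod.card, Fintype.card_fin, hN]
    push_cast
    ring
  set s : ℝ := (Real.exp (t * N) - 1) * th d l p q with hs
  set Tr : (Fin d → ZMod (2 * l + 1)) → Finset (Pt d) := fun r => T.filter (fun x => mo_cls l x = r)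
    with hTr
  have hcard : ∑ r ∈ R, ((Tr r).card : ℝ) = T.card := by
    rw [hTr]
    have := Finset.card_eq_sum_card_fiberwise (f := mo_cls l) (s := T) (t := R)
      (fun x _ => Finset.mem_univ _)
    rw [this]
    push_cast
    rfl
  have hfar : ∀ A, ∑ r ∈ R, (nFar l A (Tr r) : ℝ) = nFar l A T := by
    intro A
    simp_rw [mo_nFar]
    exact Finset.sum_fiberwise_of_maps_to (fun x _ => Finset.mem_univ _) _
  -- convexity
  have hconv : ∀ A, Real.exp (t * nFar l A T) ≤ Real.exp (T.card * (s / N)) *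
      ∑ r ∈ R, (N⁻¹ * Real.exp (-((Tr r).card * s))) * Real.exp (t * N * nFar l A (Tr r)) := by
    intro A
    have h1 := convexOn_exp.map_sum_le (t := R) (w := fun _ => N⁻¹)
      (p := fun r => t * N * nFar l A (Tr r) - (Tr r).card * s)
      (fun _ _ => by positivity) (by
        rw [Finset.sum_const, nsmul_eq_mul, hRN, mul_inv_cancel₀ hN0.ne'])
      (fun _ _ => Set.mem_univ _)
    simp only [smul_eq_mul] at h1
    have h2 : ∑ r ∈ R, N⁻¹ * (t * N * nFar l A (Tr r) - (Tr r).card * s) =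
        t * nFar l A T - T.card * (s / N) := by
      rw [← Finset.mul_sum, Finset.sum_sub_distrib, ← Finset.mul_sum, ← Finset.sum_mul, hfar,
        hcard]
      field_simp
    rw [h2] at h1
    have h3 : Real.exp (t * nFar l A T) = Real.exp (T.card * (s / N)) *
        Real.exp (t * nFar l A T - T.card * (s / N)) := by
      rw [← Real.exp_add]
      congr 1
      ring
    rw [h3]
    refine mul_le_mul_of_nonneg_left (h1.trans (le_of_eq ?_)) (Real.exp_pos _).le
    refine Finset.sum_congr rfl fun r _ => ?_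
    rw [mul_assoc (N⁻¹), ← Real.exp_add]
    congr 2
    ring
  have hE : E D w q (fun A => Real.exp (t * nFar l A T)) ≤ Real.exp (T.card * (s / N)) *
      ∑ r ∈ R, (N⁻¹ * Real.exp (-((Tr r).card * s))) *
        E D w q (fun A => Real.exp (t * N * nFar l A (Tr r))) := by
    refine (E_mono hq0 hw fun A _ => hconv A).trans (le_of_eq ?_)
    rw [E_smul, E_sum]
    congr 1
    refine Finset.sum_congr rfl fun r _ => ?_
    exact E_smul _ _
  refine hE.trans ?_
  have hcl : ∀ r ∈ R, (N⁻¹ * Real.exp (-((Tr r).card * s))) *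
      E D w q (fun A => Real.exp (t * N * nFar l A (Tr r))) ≤ N⁻¹ := by
    intro r _
    have h1 := mo_class (l := l) hq hp0 hp1 hD hw (Tr r)
      (fun x hx => hle x (Finset.mem_filter.1 hx).1)
      (fun x hx y hy => ((Finset.mem_filter.1 hx).2).trans ((Finset.mem_filter.1 hy).2).symm)
      (u := t * N) (by positivity)
    calc (N⁻¹ * Real.exp (-((Tr r).card * s))) *
        E D w q (fun A => Real.exp (t * N * nFar l A (Tr r)))
        ≤ (N⁻¹ * Real.exp (-((Tr r).card * s))) * Real.exp ((Tr r).card * s) := by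
          gcongr
      _ = N⁻¹ := by
          rw [mul_assoc, ← Real.exp_add, neg_add_cancel, Real.exp_zero, mul_one]
  have hsum : ∑ r ∈ R, (N⁻¹ * Real.exp (-((Tr r).card * s))) *
      E D w q (fun A => Real.exp (t * N * nFar l A (Tr r))) ≤ 1 := by
    refine (Finset.sum_le_sum hcl).trans (le_of_eq ?_)
    rw [Finset.sum_const, nsmul_eq_mul, hRN, mul_inv_cancel₀ hN0.ne']
  calc Real.exp (T.card * (s / N)) * ∑ r ∈ R, (N⁻¹ * Real.exp (-((Tr r).card * s))) *
        E D w q (fun A => Real.exp (t * N * nFar l A (Tr r)))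
      ≤ Real.exp (T.card * (s / N)) * 1 := by
        gcongr
    _ = Real.exp (T.card * (s / N)) := mul_one _

theorem moment_small {l : ℕ} {p q : ℝ} (hq : 1 ≤ q) (hp0 : 0 ≤ p) (hp1 : p ≤ 1) {δ : ℝ}
    (hδ : 0 < δ) :
    ∃ t0 : ℝ, 0 < t0 ∧ ∀ (D : Finset (Pt d × Pt d)) (w : Pt d × Pt d → ℝ), IsLat D → Adm D w →
      ∀ T : Finset (Pt d), (∀ x ∈ T, ∀ e ∈ D, e ∈ lat (cube x l) → w e ≤ p) →
      ∀ t : ℝ, 0 ≤ t → t ≤ t0 →
      E D w q (fun A => Real.exp (t * nFar l A T)) ≤
        Real.exp (t * ((1 + δ) * th d l p q * T.card)) := by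
  have hth := th_nonneg (d := d) (l := l) hq hp0 hp1
  set N : ℝ := (2 * l + 1) ^ d with hN
  have hN0 : 0 < N := by positivity
  refine ⟨min 1 δ / N, by positivity, fun D w hD hw T hle t ht0 ht1 => ?_⟩
  refine (moment hq hp0 hp1 hD hw T hle ht0).trans (Real.exp_le_exp.2 ?_)
  rw [← hN]
  have hx : t * N ≤ min 1 δ := by
    rw [le_div_iff₀ hN0] at ht1
    exact ht1
  have hx0 : 0 ≤ t * N := by positivity
  have hx1 : t * N ≤ 1 := hx.trans (min_le_left _ _)
  have hxδ : t * N ≤ δ := hx.trans (min_le_right _ _)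
  have h1 : Real.exp (t * N) - 1 ≤ t * N * (1 + δ) := by
    have h2 := Real.abs_exp_sub_one_sub_id_le (x := t * N) (by rw [abs_of_nonneg hx0]; exact hx1)
    have h3 := (abs_le.1 h2).2
    nlinarith
  have h4 : (Real.exp (t * N) - 1) * th d l p q / N ≤ t * (1 + δ) * th d l p q := by
    rw [div_le_iff₀ hN0]
    calc (Real.exp (t * N) - 1) * th d l p q ≤ (t * N * (1 + δ)) * th d l p q := by gcongr
      _ = t * (1 + δ) * th d l p q * N := by ring
  calc (T.card : ℝ) * ((Real.exp (t * N) - 1) * th d l p q / N)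
      ≤ T.card * (t * (1 + δ) * th d l p q) := by gcongr
    _ = t * ((1 + δ) * th d l p q * T.card) := by ring

theorem chernoff {l : ℕ} {p q : ℝ} (hq : 1 ≤ q) (hp0 : 0 ≤ p) (hp1 : p ≤ 1)
    (hth : 0 < th d l p q) {δ : ℝ} (hδ : 0 < δ) :
    ∃ c : ℝ, 0 < c ∧ ∀ (D : Finset (Pt d × Pt d)) (w : Pt d × Pt d → ℝ), IsLat D → Adm D w →
      ∀ T : Finset (Pt d), (∀ x ∈ T, ∀ e ∈ D, e ∈ lat (cube x l) → w e ≤ p) →
      P D w q (fun A => (1 + δ) * th d l p q * T.card < nFar l A T) ≤
        Real.exp (-c * T.card) := by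
  have hq0 : 0 < q := lt_of_lt_of_le one_pos hq
  obtain ⟨t0, ht0, h0⟩ := moment_small (d := d) (l := l) hq hp0 hp1 (δ := δ / 2) (by positivity)
  refine ⟨t0 * (δ / 2) * th d l p q, by positivity, fun D w hD hw T hle => ?_⟩
  have h1 := h0 D w hD hw T hle t0 ht0.le le_rfl
  have h2 : P D w q (fun A => (1 + δ) * th d l p q * T.card < nFar l A T) ≤
      E D w q (fun A => Real.exp (-(t0 * ((1 + δ) * th d l p q * T.card))) *
        Real.exp (t0 * nFar l A T)) := by
    refine E_mono hq0 hw fun A _ => ?_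
    by_cases h : (1 + δ) * th d l p q * T.card < nFar l A T
    · rw [ind_true h, ← Real.exp_add]
      refine Real.one_le_exp ?_
      have := mul_le_mul_of_nonneg_left h.le ht0.le
      linarith
    · rw [ind_false h]
      positivity
  refine h2.trans ?_
  rw [E_smul]
  calc Real.exp (-(t0 * ((1 + δ) * th d l p q * T.card))) *
        E D w q (fun A => Real.exp (t0 * nFar l A T))
      ≤ Real.exp (-(t0 * ((1 + δ) * th d l p q * T.card))) *
        Real.exp (t0 * ((1 + δ / 2) * th d l p q * T.card)) := by gcongr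
    _ = Real.exp (-(t0 * (δ / 2) * th d l p q) * T.card) := by
        rw [← Real.exp_add]
        congr 1
        ring

end FKB
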