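import Pool.Agent.FKB.Signs
import Pool.Agent.FKB.Basic

open Finset
noncomputable section
namespace FKB

variable {V : Type*} [DecidableEq V]

omit [DecidableEq V] in
theorem Joint_verts {D A : Finset (V × V)} {S : Finset V} (hS : Verts D S) (hA : A ⊆ D) :
    Verts A S := fun e he => hS e (hA he)

theorem jw_nonneg {D : Finset (V × V)} {w : V × V → ℝ} {q : ℝ} (hq : 0 < q) (hw : Adm D w)
    (S : Finset V) (h : V → ℝ) {A : Finset (V × V)} (hA : A ⊆ D) (s : Finset V) :
    0 ≤ jw D w q S h A s := by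
  unfold jw
  exact mul_nonneg (mul_nonneg (wt_nonneg hq hw hA) (by positivity))
    (mul_nonneg (ind_nonneg _) (Real.exp_pos _).le)

theorem JZ_eq {D : Finset (V × V)} {w : V × V → ℝ} {q : ℝ} {S : Finset V} (hS : Verts D S)
    (h : V → ℝ) : JZ D w q S h =
      ∑ A ∈ D.powerset, wt D w q A * ∏ C ∈ clusters A S, Real.cosh (∑ x ∈ C, h x) := by
  unfold JZ jsum jw
  refine sum_congr rfl fun A hA => ?_
  rw [← compat_exp (Joint_verts hS (mem_powerset.mp hA)) h, mul_sum, mul_sum]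
  refine sum_congr rfl fun s _ => ?_
  ring

theorem JZ_pos {D : Finset (V × V)} {w : V × V → ℝ} {q : ℝ} (hq : 0 < q) (hw : Adm D w)
    {S : Finset V} (hS : Verts D S) (h : V → ℝ) : 0 < JZ D w q S h := by
  rw [JZ_eq hS]
  have hZ := Z_pos hq hw
  have : ∃ A ∈ D.powerset, 0 < wt D w q A := by
    by_contra hc
    push Not at hc
    exact absurd hZ (not_lt.mpr (sum_nonpos hc))
  obtain ⟨A, hA, hpos⟩ := this
  refine sum_pos' (fun B hB => mul_nonneg (wt_nonneg hq hw (mem_powerset.mp hB))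
    (prod_nonneg fun C _ => (Real.cosh_pos _).le)) ⟨A, hA, mul_pos hpos
    (prod_pos fun C _ => Real.cosh_pos _)⟩

theorem JZ_zero {D : Finset (V × V)} {w : V × V → ℝ} {q : ℝ} {S : Finset V} (hS : Verts D S) :
    JZ D w q S (fun _ => 0) = Z D w q := by
  rw [JZ_eq hS]
  unfold Z
  refine sum_congr rfl fun A _ => ?_
  simp

theorem JE_zero {D : Finset (V × V)} {w : V × V → ℝ} {q : ℝ} {S : Finset V} (hS : Verts D S)
    (F : Finset (V × V) → ℝ) :
    JE D w q S (fun _ => 0) (fun A _ => F A) = E D w q F := by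
  unfold JE E
  rw [JZ_zero hS]
  congr 1
  unfold jsum jw
  refine sum_congr rfl fun A hA => ?_
  have h1 := compat_count (Joint_verts hS (mem_powerset.mp hA))
  calc _ = wt D w q A * F A * ((2 : ℝ) ^ rk A * (1 / 2) ^ S.card *
        ∑ s ∈ S.powerset, ind (Compat A s)) := by
        rw [mul_sum, mul_sum]
        refine sum_congr rfl fun s _ => ?_
        simp only [zero_mul, sum_const_zero, Real.exp_zero]
        ring
    _ = _ := by rw [h1, mul_one]

theorem JE_zero_two {D : Finset (V × V)} {w : V × V → ℝ} {q : ℝ} {S : Finset V}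
    (hS : Verts D S) {x y : V} (hx : x ∈ S) (hy : y ∈ S) :
    JE D w q S (fun _ => 0) (fun _ s => sgn s x * sgn s y) =
      P D w q (fun A => Conn A x y) := by
  unfold JE P E
  rw [JZ_zero hS]
  congr 1
  unfold jsum jw
  refine sum_congr rfl fun A hA => ?_
  beta_reduce
  rw [← compat_two (Joint_verts hS (mem_powerset.mp hA)) hx hy, mul_sum, mul_sum]
  refine sum_congr rfl fun s _ => ?_
  simp only [zero_mul, sum_const_zero, Real.exp_zero]
  ring

theorem JE_mono {D : Finset (V × V)} {w : V × V → ℝ} {q : ℝ} (hq : 0 < q) (hw : Adm D w)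
    {S : Finset V} (hS : Verts D S) (h : V → ℝ) {φ ψ : Finset (V × V) → Finset V → ℝ}
    (hle : ∀ A, A ⊆ D → (∀ e ∈ D, w e = 1 → e ∈ A) → (∀ e ∈ A, w e ≠ 0) →
      ∀ s, s ⊆ S → Compat A s → φ A s ≤ ψ A s) : JE D w q S h φ ≤ JE D w q S h ψ := by
  unfold JE
  refine div_le_div_of_nonneg_right ?_ (JZ_pos hq hw hS h).le
  unfold jsum
  refine sum_le_sum fun A hA => sum_le_sum fun s hs => ?_
  rw [mem_powerset] at hA hs
  by_cases hc : (∀ e ∈ D, w e = 1 → e ∈ A) ∧ (∀ e ∈ A, w e ≠ 0)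
  · by_cases hcs : Compat A s
    · exact mul_le_mul_of_nonneg_left (hle A hA hc.1 hc.2 s hs hcs) (jw_nonneg hq hw S h hA s)
    · have : jw D w q S h A s = 0 := by unfold jw; rw [ind_false hcs]; ring
      rw [this]; simp
  · have : jw D w q S h A s = 0 := by unfold jw; rw [wt_eq_zero hc]; ring
    rw [this]; simp

theorem JE_add {D : Finset (V × V)} {w : V × V → ℝ} {q : ℝ} {S : Finset V} (h : V → ℝ)
    (φ ψ : Finset (V × V) → Finset V → ℝ) :
    JE D w q S h (fun A s => φ A s + ψ A s) = JE D w q S h φ + JE D w q S h ψ := by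
  unfold JE jsum
  rw [← add_div, ← sum_add_distrib]
  simp only [mul_add, sum_add_distrib]

theorem JE_smul {D : Finset (V × V)} {w : V × V → ℝ} {q : ℝ} {S : Finset V} (h : V → ℝ)
    (c : ℝ) (φ : Finset (V × V) → Finset V → ℝ) :
    JE D w q S h (fun A s => c * φ A s) = c * JE D w q S h φ := by
  unfold JE jsum
  rw [← mul_div_assoc, mul_sum]
  congr 1
  refine sum_congr rfl fun A _ => ?_
  rw [mul_sum]
  exact sum_congr rfl fun s _ => by ring

theorem JE_sum {ι : Type*} (I : Finset ι) {D : Finset (V × V)} {w : V × V → ℝ} {q : ℝ}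
    {S : Finset V} (h : V → ℝ) (φ : ι → Finset (V × V) → Finset V → ℝ) :
    JE D w q S h (fun A s => ∑ i ∈ I, φ i A s) = ∑ i ∈ I, JE D w q S h (φ i) := by
  unfold JE jsum
  rw [← sum_div]
  congr 1
  simp only [mul_sum]
  exact (sum_congr rfl fun A _ => sum_comm).trans sum_comm

theorem JE_const {D : Finset (V × V)} {w : V × V → ℝ} {q : ℝ} (hq : 0 < q) (hw : Adm D w)
    {S : Finset V} (hS : Verts D S) (h : V → ℝ) (c : ℝ) :
    JE D w q S h (fun _ _ => c) = c := by
  have h1 : JE D w q S h (fun _ _ => c) = c * JE D w q S h (fun _ _ => 1) := by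
    rw [← JE_smul]; simp
  rw [h1]
  unfold JE
  change c * (JZ D w q S h / JZ D w q S h) = c
  rw [div_self (JZ_pos hq hw hS h).ne', mul_one]

/-- enlarging `S` by points without field does not change anything -/
theorem JZ_extend {D : Finset (V × V)} {w : V × V → ℝ} {q : ℝ} {S S' : Finset V}
    (hS : Verts D S) (hSS : S ⊆ S') (h : V → ℝ) (h0 : ∀ x ∈ S' \ S, h x = 0) :
    JZ D w q S' h = JZ D w q S h := by
  have hS' : Verts D S' := fun e he => ⟨hSS (hS e he).1, hSS (hS e he).2⟩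
  rw [JZ_eq hS, JZ_eq hS']
  refine sum_congr rfl fun A hA => ?_
  rw [mem_powerset] at hA
  congr 1
  symm
  have hin : ∀ x y, Conn A x y → (x ∈ S ↔ y ∈ S) := fun x y hxy =>
    hxy.inv (fun v => v ∈ S) fun e he =>
      ⟨fun _ => (hS e (hA he)).2, fun _ => (hS e (hA he)).1⟩
  have hcl : ∀ x ∈ S, cl A S' x = cl A S x := by
    intro x hx
    ext y
    rw [mem_cl, mem_cl]
    exact ⟨fun hy => ⟨(hin x y hy.2).1 hx, hy.2⟩, fun hy => ⟨hSS hy.1, hy.2⟩⟩
  apply prod_subset
  · intro C hC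
    obtain ⟨x, hx, rfl⟩ := mem_image.1 hC
    rw [← hcl x hx]
    exact mem_image_of_mem _ (hSS hx)
  · intro C hC hC'
    obtain ⟨x, hx, rfl⟩ := mem_image.1 hC
    have hxS : x ∉ S := by
      intro hxS
      apply hC'
      rw [hcl x hxS]
      exact mem_image_of_mem _ hxS
    have : ∑ y ∈ cl A S' x, h y = 0 := by
      refine sum_eq_zero fun y hy => ?_
      rw [mem_cl] at hy
      exact h0 y (mem_sdiff.mpr ⟨hy.1, fun hyS => hxS ((hin x y hy.2).2 hyS)⟩)
    rw [this, Real.cosh_zero]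

end FKB
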