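import Pool.Agent.FKB.Cosh
import Pool.Agent.FKB.Joint
import Pool.Agent.FKB.LatGeo

open Finset
noncomputable section
namespace FKB

theorem SepA_ratio {V : Type*} [DecidableEq V] {D : Finset (V × V)} {w : V × V → ℝ} {q : ℝ}
    {S : Finset V} (hS : Verts D S) (h : V → ℝ) :
    JZ D w q S h / Z D w q =
      E D w q (fun A => ∏ C ∈ clusters A S, Real.cosh (∑ x ∈ C, h x)) := by
  rw [JZ_eq hS, E]

theorem sep_lower {V : Type*} [DecidableEq V] {D : Finset (V × V)} {w : V × V → ℝ} {q : ℝ}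
    (hq : 0 < q) (hw : Adm D w) {S : Finset V} (hS : Verts D S) (h : V → ℝ) (M : ℝ)
    (Ev : Finset (V × V) → Prop)
    (hEv : ∀ A, A ⊆ D → (∀ e ∈ D, w e = 1 → e ∈ A) → (∀ e ∈ A, w e ≠ 0) → Ev A →
      ∃ x ∈ S, ∃ y ∈ S, ¬ Conn A x y ∧ M ≤ ∑ z ∈ cl A S x, h z - ∑ z ∈ cl A S y, h z) :
    P D w q Ev * (1 / 4 * Real.exp M) ≤ JZ D w q S h / Z D w q := by
  rw [SepA_ratio hS, P, mul_comm, ← E_smul]
  refine E_mono' hq hw fun A hA h1 h2 => ?_
  by_cases hE : Ev A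
  · obtain ⟨x, hx, y, hy, hxy, hM⟩ := hEv A hA h1 h2 hE
    rw [ind_true hE, mul_one]
    refine le_trans ?_ (cosh_lower h hx hy hxy)
    have := Real.exp_le_exp.2 hM
    linarith
  · rw [ind_false hE, mul_zero]
    exact Finset.prod_nonneg fun C _ => (Real.cosh_pos _).le

theorem JZ_upper {d : ℕ} {D : Finset (Pt d × Pt d)} {w : Pt d × Pt d → ℝ} {q : ℝ}
    (hq : 0 < q) (hD : IsLat D) (hw : Adm D w) {S : Finset (Pt d)} (hS : Verts D S)
    (h : Pt d → ℝ) (h0 : ∀ x ∈ S, 0 ≤ h x) (l : ℕ) (U : Finset (Pt d)) :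
    JZ D w q S h / Z D w q ≤
      E D w q (fun A => Real.exp (∑ x ∈ S, h x * ind (x ∈ U ∨ Far l A x))) *
        Real.exp (((2 * l + 1 : ℕ) : ℝ) ^ d / 2 * ∑ x ∈ S, (h x) ^ 2) := by
  classical
  rw [SepA_ratio hS, mul_comm, ← E_smul]
  refine E_mono hq hw fun A hA => ?_
  have hAl : IsLat A := fun e he => hD e (hA he)
  set Y := S.filter (fun x => ¬ (x ∈ U ∨ Far l A x)) with hY
  have h1 := cosh_upper (A := A) (S := S) (Y := Y) (Finset.filter_subset _ _) h h0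
    ((2 * l + 1) ^ d) (by
      intro x hx
      rw [← card_cube x l]
      refine Finset.card_le_card fun y hy => ?_
      have hx' := (Finset.mem_filter.1 hx).2
      exact notFar_cluster hAl (fun hf => hx' (Or.inr hf)) (mem_cl.1 hy).2)
  refine h1.trans ?_
  rw [← Real.exp_add]
  refine Real.exp_le_exp.2 ?_
  have h2 : ∑ x ∈ S \ Y, h x = ∑ x ∈ S, h x * ind (x ∈ U ∨ Far l A x) := by
    rw [hY, ← Finset.filter_not, Finset.sum_filter]
    refine Finset.sum_congr rfl fun x _ => ?_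
    by_cases hx : x ∈ U ∨ Far l A x
    · rw [if_pos (not_not.2 hx), ind_true hx, mul_one]
    · rw [if_neg (not_not.2 hx), ind_false hx, mul_zero]
  have h3 : ∑ x ∈ Y, (h x) ^ 2 ≤ ∑ x ∈ S, (h x) ^ 2 :=
    Finset.sum_le_sum_of_subset_of_nonneg (Finset.filter_subset _ _) fun x _ _ => sq_nonneg _
  have h4 : (((2 * l + 1) ^ d : ℕ) : ℝ) / 2 * ∑ x ∈ Y, (h x) ^ 2 ≤
      ((2 * l + 1 : ℕ) : ℝ) ^ d / 2 * ∑ x ∈ S, (h x) ^ 2 := by
    push_cast
    exact mul_le_mul_of_nonneg_left h3 (by positivity)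
  rw [h2]
  linarith

end FKB
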