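import Pool.Agent.FKB.LP
import Pool.Agent.FKB.Moment
import Pool.Agent.FKB.SepA

open Finset
noncomputable section
namespace FKB

variable {d : ℕ}

section SepHelpers

variable {V : Type*}

theorem sep_sum_filter (T : Finset V) (f : V → Prop) [DecidablePred f] :
    ∑ z ∈ T, ind (f z) = ((T.filter f).card : ℝ) := by
  rw [Finset.card_filter]
  push_cast
  refine Finset.sum_congr rfl (fun z _ => ?_)
  by_cases h : f z
  · rw [ind_true h, if_pos h]
  · rw [ind_false h, if_neg h]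

theorem sep_card_sum {S Q : Finset V} (hQ : Q ⊆ S) : ∑ z ∈ S, ind (z ∈ Q) = (Q.card : ℝ) := by
  classical
  rw [sep_sum_filter]
  congr 2
  ext z
  rw [Finset.mem_filter]
  exact ⟨fun h => h.2, fun h => ⟨hQ h, h⟩⟩

theorem sep_cl_sum (A : Finset (V × V)) {S Q : Finset V} (hQ : Q ⊆ S) (x : V) :
    ∑ z ∈ cl A S x, ind (z ∈ Q) = ((cl A Q x).card : ℝ) := by
  classical
  rw [sep_sum_filter]
  congr 2
  ext z
  rw [Finset.mem_filter, mem_cl, mem_cl]
  constructor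
  · rintro ⟨⟨h1, h2⟩, h3⟩
    exact ⟨h3, h2⟩
  · rintro ⟨h1, h2⟩
    exact ⟨⟨hQ h1, h2⟩, h1⟩

theorem sep_nFar_sum (l : ℕ) (A : Finset (Pt d × Pt d)) {S Q : Finset (Pt d)} (hQ : Q ⊆ S) :
    ∑ z ∈ S, ind (z ∈ Q) * ind (Far l A z) = (nFar l A Q : ℝ) := by
  classical
  simp_rw [← ind_and]
  rw [sep_sum_filter]
  unfold nFar
  congr 2
  ext z
  rw [Finset.mem_filter, Finset.mem_filter]
  constructor
  · rintro ⟨h1, h2, h3⟩
    exact ⟨h2, h3⟩
  · rintro ⟨h1, h2⟩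
    exact ⟨hQ h1, h1, h2⟩

theorem sep_hm_sum (A : Finset (Pt d × Pt d)) {S Q Q' : Finset (Pt d)} (hQ : Q ⊆ S)
    (hQ' : Q' ⊆ S) (lam : ℝ) (x : Pt d) :
    ∑ z ∈ cl A S x, lam * hm Q Q' z = lam * ((cl A Q x).card - (cl A Q' x).card) := by
  rw [← Finset.mul_sum]
  unfold hm
  rw [Finset.sum_sub_distrib, sep_cl_sum A hQ, sep_cl_sum A hQ']

theorem sep_hp_sum (l : ℕ) (A : Finset (Pt d × Pt d)) {S Q Q' : Finset (Pt d)} (hQ : Q ⊆ S)
    (hQ' : Q' ⊆ S) (lam : ℝ) :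
    ∑ x ∈ S, lam * hp Q Q' x * ind (x ∈ (∅ : Finset (Pt d)) ∨ Far l A x) =
      lam * (nFar l A Q + nFar l A Q') := by
  have h1 : ∀ x ∈ S, lam * hp Q Q' x * ind (x ∈ (∅ : Finset (Pt d)) ∨ Far l A x) =
      lam * (ind (x ∈ Q) * ind (Far l A x) + ind (x ∈ Q') * ind (Far l A x)) := by
    intro x _
    have h2 : ind (x ∈ (∅ : Finset (Pt d)) ∨ Far l A x) = ind (Far l A x) :=
      ind_congr ⟨fun h => h.resolve_left (Finset.notMem_empty x), Or.inr⟩
    rw [h2]
    unfold hp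
    ring
  rw [Finset.sum_congr rfl h1, ← Finset.mul_sum, Finset.sum_add_distrib, sep_nFar_sum l A hQ,
    sep_nFar_sum l A hQ']

theorem sep_hp_sq {S Q Q' : Finset (Pt d)} (hQ : Q ⊆ S) (hQ' : Q' ⊆ S) (lam : ℝ) :
    ∑ x ∈ S, (lam * hp Q Q' x) ^ 2 ≤ lam ^ 2 * (2 * (Q.card + Q'.card)) := by
  have h1 : ∀ x ∈ S, (lam * hp Q Q' x) ^ 2 ≤ lam ^ 2 * (2 * (ind (x ∈ Q) + ind (x ∈ Q'))) := by
    intro x _
    rw [mul_pow]
    refine mul_le_mul_of_nonneg_left ?_ (sq_nonneg lam)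
    unfold hp
    rcases ind_zero_or_one (x ∈ Q) with h | h <;> rcases ind_zero_or_one (x ∈ Q') with h' | h' <;>
      rw [h, h'] <;> norm_num
  refine (Finset.sum_le_sum h1).trans (le_of_eq ?_)
  rw [← Finset.mul_sum, ← Finset.mul_sum, Finset.sum_add_distrib, sep_card_sum hQ,
    sep_card_sum hQ']

theorem sep_hp_nonneg (Q Q' : Finset (Pt d)) (x : Pt d) : 0 ≤ hp Q Q' x :=
  add_nonneg (ind_nonneg _) (ind_nonneg _)

/-- the union bound used below -/
theorem sep_split [DecidableEq V] {D : Finset (V × V)} {w : V × V → ℝ} {q : ℝ} (hq : 0 < q)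
    (hw : Adm D w) (Ev Ev' B1 B2 : Finset (V × V) → Prop)
    (h : ∀ A, A ⊆ D → Ev A → Ev' A ∨ B1 A ∨ B2 A) :
    P D w q Ev ≤ P D w q Ev' + P D w q B1 + P D w q B2 := by
  unfold P
  rw [← E_add, ← E_add]
  refine E_mono hq hw (fun A hA => ?_)
  by_cases hE : Ev A
  · rw [ind_true hE]
    rcases h A hA hE with h1 | h1 | h1
    · rw [ind_true h1]
      linarith [ind_nonneg (B1 A), ind_nonneg (B2 A)]
    · rw [ind_true h1]
      linarith [ind_nonneg (Ev' A), ind_nonneg (B2 A)]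
    · rw [ind_true h1]
      linarith [ind_nonneg (Ev' A), ind_nonneg (B1 A)]
  · rw [ind_false hE]
    linarith [ind_nonneg (Ev' A), ind_nonneg (B1 A), ind_nonneg (B2 A)]

end SepHelpers

/-- half of the deterministic estimate -/
theorem sep_core_half {l : ℕ} {A : Finset (Pt d × Pt d)} (hA : IsLat A) {Q : Finset (Pt d)}
    {x y : Pt d} (hxy : ¬ Conn A x y) {θ β δ : ℝ} (hβδ : β ≤ δ) (hδ4 : δ ≤ 1 / 4)
    (hpos : 0 < θ * Q.card) (hN : ((2 * l + 1 : ℕ) : ℝ) ^ d ≤ δ * (θ * Q.card))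
    (hx : (1 - β) * θ * Q.card ≤ (cl A Q x).card)
    (hF : (nFar l A Q : ℝ) ≤ (1 + δ) * θ * Q.card) :
    (1 - 3 * δ) * (θ * Q.card) ≤ (cl A Q x).card - (cl A Q y).card := by
  have hN2 : (((2 * l + 1) ^ d : ℕ) : ℝ) ≤ δ * (θ * Q.card) := by
    push_cast
    push_cast at hN
    exact hN
  have h1 : (2 * l + 1) ^ d < (cl A Q x).card := by
    have h2 : (((2 * l + 1) ^ d : ℕ) : ℝ) < ((cl A Q x).card : ℝ) := by
      nlinarith
    exact_mod_cast h2
  have h3 := card_cl_add_le hA Q hxy h1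
  rcases le_max_iff.1 h3 with h4 | h4
  · have h5 : ((cl A Q y).card : ℝ) + (cl A Q x).card ≤ nFar l A Q := by exact_mod_cast h4
    nlinarith
  · have h5 : ((cl A Q y).card : ℝ) + (cl A Q x).card ≤
        (((2 * l + 1) ^ d : ℕ) : ℝ) + (cl A Q x).card := by exact_mod_cast h4
    nlinarith

/-- product of two exponential moments by the inequality of the means -/
theorem sep_exp_two [DecidableEq (Pt d)] {D : Finset (Pt d × Pt d)} {w : Pt d × Pt d → ℝ} {q : ℝ}
    (hq : 0 < q) (hw : Adm D w) (X Y : Finset (Pt d × Pt d) → ℝ) {u v : ℝ}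
    (hX : E D w q (fun A => Real.exp (2 * X A)) ≤ Real.exp (2 * u))
    (hY : E D w q (fun A => Real.exp (2 * Y A)) ≤ Real.exp (2 * v)) :
    E D w q (fun A => Real.exp (X A + Y A)) ≤ Real.exp (u + v) := by
  have h1 : ∀ A : Finset (Pt d × Pt d), A ⊆ D → Real.exp (X A + Y A) ≤
      Real.exp (v - u) / 2 * Real.exp (2 * X A) + Real.exp (u - v) / 2 * Real.exp (2 * Y A) := by
    intro A _
    have e1 : Real.exp (v - u) / 2 * Real.exp (2 * X A) = Real.exp ((v - u) + 2 * X A) / 2 := by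
      rw [Real.exp_add]; ring
    have e2 : Real.exp (u - v) / 2 * Real.exp (2 * Y A) = Real.exp ((u - v) + 2 * Y A) / 2 := by
      rw [Real.exp_add]; ring
    rw [e1, e2]
    have e3 : Real.exp ((v - u) + 2 * X A) = Real.exp (((v - u) + 2 * X A) / 2) ^ 2 := by
      rw [← Real.exp_nat_mul]; congr 1; push_cast; ring
    have e4 : Real.exp ((u - v) + 2 * Y A) = Real.exp (((u - v) + 2 * Y A) / 2) ^ 2 := by
      rw [← Real.exp_nat_mul]; congr 1; push_cast; ring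
    have e5 : Real.exp (X A + Y A) =
        Real.exp (((v - u) + 2 * X A) / 2) * Real.exp (((u - v) + 2 * Y A) / 2) := by
      rw [← Real.exp_add]; congr 1; ring
    rw [e3, e4, e5]
    nlinarith [sq_nonneg (Real.exp (((v - u) + 2 * X A) / 2) -
      Real.exp (((u - v) + 2 * Y A) / 2))]
  refine (E_mono hq hw h1).trans ?_
  rw [E_add, E_smul, E_smul]
  have h2 : Real.exp (v - u) / 2 * E D w q (fun A => Real.exp (2 * X A)) ≤
      Real.exp (u + v) / 2 := by
    have h3 : Real.exp (v - u) / 2 * Real.exp (2 * u) = Real.exp (u + v) / 2 := by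
      rw [div_mul_eq_mul_div, ← Real.exp_add]; congr 2; ring
    rw [← h3]
    exact mul_le_mul_of_nonneg_left hX (by positivity)
  have h4 : Real.exp (u - v) / 2 * E D w q (fun A => Real.exp (2 * Y A)) ≤
      Real.exp (u + v) / 2 := by
    have h3 : Real.exp (u - v) / 2 * Real.exp (2 * v) = Real.exp (u + v) / 2 := by
      rw [div_mul_eq_mul_div, ← Real.exp_add]; congr 2; ring
    rw [← h3]
    exact mul_le_mul_of_nonneg_left hY (by positivity)
  linarith

theorem sep_JZa {l : ℕ} {D : Finset (Pt d × Pt d)} {w : Pt d × Pt d → ℝ} {q : ℝ} (hq : 0 < q)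
    (hD : IsLat D) (hw : Adm D w) {S Q Q' : Finset (Pt d)} (hS : Verts D S) (hQ : Q ⊆ S)
    (hQ' : Q' ⊆ S) {lam θ δ : ℝ} (hlam : 0 ≤ lam)
    (hmQ : E D w q (fun A => Real.exp (2 * lam * nFar l A Q)) ≤
      Real.exp (2 * lam * ((1 + δ) * θ * Q.card)))
    (hmQ' : E D w q (fun A => Real.exp (2 * lam * nFar l A Q')) ≤
      Real.exp (2 * lam * ((1 + δ) * θ * Q'.card)))
    (hsm : ((2 * l + 1 : ℕ) : ℝ) ^ d * lam ≤ δ * θ) :
    JZ D w q S (fun x => lam * hp Q Q' x) / Z D w q ≤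
      Real.exp (lam * ((1 + 2 * δ) * (θ * Q.card + θ * Q'.card))) := by
  refine (JZ_upper hq hD hw hS (fun x => lam * hp Q Q' x)
    (fun x _ => mul_nonneg hlam (sep_hp_nonneg Q Q' x)) l ∅).trans ?_
  have h1 : E D w q (fun A => Real.exp (∑ x ∈ S, lam * hp Q Q' x *
      ind (x ∈ (∅ : Finset (Pt d)) ∨ Far l A x))) ≤
      Real.exp (lam * ((1 + δ) * θ * Q.card) + lam * ((1 + δ) * θ * Q'.card)) := by
    have h2 : (fun A => Real.exp (∑ x ∈ S, lam * hp Q Q' x *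
        ind (x ∈ (∅ : Finset (Pt d)) ∨ Far l A x))) =
        (fun A => Real.exp (lam * nFar l A Q + lam * nFar l A Q')) := by
      funext A
      rw [sep_hp_sum l A hQ hQ', mul_add]
    rw [h2]
    refine sep_exp_two hq hw (fun A => lam * nFar l A Q) (fun A => lam * nFar l A Q') ?_ ?_
    · have e1 : (fun A : Finset (Pt d × Pt d) => Real.exp (2 * (lam * nFar l A Q))) =
          (fun A => Real.exp (2 * lam * nFar l A Q)) := by
        funext A; congr 1; ring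
      rw [e1]
      refine hmQ.trans (le_of_eq ?_)
      congr 1; ring
    · have e1 : (fun A : Finset (Pt d × Pt d) => Real.exp (2 * (lam * nFar l A Q'))) =
          (fun A => Real.exp (2 * lam * nFar l A Q')) := by
        funext A; congr 1; ring
      rw [e1]
      refine hmQ'.trans (le_of_eq ?_)
      congr 1; ring
  have h3 : ((2 * l + 1 : ℕ) : ℝ) ^ d / 2 * ∑ x ∈ S, (lam * hp Q Q' x) ^ 2 ≤
      lam * (δ * (θ * Q.card + θ * Q'.card)) := by
    have h4 : ((2 * l + 1 : ℕ) : ℝ) ^ d / 2 * ∑ x ∈ S, (lam * hp Q Q' x) ^ 2 ≤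
        ((2 * l + 1 : ℕ) : ℝ) ^ d / 2 * (lam ^ 2 * (2 * (Q.card + Q'.card))) :=
      mul_le_mul_of_nonneg_left (sep_hp_sq hQ hQ' lam) (by positivity)
    refine h4.trans ?_
    have h5 : ((2 * l + 1 : ℕ) : ℝ) ^ d / 2 * (lam ^ 2 * (2 * (Q.card + Q'.card))) =
        lam * ((((2 * l + 1 : ℕ) : ℝ) ^ d * lam) * (Q.card + Q'.card)) := by ring
    rw [h5]
    refine mul_le_mul_of_nonneg_left ?_ hlam
    have h6 : (((2 * l + 1 : ℕ) : ℝ) ^ d * lam) * (Q.card + Q'.card) ≤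
        (δ * θ) * (Q.card + Q'.card) := mul_le_mul_of_nonneg_right hsm (by positivity)
    linarith
  refine (mul_le_mul h1 (Real.exp_le_exp.2 h3) (Real.exp_nonneg _) (Real.exp_nonneg _)).trans
    (le_of_eq ?_)
  rw [← Real.exp_add]
  congr 1
  ring

/-- combination of the two partition function bounds -/
theorem sep_comb {PE M tau UB Za Zb Z0 : ℝ} (hZ0 : 0 < Z0) (hZa : 0 < Za) (hZb : 0 < Zb)
    (h1 : PE * (1 / 4 * Real.exp M) ≤ Zb / Z0) (h2 : Za / Z0 ≤ Real.exp UB)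
    (h3 : tau ≤ Real.log Za - Real.log Zb) : PE ≤ 4 * Real.exp (UB - tau - M) := by
  have h4 : Zb ≤ Real.exp (-tau) * Za := by
    rw [← Real.exp_log hZa, ← Real.exp_add]
    nth_rewrite 1 [← Real.exp_log hZb]
    refine Real.exp_le_exp.2 ?_
    linarith
  have h5 : Zb / Z0 ≤ Real.exp (-tau) * Real.exp UB := by
    calc Zb / Z0 ≤ (Real.exp (-tau) * Za) / Z0 := div_le_div_of_nonneg_right h4 hZ0.le
      _ = Real.exp (-tau) * (Za / Z0) := by ring
      _ ≤ Real.exp (-tau) * Real.exp UB := mul_le_mul_of_nonneg_left h2 (Real.exp_nonneg _)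
  have h6 : PE * (1 / 4 * Real.exp M) ≤ Real.exp (-tau) * Real.exp UB := h1.trans h5
  have h7 : PE = PE * (1 / 4 * Real.exp M) * (4 * Real.exp (-M)) := by
    have h8 : Real.exp M * Real.exp (-M) = 1 := by rw [← Real.exp_add]; simp
    calc PE = PE * 1 := by ring
      _ = PE * (Real.exp M * Real.exp (-M)) := by rw [h8]
      _ = _ := by ring
  rw [h7]
  have h9 : PE * (1 / 4 * Real.exp M) * (4 * Real.exp (-M)) ≤
      Real.exp (-tau) * Real.exp UB * (4 * Real.exp (-M)) :=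
    mul_le_mul_of_nonneg_right h6 (by positivity)
  refine h9.trans (le_of_eq ?_)
  rw [← Real.exp_add]
  have h10 : UB - tau - M = (-tau + UB) + (-M) := by ring
  rw [h10, Real.exp_add (-tau + UB) (-M)]
  ring

theorem sep_num {k a b : ℕ} (hd : 2 ≤ d) (hk : 1 ≤ k) {pp κ θ : ℝ} (hpp : 0 ≤ pp) (hκ : 0 ≤ κ)
    (hθ1 : θ ≤ 1) (hab : a ≤ 2 * b) (hba : b ≤ 2 * a) :
    spd k κ (max a b) * pp * (5 * (κ / 2 ^ (d + 6)) *
        (θ * (2 * a + 1 : ℝ) ^ d + θ * (2 * b + 1 : ℝ) ^ d)) ≤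
      pp * κ ^ 2 / (32 * k) * (2 * (min a b : ℕ) + 1 : ℝ) ^ (d - 1) := by
  have hk' : (1 : ℝ) ≤ k := by exact_mod_cast hk
  have hmax : ((max a b : ℕ) : ℝ) ≤ 2 * (min a b : ℕ) := by
    have h1 : max a b ≤ 2 * min a b := by omega
    exact_mod_cast h1
  have hmin0 : (0 : ℝ) ≤ (min a b : ℕ) := Nat.cast_nonneg _
  have hmax0 : (0 : ℝ) ≤ (max a b : ℕ) := Nat.cast_nonneg _
  have ha : (a : ℝ) ≤ (max a b : ℕ) := by exact_mod_cast le_max_left a b
  have hb : (b : ℝ) ≤ (max a b : ℕ) := by exact_mod_cast le_max_right a b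
  have ha0 : (0 : ℝ) ≤ a := Nat.cast_nonneg _
  have hb0 : (0 : ℝ) ≤ b := Nat.cast_nonneg _
  set m : ℝ := ((max a b : ℕ) : ℝ) with hm
  set n : ℝ := ((min a b : ℕ) : ℝ) with hn
  obtain ⟨e, rfl⟩ : ∃ e, d = e + 1 := ⟨d - 1, by omega⟩
  have e1 : e + 1 - 1 = e := by omega
  rw [e1]
  have h1 : (2 * m + 1) ^ e ≤ 2 ^ e * (2 * n + 1) ^ e := by
    rw [← mul_pow]
    exact pow_le_pow_left₀ (by positivity) (by linarith) e
  have h2 : ∀ t : ℝ, 0 ≤ t → t ≤ m → θ * (2 * t + 1) ^ (e + 1) ≤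
      (2 * m + 1) * (2 ^ e * (2 * n + 1) ^ e) := by
    intro t ht0 ht
    have h3 : (2 * t + 1) ^ (e + 1) ≤ (2 * m + 1) ^ (e + 1) :=
      pow_le_pow_left₀ (by positivity) (by linarith) _
    calc θ * (2 * t + 1) ^ (e + 1) ≤ 1 * (2 * m + 1) ^ (e + 1) := by
          refine mul_le_mul hθ1 h3 (by positivity) (by norm_num)
      _ = (2 * m + 1) * (2 * m + 1) ^ e := by rw [pow_succ]; ring
      _ ≤ (2 * m + 1) * (2 ^ e * (2 * n + 1) ^ e) := by
          refine mul_le_mul_of_nonneg_left h1 (by positivity)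
  have h4 := h2 a ha0 ha
  have h5 := h2 b hb0 hb
  have h6 : spd k κ (max a b) * pp * (5 * (κ / 2 ^ (e + 1 + 6)) *
        (θ * (2 * a + 1 : ℝ) ^ (e + 1) + θ * (2 * b + 1 : ℝ) ^ (e + 1))) ≤
      spd k κ (max a b) * pp * (5 * (κ / 2 ^ (e + 1 + 6)) *
        (2 * ((2 * m + 1) * (2 ^ e * (2 * n + 1) ^ e)))) := by
    refine mul_le_mul_of_nonneg_left ?_ ?_
    · refine mul_le_mul_of_nonneg_left ?_ (by positivity)
      linarith
    · unfold spd
      positivity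
  refine h6.trans ?_
  unfold spd
  rw [← hm]
  have h7 : κ / (2 * (2 * (k : ℝ)) * (2 * m + 1)) * pp * (5 * (κ / 2 ^ (e + 1 + 6)) *
        (2 * ((2 * m + 1) * (2 ^ e * (2 * n + 1) ^ e)))) =
      pp * κ ^ 2 / k * (5 / 256) * (2 * n + 1) ^ e := by
    have h8 : (2 : ℝ) ^ (e + 1 + 6) = 2 ^ e * 128 := by
      rw [pow_add, pow_add]; norm_num; ring
    rw [h8]
    have h9 : (2 * m + 1) ≠ 0 := by positivity
    have h10 : (k : ℝ) ≠ 0 := by positivity
    have h11 : (2 : ℝ) ^ e ≠ 0 := by positivity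
    field_simp
    ring
  rw [h7]
  have h12 : pp * κ ^ 2 / (32 * k) = pp * κ ^ 2 / k * (1 / 32) := by
    have h10 : (k : ℝ) ≠ 0 := by positivity
    field_simp
  rw [h12]
  refine mul_le_mul_of_nonneg_right ?_ (by positivity)
  refine mul_le_mul_of_nonneg_left (by norm_num) (by positivity)

theorem sep_cl_conn {V : Type*} {A : Finset (V × V)} (T : Finset V) {x x' : V}
    (h : Conn A x x') : cl A T x' = cl A T x := by
  ext z
  rw [mem_cl, mem_cl]
  exact ⟨fun h1 => ⟨h1.1, h.trans' h1.2⟩, fun h1 => ⟨h1.1, h.symm'.trans' h1.2⟩⟩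

theorem sep_cube_thick (c c' : Pt d) {a m : ℕ} (h : a ≤ m) : cube c a ⊆ thick c c' m := by
  intro x hx
  unfold cube at hx
  unfold thick
  rw [Finset.mem_Icc, Pi.le_def, Pi.le_def] at *
  have h' : (a : ℤ) ≤ m := by exact_mod_cast h
  refine ⟨fun i => ?_, fun i => ?_⟩
  · have h1 := hx.1 i
    have h2 := min_le_left (c i) (c' i)
    omega
  · have h1 := hx.2 i
    have h2 := le_max_left (c i) (c' i)
    omega

theorem sep_cube_thick' (c c' : Pt d) {b m : ℕ} (h : b ≤ m) : cube c' b ⊆ thick c c' m := by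
  intro x hx
  unfold cube at hx
  unfold thick
  rw [Finset.mem_Icc, Pi.le_def, Pi.le_def] at *
  have h' : (b : ℤ) ≤ m := by exact_mod_cast h
  refine ⟨fun i => ?_, fun i => ?_⟩
  · have h1 := hx.1 i
    have h2 := min_le_right (c i) (c' i)
    omega
  · have h1 := hx.2 i
    have h2 := le_max_right (c i) (c' i)
    omega

/-- a finite vertex set containing a box and all endpoints of `D` -/
def sepS (D : Finset (Pt d × Pt d)) (T : Finset (Pt d)) : Finset (Pt d) :=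
  T ∪ (D.image Prod.fst ∪ D.image Prod.snd)

theorem sepS_left (D : Finset (Pt d × Pt d)) (T : Finset (Pt d)) : T ⊆ sepS D T :=
  Finset.subset_union_left

theorem sepS_verts (D : Finset (Pt d × Pt d)) (T : Finset (Pt d)) : Verts D (sepS D T) := by
  intro e he
  unfold sepS
  refine ⟨?_, ?_⟩
  · exact Finset.mem_union_right _ (Finset.mem_union_left _ (Finset.mem_image_of_mem _ he))
  · exact Finset.mem_union_right _ (Finset.mem_union_right _ (Finset.mem_image_of_mem _ he))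

theorem sep_spd_le {k : ℕ} (hk : 1 ≤ k) {κ pp : ℝ} (hκ : 0 ≤ κ) (hκ1 : κ ≤ 1)
    (hpp1 : pp ≤ 1) (m : ℕ) : spd k κ m * pp ≤ 1 / (2 * m + 1) / 2 := by
  have hk' : (1 : ℝ) ≤ k := by exact_mod_cast hk
  have hm : (0 : ℝ) ≤ m := Nat.cast_nonneg _
  unfold spd
  have h1 : κ / (2 * (2 * (k : ℝ)) * (2 * m + 1)) * pp ≤ κ / (2 * (2 * (k : ℝ)) * (2 * m + 1)) := by
    have h2 : 0 ≤ κ / (2 * (2 * (k : ℝ)) * (2 * m + 1)) := by positivity
    nlinarith
  refine h1.trans ?_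
  rw [div_div, div_le_div_iff₀ (by positivity) (by positivity)]
  have h3 : κ * ((2 * (m : ℝ) + 1) * 2) ≤ 1 * ((2 * (m : ℝ) + 1) * 2) :=
    mul_le_mul_of_nonneg_right hκ1 (by positivity)
  have h4 : 1 * ((2 * (m : ℝ) + 1) * 2) ≤ 1 * (2 * (2 * (k : ℝ)) * (2 * m + 1)) := by
    nlinarith
  linarith

theorem sep_bound {k l : ℕ} (hd : 2 ≤ d) (hk : 1 ≤ k) {p1 p κ β : ℝ} (hp0 : 0 < p1)
    (hpp : p1 < p) (hp1 : p < 1) (hκ : 0 < κ) (hκ1 : κ ≤ 1) (hβ : 0 < β)
    (hβκ : β ≤ κ / 2 ^ (d + 6)) (hth : 0 < th d l p (2 * k : ℝ)) :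
    ∃ c0 : ℝ, 0 < c0 ∧ ∃ L0 : ℕ, ∀ (D O : Finset (Pt d × Pt d)) (c c' : Pt d) (a b : ℕ),
      IsLat D → O ⊆ D → L0 ≤ a → L0 ≤ b → a ≤ 2 * b → b ≤ 2 * a →
      lat (thick c c' (max a b)) ⊆ D →
      (∀ x ∈ thick c c' (max a b), ∀ z ∈ cube c a ∪ cube c' b,
        κ ≤ P D (pr O p1) (2 * k : ℝ) (fun A => Conn A x z)) →
      (∀ x ∈ cube c a ∪ cube c' b, ∀ e ∈ O, e ∉ lat (cube x l)) →
      P D (pr O p) (2 * k : ℝ) (fun A => ∃ x y, ¬ Conn A x y ∧
        (1 - β) * th d l p (2 * k : ℝ) * (cube c a).card ≤ (cl A (cube c a) x).card ∧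
        (1 - β) * th d l p (2 * k : ℝ) * (cube c' b).card ≤ (cl A (cube c' b) y).card) ≤
      Real.exp (-c0 * (min a b : ℕ)) := by
  have hk' : (1 : ℝ) ≤ k := by exact_mod_cast hk
  have hpz : 0 < p := hp0.trans hpp
  obtain ⟨L1, hLP⟩ := lp_lower hd hk hp0 hpp hp1 hκ hκ1
  have hq1 : (1 : ℝ) ≤ 2 * (k : ℝ) := by linarith
  have hq0 : (0 : ℝ) < 2 * (k : ℝ) := by linarith
  have hθ1 : th d l p (2 * k : ℝ) ≤ 1 := th_le_one hq1 hpz.le hp1.le
  have hδ : 0 < κ / 2 ^ (d + 6) := by positivity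
  have hδ4 : κ / 2 ^ (d + 6) ≤ 1 / 4 := by
    rw [div_le_div_iff₀ (by positivity) (by norm_num)]
    have h1 : (2 : ℝ) ^ 2 ≤ 2 ^ (d + 6) := pow_le_pow_right₀ (by norm_num) (by omega)
    nlinarith
  obtain ⟨t0, ht0, hmom⟩ := moment_small (d := d) (l := l) hq1 hpz.le hp1.le hδ
  obtain ⟨c1, hc1, hch⟩ := chernoff (d := d) (l := l) hq1 hpz.le hp1.le hth hδ
  set θ : ℝ := th d l p (2 * k : ℝ) with hθdef
  set δ : ℝ := κ / 2 ^ (d + 6) with hδdef
  have hc2 : 0 < (p - p1) * κ ^ 2 / (32 * k) := by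
    have h1 : 0 < p - p1 := by linarith
    positivity
  set c3 : ℝ := min c1 ((p - p1) * κ ^ 2 / (32 * k)) with hc3def
  have hc3 : 0 < c3 := lt_min hc1 hc2
  obtain ⟨N, hN⟩ := exists_nat_ge (1 / t0 + ((2 * l + 1 : ℕ) : ℝ) ^ d / (δ * θ) + 6 / c3)
  have hN1 : 1 / t0 ≤ N := by
    have h1 : 0 ≤ ((2 * l + 1 : ℕ) : ℝ) ^ d / (δ * θ) := by positivity
    have h2 : 0 ≤ 6 / c3 := by positivity
    linarith
  have hN2 : ((2 * l + 1 : ℕ) : ℝ) ^ d / (δ * θ) ≤ N := by
    have h1 : 0 ≤ 1 / t0 := by positivity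
    have h2 : 0 ≤ 6 / c3 := by positivity
    linarith
  have hN3 : 6 / c3 ≤ N := by
    have h1 : 0 ≤ 1 / t0 := by positivity
    have h2 : 0 ≤ ((2 * l + 1 : ℕ) : ℝ) ^ d / (δ * θ) := by positivity
    linarith
  have hN2' : ((2 * l + 1 : ℕ) : ℝ) ^ d ≤ N * (δ * θ) := (div_le_iff₀ (by positivity)).1 hN2
  have hN3' : 6 ≤ N * c3 := (div_le_iff₀ hc3).1 hN3
  have hN1' : 1 ≤ N * t0 := (div_le_iff₀ ht0).1 hN1
  refine ⟨c3, hc3, max L1 N, ?_⟩
  intro D O c c' a b hD hO ha hb hab hba hlat hκP hOl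
  have haN : (N : ℝ) ≤ a := by exact_mod_cast (le_max_right L1 N).trans ha
  have hbN : (N : ℝ) ≤ b := by exact_mod_cast (le_max_right L1 N).trans hb
  have hminN : (N : ℝ) ≤ (min a b : ℕ) := by
    have h1 : N ≤ min a b := le_min ((le_max_right L1 N).trans ha) ((le_max_right L1 N).trans hb)
    exact_mod_cast h1
  have hmaxN : (N : ℝ) ≤ (max a b : ℕ) := by
    have h1 : N ≤ max a b := ((le_max_right L1 N).trans ha).trans (le_max_left a b)
    exact_mod_cast h1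
  have hw : Adm D (pr O p) := adm_pr hpz.le hp1.le
  set S : Finset (Pt d) := sepS D (thick c c' (max a b)) with hSdef
  have hS : Verts D S := sepS_verts D _
  have hTS : thick c c' (max a b) ⊆ S := sepS_left D _
  have hQS : cube c a ⊆ S := (sep_cube_thick c c' (le_max_left a b)).trans hTS
  have hQS' : cube c' b ⊆ S := (sep_cube_thick' c c' (le_max_right a b)).trans hTS
  have hcard : ((cube c a).card : ℝ) = (2 * a + 1) ^ d := by
    rw [card_cube]; push_cast; ring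
  have hcard' : ((cube c' b).card : ℝ) = (2 * b + 1) ^ d := by
    rw [card_cube]; push_cast; ring
  have hpow : ∀ t : ℝ, 0 ≤ t → 2 * t + 1 ≤ (2 * t + 1) ^ d := by
    intro t ht
    calc 2 * t + 1 = (2 * t + 1) ^ 1 := (pow_one _).symm
      _ ≤ (2 * t + 1) ^ d := pow_le_pow_right₀ (by linarith) (by omega)
  have hNnn : (0 : ℝ) ≤ N := Nat.cast_nonneg _
  have hbig : (N : ℝ) ≤ (cube c a).card := by
    rw [hcard]; linarith [hpow a (hNnn.trans haN)]
  have hbig' : (N : ℝ) ≤ (cube c' b).card := by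
    rw [hcard']; linarith [hpow b (hNnn.trans hbN)]
  -- the field
  have hpp0 : 0 ≤ p - p1 := by linarith
  have hlam : 0 ≤ spd k κ (max a b) * (p - p1) := by
    unfold spd
    positivity
  have hlam1 : spd k κ (max a b) * (p - p1) ≤ 1 / (2 * (max a b : ℕ) + 1) / 2 :=
    sep_spd_le hk hκ.le hκ1 (by linarith) _
  have hlam2 : spd k κ (max a b) * (p - p1) * (2 * (2 * (max a b : ℕ) + 1)) ≤ 1 := by
    rw [div_div, le_div_iff₀ (by positivity)] at hlam1
    linarith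
  set lam : ℝ := spd k κ (max a b) * (p - p1) with hlamdef
  have hM0 : (0 : ℝ) ≤ (max a b : ℕ) := Nat.cast_nonneg _
  have hlamN : lam * N ≤ 1 := by
    have h1 : lam * N ≤ lam * (2 * (2 * (max a b : ℕ) + 1)) :=
      mul_le_mul_of_nonneg_left (by linarith) hlam
    linarith
  have hlamt : 2 * lam ≤ t0 := by
    have h1 : (N : ℝ) * t0 ≤ (2 * (max a b : ℕ) + 1) * t0 :=
      mul_le_mul_of_nonneg_right (by linarith) ht0.le
    have h2 : 2 * lam * (2 * (max a b : ℕ) + 1) ≤ t0 * (2 * (max a b : ℕ) + 1) := by linarith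
    exact le_of_mul_le_mul_right h2 (by positivity)
  have hsm : ((2 * l + 1 : ℕ) : ℝ) ^ d * lam ≤ δ * θ := by
    calc ((2 * l + 1 : ℕ) : ℝ) ^ d * lam ≤ (N * (δ * θ)) * lam :=
          mul_le_mul_of_nonneg_right hN2' hlam
      _ = (lam * N) * (δ * θ) := by ring
      _ ≤ 1 * (δ * θ) := mul_le_mul_of_nonneg_right hlamN (by positivity)
      _ = δ * θ := one_mul _
  have hle : ∀ T : Finset (Pt d), T ⊆ cube c a ∪ cube c' b →
      ∀ x ∈ T, ∀ e ∈ D, e ∈ lat (cube x l) → pr O p e ≤ p := by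
    intro T hT x hx e _ he
    have h1 : e ∉ O := fun h => hOl x (hT hx) e h he
    unfold pr
    rw [if_neg h1]
  have hmQ := hmom D (pr O p) hD hw (cube c a) (hle _ Finset.subset_union_left) (2 * lam)
    (by linarith) hlamt
  have hmQ' := hmom D (pr O p) hD hw (cube c' b) (hle _ Finset.subset_union_right) (2 * lam)
    (by linarith) hlamt
  have hchQ := hch D (pr O p) hD hw (cube c a) (hle _ Finset.subset_union_left)
  have hchQ' := hch D (pr O p) hD hw (cube c' b) (hle _ Finset.subset_union_right)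
  have hJZa := sep_JZa hq0 hD hw hS hQS hQS' hlam hmQ hmQ' hsm
  have hlp := hLP D O S c c' a b hO hS hTS ((le_max_left L1 N).trans ha)
    ((le_max_left L1 N).trans hb) hab hba hlat hκP
  -- the good event
  have hNθ : ((2 * l + 1 : ℕ) : ℝ) ^ d ≤ δ * (θ * (cube c a).card) := by
    calc ((2 * l + 1 : ℕ) : ℝ) ^ d ≤ N * (δ * θ) := hN2'
      _ ≤ (cube c a).card * (δ * θ) := mul_le_mul_of_nonneg_right hbig (by positivity)
      _ = δ * (θ * (cube c a).card) := by ring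
  have hNθ' : ((2 * l + 1 : ℕ) : ℝ) ^ d ≤ δ * (θ * (cube c' b).card) := by
    calc ((2 * l + 1 : ℕ) : ℝ) ^ d ≤ N * (δ * θ) := hN2'
      _ ≤ (cube c' b).card * (δ * θ) := mul_le_mul_of_nonneg_right hbig' (by positivity)
      _ = δ * (θ * (cube c' b).card) := by ring
  have hθQ : 0 < θ * (cube c a).card := by
    rw [hcard]; positivity
  have hθQ' : 0 < θ * (cube c' b).card := by
    rw [hcard']; positivity
  have hlow := sep_lower (D := D) (w := pr O p) hq0 hw hS (fun x => lam * hm (cube c a) (cube c' b) x)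
    (lam * ((1 - 3 * δ) * (θ * (cube c a).card + θ * (cube c' b).card)))
    (fun A => (∃ x y, ¬ Conn A x y ∧
        (1 - β) * θ * (cube c a).card ≤ (cl A (cube c a) x).card ∧
        (1 - β) * θ * (cube c' b).card ≤ (cl A (cube c' b) y).card) ∧
      (nFar l A (cube c a) : ℝ) ≤ (1 + δ) * θ * (cube c a).card ∧
      (nFar l A (cube c' b) : ℝ) ≤ (1 + δ) * θ * (cube c' b).card)
    (by
      rintro A hA _ _ ⟨⟨x, y, hxy, hx, hy⟩, hF, hF'⟩
      have hAl : IsLat A := fun e he => hD e (hA he)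
      have hβ1 : 0 < 1 - β := by linarith
      have hcx : 0 < (cl A (cube c a) x).card := by
        have h1 : (0 : ℝ) < (cl A (cube c a) x).card := by
          refine lt_of_lt_of_le ?_ hx
          rw [mul_assoc]
          exact mul_pos hβ1 hθQ
        exact_mod_cast h1
      have hcy : 0 < (cl A (cube c' b) y).card := by
        have h1 : (0 : ℝ) < (cl A (cube c' b) y).card := by
          refine lt_of_lt_of_le ?_ hy
          rw [mul_assoc]
          exact mul_pos hβ1 hθQ'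
        exact_mod_cast h1
      obtain ⟨x', hx'⟩ := Finset.card_pos.1 hcx
      obtain ⟨y', hy'⟩ := Finset.card_pos.1 hcy
      rw [mem_cl] at hx' hy'
      have hxy' : ¬ Conn A x' y' := fun h => hxy ((hx'.2.trans' h).trans' hy'.2.symm')
      rw [← sep_cl_conn (cube c a) hx'.2] at hx
      rw [← sep_cl_conn (cube c' b) hy'.2] at hy
      refine ⟨x', hQS hx'.1, y', hQS' hy'.1, hxy', ?_⟩
      rw [sep_hm_sum A hQS hQS', sep_hm_sum A hQS hQS']
      have h1 := sep_core_half hAl hxy' hβκ hδ4 hθQ hNθ hx hF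
      have h2 := sep_core_half hAl (fun h => hxy' h.symm') hβκ hδ4 hθQ' hNθ' hy hF'
      rw [← mul_sub]
      refine mul_le_mul_of_nonneg_left ?_ hlam
      linarith)
  have hZ0 : 0 < Z D (pr O p) (2 * k : ℝ) := Z_pos hq0 hw
  have hZa : 0 < JZ D (pr O p) (2 * k : ℝ) S (fun x => lam * hp (cube c a) (cube c' b) x) :=
    JZ_pos hq0 hw hS _
  have hZb : 0 < JZ D (pr O p) (2 * k : ℝ) S (fun x => lam * hm (cube c a) (cube c' b) x) :=
    JZ_pos hq0 hw hS _
  have hmain := sep_comb hZ0 hZa hZb hlow hJZa hlp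
  have hnum := sep_num (a := a) (b := b) hd hk hpp0 hκ.le hθ1 hab hba
  rw [← hlamdef, ← hδdef, ← hcard, ← hcard'] at hnum
  have hminpow : (2 * (min a b : ℕ) + 1 : ℝ) ≤ (2 * (min a b : ℕ) + 1 : ℝ) ^ (d - 1) := by
    calc (2 * (min a b : ℕ) + 1 : ℝ) = (2 * (min a b : ℕ) + 1 : ℝ) ^ 1 := (pow_one _).symm
      _ ≤ _ := pow_le_pow_right₀ (by
        have : (0 : ℝ) ≤ (min a b : ℕ) := Nat.cast_nonneg _
        linarith) (by omega)
  have hexp : lam * ((1 + 2 * δ) * (θ * (cube c a).card + θ * (cube c' b).card)) -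
      (p - p1) * κ ^ 2 / (8 * (2 * k)) * (2 * (min a b : ℕ) + 1 : ℝ) ^ (d - 1) -
      lam * ((1 - 3 * δ) * (θ * (cube c a).card + θ * (cube c' b).card)) ≤
      -c3 * (2 * (min a b : ℕ) + 1) := by
    have h1 : (p - p1) * κ ^ 2 / (8 * (2 * (k : ℝ))) = 2 * ((p - p1) * κ ^ 2 / (32 * k)) := by
      have h10 : (k : ℝ) ≠ 0 := by positivity
      field_simp
      ring
    have h2 : lam * ((1 + 2 * δ) * (θ * (cube c a).card + θ * (cube c' b).card)) -
      lam * ((1 - 3 * δ) * (θ * (cube c a).card + θ * (cube c' b).card)) =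
      lam * (5 * δ * (θ * (cube c a).card + θ * (cube c' b).card)) := by ring
    have h3 : c3 * (2 * (min a b : ℕ) + 1) ≤
        (p - p1) * κ ^ 2 / (32 * k) * (2 * (min a b : ℕ) + 1 : ℝ) ^ (d - 1) :=
      mul_le_mul (min_le_right _ _) hminpow (by positivity) hc2.le
    rw [h1]
    linarith
  have hE' := hmain.trans (mul_le_mul_of_nonneg_left (Real.exp_le_exp.2 hexp)
    (by norm_num : (0 : ℝ) ≤ 4))
  have hsplit := sep_split (D := D) (w := pr O p) hq0 hw
    (fun A => ∃ x y, ¬ Conn A x y ∧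
        (1 - β) * θ * (cube c a).card ≤ (cl A (cube c a) x).card ∧
        (1 - β) * θ * (cube c' b).card ≤ (cl A (cube c' b) y).card)
    (fun A => (∃ x y, ¬ Conn A x y ∧
        (1 - β) * θ * (cube c a).card ≤ (cl A (cube c a) x).card ∧
        (1 - β) * θ * (cube c' b).card ≤ (cl A (cube c' b) y).card) ∧
      (nFar l A (cube c a) : ℝ) ≤ (1 + δ) * θ * (cube c a).card ∧
      (nFar l A (cube c' b) : ℝ) ≤ (1 + δ) * θ * (cube c' b).card)
    (fun A => (1 + δ) * θ * (cube c a).card < nFar l A (cube c a))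
    (fun A => (1 + δ) * θ * (cube c' b).card < nFar l A (cube c' b))
    (by
      intro A _ hA
      by_cases h1 : (1 + δ) * θ * (cube c a).card < nFar l A (cube c a)
      · exact Or.inr (Or.inl h1)
      · by_cases h2 : (1 + δ) * θ * (cube c' b).card < nFar l A (cube c' b)
        · exact Or.inr (Or.inr h2)
        · exact Or.inl ⟨hA, not_lt.1 h1, not_lt.1 h2⟩)
  refine hsplit.trans ?_
  have hmn0 : (0 : ℝ) ≤ (min a b : ℕ) := Nat.cast_nonneg _
  have hmn1 : ((min a b : ℕ) : ℝ) ≤ a := by exact_mod_cast min_le_left a b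
  have hmn2 : ((min a b : ℕ) : ℝ) ≤ b := by exact_mod_cast min_le_right a b
  have hB1 : Real.exp (-c1 * (cube c a).card) ≤ Real.exp (-c3 * (2 * (min a b : ℕ) + 1)) := by
    refine Real.exp_le_exp.2 ?_
    have h1 : (2 * (min a b : ℕ) + 1 : ℝ) ≤ (cube c a).card := by
      rw [hcard]; linarith [hpow a (hNnn.trans haN)]
    have h2 : c3 * (2 * (min a b : ℕ) + 1) ≤ c1 * (cube c a).card :=
      mul_le_mul (min_le_left _ _) h1 (by positivity) hc1.le
    linarith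
  have hB2 : Real.exp (-c1 * (cube c' b).card) ≤ Real.exp (-c3 * (2 * (min a b : ℕ) + 1)) := by
    refine Real.exp_le_exp.2 ?_
    have h1 : (2 * (min a b : ℕ) + 1 : ℝ) ≤ (cube c' b).card := by
      rw [hcard']; linarith [hpow b (hNnn.trans hbN)]
    have h2 : c3 * (2 * (min a b : ℕ) + 1) ≤ c1 * (cube c' b).card :=
      mul_le_mul (min_le_left _ _) h1 (by positivity) hc1.le
    linarith
  have hfin : 6 * Real.exp (-c3 * (2 * (min a b : ℕ) + 1)) ≤ Real.exp (-c3 * (min a b : ℕ)) := by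
    have h1 : Real.exp (-c3 * (min a b : ℕ)) = Real.exp (c3 * ((min a b : ℕ) + 1)) *
        Real.exp (-c3 * (2 * (min a b : ℕ) + 1)) := by
      rw [← Real.exp_add]; congr 1; ring
    rw [h1]
    refine mul_le_mul_of_nonneg_right ?_ (Real.exp_nonneg _)
    have h2 := Real.add_one_le_exp (c3 * ((min a b : ℕ) + 1))
    have h3 : (N : ℝ) * c3 ≤ ((min a b : ℕ) + 1) * c3 :=
      mul_le_mul_of_nonneg_right (by linarith) hc3.le
    linarith
  linarith

end FKB
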