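import Pool.Agent.FKB.LP
import Pool.Agent.FKB.Moment
import Pool.Agent.FKB.SepA

open Finset
noncomputable section
namespace FKB

namespace SepSeed

theorem sum_ind_mem {V : Type*} [DecidableEq V] (T R : Finset V) :
    ∑ x ∈ T, ind (x ∈ R) = ((T ∩ R).card : ℝ) := by
  classical
  rw [← Finset.filter_mem_eq_inter, Finset.card_filter]
  push_cast
  refine Finset.sum_congr rfl fun x _ => ?_
  by_cases h : x ∈ R <;> simp [ind, h]

variable {d : ℕ}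

theorem cube_sub_left (c c' : Pt d) {a m : ℕ} (h : a ≤ m) : cube c a ⊆ thick c c' m := by
  have h' : (a : ℤ) ≤ m := by exact_mod_cast h
  intro x hx
  rw [cube, mem_Icc] at hx
  rw [thick, mem_Icc]
  refine ⟨fun i => ?_, fun i => ?_⟩
  · have h1 := hx.1 i
    have h2 := min_le_left (c i) (c' i)
    simp only at h1 ⊢
    linarith
  · have h1 := hx.2 i
    have h2 := le_max_left (c i) (c' i)
    simp only at h1 ⊢
    linarith

theorem cube_sub_right (c c' : Pt d) {b m : ℕ} (h : b ≤ m) : cube c' b ⊆ thick c c' m := by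
  have h' : (b : ℤ) ≤ m := by exact_mod_cast h
  intro x hx
  rw [cube, mem_Icc] at hx
  rw [thick, mem_Icc]
  refine ⟨fun i => ?_, fun i => ?_⟩
  · have h1 := hx.1 i
    have h2 := min_le_right (c i) (c' i)
    simp only at h1 ⊢
    linarith
  · have h1 := hx.2 i
    have h2 := le_max_right (c i) (c' i)
    simp only at h1 ⊢
    linarith

theorem nFar_eq (l : ℕ) (A : Finset (Pt d × Pt d)) (T : Finset (Pt d)) :
    (nFar l A T : ℝ) = ∑ x ∈ T, ind (Far l A x) := by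
  classical
  rw [nFar, Finset.card_filter]
  push_cast
  refine Finset.sum_congr rfl fun x _ => ?_
  by_cases h : Far l A x <;> simp [ind, h]

/-- the linear functional in the upper bound -/
theorem sum_upper {Q Q' S : Finset (Pt d)} (hQ : Q ⊆ S) (hQ' : Q' ⊆ S) (hdis : Disjoint Q Q')
    (h : ℝ) (l : ℕ) (A : Finset (Pt d × Pt d)) :
    ∑ x ∈ S, h * hp Q Q' x * ind (x ∈ Q ∨ Far l A x) = h * (Q.card + nFar l A Q') := by
  have e : ∀ x ∈ S, h * hp Q Q' x * ind (x ∈ Q ∨ Far l A x) =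
      h * ind (x ∈ Q) + h * (if x ∈ Q' then ind (Far l A x) else 0) := by
    intro x _
    by_cases hx : x ∈ Q
    · have hx' : x ∉ Q' := Finset.disjoint_left.1 hdis hx
      rw [hp, ind_true hx, ind_false hx', ind_true (Or.inl hx), if_neg hx']
      ring
    · by_cases hx' : x ∈ Q'
      · rw [hp, ind_false hx, ind_true hx', if_pos hx',
          ind_congr (show (x ∈ Q ∨ Far l A x) ↔ Far l A x from ⟨fun h => h.resolve_left hx, Or.inr⟩)]
        ring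
      · rw [hp, ind_false hx, ind_false hx', if_neg hx']
        ring
  rw [Finset.sum_congr rfl e, Finset.sum_add_distrib, ← Finset.mul_sum, ← Finset.mul_sum,
    sum_ind_mem, Finset.inter_eq_right.2 hQ, Finset.sum_ite_mem, Finset.inter_eq_right.2 hQ',
    ← nFar_eq]
  ring

theorem sum_sq {Q Q' S : Finset (Pt d)} (hQ : Q ⊆ S) (hQ' : Q' ⊆ S) (hdis : Disjoint Q Q')
    (h : ℝ) : ∑ x ∈ S, (h * hp Q Q' x) ^ 2 = h ^ 2 * (Q.card + Q'.card) := by
  have e : ∀ x ∈ S, (h * hp Q Q' x) ^ 2 = h ^ 2 * ind (x ∈ Q) + h ^ 2 * ind (x ∈ Q') := by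
    intro x _
    by_cases hx : x ∈ Q
    · have hx' : x ∉ Q' := Finset.disjoint_left.1 hdis hx
      rw [hp, ind_true hx, ind_false hx']
      ring
    · by_cases hx' : x ∈ Q'
      · rw [hp, ind_false hx, ind_true hx']
        ring
      · rw [hp, ind_false hx, ind_false hx']
        ring
  rw [Finset.sum_congr rfl e, Finset.sum_add_distrib, ← Finset.mul_sum, ← Finset.mul_sum,
    sum_ind_mem, sum_ind_mem, Finset.inter_eq_right.2 hQ, Finset.inter_eq_right.2 hQ']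
  ring

theorem cl_inter {Q S : Finset (Pt d)} (hQ : Q ⊆ S) (A : Finset (Pt d × Pt d)) (x : Pt d) :
    cl A S x ∩ Q = cl A Q x := by
  ext y
  rw [Finset.mem_inter, mem_cl, mem_cl]
  constructor
  · rintro ⟨⟨_, h⟩, h'⟩
    exact ⟨h', h⟩
  · rintro ⟨h', h⟩
    exact ⟨⟨hQ h', h⟩, h'⟩

theorem sum_cl {Q Q' S : Finset (Pt d)} (hQ : Q ⊆ S) (hQ' : Q' ⊆ S)
    (h : ℝ) (A : Finset (Pt d × Pt d)) (x : Pt d) :
    ∑ z ∈ cl A S x, h * hm Q Q' z = h * ((cl A Q x).card - (cl A Q' x).card) := by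
  simp only [hm]
  rw [← Finset.mul_sum, Finset.sum_sub_distrib, sum_ind_mem, sum_ind_mem, cl_inter hQ, cl_inter hQ']

theorem est {D O : Finset (Pt d × Pt d)} {q p : ℝ} (hq : 0 < q) (hw : Adm D (pr O p)) {l : ℕ}
    {Q Q' S : Finset (Pt d)} {c : Pt d} (hD : IsLat D) (hOD : O ⊆ D) (hS : Verts D S)
    (hQ : Q ⊆ S) (hQ' : Q' ⊆ S) (hcS : c ∈ S)
    (hc : ∀ x ∈ Q, Conn O c x) {h θ β δ : ℝ} (hh : 0 ≤ h)
    (hN : (((2 * l + 1) ^ d : ℕ) : ℝ) ≤ (δ + β) * θ * Q'.card)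
    (hN' : (((2 * l + 1) ^ d : ℕ) : ℝ) < (1 - β) * θ * Q'.card) :
    P D (pr O p) q (fun A => (∃ y, ¬ Conn A c y ∧ (1 - β) * θ * Q'.card ≤ (cl A Q' y).card) ∧
        (nFar l A Q' : ℝ) ≤ (1 + δ) * θ * Q'.card) *
      (1 / 4 * Real.exp (h * (Q.card + (1 - 2 * β - δ) * θ * Q'.card))) ≤
      JZ D (pr O p) q S (fun x => h * hm Q Q' x) / Z D (pr O p) q := by
  refine sep_lower hq hw hS _ _ _ ?_
  rintro A hA hO _ ⟨⟨y, hy1, hy2⟩, hfar⟩
  have hOA : O ⊆ A := fun e he => hO e (hOD he) (by simp [pr, he])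
  have hAl : IsLat A := fun e he => hD e (hA he)
  have hne : (cl A Q' y).Nonempty := by
    rw [← Finset.card_pos]
    have h0 : (0 : ℝ) ≤ (((2 * l + 1) ^ d : ℕ) : ℝ) := Nat.cast_nonneg _
    have : (0 : ℝ) < (cl A Q' y).card := by linarith
    exact_mod_cast this
  obtain ⟨y', hy'⟩ := hne
  rw [mem_cl] at hy'
  have hcy' : ¬ Conn A c y' := fun h => hy1 (h.trans' hy'.2.symm')
  have e1 : cl A Q' y' = cl A Q' y := by
    ext z
    rw [mem_cl, mem_cl]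
    exact ⟨fun h => ⟨h.1, hy'.2.trans' h.2⟩, fun h => ⟨h.1, hy'.2.symm'.trans' h.2⟩⟩
  have e2 : cl A Q c = Q := by
    ext z
    rw [mem_cl]
    exact ⟨fun h => h.1, fun h => ⟨h, (hc z h).mono' hOA⟩⟩
  have e3 : cl A Q y' = ∅ := by
    rw [Finset.eq_empty_iff_forall_notMem]
    intro z hz
    rw [mem_cl] at hz
    exact hcy' (((hc z hz.1).mono' hOA).trans' hz.2.symm')
  refine ⟨c, hcS, y', hQ' hy'.1, hcy', ?_⟩
  rw [sum_cl hQ hQ', sum_cl hQ hQ', e1, e2, e3, Finset.card_empty]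
  have hx : (2 * l + 1) ^ d < (cl A Q' y').card := by
    rw [e1]
    have : (((2 * l + 1) ^ d : ℕ) : ℝ) < (cl A Q' y).card := hN'.trans_le hy2
    exact_mod_cast this
  have hmx := card_cl_add_le hAl Q' (x := y') (y := c) (fun h => hcy' h.symm') hx
  rw [e1] at hmx
  have hkey : ((cl A Q' c).card : ℝ) ≤ (δ + β) * θ * Q'.card := by
    rcases le_max_iff.1 hmx with h1 | h1
    · have h2 : ((cl A Q' c).card : ℝ) + (cl A Q' y).card ≤ nFar l A Q' := by exact_mod_cast h1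
      have h3 : (δ + β) * θ * Q'.card = (1 + δ) * θ * Q'.card - (1 - β) * θ * Q'.card := by ring
      rw [h3]
      linarith
    · have h2 : ((cl A Q' c).card : ℝ) ≤ (((2 * l + 1) ^ d : ℕ) : ℝ) := by
        have : (cl A Q' c).card ≤ (2 * l + 1) ^ d := by omega
        exact_mod_cast this
      exact h2.trans hN
  have hfin : (Q.card : ℝ) + (1 - 2 * β - δ) * θ * Q'.card ≤
      (Q.card - (cl A Q' c).card : ℝ) - (0 - (cl A Q' y).card) := by
    have h3 : (1 - 2 * β - δ) * θ * Q'.card =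
      (1 - β) * θ * Q'.card - (δ + β) * θ * Q'.card := by ring
    rw [h3]
    linarith
  have := mul_le_mul_of_nonneg_left hfin hh
  push_cast
  linarith

theorem upper {D O : Finset (Pt d × Pt d)} {q p : ℝ} (hq : 0 < q) (hw : Adm D (pr O p)) {l : ℕ}
    {Q Q' S : Finset (Pt d)} (hD : IsLat D) (hS : Verts D S)
    (hQ : Q ⊆ S) (hQ' : Q' ⊆ S) (hdis : Disjoint Q Q') {h M : ℝ} (hh : 0 ≤ h)
    (hM : E D (pr O p) q (fun A => Real.exp (h * nFar l A Q')) ≤ Real.exp M) :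
    JZ D (pr O p) q S (fun x => h * hp Q Q' x) / Z D (pr O p) q ≤
      Real.exp (h * Q.card + M + ((2 * l + 1 : ℕ) : ℝ) ^ d / 2 * (h ^ 2 * (Q.card + Q'.card))) := by
  have h1 := JZ_upper (q := q) (w := pr O p) hq hD hw hS (fun x => h * hp Q Q' x)
    (fun x _ => mul_nonneg hh (add_nonneg (ind_nonneg _) (ind_nonneg _))) l Q
  refine h1.trans ?_
  simp only [sum_sq hQ hQ' hdis h, sum_upper hQ hQ' hdis h l]
  have e : (fun A => Real.exp (h * ((Q.card : ℝ) + nFar l A Q'))) =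
      (fun A => Real.exp (h * Q.card) * Real.exp (h * nFar l A Q')) := by
    funext A
    rw [← Real.exp_add]
    congr 1
    ring
  rw [e, E_smul, Real.exp_add, Real.exp_add]
  gcongr

theorem exponent_bound {κ δ β θ N h τX G x y : ℝ} (hκ : 0 < κ) (hδ : δ = κ / 2 ^ (d + 6))
    (hβ : 0 < β) (hβδ : β ≤ δ) (hθ1 : θ ≤ 1) (hh : 0 ≤ h) (hx : 0 ≤ x)
    (hy : 0 ≤ y) (hGx : h * x ≤ G) (hGy : h * y ≤ G) (hτ : τX = G * κ / 2 ^ (d + 1))
    (hNh : N * h ≤ κ / 2 ^ (d + 4)) :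
    -τX + 2 * (δ + β) * θ * (h * y) + N / 2 * (h ^ 2 * (x + y)) ≤ -(3 / 4 * τX) := by
  have h2 : (0 : ℝ) < 2 ^ d := by positivity
  have hG : 0 ≤ G := (mul_nonneg hh hx).trans hGx
  have e1 : 2 * (δ + β) * θ * (h * y) ≤ G * κ / 2 ^ (d + 4) := by
    have h1 : 2 * (δ + β) * θ ≤ 4 * δ := by nlinarith
    have h3 : 0 ≤ h * y := mul_nonneg hh hy
    have h4 : 0 < δ := by rw [hδ]; positivity
    calc 2 * (δ + β) * θ * (h * y) ≤ 4 * δ * G := by
          exact mul_le_mul h1 hGy h3 (by positivity)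
      _ = G * κ / 2 ^ (d + 4) := by
          rw [hδ, pow_add, pow_add]
          field_simp
          ring
  have e2 : N / 2 * (h ^ 2 * (x + y)) ≤ G * κ / 2 ^ (d + 4) := by
    calc N / 2 * (h ^ 2 * (x + y)) = (N * h) * ((h * x + h * y) / 2) := by ring
      _ ≤ (κ / 2 ^ (d + 4)) * G := by
          refine mul_le_mul hNh (by linarith) ?_ (by positivity)
          have := mul_nonneg hh hx
          have := mul_nonneg hh hy
          linarith
      _ = G * κ / 2 ^ (d + 4) := by ring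
  have e3 : G * κ / 2 ^ (d + 4) = τX / 8 := by
    rw [hτ, pow_add, pow_add]
    field_simp
    ring
  rw [e3] at e1 e2
  linarith

theorem G_bound {κ p p1 q : ℝ} (hd : 1 ≤ d) (hκ : 0 < κ) (hpp : p1 < p) (hq : 0 < q)
    {a m mn : ℕ} (ham : a ≤ m) (hmn : m ≤ 2 * mn) :
    κ / (2 * q * (2 * m + 1)) * (p - p1) * (2 * a + 1 : ℝ) ^ d ≤
      κ * (p - p1) / (2 * q) * 2 ^ (d - 1) * (2 * mn + 1 : ℝ) ^ (d - 1) := by
  obtain ⟨e, rfl⟩ : ∃ e, d = e + 1 := ⟨d - 1, by omega⟩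
  have h1 : (a : ℝ) ≤ m := by exact_mod_cast ham
  have h2 : (m : ℝ) ≤ 2 * mn := by exact_mod_cast hmn
  have h3 : 0 < p - p1 := by linarith
  have hm0 : (0 : ℝ) ≤ m := Nat.cast_nonneg m
  have hmn0 : (0 : ℝ) ≤ mn := Nat.cast_nonneg mn
  simp only [Nat.add_sub_cancel]
  calc κ / (2 * q * (2 * m + 1)) * (p - p1) * (2 * a + 1 : ℝ) ^ (e + 1) ≤
        κ / (2 * q * (2 * m + 1)) * (p - p1) * (2 * m + 1 : ℝ) ^ (e + 1) := by gcongr
    _ = κ * (p - p1) / (2 * q) * (2 * m + 1 : ℝ) ^ e := by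
        rw [pow_succ]
        field_simp
    _ ≤ κ * (p - p1) / (2 * q) * (2 * (2 * mn + 1) : ℝ) ^ e := by
        gcongr
        linarith
    _ = _ := by rw [mul_pow]; ring

theorem h_le {κ p p1 q ε : ℝ} (hκ1 : κ ≤ 1) (hp0 : 0 < p1) (hpp : p1 < p)
    (hp1 : p < 1) (hq : 1 ≤ q) (hε : 0 < ε) {n1 m : ℕ} (hn1 : 1 / ε ≤ n1) (hnm : n1 ≤ m) :
    κ / (2 * q * (2 * m + 1)) * (p - p1) ≤ ε := by
  have hm0 : (0 : ℝ) ≤ m := Nat.cast_nonneg m
  have h3 : (n1 : ℝ) ≤ m := by exact_mod_cast hnm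
  rw [div_le_iff₀ hε] at hn1
  have h4 : κ * (p - p1) ≤ 1 * 1 := mul_le_mul hκ1 (by linarith) (by linarith) (by norm_num)
  rw [div_mul_eq_mul_div, div_le_iff₀ (by positivity)]
  have h5 : 1 ≤ m * ε := hn1.trans (mul_le_mul_of_nonneg_right h3 hε.le)
  have h6 : (m : ℝ) * ε ≤ (2 * q * (2 * m + 1)) * ε := by
    refine mul_le_mul_of_nonneg_right ?_ hε.le
    nlinarith
  linarith

theorem final_sum {τX cc c1 X y : ℝ} {mn : ℕ} (hc1 : 0 < c1) (h1 : c1 * X ≤ 3 / 4 * τX)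
    (h2 : c1 * X ≤ cc * y) (hX : 2 * (mn : ℝ) ≤ X) (hmn : 4 ≤ c1 * mn) :
    4 * Real.exp (-(3 / 4 * τX)) + Real.exp (-cc * y) ≤ Real.exp (-c1 * mn) := by
  have e1 : Real.exp (-(3 / 4 * τX)) ≤ Real.exp (-(c1 * mn)) * Real.exp (-(c1 * mn)) := by
    rw [← Real.exp_add, Real.exp_le_exp]
    nlinarith
  have e2 : Real.exp (-cc * y) ≤ Real.exp (-(c1 * mn)) * Real.exp (-(c1 * mn)) := by
    rw [← Real.exp_add, Real.exp_le_exp]
    nlinarith
  have e3 : 5 * Real.exp (-(c1 * mn)) ≤ 1 := by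
    rw [Real.exp_neg, mul_inv_le_iff₀ (Real.exp_pos _), one_mul]
    have := Real.add_one_le_exp (c1 * mn)
    linarith
  have e4 : 5 * Real.exp (-(c1 * mn)) * Real.exp (-(c1 * mn)) ≤ 1 * Real.exp (-(c1 * mn)) :=
    mul_le_mul_of_nonneg_right e3 (Real.exp_pos _).le
  have e5 : -c1 * (mn : ℝ) = -(c1 * mn) := by ring
  rw [e5]
  linarith

end SepSeed

variable {d : ℕ}

theorem sep_seed {k l : ℕ} (hd : 2 ≤ d) (hk : 1 ≤ k) {p1 p κ β : ℝ} (hp0 : 0 < p1)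
    (hpp : p1 < p) (hp1 : p < 1) (hκ : 0 < κ) (hκ1 : κ ≤ 1) (hβ : 0 < β)
    (hβκ : β ≤ κ / 2 ^ (d + 6)) (hth : 0 < th d l p (2 * k : ℝ)) :
    ∃ c0 : ℝ, 0 < c0 ∧ ∃ L0 : ℕ, ∀ (D O : Finset (Pt d × Pt d)) (c c' : Pt d) (a b : ℕ),
      IsLat D → O ⊆ D → L0 ≤ a → L0 ≤ b → a ≤ 2 * b → b ≤ 2 * a →
      lat (thick c c' (max a b)) ⊆ D →
      (∀ x ∈ thick c c' (max a b), ∀ z ∈ cube c a ∪ cube c' b,
        κ ≤ P D (pr O p1) (2 * k : ℝ) (fun A => Conn A x z)) →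
      (∀ x ∈ cube c a, Conn O c x) → Disjoint (cube c a) (cube c' b) →
      (∀ x ∈ cube c' b, ∀ e ∈ O, e ∉ lat (cube x l)) →
      P D (pr O p) (2 * k : ℝ) (fun A => ∃ y, ¬ Conn A c y ∧
        (1 - β) * th d l p (2 * k : ℝ) * (cube c' b).card ≤ (cl A (cube c' b) y).card) ≤
      Real.exp (-c0 * (min a b : ℕ)) := by
  classical
  obtain ⟨q, hq⟩ : ∃ q : ℝ, q = 2 * k := ⟨_, rfl⟩
  have hk1 : (1 : ℝ) ≤ k := by exact_mod_cast hk
  have hq1 : (1 : ℝ) ≤ q := by rw [hq]; linarith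
  have hq0 : 0 < q := by linarith
  have hp' : 0 < p := hp0.trans hpp
  have hpp' : 0 < p - p1 := by linarith
  obtain ⟨δ, hδ⟩ : ∃ δ : ℝ, δ = κ / 2 ^ (d + 6) := ⟨_, rfl⟩
  have hδ0 : 0 < δ := by rw [hδ]; positivity
  have h2d : (0 : ℝ) < 2 ^ d := by positivity
  have h2d1 : (1 : ℝ) ≤ 2 ^ d := one_le_pow₀ (by norm_num)
  have hδ1 : δ ≤ 1 / 64 := by
    rw [hδ, pow_add, div_le_div_iff₀ (by positivity) (by norm_num)]
    nlinarith
  have hL := lp_lower (d := d) hd hk hp0 hpp hp1 hκ hκ1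
  simp only [spd] at hL
  rw [← hδ] at hβκ
  simp only [← hq] at hth hL ⊢
  obtain ⟨θ, hθ⟩ : ∃ θ : ℝ, θ = th d l p q := ⟨_, rfl⟩
  have hθ1 : θ ≤ 1 := by
    rw [hθ]
    exact P_le_one hq0 (adm_pr hp'.le hp1.le) _
  obtain ⟨t0, ht0, hmom⟩ := moment_small (d := d) (l := l) hq1 hp'.le hp1.le hδ0
  obtain ⟨cc, hcc, hcher⟩ := chernoff (d := d) (l := l) hq1 hp'.le hp1.le hth hδ0
  obtain ⟨L1, hL1⟩ := hL
  simp only [← hθ] at hth hmom hcher ⊢
  obtain ⟨N, hN⟩ : ∃ N : ℝ, N = (((2 * l + 1) ^ d : ℕ) : ℝ) := ⟨_, rfl⟩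
  have hN1 : 1 ≤ N := by
    rw [hN]
    exact_mod_cast Nat.one_le_iff_ne_zero.2 (pow_ne_zero _ (by omega))
  obtain ⟨τ0, hτ0⟩ : ∃ τ0 : ℝ, τ0 = (p - p1) * κ ^ 2 / (8 * q) := ⟨_, rfl⟩
  have hτ0p : 0 < τ0 := by
    rw [hτ0]
    positivity
  obtain ⟨c1, hc1⟩ : ∃ c1 : ℝ, c1 = min (3 / 4 * τ0) cc := ⟨_, rfl⟩
  have hc1p : 0 < c1 := by rw [hc1]; exact lt_min (by positivity) hcc
  obtain ⟨ε, hε⟩ : ∃ ε : ℝ, ε = min t0 (κ / (2 ^ (d + 4) * N)) := ⟨_, rfl⟩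
  have hεp : 0 < ε := by rw [hε]; exact lt_min ht0 (by positivity)
  obtain ⟨n1, hn1⟩ := exists_nat_ge (1 / ε)
  obtain ⟨n2, hn2⟩ := exists_nat_ge (N / (δ * θ))
  obtain ⟨n3, hn3⟩ := exists_nat_ge (4 / c1)
  refine ⟨c1, hc1p, max (max L1 n1) (max n2 n3), ?_⟩
  intro D O c c' a b hD hOD ha hb hab hba hlat hconn hOc hdis hOQ
  have hw : Adm D (pr O p) := adm_pr hp'.le hp1.le
  have haL1 : L1 ≤ a := le_trans (le_trans (le_max_left _ _) (le_max_left _ _)) ha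
  have hbL1 : L1 ≤ b := le_trans (le_trans (le_max_left _ _) (le_max_left _ _)) hb
  have han1 : n1 ≤ a := le_trans (le_trans (le_max_right _ _) (le_max_left _ _)) ha
  have hbn2 : n2 ≤ b := le_trans (le_trans (le_max_left _ _) (le_max_right _ _)) hb
  have hbn3 : n3 ≤ b := le_trans (le_trans (le_max_right _ _) (le_max_right _ _)) hb
  have han3 : n3 ≤ a := le_trans (le_trans (le_max_right _ _) (le_max_right _ _)) ha
  obtain ⟨S, hSdef⟩ : ∃ S : Finset (Pt d), S = thick c c' (max a b) ∪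
    (D.image Prod.fst ∪ D.image Prod.snd) := ⟨_, rfl⟩
  have hS : Verts D S := by
    intro e he
    rw [hSdef]
    exact ⟨mem_union_right _ (mem_union_left _ (mem_image_of_mem _ he)),
      mem_union_right _ (mem_union_right _ (mem_image_of_mem _ he))⟩
  have hthS : thick c c' (max a b) ⊆ S := by rw [hSdef]; exact subset_union_left
  have hQS : cube c a ⊆ S := (SepSeed.cube_sub_left c c' (le_max_left a b)).trans hthS
  have hQS' : cube c' b ⊆ S := (SepSeed.cube_sub_right c c' (le_max_right a b)).trans hthS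
  have hcS : c ∈ S := by
    refine hQS ?_
    rw [mem_cube]
    intro i
    simp
  have hlow := hL1 D O S c c' a b hOD hS hthS haL1 hbL1 hab hba hlat hconn
  have hcQ : ((cube c a).card : ℝ) = (2 * a + 1 : ℝ) ^ d := by rw [card_cube]; push_cast; ring
  have hcQ' : ((cube c' b).card : ℝ) = (2 * b + 1 : ℝ) ^ d := by rw [card_cube]; push_cast; ring
  obtain ⟨Q, hQ⟩ : ∃ Q, Q = cube c a := ⟨_, rfl⟩
  obtain ⟨Q', hQ'⟩ : ∃ Q', Q' = cube c' b := ⟨_, rfl⟩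
  obtain ⟨m, hm⟩ : ∃ m, m = max a b := ⟨_, rfl⟩
  obtain ⟨mn, hmn⟩ : ∃ mn, mn = min a b := ⟨_, rfl⟩
  clear hL1 hlat hconn hthS hSdef
  rw [← hm, ← hmn] at hlow
  rw [← hmn]
  rw [← hQ] at hlow hcQ hdis hQS hOc
  rw [← hQ'] at hlow hcQ' hdis hQS' hOQ
  simp only [← hQ']
  have ham : a ≤ m := by omega
  have hbm : b ≤ m := by omega
  have hmm : m ≤ 2 * mn := by omega
  have hmnb : mn ≤ b := by omega
  have hn3mn : n3 ≤ mn := by omega
  have hn1m : n1 ≤ m := by omega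
  clear hm hmn
  have hsmall : ∀ x ∈ Q', ∀ e ∈ D, e ∈ lat (cube x l) → pr O p e ≤ p := by
    intro x hx e _ he
    have : e ∉ O := fun h => hOQ x hx e h he
    simp [pr, this]
  obtain ⟨h, hh⟩ : ∃ h : ℝ, h = κ / (2 * q * (2 * m + 1)) * (p - p1) := ⟨_, rfl⟩
  obtain ⟨X, hX⟩ : ∃ X : ℝ, X = (2 * mn + 1 : ℝ) ^ (d - 1) := ⟨_, rfl⟩
  rw [← hh, ← hX, ← hτ0] at hlow
  have hm0 : (0 : ℝ) ≤ m := Nat.cast_nonneg m
  have hmn0 : (0 : ℝ) ≤ mn := Nat.cast_nonneg mn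
  have hh0 : 0 < h := by rw [hh]; positivity
  obtain ⟨G, hG⟩ : ∃ G : ℝ, G = κ * (p - p1) / (2 * q) * 2 ^ (d - 1) * X := ⟨_, rfl⟩
  have hG1 : h * Q.card ≤ G := by
    rw [hh, hcQ, hG, hX]
    exact SepSeed.G_bound (by omega) hκ hpp hq0 ham hmm
  have hG2 : h * Q'.card ≤ G := by
    rw [hh, hcQ', hG, hX]
    exact SepSeed.G_bound (by omega) hκ hpp hq0 hbm hmm
  have hτG : τ0 * X = G * κ / 2 ^ (d + 1) := by
    rw [hτ0, hG]
    obtain ⟨e, rfl⟩ : ∃ e, d = e + 1 := ⟨d - 1, by omega⟩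
    simp only [Nat.add_sub_cancel]
    rw [pow_add, pow_add]
    field_simp
    ring
  have hhε : h ≤ ε := by
    rw [hh]
    exact SepSeed.h_le hκ1 hp0 hpp hp1 hq1 hεp hn1 hn1m
  have hht : h ≤ t0 := hhε.trans (by rw [hε]; exact min_le_left _ _)
  have hNh : N * h ≤ κ / 2 ^ (d + 4) := by
    have h1 : h ≤ κ / (2 ^ (d + 4) * N) := hhε.trans (by rw [hε]; exact min_le_right _ _)
    rw [le_div_iff₀ (by positivity)] at h1 ⊢
    linarith
  have hQ'b : (b : ℝ) ≤ Q'.card := by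
    rw [hcQ']
    have hb0 : (0 : ℝ) ≤ b := Nat.cast_nonneg b
    calc (b : ℝ) ≤ 2 * b + 1 := by linarith
      _ = (2 * b + 1 : ℝ) ^ 1 := by ring
      _ ≤ _ := pow_le_pow_right₀ (by linarith) (by omega)
  have hNθ : N ≤ δ * θ * Q'.card := by
    have h3 : (n2 : ℝ) ≤ b := by exact_mod_cast hbn2
    have h4 : N ≤ n2 * (δ * θ) := by
      have := hn2
      rwa [div_le_iff₀ (by positivity)] at this
    have h5 : (0 : ℝ) < δ * θ := by positivity
    calc N ≤ n2 * (δ * θ) := h4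
      _ ≤ Q'.card * (δ * θ) := mul_le_mul_of_nonneg_right (h3.trans hQ'b) h5.le
      _ = δ * θ * Q'.card := by ring
  have hcQ'0 : (0 : ℝ) < Q'.card := by
    rw [hcQ']
    positivity
  have hθQ : 0 < θ * Q'.card := mul_pos hth hcQ'0
  have hN2 : N < (1 - β) * θ * Q'.card := by
    have h1 : δ * (θ * Q'.card) < (1 - β) * (θ * Q'.card) :=
      mul_lt_mul_of_pos_right (by linarith) hθQ
    calc N ≤ δ * (θ * Q'.card) := by rw [← mul_assoc]; exact hNθ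
      _ < (1 - β) * (θ * Q'.card) := h1
      _ = _ := by ring
  have hN3 : N ≤ (δ + β) * θ * Q'.card := by
    have h1 : 0 ≤ β * (θ * Q'.card) := mul_nonneg hβ.le hθQ.le
    calc N ≤ δ * θ * Q'.card := hNθ
      _ ≤ δ * θ * Q'.card + β * (θ * Q'.card) := by linarith
      _ = _ := by ring
  have hest := SepSeed.est (q := q) hq0 hw (l := l) hD hOD hS hQS hQS' hcS hOc hh0.le
    (β := β) (δ := δ) (θ := θ) (by rw [← hN]; exact hN3) (by rw [← hN]; exact hN2)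
  have hmomA := hmom D (pr O p) hD hw Q' hsmall h hh0.le hht
  have hup := SepSeed.upper (q := q) hq0 hw (l := l) hD hS hQS hQS' hdis hh0.le hmomA
  have hfar := hcher D (pr O p) hD hw Q' hsmall
  have hZ := Z_pos (D := D) (w := pr O p) hq0 hw
  have hJm := JZ_pos (D := D) (w := pr O p) hq0 hw hS (fun x => h * hm Q Q' x)
  have hJp := JZ_pos (D := D) (w := pr O p) hq0 hw hS (fun x => h * hp Q Q' x)
  obtain ⟨Jm, hJmd⟩ : ∃ Jm, Jm = JZ D (pr O p) q S (fun x => h * hm Q Q' x) := ⟨_, rfl⟩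
  obtain ⟨Jp, hJpd⟩ : ∃ Jp, Jp = JZ D (pr O p) q S (fun x => h * hp Q Q' x) := ⟨_, rfl⟩
  rw [← hJmd] at hest hlow hJm
  rw [← hJpd] at hup hlow hJp
  have hJJ : Jm ≤ Real.exp (-(τ0 * X)) * Jp := by
    calc Jm = Real.exp (Real.log Jm) := (Real.exp_log hJm).symm
      _ ≤ Real.exp (-(τ0 * X) + Real.log Jp) := Real.exp_le_exp.2 (by linarith)
      _ = Real.exp (-(τ0 * X)) * Jp := by rw [Real.exp_add, Real.exp_log hJp]
  have hexp := SepSeed.exponent_bound (d := d) (N := N) (h := h) (τX := τ0 * X) (G := G)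
    (x := Q.card) (y := Q'.card) hκ hδ hβ hβκ hθ1 hh0.le (Nat.cast_nonneg _) (Nat.cast_nonneg _)
    hG1 hG2 hτG hNh
  have hPev : P D (pr O p) q (fun A => (∃ y, ¬ Conn A c y ∧
      (1 - β) * θ * Q'.card ≤ (cl A Q' y).card) ∧
        (nFar l A Q' : ℝ) ≤ (1 + δ) * θ * Q'.card) ≤ 4 * Real.exp (-(3 / 4 * (τ0 * X))) := by
    obtain ⟨Pe, hPe⟩ : ∃ Pe, Pe = P D (pr O p) q (fun A => (∃ y, ¬ Conn A c y ∧
      (1 - β) * θ * Q'.card ≤ (cl A Q' y).card) ∧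
        (nFar l A Q' : ℝ) ≤ (1 + δ) * θ * Q'.card) := ⟨_, rfl⟩
    rw [← hPe] at hest ⊢
    obtain ⟨u, hu⟩ : ∃ u, u = h * (Q.card + (1 - 2 * β - δ) * θ * Q'.card) := ⟨_, rfl⟩
    rw [← hu] at hest
    have h1 : Pe * (1 / 4 * Real.exp u) ≤ Real.exp (-(τ0 * X)) *
        Real.exp (h * Q.card + h * ((1 + δ) * θ * Q'.card) +
          ((2 * l + 1 : ℕ) : ℝ) ^ d / 2 * (h ^ 2 * (Q.card + Q'.card))) := by
      refine hest.trans ?_
      calc Jm / Z D (pr O p) q ≤ (Real.exp (-(τ0 * X)) * Jp) / Z D (pr O p) q :=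
            div_le_div_of_nonneg_right hJJ hZ.le
        _ = Real.exp (-(τ0 * X)) * (Jp / Z D (pr O p) q) := by rw [mul_div_assoc]
        _ ≤ _ := mul_le_mul_of_nonneg_left hup (Real.exp_pos _).le
    have hNd : ((2 * l + 1 : ℕ) : ℝ) ^ d = N := by rw [hN]; push_cast; ring
    rw [hNd, ← Real.exp_add] at h1
    have h2 : Pe = 4 * (Pe * (1 / 4 * Real.exp u)) * Real.exp (-u) := by
      have : Real.exp u * Real.exp (-u) = 1 := by rw [← Real.exp_add]; simp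
      linear_combination (-Pe) * this
    rw [h2]
    calc 4 * (Pe * (1 / 4 * Real.exp u)) * Real.exp (-u) ≤
          4 * Real.exp (-(τ0 * X) + (h * Q.card + h * ((1 + δ) * θ * Q'.card) +
          N / 2 * (h ^ 2 * (Q.card + Q'.card)))) * Real.exp (-u) := by
          refine mul_le_mul_of_nonneg_right ?_ (Real.exp_pos _).le
          linarith
      _ = 4 * Real.exp (-(τ0 * X) + 2 * (δ + β) * θ * (h * Q'.card) +
          N / 2 * (h ^ 2 * (Q.card + Q'.card))) := by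
          rw [mul_assoc, ← Real.exp_add]
          congr 2
          rw [hu]
          ring
      _ ≤ 4 * Real.exp (-(3 / 4 * (τ0 * X))) :=
          mul_le_mul_of_nonneg_left (Real.exp_le_exp.2 hexp) (by norm_num)
  have hsplit : P D (pr O p) q (fun A => ∃ y, ¬ Conn A c y ∧
      (1 - β) * θ * Q'.card ≤ (cl A Q' y).card) ≤
      P D (pr O p) q (fun A => (∃ y, ¬ Conn A c y ∧
      (1 - β) * θ * Q'.card ≤ (cl A Q' y).card) ∧
        (nFar l A Q' : ℝ) ≤ (1 + δ) * θ * Q'.card) +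
      P D (pr O p) q (fun A => (1 + δ) * θ * Q'.card < nFar l A Q') := by
    rw [P, P, P, ← E_add]
    refine E_mono hq0 hw ?_
    intro A _
    by_cases h1 : (nFar l A Q' : ℝ) ≤ (1 + δ) * θ * Q'.card
    · have h2 := ind_mono (p := ∃ y, ¬ Conn A c y ∧ (1 - β) * θ * Q'.card ≤ (cl A Q' y).card)
        (r := (∃ y, ¬ Conn A c y ∧ (1 - β) * θ * Q'.card ≤ (cl A Q' y).card) ∧
          (nFar l A Q' : ℝ) ≤ (1 + δ) * θ * Q'.card) (fun h => ⟨h, h1⟩)
      have := ind_nonneg ((1 + δ) * θ * Q'.card < nFar l A Q')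
      linarith
    · rw [ind_true (lt_of_not_ge h1)]
      have := ind_le_one (∃ y, ¬ Conn A c y ∧ (1 - β) * θ * Q'.card ≤ (cl A Q' y).card)
      have := ind_nonneg ((∃ y, ¬ Conn A c y ∧ (1 - β) * θ * Q'.card ≤ (cl A Q' y).card) ∧
        (nFar l A Q' : ℝ) ≤ (1 + δ) * θ * Q'.card)
      linarith
  have hmnb' : (mn : ℝ) ≤ b := by exact_mod_cast hmnb
  have hX0 : 2 * (mn : ℝ) ≤ X := by
    rw [hX]
    calc 2 * (mn : ℝ) ≤ (2 * mn + 1 : ℝ) ^ 1 := by linarith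
      _ ≤ _ := pow_le_pow_right₀ (by linarith) (by omega)
  have hXQ : X ≤ Q'.card := by
    rw [hX, hcQ']
    calc (2 * mn + 1 : ℝ) ^ (d - 1) ≤ (2 * mn + 1 : ℝ) ^ d :=
          pow_le_pow_right₀ (by linarith) (by omega)
      _ ≤ _ := by gcongr
  have hX1 : 0 ≤ X := by linarith
  have h1 : c1 * X ≤ 3 / 4 * (τ0 * X) := by
    rw [← mul_assoc]
    exact mul_le_mul_of_nonneg_right (by rw [hc1]; exact min_le_left _ _) hX1
  have h2 : c1 * X ≤ cc * Q'.card :=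
    mul_le_mul (by rw [hc1]; exact min_le_right _ _) hXQ hX1 hcc.le
  have h4 : 4 ≤ c1 * mn := by
    have h3 : (n3 : ℝ) ≤ mn := by exact_mod_cast hn3mn
    have h5 : 4 ≤ n3 * c1 := by
      have := hn3
      rwa [div_le_iff₀ hc1p] at this
    calc (4 : ℝ) ≤ n3 * c1 := h5
      _ ≤ mn * c1 := mul_le_mul_of_nonneg_right h3 hc1p.le
      _ = _ := mul_comm _ _
  exact (hsplit.trans (add_le_add hPev hfar)).trans (SepSeed.final_sum hc1p h1 h2 hX0 h4)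

end FKB
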