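import Pool.Agent.FKB.Surface
import Pool.Agent.FKB.WiredT

open Finset
noncomputable section
namespace FKB

theorem ed_cube_map {d : ℕ} (c : Pt d) (n : ℕ) :
    cube c n = (cube (0 : Pt d) n).map (addRightEmbedding c) := by
  ext x
  rw [Finset.mem_map]
  constructor
  · intro hx
    refine ⟨x - c, ?_, by simp⟩
    rw [mem_cube] at hx ⊢
    intro i
    simpa using hx i
  · rintro ⟨y, hy, rfl⟩
    rw [mem_cube] at hy ⊢
    intro i
    simpa using hy i

theorem ed_count {d : ℕ} (n : ℕ) (hn : 1 ≤ n) (i : Fin d) :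
    n ^ d ≤ ((cube (0 : Pt d) n).filter (fun v => v + Pi.single i 1 ∈ cube (0 : Pt d) n)).card := by
  have h1 : (Finset.Icc (0 : Pt d) (fun _ => (n : ℤ) - 1)).card = n ^ d := by
    rw [Pi.card_Icc]
    simp
  rw [← h1]
  apply Finset.card_le_card
  intro v hv
  rw [Finset.mem_Icc] at hv
  obtain ⟨ha, hb⟩ := hv
  rw [Finset.mem_filter]
  constructor
  · rw [mem_cube]
    intro j
    have h2 := ha j
    have h3 := hb j
    simp only [Pi.zero_apply] at h2 ⊢
    rw [abs_le]
    constructor <;> linarith [h3]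
  · rw [mem_cube]
    intro j
    have h2 := ha j
    have h3 := hb j
    simp only [Pi.zero_apply, sub_zero, Pi.add_apply] at h2 ⊢
    rw [abs_le]
    by_cases hj : j = i
    · subst hj
      simp only [Pi.single_eq_same]
      constructor <;> linarith [h3]
    · rw [Pi.single_eq_of_ne hj]
      constructor <;> linarith [h3]

theorem edge_diff {d : ℕ} (hd : 1 ≤ d) {q p0 p1 : ℝ} (hq : 1 < q) (h0 : 0 < p0) (h01 : p0 < p1)
    (h1 : p1 < 1) :
    ∃ C : ℝ, 0 < C ∧ ∀ n : ℕ, 1 ≤ n → ∃ pn : ℝ, p0 < pn ∧ pn < p1 ∧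
      ∀ (H : Finset (Pt d)) (u : Pt d) (i : Fin d), cube u (2 * n + 1) ⊆ H →
        wP H pn q u (u + Pi.single i 1) - fP H pn q u (u + Pi.single i 1) ≤ C / n := by
  obtain ⟨C, hC, hS⟩ := surface hd hq h0 h01 h1
  refine ⟨C, hC, fun n hn => ?_⟩
  obtain ⟨pn, hpn0, hpn1, hsum⟩ := hS n hn
  refine ⟨pn, hpn0, hpn1, ?_⟩
  intro H u i hH
  have hn0 : (0 : ℝ) < n := by exact_mod_cast hn
  have hp0 : 0 ≤ pn := by linarith
  have hp1 : pn ≤ 1 := by linarith
  set δ := wP H pn q u (u + Pi.single i 1) - fP H pn q u (u + Pi.single i 1) with hδ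
  set T := (cube (0 : Pt d) n).filter (fun v => v + Pi.single i 1 ∈ cube (0 : Pt d) n) with hT
  -- comparison with one cube
  have hcmp : ∀ v ∈ T, δ ≤ wP (cube (0 : Pt d) n) pn q v (v + Pi.single i 1) -
      fP (cube (0 : Pt d) n) pn q v (v + Pi.single i 1) := by
    intro v hv
    rw [hT, Finset.mem_filter] at hv
    obtain ⟨hv1, hv2⟩ := hv
    have eu : v + (u - v) = u := by abel
    have eu' : v + Pi.single i 1 + (u - v) = u + Pi.single i 1 := by abel
    have hw := wP_translate (cube (0 : Pt d) n) pn q (u - v) v (v + Pi.single i 1)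
    have hf := fP_translate (cube (0 : Pt d) n) pn q (u - v) v (v + Pi.single i 1)
    rw [← ed_cube_map, eu, eu'] at hw hf
    rw [← hw, ← hf]
    have hsub : cube (u - v) n ⊆ H := by
      refine subset_trans ?_ hH
      intro y hy
      rw [mem_cube] at hy hv1 ⊢
      intro j
      have a1 := abs_le.1 (hy j)
      have a2 := abs_le.1 (hv1 j)
      simp only [Pi.sub_apply, Pi.zero_apply] at a1 a2
      rw [abs_le]
      push_cast
      constructor <;> linarith [a1.1, a1.2, a2.1, a2.2]
    have m1 : u ∈ cube (u - v) n := by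
      rw [mem_cube] at hv1 ⊢
      intro j
      have := hv1 j
      simpa using this
    have m2 : u + Pi.single i 1 ∈ cube (u - v) n := by
      rw [mem_cube] at hv2 ⊢
      intro j
      have := hv2 j
      have e : (u + Pi.single i 1 : Pt d) j - (u - v) j = (v + Pi.single i 1 : Pt d) j - (0 : Pt d) j := by
        simp only [Pi.add_apply, Pi.sub_apply, Pi.zero_apply]
        ring
      rw [e]
      exact this
    have b1 := wP_mono hsub hq.le hp0 hp1 m1 m2
    have b2 := fP_mono hsub hq.le hp0 hp1 u (u + Pi.single i 1)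
    rw [hδ]
    linarith
  -- the sum over the edges in direction `i`
  have hinj : Function.Injective (fun v : Pt d => (v, v + (Pi.single i 1 : Pt d))) := by
    intro a b hab
    exact (Prod.mk.inj hab).1
  have hle1 : ∑ v ∈ T, (wP (cube (0 : Pt d) n) pn q v (v + Pi.single i 1) -
      fP (cube (0 : Pt d) n) pn q v (v + Pi.single i 1)) ≤ C * n ^ (d - 1) := by
    refine le_trans ?_ hsum
    have himg : T.map ⟨_, hinj⟩ ⊆ lat (cube (0 : Pt d) n) := by
      intro e he
      rw [Finset.mem_map] at he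
      obtain ⟨v, hv, rfl⟩ := he
      rw [hT, Finset.mem_filter] at hv
      unfold lat
      rw [Finset.mem_filter, Finset.mem_product]
      exact ⟨⟨hv.1, hv.2⟩, i, rfl⟩
    calc ∑ v ∈ T, (wP (cube (0 : Pt d) n) pn q v (v + Pi.single i 1) -
          fP (cube (0 : Pt d) n) pn q v (v + Pi.single i 1))
        = ∑ e ∈ T.map ⟨_, hinj⟩, (wP (cube (0 : Pt d) n) pn q e.1 e.2 -
          fP (cube (0 : Pt d) n) pn q e.1 e.2) := by
          rw [Finset.sum_map]
          rfl
      _ ≤ _ := by
          apply Finset.sum_le_sum_of_subset_of_nonneg himg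
          intro e _ _
          have := fP_le_wP (H := cube (0 : Pt d) n) hq.le hp0 hp1 e.1 e.2
          linarith
  rcases le_or_gt δ 0 with hneg | hpos
  · exact hneg.trans (by positivity)
  have hle2 : (T.card : ℝ) * δ ≤ C * n ^ (d - 1) := by
    refine le_trans ?_ hle1
    rw [← nsmul_eq_mul]
    exact Finset.card_nsmul_le_sum _ _ _ hcmp
  have hcard : (n : ℝ) ^ d ≤ T.card := by
    have := ed_count (d := d) n hn i
    exact_mod_cast this
  have h3 : (n : ℝ) ^ d * δ ≤ C * n ^ (d - 1) := by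
    refine le_trans ?_ hle2
    gcongr
  have h4 : (n : ℝ) ^ d = n ^ (d - 1) * n := by
    rw [← pow_succ]
    congr 1
    omega
  rw [le_div_iff₀ hn0]
  have h5 : (n : ℝ) ^ (d - 1) * (δ * n) ≤ n ^ (d - 1) * C := by
    rw [h4] at h3
    nlinarith
  exact le_of_mul_le_mul_left h5 (by positivity)

end FKB
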