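import Pool.Agent.FKB.Joint
import Pool.Agent.FKB.RankB

open Finset
noncomputable section
namespace FKB

/-- restriction of the model to the vertices of `S` -/
def toSub {V : Type*} [DecidableEq V] (D : Finset (V × V)) (S : Finset V) :
    Finset (S × S) := univ.filter (fun e : S × S => ((e.1 : V), (e.2 : V)) ∈ D)

theorem transfer_sum {α β : Type*} (f : α ↪ β) {D : Finset β} {D' : Finset α}
    (hD : D = D'.map f) (g : Finset β → ℝ) :
    ∑ A ∈ D.powerset, g A = ∑ A ∈ D'.powerset, g (A.map f) := by
  subst hD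
  symm
  refine Finset.sum_bij (fun A _ => A.map f) ?_ ?_ ?_ ?_
  · intro A hA
    rw [mem_powerset] at hA ⊢
    exact Finset.map_subset_map.2 hA
  · intro A _ B _ h
    exact Finset.map_injective f h
  · intro B hB
    rw [mem_powerset] at hB
    obtain ⟨u, hu, rfl⟩ := Finset.subset_map_iff.1 hB
    exact ⟨u, mem_powerset.2 hu, rfl⟩
  · intro A _
    rfl

variable {V : Type*} [DecidableEq V]

theorem transfer_D {D : Finset (V × V)} {S : Finset V} (hS : Verts D S) :
    D = (toSub D S).map ((Function.Embedding.subtype (· ∈ S)).prodMap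
      (Function.Embedding.subtype (· ∈ S))) := by
  ext e
  rw [mem_map]
  constructor
  · intro he
    obtain ⟨h1, h2⟩ := hS e he
    exact ⟨(⟨e.1, h1⟩, ⟨e.2, h2⟩), mem_filter.2 ⟨mem_univ _, he⟩, rfl⟩
  · rintro ⟨e', he', rfl⟩
    exact (mem_filter.1 he').2

omit [DecidableEq V] in
theorem transfer_S (S : Finset V) :
    S = (univ : Finset S).map (Function.Embedding.subtype (· ∈ S)) := by
  ext x
  rw [mem_map]
  constructor
  · intro hx
    exact ⟨⟨x, hx⟩, mem_univ _, rfl⟩
  · rintro ⟨y, _, rfl⟩
    exact y.2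

theorem transfer_wt {V' : Type*} [DecidableEq V'] (f : V' ↪ V) {D : Finset (V × V)}
    {D' : Finset (V' × V')} (hD : D = D'.map (f.prodMap f)) (w : V × V → ℝ) (q : ℝ)
    (A : Finset (V' × V')) :
    wt D w q (A.map (f.prodMap f)) = wt D' (fun e => w (f e.1, f e.2)) q A := by
  subst hD
  unfold wt
  rw [rk_map, ← Finset.map_sdiff, Finset.prod_map, Finset.prod_map]
  rfl

omit [DecidableEq V] in
theorem transfer_compat {V' : Type*} (f : V' ↪ V)
    (A : Finset (V' × V')) (s : Finset V') :
    Compat (A.map (f.prodMap f)) (s.map f) ↔ Compat A s := by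
  constructor
  · intro h e he
    have := h (f.prodMap f e) (mem_map_of_mem _ he)
    simpa using this
  · intro h e he
    rw [mem_map] at he
    obtain ⟨e', he', rfl⟩ := he
    have := h e' he'
    simpa using this

omit [DecidableEq V] in
theorem transfer_sgn {V' : Type*} (f : V' ↪ V) (s : Finset V') (x : V') :
    sgn (s.map f) (f x) = sgn s x := by
  unfold sgn
  rw [ind_congr (Finset.mem_map' f)]

theorem transfer_jw {D : Finset (V × V)} {S : Finset V} (hS : Verts D S) (w : V × V → ℝ) (q : ℝ)
    (h : V → ℝ) (A : Finset (S × S)) (s : Finset S) :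
    jw D w q S h (A.map ((Function.Embedding.subtype (· ∈ S)).prodMap
      (Function.Embedding.subtype (· ∈ S)))) (s.map (Function.Embedding.subtype (· ∈ S))) =
    jw (toSub D S) (fun e : S × S => w ((e.1 : V), (e.2 : V))) q univ (fun x : S => h x) A s := by
  unfold jw
  rw [transfer_wt _ (transfer_D hS), rk_map, ind_congr (transfer_compat _ A s)]
  have h1 : (univ : Finset S).card = S.card := by simp
  have h2 : ∑ x ∈ S, h x * sgn (s.map (Function.Embedding.subtype (· ∈ S))) x =
      ∑ x : S, h x * sgn s x := by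
    rw [← Finset.sum_coe_sort S]
    refine Finset.sum_congr rfl (fun x _ => ?_)
    rw [← transfer_sgn (Function.Embedding.subtype (· ∈ S)) s x]
    rfl
  rw [h1, h2]
  rfl

theorem jsum_toSub {D : Finset (V × V)} {S : Finset V} (hS : Verts D S) (w : V × V → ℝ) (q : ℝ)
    (h : V → ℝ) (φ : Finset V → ℝ) :
    jsum D w q S h (fun _ s => φ s) =
      jsum (toSub D S) (fun e : S × S => w ((e.1 : V), (e.2 : V))) q univ (fun x : S => h x)
        (fun _ s => φ (s.map (Function.Embedding.subtype _))) := by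
  unfold jsum
  rw [transfer_sum _ (transfer_D hS)]
  refine Finset.sum_congr rfl (fun A _ => ?_)
  rw [transfer_sum _ (transfer_S S)]
  refine Finset.sum_congr rfl (fun s _ => ?_)
  rw [transfer_jw hS]

theorem jsum_toSub_edge {D : Finset (V × V)} {S : Finset V} (hS : Verts D S) (w : V × V → ℝ)
    (q : ℝ) (h : V → ℝ) {x y : V} (hx : x ∈ S) (hy : y ∈ S) :
    jsum D w q S h (fun A _ => ind ((x, y) ∈ A)) =
      jsum (toSub D S) (fun e : S × S => w ((e.1 : V), (e.2 : V))) q univ (fun x : S => h x)
        (fun A _ => ind (((⟨x, hx⟩ : S), (⟨y, hy⟩ : S)) ∈ A)) := by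
  unfold jsum
  rw [transfer_sum _ (transfer_D hS)]
  refine Finset.sum_congr rfl (fun A _ => ?_)
  rw [transfer_sum _ (transfer_S S)]
  refine Finset.sum_congr rfl (fun s _ => ?_)
  rw [transfer_jw hS]
  congr 1
  apply ind_congr
  have h1 : ((x, y) : V × V) = ((Function.Embedding.subtype (· ∈ S)).prodMap
      (Function.Embedding.subtype (· ∈ S))) ((⟨x, hx⟩ : S), (⟨y, hy⟩ : S)) := rfl
  rw [h1, Finset.mem_map']

end FKB
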