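import Pool.Agent.FKB.KeyFin
import Pool.Agent.FKB.Transfer

open Finset
noncomputable section
namespace FKB

variable {V : Type*} [DecidableEq V]

/-- the transported edge parameters -/
private def rw' (w : V × V → ℝ) (S : Finset V) : S × S → ℝ := fun e => w ((e.1 : V), (e.2 : V))

/-- the transported field -/
private def rh (h : V → ℝ) (S : Finset V) : S → ℝ := fun x => h x

private lemma adm_sub {D : Finset (V × V)} {w : V × V → ℝ} (hw : Adm D w) (S : Finset V) :
    Adm (toSub D S) (rw' w S) := by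
  intro e he
  simp only [toSub, Finset.mem_filter] at he
  exact hw _ he.2

private lemma le_sub {D : Finset (V × V)} {w w' : V × V → ℝ} (hle : ∀ e ∈ D, w' e ≤ w e)
    (S : Finset V) : ∀ e ∈ toSub D S, rw' w' S e ≤ rw' w S e := by
  intro e he
  simp only [toSub, Finset.mem_filter] at he
  exact hle _ he.2

omit [DecidableEq V] in
private lemma sgn_map {S : Finset V} (s : Finset S) {x : V} (hx : x ∈ S) :
    sgn (s.map (Function.Embedding.subtype _)) x = sgn s ⟨x, hx⟩ := by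
  unfold sgn
  congr 2
  apply ind_congr
  simp only [Finset.mem_map, Function.Embedding.subtype_apply]
  constructor
  · rintro ⟨a, ha, rfl⟩
    exact ha
  · intro h
    exact ⟨⟨x, hx⟩, h, rfl⟩

private lemma JE_sub {D : Finset (V × V)} {S : Finset V} (hS : Verts D S) (w : V × V → ℝ) (q : ℝ)
    (h : V → ℝ) (φ : Finset V → ℝ) :
    JE D w q S h (fun _ s => φ s) =
      JE (toSub D S) (rw' w S) q univ (rh h S)
        (fun _ s => φ (s.map (Function.Embedding.subtype _))) := by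
  unfold JE JZ
  rw [jsum_toSub hS w q h φ, jsum_toSub hS w q h (fun _ => 1)]
  rfl

private lemma JE_one {D : Finset (V × V)} {S : Finset V} (hS : Verts D S) (w : V × V → ℝ) (q : ℝ)
    (h : V → ℝ) {x : V} (hx : x ∈ S) :
    JE D w q S h (fun _ s => sgn s x) =
      JE (toSub D S) (rw' w S) q univ (rh h S) (fun _ s => sgn s ⟨x, hx⟩) := by
  rw [JE_sub hS w q h (fun s => sgn s x)]
  simp only [sgn_map _ hx]

private lemma JE_two {D : Finset (V × V)} {S : Finset V} (hS : Verts D S) (w : V × V → ℝ) (q : ℝ)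
    (h : V → ℝ) {x y : V} (hx : x ∈ S) (hy : y ∈ S) :
    JE D w q S h (fun _ s => sgn s x * sgn s y) =
      JE (toSub D S) (rw' w S) q univ (rh h S) (fun _ s => sgn s ⟨x, hx⟩ * sgn s ⟨y, hy⟩) := by
  rw [JE_sub hS w q h (fun s => sgn s x * sgn s y)]
  simp only [sgn_map _ hx, sgn_map _ hy]

private lemma JE_edge {D : Finset (V × V)} {S : Finset V} (hS : Verts D S) (w : V × V → ℝ) (q : ℝ)
    (h : V → ℝ) {x y : V} (hx : x ∈ S) (hy : y ∈ S) :
    JE D w q S h (fun A _ => ind ((x, y) ∈ A)) =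
      JE (toSub D S) (rw' w S) q univ (rh h S)
        (fun A _ => ind (((⟨x, hx⟩ : S), (⟨y, hy⟩ : S)) ∈ A)) := by
  unfold JE JZ
  rw [jsum_toSub_edge hS w q h hx hy, jsum_toSub hS w q h (fun _ => 1)]
  rfl

theorem key_one {k : ℕ} (hk : 1 ≤ k) {D : Finset (V × V)} {S : Finset V} (hS : Verts D S)
    {w w' : V × V → ℝ} (hw : Adm D w) (hw' : Adm D w') (hle : ∀ e ∈ D, w' e ≤ w e)
    {h h' : V → ℝ} (hh : ∀ x ∈ S, |h' x| ≤ h x) {x : V} (hx : x ∈ S) :
    |JE D w' (2 * k : ℝ) S h' (fun _ s => sgn s x)| ≤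
      JE D w (2 * k : ℝ) S h (fun _ s => sgn s x) := by
  rw [JE_one hS w _ h hx, JE_one hS w' _ h' hx]
  exact keyfin_one hk (adm_sub hw S) (adm_sub hw' S) (le_sub hle S) (fun x => hh x x.2) _

theorem key_two {k : ℕ} (hk : 1 ≤ k) {D : Finset (V × V)} {S : Finset V} (hS : Verts D S)
    {w w' : V × V → ℝ} (hw : Adm D w) (hw' : Adm D w') (hle : ∀ e ∈ D, w' e ≤ w e)
    {h h' : V → ℝ} (hh : ∀ x ∈ S, |h' x| ≤ h x) {x y : V} (hx : x ∈ S) (hy : y ∈ S) :
    |JE D w (2 * k : ℝ) S h (fun _ s => sgn s x) * JE D w' (2 * k : ℝ) S h' (fun _ s => sgn s y)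
      - JE D w' (2 * k : ℝ) S h' (fun _ s => sgn s x) * JE D w (2 * k : ℝ) S h (fun _ s => sgn s y)|
      ≤ JE D w (2 * k : ℝ) S h (fun _ s => sgn s x * sgn s y) -
        JE D w' (2 * k : ℝ) S h' (fun _ s => sgn s x * sgn s y) := by
  rw [JE_one hS w _ h hx, JE_one hS w' _ h' hx, JE_one hS w _ h hy, JE_one hS w' _ h' hy,
    JE_two hS w _ h hx hy, JE_two hS w' _ h' hx hy]
  exact keyfin_two hk (adm_sub hw S) (adm_sub hw' S) (le_sub hle S) (fun x => hh x x.2) _ _

theorem key_edge {k : ℕ} (hk : 1 ≤ k) {D : Finset (V × V)} {S : Finset V} (hS : Verts D S)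
    {w : V × V → ℝ} (hw : Adm D w) {h h' : V → ℝ} (hh : ∀ x ∈ S, |h' x| ≤ h x)
    {e : V × V} (he : e ∈ D) :
    w e / (2 * k : ℝ) * (JE D w (2 * k : ℝ) S h (fun _ s => sgn s e.1 * sgn s e.2) -
        JE D w (2 * k : ℝ) S h' (fun _ s => sgn s e.1 * sgn s e.2)) ≤
      JE D w (2 * k : ℝ) S h (fun A _ => ind (e ∈ A)) -
        JE D w (2 * k : ℝ) S h' (fun A _ => ind (e ∈ A)) := by
  obtain ⟨x, y⟩ := e
  have hx : x ∈ S := (hS _ he).1
  have hy : y ∈ S := (hS _ he).2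
  simp only
  rw [JE_two hS w _ h hx hy, JE_two hS w _ h' hx hy, JE_edge hS w _ h hx hy,
    JE_edge hS w _ h' hx hy]
  have he' : ((⟨x, hx⟩ : S), (⟨y, hy⟩ : S)) ∈ toSub D S := by
    simp only [toSub, Finset.mem_filter]
    exact ⟨Finset.mem_univ _, he⟩
  exact keyfin_edge hk (adm_sub hw S) (fun x => hh x x.2) he'

/-- inequality (I) for connection probabilities -/
theorem key_I {k : ℕ} (hk : 1 ≤ k) {D : Finset (V × V)}
    {w w' : V × V → ℝ} (hw : Adm D w) (hw' : Adm D w') (hle : ∀ e ∈ D, w' e ≤ w e) (x y z : V) :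
    |P D w (2 * k : ℝ) (fun A => Conn A x z) * P D w' (2 * k : ℝ) (fun A => Conn A y z)
      - P D w' (2 * k : ℝ) (fun A => Conn A x z) * P D w (2 * k : ℝ) (fun A => Conn A y z)|
      ≤ P D w (2 * k : ℝ) (fun A => Conn A x y) - P D w' (2 * k : ℝ) (fun A => Conn A x y) := by
  set S : Finset V := D.image Prod.fst ∪ D.image Prod.snd ∪ {x, y, z} with hSdef
  have hS : Verts D S := by
    intro e he
    constructor
    · simp only [hSdef, Finset.mem_union]
      exact Or.inl (Or.inl (Finset.mem_image_of_mem _ he))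
    · simp only [hSdef, Finset.mem_union]
      exact Or.inl (Or.inr (Finset.mem_image_of_mem _ he))
  have hx : x ∈ S := by simp [hSdef]
  have hy : y ∈ S := by simp [hSdef]
  have hz : z ∈ S := by simp [hSdef]
  rw [← JE_zero_two hS hx hz, ← JE_zero_two hS hy hz, ← JE_zero_two hS hx hz,
    ← JE_zero_two hS hy hz, ← JE_zero_two hS hx hy, ← JE_zero_two hS hx hy]
  rw [JE_two hS w _ _ hx hz, JE_two hS w' _ _ hx hz, JE_two hS w _ _ hy hz,
    JE_two hS w' _ _ hy hz, JE_two hS w _ _ hx hy, JE_two hS w' _ _ hx hy]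
  exact keyfin_I hk (adm_sub hw S) (adm_sub hw' S) (le_sub hle S)
    (fun _ => by simp [rh]) _ _ _

theorem key_gks {k : ℕ} (hk : 1 ≤ k) {D : Finset (V × V)} {S : Finset V} (hS : Verts D S)
    {w : V × V → ℝ} (hw : Adm D w) {h : V → ℝ} (hh : ∀ x ∈ S, 0 ≤ h x) {x y : V}
    (hx : x ∈ S) (hy : y ∈ S) :
    JE D w (2 * k : ℝ) S h (fun _ s => sgn s x) * JE D w (2 * k : ℝ) S h (fun _ s => sgn s y) ≤
      JE D w (2 * k : ℝ) S h (fun _ s => sgn s x * sgn s y) := by
  rw [JE_one hS w _ h hx, JE_one hS w _ h hy, JE_two hS w _ h hx hy]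
  exact keyfin_gks hk (adm_sub hw S) (fun x => hh x x.2) _ _

end FKB
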