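import Pool.Agent.FKB.WiredB

open Finset
noncomputable section
namespace FKB

variable {d : ℕ}

theorem wiredSq_inc (D : Finset (Pt d × Pt d)) (H : Finset (Pt d)) (x : Pt d) :
    Inc D (fun A => ind (∃ y ∈ bd H, Conn A x y)) := fun _ _ hAB _ =>
  ind_mono (fun ⟨y, hy, h⟩ => ⟨y, hy, h.mono' hAB⟩)

theorem wiredSq_bd {H K : Finset (Pt d)} (h : H ⊆ K) {y : Pt d} (hy : y ∈ H)
    (hb : y ∈ bd K) : y ∈ bd H := by
  unfold bd at *
  rw [mem_filter] at *
  obtain ⟨_, i, hi⟩ := hb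
  exact ⟨hy, i, hi.imp (fun a b => a (h b)) (fun a b => a (h b))⟩

theorem wiredSq_reach {H : Finset (Pt d)} {m : ℕ} {x : Pt d} (hH : H ⊆ cube x m) (hx : x ∈ H)
    {A : Finset (Pt d × Pt d)} (h : Far m A x) : ∃ y ∈ bd H, Conn (A ∩ lat H) x y := by
  by_contra hno
  obtain ⟨y, hy, hc⟩ := h
  have key := hc.inv (fun v => v ∈ H ∧ Conn (A ∩ lat H) x v) (fun e he => by
    rw [mem_inter] at he
    have hel := isLat_lat (cube x m) e he.2
    by_cases h1 : e ∈ lat H
    · have hv := verts_lat H e h1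
      have hce : Conn (A ∩ lat H) e.1 e.2 := Conn.edge (mem_inter.2 ⟨he.1, h1⟩)
      exact ⟨fun h => ⟨hv.2, h.2.trans' hce⟩, fun h => ⟨hv.1, h.2.trans' hce.symm'⟩⟩
    · have hl := lat_local (K := H) hel h1
      exact ⟨fun h => absurd ⟨e.1, hl.1 h.1, h.2⟩ hno, fun h => absurd ⟨e.2, hl.2 h.1, h.2⟩ hno⟩)
  have hy2 := key.1 ⟨hx, Conn.rfl' _ x⟩
  exact hno ⟨y, wiredSq_bd hH hy2.1 hy, hy2.2⟩

theorem wiredSq_exists (H : Finset (Pt d)) (x : Pt d) : ∃ m : ℕ, H ⊆ cube x m := by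
  refine ⟨H.sup (fun y => Finset.univ.sup (fun i => (y i - x i).natAbs)), fun y hy => ?_⟩
  rw [mem_cube]
  intro i
  have h1 : (y i - x i).natAbs ≤ Finset.univ.sup (fun i => (y i - x i).natAbs) :=
    Finset.le_sup (f := fun i => (y i - x i).natAbs) (Finset.mem_univ i)
  have h2 : Finset.univ.sup (fun i => (y i - x i).natAbs) ≤
      H.sup (fun y => Finset.univ.sup (fun i => (y i - x i).natAbs)) :=
    Finset.le_sup (f := fun y : Pt d => Finset.univ.sup (fun i => (y i - x i).natAbs)) hy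
  rw [Int.abs_eq_natAbs]
  exact_mod_cast h1.trans h2

theorem wiredSq_th1_le {H : Finset (Pt d)} {p q : ℝ} (hq : 1 ≤ q) (hp0 : 0 ≤ p) (hp1 : p ≤ 1)
    {x : Pt d} (hx : x ∈ H) :
    th1 d p q ≤ P (wD H) (pr (wO H) p) q (fun A => ∃ y ∈ bd H, Conn A x y) := by
  obtain ⟨m, hm⟩ := wiredSq_exists H x
  have hq0 : 0 < q := by linarith
  calc th1 d p q ≤ th d m p q := th1_le hq hp0 hp1
    _ = P (wD (cube x m)) (pr (wO (cube x m)) p) q (fun A => Far m A x) :=
        (th_translate x m p q).symm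
    _ ≤ E (wD (cube x m)) (pr (wO (cube x m)) p) q
          (fun A => (fun B => ind (∃ y ∈ bd H, Conn B x y)) (A ∩ lat H)) :=
        E_mono hq0 (adm_pr hp0 hp1) (fun A _ => ind_mono (fun h => wiredSq_reach hm hx h))
    _ ≤ E (wD H) (pr (wO H) p) q
          (fun A => (fun B => ind (∃ y ∈ bd H, Conn B x y)) (A ∩ lat H)) := by
        refine E_le_wired hq hp0 hp1 (adm_pr hp0 hp1) H ?_ ?_ (wiredSq_inc _ H x)
        · intro e he hn
          rcases mem_union.1 he with h | h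
          · exact lat_local (isLat_lat _ e h) hn
          · have h2 := mem_product.1 h
            exact ⟨fun h3 => wiredSq_bd hm h3 h2.1, fun h3 => wiredSq_bd hm h3 h2.2⟩
        · intro e he hn
          by_cases h : e ∈ wO (cube x m)
          · right
            have h2 := mem_product.1 h
            have h3 := verts_lat H e hn
            exact mem_product.2 ⟨wiredSq_bd hm h3.1 h2.1, wiredSq_bd hm h3.2 h2.2⟩
          · left
            unfold pr
            rw [if_neg h]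
    _ ≤ _ := E_mono hq0 (adm_pr hp0 hp1) (fun A _ => ind_mono (fun ⟨y, hy, h⟩ =>
        ⟨y, hy, h.mono' Finset.inter_subset_left⟩))

/-- the wired two-point function is bounded below by the squared density -/
theorem wP_ge_sq {H : Finset (Pt d)} {p q : ℝ} (hq : 1 ≤ q) (hp0 : 0 ≤ p) (hp1 : p ≤ 1)
    {x z : Pt d} (hx : x ∈ H) (hz : z ∈ H) : th1 d p q ^ 2 ≤ wP H p q x z := by
  have hq0 : 0 < q := by linarith
  have h1 := wiredSq_th1_le hq hp0 hp1 hx
  have h2 := wiredSq_th1_le hq hp0 hp1 hz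
  have h0 := th1_nonneg (d := d) hq hp0 hp1
  have h3 := E_fkg hq (adm_pr (D := wD H) (O := wO H) hp0 hp1) (wiredSq_inc (wD H) H x)
    (wiredSq_inc (wD H) H z)
  calc th1 d p q ^ 2 = th1 d p q * th1 d p q := sq _
    _ ≤ P (wD H) (pr (wO H) p) q (fun A => ∃ y ∈ bd H, Conn A x y) *
        P (wD H) (pr (wO H) p) q (fun A => ∃ y ∈ bd H, Conn A z y) :=
        mul_le_mul h1 h2 h0 (h0.trans h1)
    _ ≤ _ := h3
    _ ≤ wP H p q x z := by
        unfold wP P
        refine E_mono' hq0 (adm_pr hp0 hp1) (fun A hA hO _ => ?_)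
        rw [← ind_and]
        refine ind_mono ?_
        rintro ⟨⟨y, hy, hxy⟩, ⟨y', hy', hzy⟩⟩
        have he : ((y, y') : Pt d × Pt d) ∈ wO H := mem_product.2 ⟨hy, hy'⟩
        have heA : ((y, y') : Pt d × Pt d) ∈ A :=
          hO _ (mem_union_right _ he) (by unfold pr; rw [if_pos he])
        exact (hxy.trans' (Conn.edge heA)).trans' hzy.symm'

end FKB
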