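import Pool.Agent.FKB.EdgeDiff
import Pool.Agent.FKB.Key
import Pool.Agent.FKB.WiredSq

open Finset
noncomputable section
namespace FKB

theorem tp_cube_sub {d : ℕ} {x z u : Pt d} {m : ℕ} (hu : u ∈ thick x z 0) :
    cube u m ⊆ thick x z m := by
  intro v hv
  rw [thick, Finset.mem_Icc] at hu ⊢
  rw [cube, Finset.mem_Icc] at hv
  obtain ⟨h1, h2⟩ := hu
  obtain ⟨h3, h4⟩ := hv
  constructor
  · intro i
    have a1 := h1 i
    have a3 := h3 i
    simp only [Nat.cast_zero, sub_zero] at a1
    show min (x i) (z i) - (m : ℤ) ≤ v i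
    have : u i - (m : ℤ) ≤ v i := a3
    linarith
  · intro i
    have a1 := h2 i
    have a3 := h4 i
    simp only [Nat.cast_zero, add_zero] at a1
    show v i ≤ max (x i) (z i) + (m : ℤ)
    have : v i ≤ u i + (m : ℤ) := a3
    linarith

theorem tp_hull {d : ℕ} {x z u : Pt d} :
    u ∈ thick x z 0 ↔ ∀ i, min (x i) (z i) ≤ u i ∧ u i ≤ max (x i) (z i) := by
  rw [thick, Finset.mem_Icc]
  constructor
  · rintro ⟨h1, h2⟩ i
    have a1 := h1 i
    have a2 := h2 i
    simp only [Nat.cast_zero, sub_zero, add_zero] at a1 a2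
    exact ⟨a1, a2⟩
  · intro h
    refine ⟨fun i => ?_, fun i => ?_⟩
    · simpa using (h i).1
    · simpa using (h i).2

theorem tp_subset {d : ℕ} {x z : Pt d} {m : ℕ} : thick x z 0 ⊆ thick x z m := by
  intro u hu
  exact tp_cube_sub hu (by
    rw [cube, Finset.mem_Icc]
    constructor
    · intro i
      show u i - (m : ℤ) ≤ u i
      have : (0 : ℤ) ≤ m := by positivity
      linarith
    · intro i
      show u i ≤ u i + (m : ℤ)
      have : (0 : ℤ) ≤ m := by positivity
      linarith)

theorem tp_dist_step {d : ℕ} (u z : Pt d) (i : Fin d) (s : ℤ)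
    (h : |u i + s - z i| = |u i - z i| - 1) :
    dist1 (u + Pi.single i s) z = dist1 u z - 1 := by
  unfold dist1
  have h1 : ∀ j, |(u + Pi.single i s : Pt d) j - z j| =
      |u j - z j| - (if j = i then 1 else 0) := by
    intro j
    by_cases hj : j = i
    · subst hj
      simp [h]
    · simp [hj]
  rw [Finset.sum_congr rfl (fun j _ => h1 j), Finset.sum_sub_distrib]
  simp

/-- the free model inside the edge set of the wired model -/
theorem tp_free {d : ℕ} {H : Finset (Pt d)} {p q : ℝ} (hq : 0 < q) (hp0 : 0 ≤ p) (hp1 : p ≤ 1)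
    (x y : Pt d) :
    P (wD H) (fun e => if e ∈ lat H then p else 0) q (fun A => Conn A x y) = fP H p q x y := by
  unfold P fP P
  have hadm : Adm (wD H) (fun e => if e ∈ lat H then p else 0) := by
    intro e _
    by_cases h : e ∈ lat H
    · simp [h, hp0, hp1]
    · simp [h]
  rw [E_drop hq hadm (D := lat H) Finset.subset_union_left]
  · refine E_w_congr ?_ _
    intro e he
    simp [he]
  · intro e he
    rw [Finset.mem_sdiff] at he
    simp [he.2]

theorem tp_I {d k : ℕ} (hk : 1 ≤ k) {H : Finset (Pt d)} {p : ℝ} (hp0 : 0 ≤ p) (hp1 : p ≤ 1)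
    (x y z : Pt d) :
    |wP H p (2 * k : ℝ) x z * fP H p (2 * k : ℝ) y z
      - fP H p (2 * k : ℝ) x z * wP H p (2 * k : ℝ) y z|
      ≤ wP H p (2 * k : ℝ) x y - fP H p (2 * k : ℝ) x y := by
  have hq : (0 : ℝ) < 2 * k := by
    have : (1 : ℝ) ≤ k := by exact_mod_cast hk
    linarith
  have h := key_I hk (D := wD H) (w := pr (wO H) p) (w' := fun e => if e ∈ lat H then p else 0)
    (adm_pr hp0 hp1) (by
      intro e _
      by_cases h : e ∈ lat H
      · simp [h, hp0, hp1]
      · simp [h]) (by
      intro e _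
      unfold pr
      by_cases h1 : e ∈ lat H <;> by_cases h2 : e ∈ wO H <;> simp [h1, h2, hp0, hp1]) x y z
  rw [tp_free hq hp0 hp1, tp_free hq hp0 hp1, tp_free hq hp0 hp1] at h
  exact h

theorem tp_self {d : ℕ} {D : Finset (Pt d × Pt d)} {w : Pt d × Pt d → ℝ} {q : ℝ} (hq : 0 < q)
    (hw : Adm D w) (x : Pt d) : P D w q (fun A => Conn A x x) = 1 := by
  unfold P
  rw [E_congr (G := fun _ => 1) (fun A _ => ind_true (Conn.rfl' A x))]
  exact E_const hq hw 1

theorem two_point {d k : ℕ} (hd : 1 ≤ d) (hk : 1 ≤ k) {p0 p1 : ℝ} (h0 : 0 < p0) (h01 : p0 < p1)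
    (h1 : p1 < 1) (hth : 0 < th1 d p0 (2 * k : ℝ)) :
    ∃ C : ℝ, 0 < C ∧ ∀ n : ℕ, 1 ≤ n → ∀ x z : Pt d,
      (1 - C * dist1 x z / n) * th1 d p0 (2 * k : ℝ) ^ 2 ≤
        fP (thick x z (2 * n + 1)) p1 (2 * k : ℝ) x z := by
  have hk' : (1 : ℝ) ≤ k := by exact_mod_cast hk
  have hq1 : (1 : ℝ) < 2 * k := by linarith
  have hq : (0 : ℝ) < 2 * k := by linarith
  obtain ⟨C, hC, hED⟩ := edge_diff hd hq1 h0 h01 h1
  set θ := th1 d p0 (2 * k : ℝ) with hθ
  refine ⟨C / θ ^ 4, by positivity, ?_⟩
  intro n hn x z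
  obtain ⟨pn, hpn0, hpn1, hE⟩ := hED n hn
  have hn0 : (0 : ℝ) < n := by exact_mod_cast hn
  have hpn_0 : 0 ≤ pn := by linarith
  have hpn_1 : pn ≤ 1 := by linarith
  set H := thick x z (2 * n + 1) with hH
  set ε := C / n with hε
  have hεpos : 0 ≤ ε := by positivity
  have hzH : z ∈ H := by
    apply tp_subset
    rw [tp_hull]
    intro i
    exact ⟨min_le_right _ _, le_max_right _ _⟩
  -- lower bound for the wired two-point function
  have ha : ∀ u ∈ thick x z 0, θ ^ 2 ≤ wP H pn (2 * k : ℝ) u z := by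
    intro u hu
    refine le_trans ?_ (wP_ge_sq hq1.le hpn_0 hpn_1 (tp_subset hu) hzH)
    have := th1_mono (d := d) hq1.le h0.le hpn0.le hpn_1
    gcongr
  -- one step
  have step : ∀ u ∈ thick x z 0, ∀ u' ∈ thick x z 0, ∀ N : ℝ,
      (wP H pn (2 * k : ℝ) u u' - fP H pn (2 * k : ℝ) u u' ≤ ε) →
      (1 - N * (ε / θ ^ 4)) * wP H pn (2 * k : ℝ) u' z ≤ fP H pn (2 * k : ℝ) u' z →
      (1 - (N + 1) * (ε / θ ^ 4)) * wP H pn (2 * k : ℝ) u z ≤ fP H pn (2 * k : ℝ) u z := by
    intro u hu u' hu' N hd1 hN
    have hI := (abs_le.1 (tp_I hk hpn_0 hpn_1 (H := H) u u' z)).2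
    have hau := ha u hu
    have hau' := ha u' hu'
    set a := wP H pn (2 * k : ℝ) u z
    set a' := wP H pn (2 * k : ℝ) u' z
    set b := fP H pn (2 * k : ℝ) u z
    set b' := fP H pn (2 * k : ℝ) u' z
    have hθ2 : 0 < θ ^ 2 := by positivity
    have ha0 : 0 < a := by linarith
    have ha'0 : 0 < a' := by linarith
    have e1 : a * b' - b * a' ≤ ε := hI.trans hd1
    have e2 : a * ((1 - N * (ε / θ ^ 4)) * a') ≤ a * b' := by gcongr
    have e3 : ε ≤ ε / θ ^ 4 * (a * a') := by
      have : θ ^ 2 * θ ^ 2 ≤ a * a' := by gcongr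
      have h4 : θ ^ 4 = θ ^ 2 * θ ^ 2 := by ring
      calc ε = ε / θ ^ 4 * (θ ^ 2 * θ ^ 2) := by field_simp
        _ ≤ _ := by gcongr
    have e4 : (1 - (N + 1) * (ε / θ ^ 4)) * a * a' ≤ b * a' := by nlinarith
    exact le_of_mul_le_mul_right e4 ha'0
  have hsymm : ∀ u u' : Pt d, wP H pn (2 * k : ℝ) u u' - fP H pn (2 * k : ℝ) u u' =
      wP H pn (2 * k : ℝ) u' u - fP H pn (2 * k : ℝ) u' u := by
    intro u u'
    unfold wP fP P
    congr 1
    · exact E_congr (fun A _ => ind_congr ⟨Conn.symm', Conn.symm'⟩)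
    · exact E_congr (fun A _ => ind_congr ⟨Conn.symm', Conn.symm'⟩)
  -- induction along a path
  have main : ∀ N : ℕ, ∀ u ∈ thick x z 0, dist1 u z = N →
      (1 - (N : ℝ) * (ε / θ ^ 4)) * wP H pn (2 * k : ℝ) u z ≤ fP H pn (2 * k : ℝ) u z := by
    intro N
    induction N with
    | zero =>
      intro u hu hdist
      have huz : u = z := by
        funext i
        unfold dist1 at hdist
        have h2 := (Finset.sum_eq_zero_iff_of_nonneg (fun i _ => abs_nonneg (u i - z i))).1
          (by simpa using hdist) i (Finset.mem_univ i)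
        have := abs_eq_zero.1 h2
        linarith
      subst huz
      have e1 : wP H pn (2 * k : ℝ) u u = 1 := tp_self hq (adm_pr hpn_0 hpn_1) u
      have e2 : fP H pn (2 * k : ℝ) u u = 1 :=
        tp_self hq (fun e _ => ⟨hpn_0, hpn_1⟩) u
      rw [e1, e2]
      simp
    | succ N ih =>
      intro u hu hdist
      have hne : ∃ i, u i ≠ z i := by
        by_contra hcon
        push Not at hcon
        have : dist1 u z = 0 := by
          unfold dist1
          exact Finset.sum_eq_zero (fun i _ => by simp [hcon i])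
        rw [this] at hdist
        have : (0 : ℤ) < ((N + 1 : ℕ) : ℤ) := by positivity
        linarith
      obtain ⟨i, hi⟩ := hne
      have huH := tp_hull.1 hu
      rcases lt_or_gt_of_ne hi with hlt | hgt
      · -- move up
        have hu' : u + Pi.single i 1 ∈ thick x z 0 := by
          rw [tp_hull]
          intro j
          by_cases hj : j = i
          · subst hj
            simp only [Pi.add_apply, Pi.single_eq_same]
            constructor
            · linarith [(huH j).1]
            · have : z j ≤ max (x j) (z j) := le_max_right _ _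
              linarith
          · simp only [Pi.add_apply, Pi.single_eq_of_ne hj, add_zero]
            exact huH j
        have hd' : dist1 (u + Pi.single i 1) z = N := by
          rw [tp_dist_step u z i 1, hdist]
          · push_cast
            ring
          · rw [abs_of_nonpos (by linarith), abs_of_neg (by linarith)]
            ring
        have h3 := ih _ hu' hd'
        have h4 := hE H u i (tp_cube_sub hu)
        have h5 := step u hu _ hu' N h4 h3
        push_cast
        exact h5
      · -- move down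
        have hu' : u + Pi.single i (-1) ∈ thick x z 0 := by
          rw [tp_hull]
          intro j
          by_cases hj : j = i
          · subst hj
            simp only [Pi.add_apply, Pi.single_eq_same]
            constructor
            · have : min (x j) (z j) ≤ z j := min_le_right _ _
              linarith
            · linarith [(huH j).2]
          · simp only [Pi.add_apply, Pi.single_eq_of_ne hj, add_zero]
            exact huH j
        have hd' : dist1 (u + Pi.single i (-1)) z = N := by
          rw [tp_dist_step u z i (-1), hdist]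
          · push_cast
            ring
          · rw [abs_of_nonneg (by linarith), abs_of_pos (by linarith)]
            ring
        have h3 := ih _ hu' hd'
        have h4 := hE H (u + Pi.single i (-1)) i (tp_cube_sub hu')
        have hback : u + Pi.single i (-1) + Pi.single i 1 = u := by
          funext j
          by_cases hj : j = i
          · subst hj; simp
          · simp [hj]
        rw [hback, hsymm] at h4
        have h5 := step u hu _ hu' N h4 h3
        push_cast
        exact h5
  have hxhull : x ∈ thick x z 0 := by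
    rw [tp_hull]
    intro i
    exact ⟨min_le_left _ _, le_max_left _ _⟩
  have hdnn : 0 ≤ dist1 x z := Finset.sum_nonneg (fun i _ => abs_nonneg _)
  obtain ⟨N, hN⟩ := Int.eq_ofNat_of_zero_le hdnn
  have hm := main N x hxhull hN
  have hmp : fP H pn (2 * k : ℝ) x z ≤ fP H p1 (2 * k : ℝ) x z :=
    fP_mono_p hq1.le hpn_0 hpn1.le h1.le x z
  have hcoef : (1 - C / θ ^ 4 * (dist1 x z : ℝ) / n) = 1 - (N : ℝ) * (ε / θ ^ 4) := by
    rw [hN, hε]
    push_cast
    field_simp
  rw [hcoef]
  rcases le_or_gt 0 (1 - (N : ℝ) * (ε / θ ^ 4)) with hc | hc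
  · calc (1 - (N : ℝ) * (ε / θ ^ 4)) * θ ^ 2 ≤
        (1 - (N : ℝ) * (ε / θ ^ 4)) * wP H pn (2 * k : ℝ) x z := by
          have := ha x hxhull
          gcongr
      _ ≤ _ := hm.trans hmp
  · have h6 : 0 ≤ fP H p1 (2 * k : ℝ) x z := by
      unfold fP
      exact P_nonneg hq (fun e _ => ⟨by linarith, by linarith⟩) _
    have h7 : (1 - (N : ℝ) * (ε / θ ^ 4)) * θ ^ 2 ≤ 0 :=
      mul_nonpos_of_nonpos_of_nonneg hc.le (by positivity)
    linarith

end FKB
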