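import Pool.Agent.FKB.Base

open Finset
noncomputable section
namespace FKB

variable {V : Type*} [DecidableEq V]

/-- the vector of an edge -/
def RankA_vec (e : V × V) : V →₀ ℚ := Finsupp.single e.1 (1 : ℚ) - Finsupp.single e.2 1

/-- the span of the vectors of the edges of `A` -/
def RankA_sp (A : Finset (V × V)) : Submodule ℚ (V →₀ ℚ) :=
  Submodule.span ℚ (RankA_vec '' (A : Set (V × V)))

omit [DecidableEq V] in
theorem RankA_rk (A : Finset (V × V)) : rk A = Module.finrank ℚ (RankA_sp A) := rfl

instance RankA_fin (A : Finset (V × V)) : FiniteDimensional ℚ (RankA_sp A) := by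
  unfold RankA_sp
  exact FiniteDimensional.span_of_finite ℚ (A.finite_toSet.image _)

omit [DecidableEq V] in
theorem RankA_mem_of_conn {A : Finset (V × V)} {x y : V} (h : Conn A x y) :
    Finsupp.single x (1 : ℚ) - Finsupp.single y 1 ∈ RankA_sp A := by
  induction h with
  | rel x y h => exact Submodule.subset_span ⟨(x, y), h, rfl⟩
  | refl x => rw [sub_self]; exact Submodule.zero_mem _
  | symm x y _ ih =>
    rw [← neg_sub]
    exact Submodule.neg_mem _ ih
  | trans x y z _ _ ih1 ih2 =>
    have := Submodule.add_mem _ ih1 ih2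
    rwa [sub_add_sub_cancel] at this

omit [DecidableEq V] in
theorem RankA_not_mem {A : Finset (V × V)} {x y : V} (h : ¬ Conn A x y) :
    Finsupp.single x (1 : ℚ) - Finsupp.single y 1 ∉ RankA_sp A := by
  classical
  intro hm
  set f : (V →₀ ℚ) →ₗ[ℚ] ℚ :=
    Finsupp.linearCombination ℚ (fun u => if Conn A x u then (1 : ℚ) else 0) with hf
  have h1 : RankA_sp A ≤ LinearMap.ker f := by
    unfold RankA_sp
    rw [Submodule.span_le]
    rintro _ ⟨e, he, rfl⟩
    have h2 : Conn A x e.1 ↔ Conn A x e.2 :=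
      ⟨fun h => h.trans' (Conn.edge he), fun h => h.trans' (Conn.edge he).symm'⟩
    simp [RankA_vec, hf, Finsupp.linearCombination_single, h2]
  have h3 := h1 hm
  rw [LinearMap.mem_ker, map_sub, hf, Finsupp.linearCombination_single,
    Finsupp.linearCombination_single, if_pos (Conn.rfl' A x), if_neg h] at h3
  norm_num at h3

theorem RankA_sp_insert (A : Finset (V × V)) (e : V × V) :
    RankA_sp (insert e A) = Submodule.span ℚ {RankA_vec e} ⊔ RankA_sp A := by
  unfold RankA_sp
  rw [Finset.coe_insert, Set.image_insert_eq, Submodule.span_insert]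

omit [DecidableEq V] in
theorem RankA_sp_mono {A B : Finset (V × V)} (h : A ⊆ B) : RankA_sp A ≤ RankA_sp B :=
  Submodule.span_mono (Set.image_mono (by exact_mod_cast h))

theorem rk_empty : rk (∅ : Finset (V × V)) = 0 := by
  have h1 : RankA_sp (∅ : Finset (V × V)) = ⊥ := by
    unfold RankA_sp
    rw [Finset.coe_empty, Set.image_empty, Submodule.span_empty]
  rw [RankA_rk, h1]
  exact finrank_bot ℚ _

theorem rk_insert (A : Finset (V × V)) (e : V × V) :
    (rk (insert e A) : ℝ) = rk A + (1 - ind (Conn A e.1 e.2)) := by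
  by_cases h : Conn A e.1 e.2
  · rw [ind_true h, RankA_rk, RankA_rk, RankA_sp_insert]
    have h1 : Submodule.span ℚ {RankA_vec e} ≤ RankA_sp A := by
      rw [Submodule.span_singleton_le_iff_mem]
      exact RankA_mem_of_conn h
    rw [sup_eq_right.2 h1]
    simp
  · rw [ind_false h, RankA_rk, RankA_rk, RankA_sp_insert]
    have hv : RankA_vec e ∉ RankA_sp A := RankA_not_mem h
    have hv0 : RankA_vec e ≠ 0 := fun h0 => hv (h0 ▸ Submodule.zero_mem _)
    have h2 := Submodule.finrank_sup_add_finrank_inf_eq (Submodule.span ℚ {RankA_vec e})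
      (RankA_sp A)
    have h3 : Submodule.span ℚ {RankA_vec e} ⊓ RankA_sp A = ⊥ := by
      rw [eq_bot_iff]
      rintro v ⟨hv1, hv2⟩
      obtain ⟨c, rfl⟩ := Submodule.mem_span_singleton.1 hv1
      by_cases hc : c = 0
      · simp [hc]
      · exfalso
        apply hv
        have := Submodule.smul_mem (RankA_sp A) c⁻¹ hv2
        rwa [smul_smul, inv_mul_cancel₀ hc, one_smul] at this
    rw [h3, finrank_bot, finrank_span_singleton hv0] at h2
    have h4 : Module.finrank ℚ
        ((Submodule.span ℚ {RankA_vec e} ⊔ RankA_sp A : Submodule ℚ (V →₀ ℚ))) =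
        1 + Module.finrank ℚ (RankA_sp A) := by omega
    rw [h4]
    push_cast
    ring

theorem rk_mono {A B : Finset (V × V)} (h : A ⊆ B) : rk A ≤ rk B := by
  rw [RankA_rk, RankA_rk]
  exact Submodule.finrank_mono (RankA_sp_mono h)

theorem rk_le_card (A : Finset (V × V)) : rk A ≤ A.card := by
  classical
  rw [RankA_rk]
  unfold RankA_sp
  rw [← Finset.coe_image]
  exact (finrank_span_finset_le_card _).trans Finset.card_image_le

theorem rk_submod (A B : Finset (V × V)) : rk (A ∪ B) + rk (A ∩ B) ≤ rk A + rk B := by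
  rw [RankA_rk, RankA_rk, RankA_rk, RankA_rk]
  have h1 : RankA_sp (A ∪ B) = RankA_sp A ⊔ RankA_sp B := by
    unfold RankA_sp
    rw [Finset.coe_union, Set.image_union, Submodule.span_union]
  have h2 : RankA_sp (A ∩ B) ≤ RankA_sp A ⊓ RankA_sp B :=
    le_inf (RankA_sp_mono Finset.inter_subset_left) (RankA_sp_mono Finset.inter_subset_right)
  have h3 := Submodule.finrank_sup_add_finrank_inf_eq (RankA_sp A) (RankA_sp B)
  have h4 : Module.finrank ℚ (RankA_sp (A ∩ B)) ≤
      Module.finrank ℚ ((RankA_sp A ⊓ RankA_sp B : Submodule ℚ (V →₀ ℚ))) := by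
    have : FiniteDimensional ℚ ((RankA_sp A ⊓ RankA_sp B : Submodule ℚ (V →₀ ℚ))) :=
      Submodule.finiteDimensional_inf_left _ _
    exact Submodule.finrank_mono h2
  rw [h1]
  omega

theorem rk_square_le (T : Finset V) : rk (T ×ˢ T) ≤ T.card := by
  classical
  rw [RankA_rk]
  have h1 : RankA_sp (T ×ˢ T) ≤
      Submodule.span ℚ ((T.image fun x => Finsupp.single x (1 : ℚ) : Finset (V →₀ ℚ)) :
        Set (V →₀ ℚ)) := by
    unfold RankA_sp
    rw [Submodule.span_le]
    rintro _ ⟨e, he, rfl⟩
    have he' : e.1 ∈ T ∧ e.2 ∈ T := by simpa using he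
    refine Submodule.sub_mem _ (Submodule.subset_span ?_) (Submodule.subset_span ?_)
    · simp only [Finset.coe_image, Set.mem_image, Finset.mem_coe]
      exact ⟨e.1, he'.1, rfl⟩
    · simp only [Finset.coe_image, Set.mem_image, Finset.mem_coe]
      exact ⟨e.2, he'.2, rfl⟩
  have : FiniteDimensional ℚ (Submodule.span ℚ
      ((T.image fun x => Finsupp.single x (1 : ℚ) : Finset (V →₀ ℚ)) : Set (V →₀ ℚ))) :=
    FiniteDimensional.span_finset ℚ _
  exact (Submodule.finrank_mono h1).trans
    ((finrank_span_finset_le_card _).trans Finset.card_image_le)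

end FKB
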