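import Pool.Agent.FKB.Basic
import Pool.Agent.FKB.RankA

open Finset
noncomputable section
namespace FKB

variable {V : Type*} [DecidableEq V]

/-- product form of the weight -/
theorem holley_wt_eq {D : Finset (V × V)} (w : V × V → ℝ) (q : ℝ) {A : Finset (V × V)}
    (hA : A ⊆ D) :
    wt D w q A = (∏ e ∈ D, if e ∈ A then w e else 1 - w e) * (q⁻¹) ^ rk A := by
  unfold wt
  congr 1
  rw [← Finset.prod_sdiff hA, mul_comm]
  congr 1
  · exact Finset.prod_congr rfl (fun e he => by rw [if_neg (Finset.mem_sdiff.1 he).2])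
  · exact Finset.prod_congr rfl (fun e he => by rw [if_pos he])

theorem holley_wt_four {D : Finset (V × V)} {w w' : V × V → ℝ} {q : ℝ} (hq : 1 ≤ q)
    (hw : Adm D w) (hw' : Adm D w') (hle : ∀ e ∈ D, w e ≤ w' e)
    {A B : Finset (V × V)} (hA : A ⊆ D) (hB : B ⊆ D) :
    wt D w q A * wt D w' q B ≤ wt D w q (A ∩ B) * wt D w' q (A ∪ B) := by
  have hAB : A ∩ B ⊆ D := fun e he => hA (Finset.mem_inter.1 he).1
  have hAB' : A ∪ B ⊆ D := Finset.union_subset hA hB
  have hq0 : 0 < q := by linarith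
  rw [holley_wt_eq w q hA, holley_wt_eq w' q hB, holley_wt_eq w q hAB, holley_wt_eq w' q hAB']
  have h1 : (∏ e ∈ D, if e ∈ A then w e else 1 - w e) *
        (∏ e ∈ D, if e ∈ B then w' e else 1 - w' e) ≤
      (∏ e ∈ D, if e ∈ A ∩ B then w e else 1 - w e) *
        (∏ e ∈ D, if e ∈ A ∪ B then w' e else 1 - w' e) := by
    rw [← Finset.prod_mul_distrib, ← Finset.prod_mul_distrib]
    apply Finset.prod_le_prod
    · intro e he
      obtain ⟨h1, h2⟩ := hw e he
      obtain ⟨h3, h4⟩ := hw' e he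
      apply mul_nonneg <;> split_ifs <;> linarith
    · intro e he
      obtain ⟨h1, h2⟩ := hw e he
      obtain ⟨h3, h4⟩ := hw' e he
      have h5 := hle e he
      by_cases ha : e ∈ A <;> by_cases hb : e ∈ B <;> simp [ha, hb] <;> nlinarith
  have h2 : (q⁻¹) ^ rk A * (q⁻¹) ^ rk B ≤ (q⁻¹) ^ rk (A ∩ B) * (q⁻¹) ^ rk (A ∪ B) := by
    rw [← pow_add, ← pow_add]
    apply pow_le_pow_of_le_one (by positivity) (inv_le_one_of_one_le₀ hq)
    have := rk_submod A B
    omega
  have h3 : 0 ≤ (∏ e ∈ D, if e ∈ A ∩ B then w e else 1 - w e) *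
        (∏ e ∈ D, if e ∈ A ∪ B then w' e else 1 - w' e) := by
    apply mul_nonneg <;> apply Finset.prod_nonneg <;> intro e he
    · obtain ⟨h1, h2⟩ := hw e he
      split_ifs <;> linarith
    · obtain ⟨h1, h2⟩ := hw' e he
      split_ifs <;> linarith
  have h4 := mul_le_mul h1 h2 (by positivity) h3
  calc _ = ((∏ e ∈ D, if e ∈ A then w e else 1 - w e) *
        (∏ e ∈ D, if e ∈ B then w' e else 1 - w' e)) * ((q⁻¹) ^ rk A * (q⁻¹) ^ rk B) := by ring
    _ ≤ _ := h4
    _ = _ := by ring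

theorem holley_four_aux {D : Finset (V × V)} (f1 f2 f3 f4 : Finset (V × V) → ℝ)
    (h1 : ∀ A, A ⊆ D → 0 ≤ f1 A) (h2 : ∀ A, A ⊆ D → 0 ≤ f2 A) (h3 : ∀ A, A ⊆ D → 0 ≤ f3 A)
    (h4 : ∀ A, A ⊆ D → 0 ≤ f4 A)
    (h : ∀ A, A ⊆ D → ∀ B, B ⊆ D → f1 A * f2 B ≤ f3 (A ∩ B) * f4 (A ∪ B)) :
    (∑ A ∈ D.powerset, f1 A) * (∑ A ∈ D.powerset, f2 A) ≤
      (∑ A ∈ D.powerset, f3 A) * (∑ A ∈ D.powerset, f4 A) := by
  classical
  have key := Finset.four_functions_theorem (β := ℝ) D
    (f₁ := fun A => if A ⊆ D then f1 A else 0) (f₂ := fun A => if A ⊆ D then f2 A else 0)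
    (f₃ := fun A => if A ⊆ D then f3 A else 0) (f₄ := fun A => if A ⊆ D then f4 A else 0)
    (fun A => by
      show (0 : ℝ) ≤ if A ⊆ D then f1 A else 0
      split_ifs with hA
      · exact h1 A hA
      · exact le_rfl)
    (fun A => by
      show (0 : ℝ) ≤ if A ⊆ D then f2 A else 0
      split_ifs with hA
      · exact h2 A hA
      · exact le_rfl)
    (fun A => by
      show (0 : ℝ) ≤ if A ⊆ D then f3 A else 0
      split_ifs with hA
      · exact h3 A hA
      · exact le_rfl)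
    (fun A => by
      show (0 : ℝ) ≤ if A ⊆ D then f4 A else 0
      split_ifs with hA
      · exact h4 A hA
      · exact le_rfl)
    (fun s hs t ht => by
      have a1 : s ∩ t ⊆ D := fun e he => hs (Finset.mem_inter.1 he).1
      have a2 : s ∪ t ⊆ D := Finset.union_subset hs ht
      simp only [hs, ht, a1, a2, if_true]
      exact h s hs t ht)
    (𝒜 := D.powerset) (ℬ := D.powerset) subset_rfl subset_rfl
  rw [Finset.powerset_infs_powerset_self, Finset.powerset_sups_powerset_self] at key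
  have e : ∀ f : Finset (V × V) → ℝ,
      ∑ A ∈ D.powerset, (if A ⊆ D then f A else 0) = ∑ A ∈ D.powerset, f A := fun f =>
    Finset.sum_congr rfl (fun A hA => by rw [if_pos (Finset.mem_powerset.1 hA)])
  rw [e, e, e, e] at key
  exact key

theorem E_holley {D : Finset (V × V)} {w w' : V × V → ℝ} {q : ℝ} (hq : 1 ≤ q)
    (hw : Adm D w) (hw' : Adm D w') (hle : ∀ e ∈ D, w e ≤ w' e)
    {F : Finset (V × V) → ℝ} (hF : Inc D F) : E D w q F ≤ E D w' q F := by
  have hq0 : 0 < q := by linarith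
  have hZ := Z_pos hq0 hw
  have hZ' := Z_pos hq0 hw'
  have hg : ∀ A, A ⊆ D → 0 ≤ F A - F ∅ := fun A hA =>
    sub_nonneg.2 (hF ∅ A (Finset.empty_subset _) hA)
  have key := holley_four_aux (D := D) (fun A => wt D w q A * (F A - F ∅)) (fun A => wt D w' q A)
    (fun A => wt D w q A) (fun A => wt D w' q A * (F A - F ∅))
    (fun A hA => mul_nonneg (wt_nonneg hq0 hw hA) (hg A hA))
    (fun A hA => wt_nonneg hq0 hw' hA) (fun A hA => wt_nonneg hq0 hw hA)
    (fun A hA => mul_nonneg (wt_nonneg hq0 hw' hA) (hg A hA))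
    (fun A hA B hB => by
      have a1 : A ∩ B ⊆ D := fun e he => hA (Finset.mem_inter.1 he).1
      have a2 : A ∪ B ⊆ D := Finset.union_subset hA hB
      have b1 := holley_wt_four hq hw hw' hle hA hB
      have b2 : F A - F ∅ ≤ F (A ∪ B) - F ∅ :=
        sub_le_sub_right (hF A (A ∪ B) Finset.subset_union_left a2) _
      calc wt D w q A * (F A - F ∅) * wt D w' q B
          = (wt D w q A * wt D w' q B) * (F A - F ∅) := by ring
        _ ≤ (wt D w q (A ∩ B) * wt D w' q (A ∪ B)) * (F (A ∪ B) - F ∅) :=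
            mul_le_mul b1 b2 (hg A hA)
              (mul_nonneg (wt_nonneg hq0 hw a1) (wt_nonneg hq0 hw' a2))
        _ = _ := by ring)
  have h1 : E D w q (fun A => F A - F ∅) ≤ E D w' q (fun A => F A - F ∅) := by
    unfold E
    rw [div_le_div_iff₀ hZ hZ']
    unfold Z
    linarith [key]
  have h2 := E_sub (D := D) (w := w) (q := q) F (fun _ => F ∅)
  have h3 := E_sub (D := D) (w := w') (q := q) F (fun _ => F ∅)
  rw [E_const hq0 hw] at h2
  rw [E_const hq0 hw'] at h3
  rw [h2, h3] at h1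
  linarith

theorem E_fkg {D : Finset (V × V)} {w : V × V → ℝ} {q : ℝ} (hq : 1 ≤ q) (hw : Adm D w)
    {F G : Finset (V × V) → ℝ} (hF : Inc D F) (hG : Inc D G) :
    E D w q F * E D w q G ≤ E D w q (fun A => F A * G A) := by
  have hq0 : 0 < q := by linarith
  have hZ := Z_pos hq0 hw
  have hf : ∀ A, A ⊆ D → 0 ≤ F A - F ∅ := fun A hA =>
    sub_nonneg.2 (hF ∅ A (Finset.empty_subset _) hA)
  have hg : ∀ A, A ⊆ D → 0 ≤ G A - G ∅ := fun A hA =>
    sub_nonneg.2 (hG ∅ A (Finset.empty_subset _) hA)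
  have key := holley_four_aux (D := D) (fun A => wt D w q A * (F A - F ∅))
    (fun A => wt D w q A * (G A - G ∅))
    (fun A => wt D w q A) (fun A => wt D w q A * ((F A - F ∅) * (G A - G ∅)))
    (fun A hA => mul_nonneg (wt_nonneg hq0 hw hA) (hf A hA))
    (fun A hA => mul_nonneg (wt_nonneg hq0 hw hA) (hg A hA))
    (fun A hA => wt_nonneg hq0 hw hA)
    (fun A hA => mul_nonneg (wt_nonneg hq0 hw hA) (mul_nonneg (hf A hA) (hg A hA)))
    (fun A hA B hB => by
      have a1 : A ∩ B ⊆ D := fun e he => hA (Finset.mem_inter.1 he).1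
      have a2 : A ∪ B ⊆ D := Finset.union_subset hA hB
      have b1 := holley_wt_four hq hw hw (fun e _ => le_rfl) hA hB
      have b2 : F A - F ∅ ≤ F (A ∪ B) - F ∅ :=
        sub_le_sub_right (hF A (A ∪ B) Finset.subset_union_left a2) _
      have b3 : G B - G ∅ ≤ G (A ∪ B) - G ∅ :=
        sub_le_sub_right (hG B (A ∪ B) Finset.subset_union_right a2) _
      calc wt D w q A * (F A - F ∅) * (wt D w q B * (G B - G ∅))
          = (wt D w q A * wt D w q B) * ((F A - F ∅) * (G B - G ∅)) := by ring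
        _ ≤ (wt D w q (A ∩ B) * wt D w q (A ∪ B)) *
              ((F (A ∪ B) - F ∅) * (G (A ∪ B) - G ∅)) :=
            mul_le_mul b1 (mul_le_mul b2 b3 (hg B hB) (hf _ a2))
              (mul_nonneg (hf A hA) (hg B hB))
              (mul_nonneg (wt_nonneg hq0 hw a1) (wt_nonneg hq0 hw a2))
        _ = _ := by ring)
  have h1 : E D w q (fun A => F A - F ∅) * E D w q (fun A => G A - G ∅) ≤
      E D w q (fun A => (F A - F ∅) * (G A - G ∅)) := by
    unfold E
    rw [div_mul_div_comm, div_le_div_iff₀ (mul_pos hZ hZ) hZ]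
    have hk := mul_le_mul_of_nonneg_right key hZ.le
    have hZe : Z D w q = ∑ A ∈ D.powerset, wt D w q A := rfl
    rw [← hZe] at hk
    linarith [hk]
  have h2 := E_sub (D := D) (w := w) (q := q) F (fun _ => F ∅)
  have h3 := E_sub (D := D) (w := w) (q := q) G (fun _ => G ∅)
  rw [E_const hq0 hw] at h2 h3
  have h4 : E D w q (fun A => (F A - F ∅) * (G A - G ∅)) =
      E D w q (fun A => F A * G A) - F ∅ * E D w q G - G ∅ * E D w q F + F ∅ * G ∅ := by
    have e1 : E D w q (fun A => (F A - F ∅) * (G A - G ∅)) =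
        E D w q (fun A => (F A * G A - F ∅ * G A) - (G ∅ * F A - F ∅ * G ∅)) :=
      E_congr (fun A _ => by ring)
    rw [e1, E_sub (fun A => F A * G A - F ∅ * G A) (fun A => G ∅ * F A - F ∅ * G ∅),
      E_sub (fun A => F A * G A) (fun A => F ∅ * G A),
      E_sub (fun A => G ∅ * F A) (fun _ => F ∅ * G ∅), E_smul, E_smul, E_const hq0 hw]
    ring
  rw [h2, h3, h4] at h1
  nlinarith [h1]

end FKB
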