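import Pool.Agent.FKB.DomainA
import Pool.Agent.FKB.RankB

open Finset
noncomputable section
namespace FKB

variable {V : Type*} [DecidableEq V]

theorem domB_sum {D1 O : Finset (V × V)} {w : V × V → ℝ} {q : ℝ}
    (hO : Disjoint D1 O) (H : Finset (V × V) → ℝ) :
    ∑ A ∈ (D1 ∪ O).powerset, wt (D1 ∪ O) (pin w D1 O) q A * H (A ∩ D1) =
      ∑ A ∈ D1.powerset,
        ((∏ e ∈ A, w e) * (∏ e ∈ D1 \ A, (1 - w e)) * (q⁻¹) ^ rk (A ∪ O)) * H A := by
  rw [← Finset.sum_filter_add_sum_filter_not _ (fun A => O ⊆ A)]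
  have hz : ∑ A ∈ (D1 ∪ O).powerset with ¬ O ⊆ A,
      wt (D1 ∪ O) (pin w D1 O) q A * H (A ∩ D1) = 0 := by
    apply Finset.sum_eq_zero
    intro A hA
    rw [Finset.mem_filter, Finset.mem_powerset, Finset.not_subset] at hA
    obtain ⟨_, e, he, heA⟩ := hA
    have h1 : e ∉ D1 := Finset.disjoint_right.mp hO he
    have : ∏ e ∈ (D1 ∪ O) \ A, (1 - pin w D1 O e) = 0 := by
      apply Finset.prod_eq_zero (Finset.mem_sdiff.mpr ⟨Finset.mem_union_right _ he, heA⟩)
      simp only [pin, h1, he, if_true, if_false, sub_self]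
    unfold wt
    rw [this]; ring
  rw [hz, add_zero]
  apply Finset.sum_nbij' (i := fun A => A ∩ D1) (j := fun A => A ∪ O)
  · intro A _
    rw [Finset.mem_powerset]
    exact Finset.inter_subset_right
  · intro A hA
    rw [Finset.mem_powerset] at hA
    rw [Finset.mem_filter, Finset.mem_powerset]
    exact ⟨Finset.union_subset_union_left hA, Finset.subset_union_right⟩
  · intro A hA
    rw [Finset.mem_filter, Finset.mem_powerset] at hA
    ext e
    simp only [Finset.mem_union, Finset.mem_inter]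
    constructor
    · rintro (h | h)
      · exact h.1
      · exact hA.2 h
    · intro h
      rcases Finset.mem_union.mp (hA.1 h) with h1 | h1
      · left; exact ⟨h, h1⟩
      · right; exact h1
  · intro A hA
    rw [Finset.mem_powerset] at hA
    ext e
    simp only [Finset.mem_union, Finset.mem_inter]
    constructor
    · rintro ⟨h | h, h1⟩
      · exact h
      · exact absurd h (Finset.disjoint_left.mp hO h1)
    · intro h
      exact ⟨Or.inl h, hA h⟩
  · intro A hA
    rw [Finset.mem_filter, Finset.mem_powerset] at hA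
    have hAe : A = (A ∩ D1) ∪ O := by
      ext e
      simp only [Finset.mem_union, Finset.mem_inter]
      constructor
      · intro h
        rcases Finset.mem_union.mp (hA.1 h) with h1 | h1
        · left; exact ⟨h, h1⟩
        · right; exact h1
      · rintro (h | h)
        · exact h.1
        · exact hA.2 h
    have hdj : Disjoint (A ∩ D1) O := hO.mono_left Finset.inter_subset_right
    have p1 : ∏ e ∈ A, pin w D1 O e = ∏ e ∈ A ∩ D1, w e := by
      conv_lhs => rw [hAe]
      rw [Finset.prod_union hdj]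
      have a1 : ∏ e ∈ A ∩ D1, pin w D1 O e = ∏ e ∈ A ∩ D1, w e := by
        apply Finset.prod_congr rfl
        intro e he
        have : e ∈ D1 := (Finset.mem_inter.mp he).2
        simp only [pin, this, if_true]
      have a2 : ∏ e ∈ O, pin w D1 O e = 1 := by
        apply Finset.prod_eq_one
        intro e he
        have : e ∉ D1 := Finset.disjoint_right.mp hO he
        simp only [pin, this, he, if_true, if_false]
      rw [a1, a2, mul_one]
    have e2 : (D1 ∪ O) \ A = D1 \ (A ∩ D1) := by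
      ext e
      simp only [Finset.mem_union, Finset.mem_sdiff, Finset.mem_inter]
      constructor
      · rintro ⟨h1 | h1, h2⟩
        · exact ⟨h1, fun h => h2 h.1⟩
        · exact absurd (hA.2 h1) h2
      · rintro ⟨h1, h2⟩
        exact ⟨Or.inl h1, fun h => h2 ⟨h, h1⟩⟩
    have p2 : ∏ e ∈ (D1 ∪ O) \ A, (1 - pin w D1 O e) = ∏ e ∈ D1 \ (A ∩ D1), (1 - w e) := by
      rw [e2]
      apply Finset.prod_congr rfl
      intro e he
      have : e ∈ D1 := (Finset.mem_sdiff.mp he).1
      simp only [pin, this, if_true]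
    unfold wt
    rw [p1, p2, ← hAe]

/-- the forced open edges matter only through the connections they induce -/
theorem E_wire_congr {D1 O O' : Finset (V × V)} {w : V × V → ℝ} {q : ℝ} (hq : 0 < q)
    {T : Finset V} (hw : Adm D1 w) (hT : Verts D1 T) (hO : Disjoint D1 O) (hO' : Disjoint D1 O')
    (h : ∀ x ∈ T, ∀ y ∈ T, (Conn O x y ↔ Conn O' x y)) (F : Finset (V × V) → ℝ) :
    E (D1 ∪ O) (pin w D1 O) q (fun A => F (A ∩ D1)) =
      E (D1 ∪ O') (pin w D1 O') q (fun A => F (A ∩ D1)) := by
  have hq' : (0 : ℝ) < q⁻¹ := inv_pos.mpr hq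
  set k : ℝ := (q⁻¹) ^ rk O / (q⁻¹) ^ rk O' with hk
  have hk0 : k ≠ 0 := by
    rw [hk]; positivity
  have key : ∀ H : Finset (V × V) → ℝ,
      ∑ A ∈ (D1 ∪ O).powerset, wt (D1 ∪ O) (pin w D1 O) q A * H (A ∩ D1) =
      k * ∑ A ∈ (D1 ∪ O').powerset, wt (D1 ∪ O') (pin w D1 O') q A * H (A ∩ D1) := by
    intro H
    rw [domB_sum hO, domB_sum hO', Finset.mul_sum]
    apply Finset.sum_congr rfl
    intro A hA
    rw [Finset.mem_powerset] at hA
    have hr := rk_union_congr (A := A) (fun e he => hT e (hA he)) h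
    have hpow : (q⁻¹) ^ rk (A ∪ O) * (q⁻¹) ^ rk O' = (q⁻¹) ^ rk (A ∪ O') * (q⁻¹) ^ rk O := by
      rw [← pow_add, ← pow_add, hr]
    have hpow' : (q⁻¹) ^ rk (A ∪ O) = k * (q⁻¹) ^ rk (A ∪ O') := by
      rw [hk, div_mul_eq_mul_div, eq_div_iff (by positivity), hpow]
      ring
    rw [hpow']
    ring
  have keyZ : Z (D1 ∪ O) (pin w D1 O) q = k * Z (D1 ∪ O') (pin w D1 O') q := by
    have := key (fun _ => 1)
    simpa [Z] using this
  unfold E
  rw [key F, keyZ, mul_div_mul_left _ _ hk0]

theorem E_map {V' : Type*} [DecidableEq V'] (φ : V ↪ V') (D : Finset (V × V))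
    (w' : V' × V' → ℝ) (q : ℝ) (F : Finset (V' × V') → ℝ) :
    E (D.map (φ.prodMap φ)) w' q F =
      E D (fun e => w' (φ e.1, φ e.2)) q (fun A => F (A.map (φ.prodMap φ))) := by
  have key : ∀ H : Finset (V' × V') → ℝ,
      ∑ A ∈ (D.map (φ.prodMap φ)).powerset, wt (D.map (φ.prodMap φ)) w' q A * H A =
      ∑ A ∈ D.powerset, wt D (fun e => w' (φ e.1, φ e.2)) q A * H (A.map (φ.prodMap φ)) := by
    intro H
    symm
    apply Finset.sum_bij (i := fun A _ => A.map (φ.prodMap φ))
    · intro A hA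
      rw [Finset.mem_powerset] at hA ⊢
      exact Finset.map_subset_map.mpr hA
    · intro A _ B _ hAB
      exact Finset.map_injective _ hAB
    · intro B hB
      rw [Finset.mem_powerset, Finset.subset_map_iff] at hB
      obtain ⟨u, hu, rfl⟩ := hB
      exact ⟨u, Finset.mem_powerset.mpr hu, rfl⟩
    · intro A _
      have p1 : ∏ e ∈ A.map (φ.prodMap φ), w' e = ∏ e ∈ A, w' (φ e.1, φ e.2) := by
        rw [Finset.prod_map]
        rfl
      have p2 : ∏ e ∈ D.map (φ.prodMap φ) \ A.map (φ.prodMap φ), (1 - w' e) =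
          ∏ e ∈ D \ A, (1 - w' (φ e.1, φ e.2)) := by
        rw [← Finset.map_sdiff, Finset.prod_map]
        rfl
      unfold wt
      rw [p1, p2, rk_map]
  have keyZ : Z (D.map (φ.prodMap φ)) w' q = Z D (fun e => w' (φ e.1, φ e.2)) q := by
    have := key (fun _ => 1)
    simpa [Z] using this
  unfold E
  rw [key F, keyZ]

end FKB
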