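import Pool.Agent.FKB.Defs

open Finset
noncomputable section
namespace FKB

theorem ind_true {p : Prop} (h : p) : ind p = 1 := by simp [ind, h]
theorem ind_false {p : Prop} (h : ¬ p) : ind p = 0 := by simp [ind, h]
theorem ind_nonneg (p : Prop) : 0 ≤ ind p := by by_cases h : p <;> simp [ind, h]
theorem ind_le_one (p : Prop) : ind p ≤ 1 := by by_cases h : p <;> simp [ind, h]
theorem ind_zero_or_one (p : Prop) : ind p = 0 ∨ ind p = 1 := by by_cases h : p <;> simp [ind, h]
theorem ind_mono {p r : Prop} (h : p → r) : ind p ≤ ind r := by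
  by_cases hp : p
  · rw [ind_true hp, ind_true (h hp)]
  · rw [ind_false hp]; exact ind_nonneg r
theorem ind_congr {p r : Prop} (h : p ↔ r) : ind p = ind r := by
  by_cases hp : p
  · rw [ind_true hp, ind_true (h.1 hp)]
  · rw [ind_false hp, ind_false (fun hr => hp (h.2 hr))]
theorem ind_and (p r : Prop) : ind (p ∧ r) = ind p * ind r := by
  by_cases hp : p <;> by_cases hr : r <;> simp [ind, hp, hr]
theorem ind_not (p : Prop) : ind (¬ p) = 1 - ind p := by by_cases hp : p <;> simp [ind, hp]

variable {V : Type*}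

theorem Conn.rfl' (A : Finset (V × V)) (x : V) : Conn A x x := Relation.EqvGen.refl x
theorem Conn.symm' {A : Finset (V × V)} {x y : V} (h : Conn A x y) : Conn A y x :=
  Relation.EqvGen.symm _ _ h
theorem Conn.trans' {A : Finset (V × V)} {x y z : V} (h : Conn A x y) (h' : Conn A y z) :
    Conn A x z := Relation.EqvGen.trans _ _ _ h h'
theorem Conn.mono' {A B : Finset (V × V)} (hAB : A ⊆ B) {x y : V} (h : Conn A x y) :
    Conn B x y := by
  induction h with
  | rel x y h => exact Relation.EqvGen.rel _ _ (hAB h)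
  | refl x => exact Conn.rfl' B x
  | symm x y _ ih => exact ih.symm'
  | trans x y z _ _ ih1 ih2 => exact ih1.trans' ih2
theorem Conn.edge {A : Finset (V × V)} {e : V × V} (h : e ∈ A) : Conn A e.1 e.2 :=
  Relation.EqvGen.rel _ _ h
/-- induction: a property stable along edges is constant on clusters -/
theorem Conn.inv {A : Finset (V × V)} {x y : V} (h : Conn A x y) (f : V → Prop)
    (hf : ∀ e ∈ A, (f e.1 ↔ f e.2)) : f x ↔ f y := by
  induction h with
  | rel x y h => exact hf _ h
  | refl x => exact Iff.rfl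
  | symm x y _ ih => exact ih.symm
  | trans x y z _ _ ih1 ih2 => exact ih1.trans ih2
theorem mem_cl {A : Finset (V × V)} {Q : Finset V} {x y : V} :
    y ∈ cl A Q x ↔ y ∈ Q ∧ Conn A x y := by
  classical
  simp [cl]
theorem compat_conn {A : Finset (V × V)} {s : Finset V} (h : Compat A s) {x y : V}
    (hxy : Conn A x y) : x ∈ s ↔ y ∈ s := hxy.inv (fun v => v ∈ s) h
theorem sgn_eq (s : Finset V) (x : V) : sgn s x = 1 ∨ sgn s x = -1 := by
  by_cases h : x ∈ s
  · right; rw [sgn, ind_true h]; norm_num
  · left; rw [sgn, ind_false h]; norm_num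
theorem sgn_conn {A : Finset (V × V)} {s : Finset V} (h : Compat A s) {x y : V}
    (hxy : Conn A x y) : sgn s x = sgn s y := by
  rw [sgn, sgn, ind_congr (compat_conn h hxy)]

end FKB
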