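import Mathlib

open Finset
noncomputable section
namespace FKB

/-- heights: `t 0 = 2 r`, `t (n+1) = t n + t n / M` -/
def tq (r M : ℕ) : ℕ → ℕ
  | 0 => 2 * r
  | n + 1 => tq r M n + tq r M n / M

/-- cube radii -/
def Lq (r M M' n : ℕ) : ℕ := tq r M n / (M' * (n + 1))

private theorem tq_succ (r M n : ℕ) : tq r M (n + 1) = tq r M n + tq r M n / M := rfl

private theorem tq_ge {M : ℕ} {r : ℕ} (hr : M ≤ r) (n : ℕ) : M ≤ tq r M n := by
  induction n with
  | zero => simp only [tq]; omega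
  | succ n ih => rw [tq_succ]; exact ih.trans (Nat.le_add_right _ _)

private theorem div_half {a b : ℕ} (hb : 0 < b) (hab : b ≤ a) : (a : ℝ) / (2 * b) ≤ (a / b : ℕ) := by
  have h1 : 1 ≤ a / b := (Nat.one_le_div_iff hb).2 hab
  have h2 : a < b * (a / b + 1) := Nat.lt_mul_div_succ a hb
  have h3 : (a : ℝ) < b * ((a / b : ℕ) + 1) := by exact_mod_cast h2
  have h4 : (1 : ℝ) ≤ (a / b : ℕ) := by exact_mod_cast h1
  have hb' : (0 : ℝ) < b := by exact_mod_cast hb
  rw [div_le_iff₀ (by positivity)]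
  nlinarith

private theorem tq_succ_ge {M : ℕ} (hM : 2 ≤ M) {r : ℕ} (hr : M ≤ r) (n : ℕ) :
    (tq r M n : ℝ) * (1 + 1 / (2 * M)) ≤ tq r M (n + 1) := by
  rw [tq_succ]
  push_cast
  have h1 := div_half (by omega : 0 < M) (tq_ge hr n)
  have e : (tq r M n : ℝ) * (1 + 1 / (2 * M)) = tq r M n + tq r M n / (2 * M) := by ring
  rw [e]
  have h2 : (tq r M n : ℝ) / (2 * M) ≤ ((tq r M n / M : ℕ) : ℝ) := h1
  linarith

private theorem tq_succ_le {M : ℕ} (hM : 2 ≤ M) (r n : ℕ) :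
    (tq r M (n + 1) : ℝ) ≤ 3 / 2 * tq r M n := by
  rw [tq_succ]
  push_cast
  have h1 : ((tq r M n / M : ℕ) : ℝ) ≤ (tq r M n : ℝ) / M := Nat.cast_div_le
  have hM' : (2 : ℝ) ≤ M := by exact_mod_cast hM
  have h2 : (tq r M n : ℝ) / M ≤ (tq r M n : ℝ) / 2 :=
    div_le_div_of_nonneg_left (Nat.cast_nonneg _) (by norm_num) hM'
  linarith

theorem tq_growth {M : ℕ} (hM : 2 ≤ M) {r : ℕ} (hr : M ≤ r) (n : ℕ) :
    2 * (r : ℝ) * (1 + 1 / (2 * M)) ^ n ≤ tq r M n := by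
  induction n with
  | zero => simp [tq]
  | succ n ih =>
    have h1 := tq_succ_ge hM hr n
    have hM' : (0 : ℝ) < M := by
      have : 0 < M := by omega
      exact_mod_cast this
    have h2 : (0 : ℝ) ≤ 1 + 1 / (2 * M) := by positivity
    calc 2 * (r : ℝ) * (1 + 1 / (2 * M)) ^ (n + 1)
        = 2 * (r : ℝ) * (1 + 1 / (2 * M)) ^ n * (1 + 1 / (2 * M)) := by ring
      _ ≤ tq r M n * (1 + 1 / (2 * M)) := mul_le_mul_of_nonneg_right ih h2
      _ ≤ _ := h1

private theorem bern {x : ℝ} (hx0 : 0 ≤ x) (hx1 : x ≤ 1) (n : ℕ) :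
    (x / 3 * (n + 1)) ^ 2 ≤ (1 + x) ^ n := by
  have h1 : (1 : ℝ) + n * (x / 3) ≤ (1 + x / 3) ^ n :=
    one_add_mul_le_pow (by linarith) n
  have h2 : (1 + x / 3) ^ 2 ≤ 1 + x := by nlinarith
  have h3 : x / 3 * (n + 1) ≤ (1 + x / 3) ^ n := by
    have : x / 3 * (n + 1) = x / 3 + n * (x / 3) := by ring
    rw [this]
    linarith
  have h0 : 0 ≤ x / 3 * (n + 1) := by positivity
  calc (x / 3 * (n + 1)) ^ 2 ≤ ((1 + x / 3) ^ n) ^ 2 := pow_le_pow_left₀ h0 h3 2
    _ = ((1 + x / 3) ^ 2) ^ n := by rw [← pow_mul, ← pow_mul, mul_comm]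
    _ ≤ (1 + x) ^ n := pow_le_pow_left₀ (by positivity) h2 n

/-- Quadratic lower bound. -/
private theorem tq_quad {M : ℕ} (hM : 2 ≤ M) {r : ℕ} (hr : M ≤ r) (n : ℕ) :
    (r : ℝ) * (n + 1) ^ 2 / (18 * M ^ 2) ≤ tq r M n := by
  have hM' : (2 : ℝ) ≤ M := by exact_mod_cast hM
  have hM0 : (0 : ℝ) < M := by linarith
  have hx0 : (0 : ℝ) ≤ 1 / (2 * M) := by positivity
  have hx1 : (1 : ℝ) / (2 * M) ≤ 1 := by
    rw [div_le_one (by positivity)]
    linarith
  have h1 := bern hx0 hx1 n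
  have h2 := tq_growth hM hr n
  have h3 : 2 * (r : ℝ) * (1 / (2 * M) / 3 * (n + 1)) ^ 2 ≤
      2 * (r : ℝ) * (1 + 1 / (2 * M)) ^ n :=
    mul_le_mul_of_nonneg_left h1 (by positivity)
  have e : 2 * (r : ℝ) * (1 / (2 * M) / 3 * (n + 1)) ^ 2 =
      (r : ℝ) * (n + 1) ^ 2 / (18 * M ^ 2) := by
    field_simp
    ring
  rw [e] at h3
  exact h3.trans h2

theorem Lq_large {M M' : ℕ} (hM : 2 ≤ M) (hM' : 1 ≤ M') (Lmin : ℕ) :
    ∃ r0 : ℕ, ∀ r, r0 ≤ r → ∀ n, Lmin ≤ Lq r M M' n := by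
  refine ⟨max M (18 * M ^ 2 * M' * Lmin), fun r hr n => ?_⟩
  have hr1 : M ≤ r := (le_max_left _ _).trans hr
  have hr2 : 18 * M ^ 2 * M' * Lmin ≤ r := (le_max_right _ _).trans hr
  unfold Lq
  rw [Nat.le_div_iff_mul_le (by positivity)]
  have h1 := tq_quad hM hr1 n
  have hM0 : (0 : ℝ) < M := by
    have : 0 < M := by omega
    exact_mod_cast this
  rw [div_le_iff₀ (by positivity)] at h1
  have h2 : (18 * M ^ 2 * M' * Lmin : ℝ) ≤ r := by exact_mod_cast hr2
  have h3 : (18 * M ^ 2 * M' * Lmin : ℝ) * (n + 1) ^ 2 ≤ tq r M n * (18 * M ^ 2) :=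
    (mul_le_mul_of_nonneg_right h2 (by positivity)).trans h1
  have h4 : ((Lmin : ℝ) * (M' * (n + 1))) * (n + 1) ≤ tq r M n := by
    have h5 : (0 : ℝ) < 18 * M ^ 2 := by positivity
    have e : (18 * M ^ 2 * M' * Lmin : ℝ) * (n + 1) ^ 2 =
        (((Lmin : ℝ) * (M' * (n + 1))) * (n + 1)) * (18 * M ^ 2) := by ring
    rw [e] at h3
    exact le_of_mul_le_mul_right h3 h5
  have h5 : (Lmin : ℝ) * (M' * (n + 1)) ≤ ((Lmin : ℝ) * (M' * (n + 1))) * (n + 1) := by
    apply le_mul_of_one_le_right (by positivity)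
    have : (0 : ℝ) ≤ n := Nat.cast_nonneg n
    linarith
  exact_mod_cast h5.trans h4

private theorem floor_lt (a b : ℕ) (hb : 0 < b) : (a : ℝ) / b < (a / b : ℕ) + 1 := by
  have h2 : a < b * (a / b + 1) := Nat.lt_mul_div_succ a hb
  have h3 : (a : ℝ) < b * ((a / b : ℕ) + 1) := by exact_mod_cast h2
  have hb' : (0 : ℝ) < b := by exact_mod_cast hb
  rw [div_lt_iff₀ hb']
  linarith

theorem Lq_ratio {M M' : ℕ} (hM : 2 ≤ M) (hM' : 1 ≤ M') :
    ∃ r0 : ℕ, ∀ r, r0 ≤ r → ∀ n, Lq r M M' n ≤ 2 * Lq r M M' (n + 1) ∧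
      Lq r M M' (n + 1) ≤ 2 * Lq r M M' n := by
  obtain ⟨r0, hr0⟩ := Lq_large hM hM' (4 * M)
  refine ⟨max M r0, fun r hr n => ?_⟩
  have hr1 : M ≤ r := (le_max_left _ _).trans hr
  have hL := hr0 r ((le_max_right _ _).trans hr) n
  have hMr : (2 : ℝ) ≤ M := by exact_mod_cast hM
  have hMr' : (1 : ℝ) ≤ M' := by exact_mod_cast hM'
  have hn : (0 : ℝ) ≤ n := Nat.cast_nonneg n
  set x : ℝ := (tq r M n : ℝ) / (M' * (n + 1)) with hx
  set y : ℝ := (tq r M (n + 1) : ℝ) / (M' * (n + 2)) with hy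
  have f1 : (Lq r M M' n : ℝ) ≤ x := by
    unfold Lq
    refine Nat.cast_div_le.trans (le_of_eq ?_)
    rw [hx]
    push_cast
    ring
  have f2 : x < (Lq r M M' n : ℝ) + 1 := by
    have := floor_lt (tq r M n) (M' * (n + 1)) (by positivity)
    unfold Lq
    rw [hx]
    push_cast at this ⊢
    exact this
  have f3 : (Lq r M M' (n + 1) : ℝ) ≤ y := by
    unfold Lq
    refine Nat.cast_div_le.trans (le_of_eq ?_)
    rw [hy]
    push_cast
    ring
  have f4 : y < (Lq r M M' (n + 1) : ℝ) + 1 := by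
    have := floor_lt (tq r M (n + 1)) (M' * (n + 1 + 1)) (by positivity)
    unfold Lq
    rw [hy]
    push_cast at this ⊢
    have e : (n : ℝ) + 1 + 1 = n + 2 := by ring
    rwa [e] at this
  have hx4 : 4 * (M : ℝ) ≤ x := by
    have : (4 * M : ℝ) ≤ Lq r M M' n := by exact_mod_cast hL
    linarith
  have hx0 : 0 ≤ x := by linarith
  -- comparison of x and y
  have e1 : (tq r M n : ℝ) = x * (M' * (n + 1)) := by
    rw [hx]
    field_simp
  have hy1 : y ≤ 3 / 2 * x := by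
    rw [hy, div_le_iff₀ (by positivity)]
    have h1 := tq_succ_le hM r n
    rw [e1] at h1
    have h2 : x * (M' * (n + 1)) ≤ x * (M' * (n + 2)) := by
      apply mul_le_mul_of_nonneg_left _ hx0
      apply mul_le_mul_of_nonneg_left _ (by linarith)
      linarith
    nlinarith
  have hy2 : x * (1 + 1 / (2 * M)) / 2 ≤ y := by
    rw [hy, le_div_iff₀ (by positivity)]
    have h1 := tq_succ_ge hM hr1 n
    rw [e1] at h1
    have h2 : x * (1 + 1 / (2 * M)) / 2 * (M' * (n + 2)) ≤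
        x * (M' * (n + 1)) * (1 + 1 / (2 * M)) := by
      have h3 : (M' * (n + 2) : ℝ) / 2 ≤ M' * (n + 1) := by nlinarith
      have h4 : 0 ≤ x * (1 + 1 / (2 * M)) := by positivity
      calc x * (1 + 1 / (2 * M)) / 2 * (M' * (n + 2)) =
          x * (1 + 1 / (2 * M)) * ((M' * (n + 2)) / 2) := by ring
        _ ≤ x * (1 + 1 / (2 * M)) * (M' * (n + 1)) := mul_le_mul_of_nonneg_left h3 h4
        _ = _ := by ring
    exact h2.trans h1
  constructor
  · have h1 : x + 2 ≤ x * (1 + 1 / (2 * M)) := by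
      have h2 : 2 ≤ x * (1 / (2 * M)) := by
        rw [mul_one_div, le_div_iff₀ (by positivity)]
        linarith
      linarith
    have h2 : (Lq r M M' n : ℝ) < 2 * Lq r M M' (n + 1) := by linarith
    exact_mod_cast h2.le
  · have h2 : (Lq r M M' (n + 1) : ℝ) < 2 * Lq r M M' n := by linarith
    exact_mod_cast h2.le

theorem sum_small {M M' : ℕ} (hM : 2 ≤ M) (hM' : 1 ≤ M') {c0 ε : ℝ} (hc : 0 < c0) (hε : 0 < ε) :
    ∃ r0 : ℕ, ∀ r, r0 ≤ r → ∀ K : ℕ,
      ∑ n ∈ Finset.range K, ((n : ℝ) + 1) * (n + 2) *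
        Real.exp (-c0 * (min (Lq r M M' n) (Lq r M M' (n + 1)) : ℕ)) ≤ ε := by
  have hMr : (2 : ℝ) ≤ M := by exact_mod_cast hM
  have hMr' : (1 : ℝ) ≤ M' := by exact_mod_cast hM'
  set A : ℝ := 18 * M ^ 2 * M' with hA
  have hA0 : 0 < A := by positivity
  -- lower bound for the radii
  have hlow : ∀ r, M ≤ r → ∀ n : ℕ, (r : ℝ) * (n + 1) / A - 1 ≤ Lq r M M' n := by
    intro r hr n
    have h1 := tq_quad hM hr n
    have h2 := floor_lt (tq r M n) (M' * (n + 1)) (by positivity)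
    have h3 : (r : ℝ) * (n + 1) / A ≤ (tq r M n : ℝ) / (M' * (n + 1) : ℕ) := by
      rw [le_div_iff₀ (by positivity)]
      refine le_trans (le_of_eq ?_) h1
      rw [hA]
      push_cast
      field_simp
    unfold Lq
    linarith
  have hsum : Summable (fun n : ℕ => (n : ℝ) ^ 2 * Real.exp (-1 * n)) :=
    Real.summable_pow_mul_exp_neg_nat_mul 2 one_pos
  set S : ℝ := ∑' n : ℕ, (n : ℝ) ^ 2 * Real.exp (-1 * n) with hS
  have hS0 : 0 ≤ S := tsum_nonneg fun n => by positivity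
  have hSK : ∀ K : ℕ, ∑ n ∈ Finset.range K, ((n : ℝ) + 1) ^ 2 * Real.exp (-((n : ℝ) + 1)) ≤ S := by
    intro K
    have h1 := hsum.sum_le_tsum (Finset.range (K + 1)) (fun n _ => by positivity)
    rw [Finset.sum_range_succ'] at h1
    have h2 : ∑ n ∈ Finset.range K, ((n : ℝ) + 1) ^ 2 * Real.exp (-((n : ℝ) + 1)) =
        ∑ n ∈ Finset.range K, ((n + 1 : ℕ) : ℝ) ^ 2 * Real.exp (-1 * ((n + 1 : ℕ) : ℝ)) := by
      apply Finset.sum_congr rfl
      intro n _
      push_cast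
      ring_nf
    rw [h2]
    have h3 : (0 : ℝ) ≤ ((0 : ℕ) : ℝ) ^ 2 * Real.exp (-1 * ((0 : ℕ) : ℝ)) := by positivity
    linarith
  set Y : ℝ := 1 + 2 * Real.exp c0 * S / ε with hY
  have hY1 : 1 ≤ Y := by
    have : 0 ≤ 2 * Real.exp c0 * S / ε := by positivity
    linarith
  obtain ⟨r1, hr1⟩ := exists_nat_ge (Y * A / c0)
  refine ⟨max M r1, fun r hr K => ?_⟩
  have hrM : M ≤ r := (le_max_left _ _).trans hr
  have hrr : (r1 : ℝ) ≤ r := by exact_mod_cast (le_max_right _ _).trans hr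
  set y : ℝ := c0 * r / A with hy
  have hyY : Y ≤ y := by
    rw [hy, le_div_iff₀ hA0]
    have := hr1.trans hrr
    rw [div_le_iff₀ hc] at this
    linarith
  have hterm : ∀ n : ℕ, ((n : ℝ) + 1) * (n + 2) *
      Real.exp (-c0 * (min (Lq r M M' n) (Lq r M M' (n + 1)) : ℕ)) ≤
      2 * Real.exp c0 * Real.exp (1 - y) * (((n : ℝ) + 1) ^ 2 * Real.exp (-((n : ℝ) + 1))) := by
    intro n
    have hn : (0 : ℝ) ≤ n := Nat.cast_nonneg n
    have h1 : (r : ℝ) * (n + 1) / A - 1 ≤ (min (Lq r M M' n) (Lq r M M' (n + 1)) : ℕ) := by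
      rw [Nat.cast_min]
      apply le_min (hlow r hrM n)
      refine le_trans ?_ (hlow r hrM (n + 1))
      push_cast
      have : (r : ℝ) * (n + 1) / A ≤ (r : ℝ) * (n + 1 + 1) / A := by
        apply div_le_div_of_nonneg_right _ hA0.le
        apply mul_le_mul_of_nonneg_left _ (Nat.cast_nonneg r)
        linarith
      linarith
    have h2 : -c0 * (min (Lq r M M' n) (Lq r M M' (n + 1)) : ℕ) ≤
        c0 + (1 - y) + -((n : ℝ) + 1) := by
      have h3 := mul_le_mul_of_nonneg_left h1 hc.le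
      have e : c0 * ((r : ℝ) * (n + 1) / A - 1) = y * (n + 1) - c0 := by
        rw [hy]
        ring
      rw [e] at h3
      have h4 : (y - 1) + (n + 1) ≤ y * (n + 1) := by nlinarith
      linarith
    have h5 : ((n : ℝ) + 1) * (n + 2) ≤ 2 * ((n : ℝ) + 1) ^ 2 := by nlinarith
    calc ((n : ℝ) + 1) * (n + 2) *
          Real.exp (-c0 * (min (Lq r M M' n) (Lq r M M' (n + 1)) : ℕ))
        ≤ (2 * ((n : ℝ) + 1) ^ 2) * Real.exp (c0 + (1 - y) + -((n : ℝ) + 1)) := by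
          apply mul_le_mul h5 (Real.exp_le_exp.2 h2) (Real.exp_pos _).le (by positivity)
      _ = _ := by
          rw [Real.exp_add, Real.exp_add]
          ring
  have hy0 : 0 < y := by linarith
  have hexp : Real.exp (1 - y) ≤ 1 / y := by
    have h1 : y ≤ Real.exp (y - 1) := by
      have := Real.add_one_le_exp (y - 1)
      linarith
    have h2 : Real.exp (1 - y) = (Real.exp (y - 1))⁻¹ := by
      rw [← Real.exp_neg]
      ring_nf
    rw [h2, one_div]
    exact inv_anti₀ hy0 h1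
  calc ∑ n ∈ Finset.range K, ((n : ℝ) + 1) * (n + 2) *
        Real.exp (-c0 * (min (Lq r M M' n) (Lq r M M' (n + 1)) : ℕ))
      ≤ ∑ n ∈ Finset.range K, 2 * Real.exp c0 * Real.exp (1 - y) *
          (((n : ℝ) + 1) ^ 2 * Real.exp (-((n : ℝ) + 1))) :=
        Finset.sum_le_sum fun n _ => hterm n
    _ = 2 * Real.exp c0 * Real.exp (1 - y) *
          ∑ n ∈ Finset.range K, ((n : ℝ) + 1) ^ 2 * Real.exp (-((n : ℝ) + 1)) := by
        rw [Finset.mul_sum]
    _ ≤ 2 * Real.exp c0 * (1 / y) * S := by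
        apply mul_le_mul _ (hSK K) (Finset.sum_nonneg fun n _ => by positivity) (by positivity)
        exact mul_le_mul_of_nonneg_left hexp (by positivity)
    _ ≤ ε := by
        have e : 2 * Real.exp c0 * (1 / y) * S = 2 * Real.exp c0 * S / y := by ring
        rw [e, div_le_iff₀ hy0]
        have h1 : 2 * Real.exp c0 * S / ε ≤ y := by linarith
        rw [div_le_iff₀ hε] at h1
        linarith

theorem tq_reach {M : ℕ} (hM : 2 ≤ M) {r : ℕ} (hr : M ≤ r) {N : ℕ} (hN : 4 * r ≤ N) :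
    ∃ K, 1 ≤ K ∧ tq r M K ≤ N ∧ N < tq r M (K + 1) := by
  have hstep : ∀ n, tq r M n + 1 ≤ tq r M (n + 1) := by
    intro n
    rw [tq_succ]
    have : 1 ≤ tq r M n / M := (Nat.one_le_div_iff (by omega)).2 (tq_ge hr n)
    omega
  have hge : ∀ n, n ≤ tq r M n := by
    intro n
    induction n with
    | zero => exact Nat.zero_le _
    | succ n ih => exact (Nat.succ_le_succ ih).trans (hstep n)
  have hex : ∃ K, N < tq r M (K + 1) := ⟨N, hge (N + 1)⟩
  classical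
  refine ⟨Nat.find hex, ?_, ?_, Nat.find_spec hex⟩
  · by_contra h0
    have h1 : Nat.find hex = 0 := by omega
    have h2 := Nat.find_spec hex
    rw [h1, tq_succ] at h2
    simp only [tq] at h2
    have h3 : 2 * r / M ≤ 2 * r / 2 := Nat.div_le_div_left hM (by norm_num)
    omega
  · rcases Nat.eq_zero_or_pos (Nat.find hex) with h0 | h0
    · rw [h0]
      simp only [tq]
      omega
    · obtain ⟨K, hK⟩ : ∃ K, Nat.find hex = K + 1 := ⟨Nat.find hex - 1, by omega⟩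
      have h1 : ¬ N < tq r M (K + 1) := Nat.find_min hex (by omega)
      rw [hK]
      omega

end FKB
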