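import Pool.Agent.FKB.Reg
import Pool.Agent.FKB.Num

open Finset
noncomputable section
namespace FKB

theorem tq_succ (r M n : ℕ) : tq r M (n + 1) = tq r M n + tq r M n / M := rfl

theorem tq_ge (r M n : ℕ) : 2 * r ≤ tq r M n := by
  induction n with
  | zero => exact le_refl _
  | succ n ih => rw [tq_succ]; exact le_trans ih (Nat.le_add_right _ _)

theorem tq_le_succ (r M n : ℕ) : tq r M n ≤ tq r M (n + 1) := by
  rw [tq_succ]; exact Nat.le_add_right _ _

theorem tq_ge_one (r M : ℕ) {n : ℕ} (hn : 1 ≤ n) : 2 * r + 2 * r / M ≤ tq r M n := by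
  induction n with
  | zero => omega
  | succ n ih =>
    rcases Nat.eq_zero_or_pos n with rfl | hn'
    · exact le_refl _
    · exact le_trans (ih hn') (tq_le_succ _ _ _)

/-- `16 K (n+1) L_n ≤ T_n / M` -/
theorem Lq_mul_le (r M K n : ℕ) :
    16 * K * (n + 1) * Lq r M (16 * K * M) n ≤ tq r M n / M := by
  unfold Lq
  have h : 16 * K * M * (n + 1) = M * (16 * K * (n + 1)) := by ring
  rw [h, ← Nat.div_div_eq_div_mul]
  exact Nat.mul_div_le _ _

theorem dq_succ_le {r M : ℕ} (hM : 2 ≤ M) (hr : M ≤ r) (n : ℕ) :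
    tq r M (n + 1) / M ≤ 2 * (tq r M n / M) := by
  have h2 : 2 * r ≤ tq r M n := tq_ge r M n
  rw [tq_succ]
  have h3 : 2 ≤ tq r M n / M := by
    rw [Nat.le_div_iff_mul_le (by omega)]; nlinarith
  set T := tq r M n with hT
  set D := T / M with hD
  have hlt : T < M * (D + 1) := by
    rw [hD]; exact Nat.lt_mul_div_succ _ (by omega)
  have hle : T + D < M * (2 * D + 1) := by
    nlinarith
  have := (Nat.div_lt_iff_lt_mul (show 0 < M by omega)).2 (show T + D < (2 * D + 1) * M by linarith [Nat.mul_comm M (2 * D + 1)])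
  omega

/-- bounds for the cubes of window `n+1` in terms of `T_n / M` -/
theorem Lq_succ_mul_le {r M : ℕ} (hM : 2 ≤ M) (hr : M ≤ r) (K n : ℕ) :
    8 * K * (n + 2) * Lq r M (16 * K * M) (n + 1) ≤ tq r M n / M := by
  have h1 := Lq_mul_le r M K (n + 1)
  have h2 := dq_succ_le hM hr n
  have h3 : 16 * K * (n + 1 + 1) * Lq r M (16 * K * M) (n + 1) =
      2 * (8 * K * (n + 2) * Lq r M (16 * K * M) (n + 1)) := by ring
  omega

end FKB
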