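import Pool.Agent.FKB.DomainB
import Pool.Agent.FKB.LatGeo

open Finset
noncomputable section
namespace FKB

variable {d : ℕ}

theorem wirA_inc_conn {V : Type*} (D : Finset (V × V)) (x y : V) :
    Inc D (fun A => ind (Conn A x y)) :=
  fun _ _ hAB _ => ind_mono (fun h => h.mono' hAB)

theorem wirA_bd_sub {K : Finset (Pt d)} {x : Pt d} (h : x ∈ bd K) : x ∈ K :=
  (Finset.mem_filter.mp h).1

theorem wirA_bd_mono {H K : Finset (Pt d)} (hKH : K ⊆ H) {x : Pt d} (hx : x ∈ K)
    (h : x ∈ bd H) : x ∈ bd K := by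
  unfold bd at *
  rw [Finset.mem_filter] at *
  refine ⟨hx, ?_⟩
  obtain ⟨_, i, hi⟩ := h
  refine ⟨i, ?_⟩
  rcases hi with hi | hi
  · left; exact fun hh => hi (hKH hh)
  · right; exact fun hh => hi (hKH hh)

theorem wirA_mem_wO {K : Finset (Pt d)} {e : Pt d × Pt d} :
    e ∈ wO K ↔ e.1 ∈ bd K ∧ e.2 ∈ bd K := by
  unfold wO
  rw [Finset.mem_product]

theorem wirA_mem_lat {K : Finset (Pt d)} {e : Pt d × Pt d} :
    e ∈ lat K ↔ (e.1 ∈ K ∧ e.2 ∈ K) ∧ ∃ i, e.2 = e.1 + Pi.single i 1 := by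
  unfold lat
  rw [Finset.mem_filter, Finset.mem_product]

theorem E_le_wired {D : Finset (Pt d × Pt d)} {w : Pt d × Pt d → ℝ} {p q : ℝ} (hq : 1 ≤ q)
    (hp0 : 0 ≤ p) (hp1 : p ≤ 1) (hw : Adm D w) (K : Finset (Pt d))
    (hloc : ∀ e ∈ D, e ∉ lat K → (e.1 ∈ K → e.1 ∈ bd K) ∧ (e.2 ∈ K → e.2 ∈ bd K))
    (hle : ∀ e ∈ D, e ∈ lat K → w e ≤ p ∨ e ∈ wO K)
    {F : Finset (Pt d × Pt d) → ℝ} (hF : Inc (lat K) F) :
    E D w q (fun A => F (A ∩ lat K)) ≤
      E (wD K) (pr (wO K) p) q (fun A => F (A ∩ lat K)) := by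
  have hq0 : 0 < q := lt_of_lt_of_le one_pos hq
  set D1 : Finset (Pt d × Pt d) := lat K \ wO K with hD1
  set D' : Finset (Pt d × Pt d) := D ∪ wD K with hD'
  set O : Finset (Pt d × Pt d) := D' \ D1 with hO
  set wc : Pt d × Pt d → ℝ := fun _ => p with hwc
  have hD1D' : D1 ⊆ D' := by
    intro e he
    rw [hD', Finset.mem_union]
    right
    unfold wD
    rw [Finset.mem_union]
    left
    exact (Finset.mem_sdiff.mp he).1
  have hwO : wO K ⊆ O := by
    intro e he
    rw [hO, Finset.mem_sdiff]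
    refine ⟨?_, ?_⟩
    · rw [hD', Finset.mem_union]; right
      unfold wD; rw [Finset.mem_union]; right; exact he
    · rw [hD1, Finset.mem_sdiff]; exact fun h => h.2 he
  have hadm : Adm D' (pin wc D1 O) := domA_adm_pin (fun _ _ => ⟨hp0, hp1⟩)
  -- step 1
  have s1 : E D w q (fun A => F (A ∩ lat K)) ≤ E D' (pin wc D1 O) q (fun A => F (A ∩ lat K)) := by
    apply E_dom hq hw hadm Finset.subset_union_left
    · intro e he
      unfold pin
      by_cases h1 : e ∈ D1
      · rw [if_pos h1]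
        have h2 := Finset.mem_sdiff.mp h1
        rcases hle e he h2.1 with h | h
        · exact h
        · exact absurd h h2.2
      · rw [if_neg h1, if_pos]
        · exact (hw e he).2
        · rw [hO, Finset.mem_sdiff]
          exact ⟨Finset.mem_union_left _ he, h1⟩
    · intro A B hAB _
      exact hF _ _ (Finset.inter_subset_inter_right hAB) Finset.inter_subset_right
  refine s1.trans ?_
  -- step 2 : replace F by F2
  set F2 : Finset (Pt d × Pt d) → ℝ := fun B => F (B ∪ (lat K ∩ wO K)) with hF2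
  have hint : ∀ A : Finset (Pt d × Pt d), wO K ⊆ A →
      F (A ∩ lat K) = F2 (A ∩ D1) := by
    intro A hA
    rw [hF2]
    congr 1
    ext e
    simp only [hD1, Finset.mem_union, Finset.mem_inter, Finset.mem_sdiff]
    constructor
    · rintro ⟨h1, h2⟩
      by_cases h : e ∈ wO K
      · right; exact ⟨h2, h⟩
      · left; exact ⟨h1, h2, h⟩
    · rintro (⟨h1, h2, _⟩ | ⟨h1, h2⟩)
      · exact ⟨h1, h2⟩
      · exact ⟨hA h2, h1⟩
  have hD'eq : D' = D1 ∪ O := by
    rw [hO, Finset.union_sdiff_of_subset hD1D']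
  have hwDeq : wD K = D1 ∪ wO K := by
    unfold wD
    rw [hD1]
    change lat K ∪ wO K = _
    rw [Finset.sdiff_union_self_eq_union]
  have s2 : E D' (pin wc D1 O) q (fun A => F (A ∩ lat K)) ≤
      E D' (pin wc D1 O) q (fun A => F2 (A ∩ D1)) := by
    apply E_mono' hq0 hadm
    intro A _ hA1 _
    apply le_of_eq
    apply hint
    intro e he
    apply hA1 e
    · have := hwO he
      rw [hO, Finset.mem_sdiff] at this
      exact this.1
    · have h1 := hwO he
      have h2 : e ∉ D1 := (Finset.mem_sdiff.mp h1).2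
      simp only [pin, h1, h2, if_true, if_false]
  refine s2.trans ?_
  have hT : Verts D1 K := by
    intro e he
    have := wirA_mem_lat.mp (Finset.mem_sdiff.mp he).1
    exact this.1
  have hconn : ∀ x ∈ K, ∀ y ∈ K, (Conn O x y ↔ Conn (wO K) x y) := by
    intro x hx y hy
    constructor
    · intro h
      have key : ∀ u v, Conn O u v → u = v ∨ ((u ∈ K → u ∈ bd K) ∧ (v ∈ K → v ∈ bd K)) := by
        intro u v huv
        induction huv with
        | rel u v h =>
          right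
          rw [hO, Finset.mem_sdiff] at h
          obtain ⟨h1, h2⟩ := h
          by_cases h3 : (u, v) ∈ wO K
          · have := wirA_mem_wO.mp h3
            exact ⟨fun _ => this.1, fun _ => this.2⟩
          · have h4 : (u, v) ∉ lat K := by
              intro h5
              exact h2 (by rw [hD1, Finset.mem_sdiff]; exact ⟨h5, h3⟩)
            rw [hD', Finset.mem_union] at h1
            rcases h1 with h1 | h1
            · exact hloc _ h1 h4
            · exfalso
              unfold wD at h1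
              rw [Finset.mem_union] at h1
              rcases h1 with h1 | h1
              · exact h4 h1
              · exact h3 h1
        | refl u => left; rfl
        | symm u v _ ih =>
          rcases ih with ih | ih
          · left; exact ih.symm
          · right; exact ⟨ih.2, ih.1⟩
        | trans u v z _ _ ih1 ih2 =>
          rcases ih1 with ih1 | ih1
          · rw [ih1]; exact ih2
          · rcases ih2 with ih2 | ih2
            · rw [← ih2]; right; exact ih1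
            · right; exact ⟨ih1.1, ih2.2⟩
      rcases key x y h with h | h
      · rw [h]; exact Conn.rfl' _ _
      · exact Conn.edge (e := (x, y)) (wirA_mem_wO.mpr ⟨h.1 hx, h.2 hy⟩)
    · intro h
      exact h.mono' hwO
  have s3 := E_wire_congr (w := wc) (q := q) hq0 (T := K) (D1 := D1) (O := O) (O' := wO K)
    (fun _ _ => ⟨hp0, hp1⟩) hT (by rw [hO]; exact Finset.disjoint_sdiff)
    (by rw [hD1]; exact Finset.sdiff_disjoint) hconn F2
  rw [hD'eq, s3]
  rw [← hwDeq]
  have s4 : E (wD K) (pin wc D1 (wO K)) q (fun A => F2 (A ∩ D1)) =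
      E (wD K) (pr (wO K) p) q (fun A => F2 (A ∩ D1)) := by
    apply E_w_congr
    intro e he
    unfold pin pr
    by_cases h1 : e ∈ wO K
    · have h2 : e ∉ D1 := by rw [hD1, Finset.mem_sdiff]; exact fun h => h.2 h1
      rw [if_neg h2, if_pos h1, if_pos h1]
    · have h2 : e ∈ D1 := by
        rw [hwDeq, Finset.mem_union] at he
        rcases he with he | he
        · exact he
        · exact absurd he h1
      rw [if_pos h2, if_neg h1]
  rw [s4]
  apply E_mono' hq0 (adm_pr hp0 hp1)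
  intro A _ hA1 _
  apply le_of_eq
  symm
  apply hint
  intro e he
  apply hA1 e
  · rw [hwDeq]; exact Finset.mem_union_right _ he
  · simp only [pr, he, if_true]

theorem wirA_conn_local {A : Finset (Pt d × Pt d)} {K : Finset (Pt d)}
    (hloc : ∀ e ∈ A, e ∉ lat K → (e.1 ∈ K → e.1 ∈ bd K) ∧ (e.2 ∈ K → e.2 ∈ bd K))
    {x y : Pt d} (hx : x ∈ K) (hy : y ∈ K) (h : Conn A x y) :
    Conn ((A ∩ lat K) ∪ wO K) x y := by
  set C := (A ∩ lat K) ∪ wO K with hC
  have hb : ∀ u ∈ bd K, ∀ v ∈ bd K, Conn C u v := by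
    intro u hu v hv
    apply Conn.edge (e := (u, v))
    rw [hC, Finset.mem_union]
    right
    exact wirA_mem_wO.mpr ⟨hu, hv⟩
  have key := h.inv (fun v => (v ∈ K ∧ Conn C x v) ∨ (v ∉ K ∧ ∃ b ∈ bd K, Conn C x b)) ?_
  · have h1 : (x ∈ K ∧ Conn C x x) ∨ (x ∉ K ∧ ∃ b ∈ bd K, Conn C x b) :=
      Or.inl ⟨hx, Conn.rfl' _ _⟩
    have h2 := key.mp h1
    rcases h2 with h2 | h2
    · exact h2.2
    · exact absurd hy h2.1
  · intro e he
    by_cases hl : e ∈ lat K
    · have hm := wirA_mem_lat.mp hl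
      have hc : Conn C e.1 e.2 := by
        apply Conn.edge
        rw [hC, Finset.mem_union]
        left
        exact Finset.mem_inter.mpr ⟨he, hl⟩
      constructor
      · rintro (h1 | h1)
        · left; exact ⟨hm.1.2, h1.2.trans' hc⟩
        · exact absurd hm.1.1 h1.1
      · rintro (h1 | h1)
        · left; exact ⟨hm.1.1, h1.2.trans' hc.symm'⟩
        · exact absurd hm.1.2 h1.1
    · have hm := hloc e he hl
      have side : ∀ u v : Pt d, (u ∈ K → u ∈ bd K) → (v ∈ K → v ∈ bd K) →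
          ((u ∈ K ∧ Conn C x u) ∨ (u ∉ K ∧ ∃ b ∈ bd K, Conn C x b)) →
          ((v ∈ K ∧ Conn C x v) ∨ (v ∉ K ∧ ∃ b ∈ bd K, Conn C x b)) := by
        intro u v hu hv h1
        have h2 : ∃ b ∈ bd K, Conn C x b := by
          rcases h1 with h1 | h1
          · exact ⟨u, hu h1.1, h1.2⟩
          · exact h1.2
        obtain ⟨b, hb1, hb2⟩ := h2
        by_cases hvK : v ∈ K
        · left; exact ⟨hvK, hb2.trans' (hb b hb1 v (hv hvK))⟩
        · right; exact ⟨hvK, b, hb1, hb2⟩
      exact ⟨side _ _ hm.1 hm.2, side _ _ hm.2 hm.1⟩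

theorem wirA_loc_wD {H K : Finset (Pt d)} (hKH : K ⊆ H) {e : Pt d × Pt d} (he : e ∈ wD H)
    (hn : e ∉ lat K) : (e.1 ∈ K → e.1 ∈ bd K) ∧ (e.2 ∈ K → e.2 ∈ bd K) := by
  unfold wD at he
  rw [Finset.mem_union] at he
  rcases he with he | he
  · exact lat_local (wirA_mem_lat.mp he).2 hn
  · have h1 := wirA_mem_wO.mp he
    exact ⟨fun h => wirA_bd_mono hKH h h1.1, fun h => wirA_bd_mono hKH h h1.2⟩

theorem wirA_le_wD {H K : Finset (Pt d)} (hKH : K ⊆ H) {p : ℝ} {e : Pt d × Pt d}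
    (hn : e ∈ lat K) : pr (wO H) p e ≤ p ∨ e ∈ wO K := by
  by_cases h1 : e ∈ wO H
  · right
    have h2 := wirA_mem_wO.mp h1
    have h3 := wirA_mem_lat.mp hn
    exact wirA_mem_wO.mpr ⟨wirA_bd_mono hKH h3.1.1 h2.1, wirA_bd_mono hKH h3.1.2 h2.2⟩
  · left
    unfold pr
    rw [if_neg h1]

theorem wP_mono {H K : Finset (Pt d)} (hKH : K ⊆ H) {p q : ℝ} (hq : 1 ≤ q) (hp0 : 0 ≤ p)
    (hp1 : p ≤ 1) {x y : Pt d} (hx : x ∈ K) (hy : y ∈ K) : wP H p q x y ≤ wP K p q x y := by
  have hq0 : 0 < q := lt_of_lt_of_le one_pos hq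
  set F : Finset (Pt d × Pt d) → ℝ := fun B => ind (Conn (B ∪ wO K) x y) with hF
  have hInc : Inc (lat K) F := fun A B hAB _ =>
    ind_mono (fun h => h.mono' (Finset.union_subset_union_left hAB))
  have s1 : wP H p q x y ≤ E (wD H) (pr (wO H) p) q (fun A => F (A ∩ lat K)) := by
    apply E_mono hq0 (adm_pr hp0 hp1)
    intro A hA
    apply ind_mono
    intro h
    exact wirA_conn_local (fun e he hn => wirA_loc_wD hKH (hA he) hn) hx hy h
  have s2 := E_le_wired (D := wD H) (w := pr (wO H) p) hq hp0 hp1 (adm_pr hp0 hp1) K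
    (fun e he hn => wirA_loc_wD hKH he hn) (fun e _ hn => wirA_le_wD hKH hn) hInc
  have s3 : E (wD K) (pr (wO K) p) q (fun A => F (A ∩ lat K)) ≤ wP K p q x y := by
    apply E_mono' hq0 (adm_pr hp0 hp1)
    intro A hA hA1 _
    apply ind_mono
    intro h
    apply h.mono'
    apply Finset.union_subset Finset.inter_subset_left
    intro e he
    apply hA1 e
    · unfold wD; exact Finset.mem_union_right _ he
    · simp only [pr, he, if_true]
  exact s1.trans (s2.trans s3)

theorem fP_le_P {D : Finset (Pt d × Pt d)} {w : Pt d × Pt d → ℝ} {H : Finset (Pt d)} {p q : ℝ}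
    (hq : 1 ≤ q) (hp0 : 0 ≤ p) (hp1 : p ≤ 1) (hw : Adm D w) (hH : lat H ⊆ D)
    (hle : ∀ e ∈ lat H, p ≤ w e) (x y : Pt d) :
    fP H p q x y ≤ P D w q (fun A => Conn A x y) :=
  E_dom hq (fun _ _ => ⟨hp0, hp1⟩) hw hH hle (wirA_inc_conn D x y)

theorem fP_mono {H K : Finset (Pt d)} (hKH : K ⊆ H) {p q : ℝ} (hq : 1 ≤ q) (hp0 : 0 ≤ p)
    (hp1 : p ≤ 1) (x y : Pt d) : fP K p q x y ≤ fP H p q x y :=
  fP_le_P hq hp0 hp1 (fun _ _ => ⟨hp0, hp1⟩) (lat_mono hKH) (fun _ _ => le_refl p) x y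

theorem fP_mono_p {H : Finset (Pt d)} {p p' q : ℝ} (hq : 1 ≤ q) (hp0 : 0 ≤ p) (hpp : p ≤ p')
    (hp1 : p' ≤ 1) (x y : Pt d) : fP H p q x y ≤ fP H p' q x y :=
  fP_le_P hq hp0 (hpp.trans hp1) (fun _ _ => ⟨hp0.trans hpp, hp1⟩) (Finset.Subset.refl _)
    (fun _ _ => hpp) x y

theorem fP_le_wP {H : Finset (Pt d)} {p q : ℝ} (hq : 1 ≤ q) (hp0 : 0 ≤ p)
    (hp1 : p ≤ 1) (x y : Pt d) : fP H p q x y ≤ wP H p q x y := by
  apply fP_le_P hq hp0 hp1 (adm_pr hp0 hp1)
  · unfold wD; exact Finset.subset_union_left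
  · intro e _
    unfold pr
    by_cases h : e ∈ wO H
    · rw [if_pos h]; exact hp1
    · rw [if_neg h]

end FKB
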