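import Pool.Agent.FKB.ChainA
import Pool.Agent.FKB.WiredA

open Finset
noncomputable section
namespace FKB

theorem reg_mono {d N : ℕ} {j j' : Fin d} {s : ℤ} {r i : ℕ} {lo hi m lo' hi' m' : ℤ}
    (h1 : lo' ≤ lo) (h2 : hi ≤ hi') (h3 : m ≤ m') {x : Pt d}
    (hx : x ∈ Reg N j j' s r i lo hi m) : x ∈ Reg N j j' s r i lo' hi' m' :=
  ⟨le_trans h1 hx.1, le_trans hx.2.1 h2, le_trans hx.2.2.1 h3,
    fun a ha ha' => le_trans (hx.2.2.2 a ha ha') h3⟩

theorem adm_pr' {V : Type*} [DecidableEq V] {D O : Finset (V × V)} {p : ℝ} (h0 : 0 ≤ p)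
    (h1 : p ≤ 1) : Adm D (pr O p) := by
  intro e _
  unfold pr
  split_ifs
  · exact ⟨zero_le_one, le_refl _⟩
  · exact ⟨h0, h1⟩

theorem le_pr {V : Type*} [DecidableEq V] {O : Finset (V × V)} {p : ℝ} (h1 : p ≤ 1) (e : V × V) :
    p ≤ pr O p e := by
  unfold pr
  split_ifs
  · exact h1
  · exact le_refl _

/-- lattice edges of a box near window `n` are in `DD` -/
theorem win_sub {d N : ℕ} {j j' : Fin d} {s : ℤ} {r i M : ℕ} (hj : j ≠ j')
    (hs : s = 1 ∨ s = -1) (hM : 16 ≤ M) (hr : M ≤ r) (n : ℕ)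
    (hTN : tq r M n ≤ N) (hN : 32 * r * i ≤ N) {H : Finset (Pt d)}
    (hH : ∀ x ∈ H, x ∈ Reg N j j' s r i
      ((tq r M n : ℤ) - 2 * (tq r M n / M : ℕ) - (2 * (tq r M n / 16 : ℕ) + 1))
      ((tq r M n : ℤ) + 2 * (tq r M n / M : ℕ) + (2 * (tq r M n / 16 : ℕ) + 1))
      (2 * (tq r M n / M : ℕ) + (2 * (tq r M n / 16 : ℕ) + 1))) :
    lat H ⊆ DD N j j' s r i := by
  have h2r := tq_ge r M n
  set T := tq r M n with hT
  have hδ : 16 * (T / M) ≤ T := by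
    have h1 : M * (T / M) ≤ T := Nat.mul_div_le _ _
    have h2 : 16 * (T / M) ≤ M * (T / M) := Nat.mul_le_mul_right _ hM
    omega
  set D := T / M with hD
  set ν := T / 16 with hν
  have hν1 : 16 * ν ≤ T := Nat.mul_div_le _ _
  have hN' : 16 * r * i * 2 ≤ N := by
    have : 16 * r * i * 2 = 32 * r * i := by ring
    omega
  have hNi : (16 * (r : ℤ) * (i : ℤ)) * 2 ≤ N := by
    have := (Nat.cast_le (α := ℤ)).2 hN'
    push_cast at this
    linarith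
  refine lat_sub_DD hs hj (lo := (T : ℤ) - 2 * (D : ℕ) - (2 * (ν : ℕ) + 1))
    (hi := (T : ℤ) + 2 * (D : ℕ) + (2 * (ν : ℕ) + 1))
    (m := 2 * (D : ℕ) + (2 * (ν : ℕ) + 1)) ?_ ?_ ?_ ?_ hH
  · omega
  · omega
  · omega
  · by_cases h4 : 4 * r ≤ T
    · left; omega
    · right; omega

theorem win_two {d : ℕ} {q p1 θ0 C : ℝ} (hq : 1 ≤ q) (hp0 : 0 ≤ p1) (hp1 : p1 ≤ 1)
    (hC : 0 < C)
    (hU : ∀ n : ℕ, 1 ≤ n → ∀ x z : Pt d,
      (1 - C * dist1 x z / n) * θ0 ^ 2 ≤ fP (thick x z (2 * n + 1)) p1 q x z)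
    {N : ℕ} {j j' : Fin d} {s : ℤ} {r i M : ℕ} (hj : j ≠ j') (hs : s = 1 ∨ s = -1)
    (hM : 16 ≤ M) (hr : M ≤ r) (n : ℕ) (hTN : tq r M n ≤ N) (hN : 32 * r * i ≤ N) {x z : Pt d}
    (hx : x ∈ Reg N j j' s r i ((tq r M n : ℤ) - 2 * (tq r M n / M : ℕ))
      ((tq r M n : ℤ) + 2 * (tq r M n / M : ℕ)) (2 * (tq r M n / M : ℕ)))
    (hz : z ∈ Reg N j j' s r i ((tq r M n : ℤ) - 2 * (tq r M n / M : ℕ))
      ((tq r M n : ℤ) + 2 * (tq r M n / M : ℕ)) (2 * (tq r M n / M : ℕ))) :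
    (1 - 128 * C * d / M) * θ0 ^ 2 ≤
      P (DD N j j' s r i) (pr (OO N j j' s r i) p1) q (fun A => Conn A x z) := by
  have h2r := tq_ge r M n
  set T := tq r M n with hT
  have hν : 1 ≤ T / 16 := by omega
  have hsub : lat (thick x z (2 * (T / 16) + 1)) ⊆ DD N j j' s r i := by
    apply win_sub hj hs hM hr n hTN hN
    intro y hy
    have h := reg_thick hs hx hz (2 * (T / 16) + 1) hy
    rw [← hT]
    push_cast at h ⊢
    exact h
  have h1 := hU (T / 16) hν x z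
  have h2 := fP_le_P hq hp0 hp1 (adm_pr' (O := OO N j j' s r i) hp0 hp1) hsub
    (fun e _ => le_pr hp1 e) x z
  refine le_trans (le_trans ?_ h1) h2
  apply mul_le_mul_of_nonneg_right _ (sq_nonneg θ0)
  have hdist : (dist1 x z : ℤ) ≤ d * (4 * (T / M : ℕ)) := by
    apply reg_dist hs hj hx hz
    · linarith
    · linarith
  have hdR : (dist1 x z : ℝ) ≤ d * (4 * ((T / M : ℕ) : ℝ)) := by
    have aux : ∀ D : ℕ, (dist1 x z : ℤ) ≤ d * (4 * (D : ℤ)) →
        ((dist1 x z : ℤ) : ℝ) ≤ d * (4 * (D : ℝ)) := by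
      intro D hD
      have := (Int.cast_le (R := ℝ)).2 hD
      push_cast at this
      exact this
    exact aux _ hdist
  have hTpos : (0 : ℝ) < T := by
    have : 0 < T := by omega
    exact_mod_cast this
  have hMpos : (0 : ℝ) < M := by
    have : 0 < M := by omega
    exact_mod_cast this
  have hδR : ((T / M : ℕ) : ℝ) ≤ T / M := Nat.cast_div_le
  have hνR : (T : ℝ) / 32 ≤ ((T / 16 : ℕ) : ℝ) := by
    have h3 : T ≤ 32 * (T / 16) := by omega
    have h4 : (T : ℝ) ≤ 32 * ((T / 16 : ℕ) : ℝ) := by exact_mod_cast h3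
    linarith
  have hνpos : (0 : ℝ) < ((T / 16 : ℕ) : ℝ) := by
    have : 0 < T / 16 := by omega
    exact_mod_cast this
  have hd0 : (0 : ℝ) ≤ d := Nat.cast_nonneg d
  have key : C * dist1 x z / ((T / 16 : ℕ) : ℝ) ≤ 128 * C * d / M := by
    rw [div_le_div_iff₀ hνpos hMpos]
    have e1 : C * (dist1 x z : ℝ) * M ≤ C * (d * (4 * (T / M))) * M := by
      apply mul_le_mul_of_nonneg_right _ hMpos.le
      apply mul_le_mul_of_nonneg_left _ hC.le
      refine le_trans hdR ?_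
      apply mul_le_mul_of_nonneg_left _ hd0
      linarith
    have e2 : C * (d * (4 * ((T : ℝ) / M))) * M = 4 * C * d * T := by
      field_simp
    have e3 : 4 * C * d * (T : ℝ) = 128 * C * d * (T / 32) := by ring
    have e4 : 128 * C * d * ((T : ℝ) / 32) ≤ 128 * C * d * ((T / 16 : ℕ) : ℝ) := by
      apply mul_le_mul_of_nonneg_left hνR
      positivity
    linarith
  linarith

end FKB
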