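import Pool.Agent.FKB.ChainB

open Finset
noncomputable section
namespace FKB

variable {d : ℕ}

/-- centers of the candidate cubes of window `n ≥ 1` -/
def ctr (N : ℕ) (j j' : Fin d) (s : ℤ) (r i M K n m : ℕ) : Pt d :=
  pos N j j' s (tq r M n) (16 * r * i + m * (2 * K * Lq r M (16 * K * M) n + 1 : ℕ))

/-- center of the cube inside the seed -/
def ctr0 (N : ℕ) (j j' : Fin d) (s : ℤ) (r i M K : ℕ) : Pt d :=
  pos N j j' s ((2 * r : ℕ) - (Lq r M (16 * K * M) 0 : ℕ)) (16 * r * i)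

variable {N : ℕ} {j j' : Fin d} {s : ℤ} {r i M K : ℕ}

theorem off_le {K L n m : ℕ} (hK : 1 ≤ K) (hL : 1 ≤ L) (hm : m ≤ n) :
    m * (2 * K * L + 1) + K * L ≤ (3 * n + 1) * (K * L) := by
  have h1 : 1 ≤ K * L := Nat.mul_pos hK hL
  have h2 : m * (2 * K * L + 1) ≤ n * (3 * (K * L)) := by
    apply Nat.mul_le_mul hm
    nlinarith
  nlinarith

theorem off_abs (a : ℤ) (m q : ℕ) : |(a + (m : ℤ) * (q : ℕ)) - a| = ((m * q : ℕ) : ℤ) := by
  have : (a + (m : ℤ) * (q : ℕ)) - a = ((m * q : ℕ) : ℤ) := by push_cast; ring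
  rw [this, abs_of_nonneg (Int.natCast_nonneg _)]

/-- cubes of window `n`, at scale `n` -/
theorem win_cube (hs : s = 1 ∨ s = -1) (hj : j ≠ j') (hK : 1 ≤ K) {n m : ℕ}
    (hL : 1 ≤ Lq r M (16 * K * M) n) (hm : m ≤ n) {R : ℕ} (hR : R ≤ K * Lq r M (16 * K * M) n)
    {x : Pt d} (hx : x ∈ cube (ctr N j j' s r i M K n m) R) :
    x ∈ Reg N j j' s r i ((tq r M n : ℤ) - (tq r M n / M : ℕ))
      ((tq r M n : ℤ) + (tq r M n / M : ℕ)) ((tq r M n / M : ℕ)) := by
  have h1 := Lq_mul_le r M K n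
  set L := Lq r M (16 * K * M) n with hLd
  set D := tq r M n / M with hD
  have h2 := off_le hK hL hm
  have h3 : (3 * n + 1) * (K * L) ≤ 16 * K * (n + 1) * L := by nlinarith [Nat.zero_le (K * L)]
  have h4 : K * L ≤ (3 * n + 1) * (K * L) := by nlinarith [Nat.zero_le (K * L)]
  have h5 := reg_cube (N := N) (r := r) (i := i) hs hj (tq r M n)
    (16 * r * i + m * (2 * K * L + 1 : ℕ)) R (D : ℕ) (by
      rw [off_abs]
      have : m * (2 * K * L + 1) + R ≤ D := by omega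
      exact_mod_cast this) hx
  have h6 : (R : ℤ) ≤ D := by
    have : R ≤ D := by omega
    exact_mod_cast this
  exact reg_mono (by linarith) (by linarith) (le_refl _) h5

/-- cubes of window `n+1`, at scale `n` -/
theorem win_cube' (hs : s = 1 ∨ s = -1) (hj : j ≠ j') (hM : 2 ≤ M) (hr : M ≤ r) (hK : 1 ≤ K)
    {n m : ℕ} (hL : 1 ≤ Lq r M (16 * K * M) (n + 1)) (hm : m ≤ n + 1) {R : ℕ}
    (hR : R ≤ K * Lq r M (16 * K * M) (n + 1))
    {x : Pt d} (hx : x ∈ cube (ctr N j j' s r i M K (n + 1) m) R) :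
    x ∈ Reg N j j' s r i ((tq r M n : ℤ) + (tq r M n / M : ℕ) - (tq r M n / M / 8 : ℕ))
      ((tq r M n : ℤ) + 2 * (tq r M n / M : ℕ)) ((tq r M n / M : ℕ)) := by
  have h1 := Lq_succ_mul_le hM hr K n
  set L := Lq r M (16 * K * M) (n + 1) with hLd
  set D := tq r M n / M with hD
  have h2 := off_le hK hL hm
  have h3 : (3 * (n + 1) + 1) * (K * L) ≤ 8 * K * (n + 2) * L := by nlinarith [Nat.zero_le (K * L)]
  have h4 : K * L ≤ (3 * (n + 1) + 1) * (K * L) := by nlinarith [Nat.zero_le (K * L)]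
  have h5 := reg_cube (N := N) (r := r) (i := i) hs hj (tq r M (n + 1))
    (16 * r * i + m * (2 * K * L + 1 : ℕ)) R (D : ℕ) (by
      rw [off_abs]
      have : m * (2 * K * L + 1) + R ≤ D := by omega
      exact_mod_cast this) hx
  have h7 : 8 * (K * L) ≤ D := by nlinarith
  have h6 : (R : ℤ) ≤ (D / 8 : ℕ) := by
    have : R ≤ D / 8 := by omega
    exact_mod_cast this
  have h8 : (D / 8 : ℕ) ≤ D := Nat.div_le_self _ _
  have h9 : ((D / 8 : ℕ) : ℤ) ≤ D := by exact_mod_cast h8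
  have h10 : (tq r M (n + 1) : ℤ) = tq r M n + D := by rw [tq_succ]; push_cast; rfl
  rw [h10] at h5
  exact reg_mono (by linarith) (by linarith) (le_refl _) h5

/-- the cube inside the seed -/
theorem win_cube0 (hs : s = 1 ∨ s = -1) (hj : j ≠ j') (hK : 1 ≤ K) {R : ℕ}
    (hR : R ≤ Lq r M (16 * K * M) 0)
    {x : Pt d} (hx : x ∈ cube (ctr0 N j j' s r i M K) R) :
    x ∈ Reg N j j' s r i ((tq r M 0 : ℤ) - (tq r M 0 / M : ℕ)) (tq r M 0 : ℤ)
      ((tq r M 0 / M : ℕ)) := by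
  have h1 := Lq_mul_le r M K 0
  set L := Lq r M (16 * K * M) 0 with hLd
  have h0 : tq r M 0 = 2 * r := rfl
  rw [h0] at h1 ⊢
  set D := 2 * r / M with hD
  have h2 : 2 * L ≤ D := by nlinarith [Nat.zero_le L]
  have h5 := reg_cube (N := N) (r := r) (i := i) hs hj ((2 * r : ℕ) - (L : ℕ))
    (16 * r * i) R (D : ℕ) (by
      rw [sub_self, abs_zero]
      have : 0 + R ≤ D := by omega
      exact_mod_cast this) hx
  have h6 : (R : ℤ) ≤ L := by exact_mod_cast hR
  have h7 : 2 * (L : ℤ) ≤ D := by exact_mod_cast h2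
  refine reg_mono ?_ ?_ (le_refl _) h5
  · push_cast; linarith
  · push_cast; linarith

/-- hull of two cubes of consecutive windows -/
theorem win_hull (hs : s = 1 ∨ s = -1) {c c' : Pt d} {n e : ℕ}
    (hc : c ∈ Reg N j j' s r i ((tq r M n : ℤ) - (tq r M n / M : ℕ))
      ((tq r M n : ℤ) + (tq r M n / M : ℕ)) ((tq r M n / M : ℕ)))
    (hc' : c' ∈ Reg N j j' s r i ((tq r M n : ℤ) - (tq r M n / M : ℕ))
      ((tq r M n : ℤ) + (tq r M n / M : ℕ)) ((tq r M n / M : ℕ)))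
    (he : e ≤ tq r M n / M) {x : Pt d} (hx : x ∈ thick c c' e) :
    x ∈ Reg N j j' s r i ((tq r M n : ℤ) - 2 * (tq r M n / M : ℕ))
      ((tq r M n : ℤ) + 2 * (tq r M n / M : ℕ)) (2 * (tq r M n / M : ℕ)) := by
  have h := reg_thick hs hc hc' e hx
  have he' : (e : ℤ) ≤ (tq r M n / M : ℕ) := by exact_mod_cast he
  exact reg_mono (by linarith) (by linarith) (by linarith) h

theorem self_mem_cube (c : Pt d) (n : ℕ) : c ∈ cube c n := by
  rw [mem_cube]; intro i; simp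

/-- disjoint candidate cubes -/
theorem win_disj (hj : j ≠ j') {n m m' : ℕ} (hmm : m ≠ m') :
    Disjoint (cube (ctr N j j' s r i M K n m) (K * Lq r M (16 * K * M) n))
      (cube (ctr N j j' s r i M K n m') (K * Lq r M (16 * K * M) n)) := by
  rw [Finset.disjoint_left]
  intro x hx hx'
  rw [mem_cube] at hx hx'
  have h1 := hx j'
  have h2 := hx' j'
  simp only [ctr, pos, if_neg hj.symm, if_true] at h1 h2
  set L := Lq r M (16 * K * M) n with hLd
  have h3 : |((m : ℤ) - m') * ((2 * K * L + 1 : ℕ) : ℤ)| ≤ 2 * (K * L : ℕ) := by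
    have e : ((m : ℤ) - m') * ((2 * K * L + 1 : ℕ) : ℤ) =
        (x j' - (16 * r * i + m' * ((2 * K * L + 1 : ℕ) : ℤ))) -
        (x j' - (16 * r * i + m * ((2 * K * L + 1 : ℕ) : ℤ))) := by ring
    rw [e]
    refine le_trans (abs_sub _ _) ?_
    linarith
  have h4 : (1 : ℤ) ≤ |(m : ℤ) - m'| := by
    apply Int.one_le_abs
    intro h
    apply hmm
    have : (m : ℤ) = m' := by linarith
    exact_mod_cast this
  rw [abs_mul] at h3
  have h5 : |((2 * K * L + 1 : ℕ) : ℤ)| = 2 * (K * L : ℕ) + 1 := by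
    rw [abs_of_nonneg (Int.natCast_nonneg _)]; push_cast; ring
  rw [h5] at h3
  have h6 : (0 : ℤ) ≤ (K * L : ℕ) := Int.natCast_nonneg _
  nlinarith

theorem lat_disj {H H' : Finset (Pt d)} (h : Disjoint H H') : Disjoint (lat H) (lat H') := by
  rw [Finset.disjoint_left] at h ⊢
  intro e he he'
  exact h ((verts_lat H e he).1) ((verts_lat H' e he').1)

theorem isLat_DD : IsLat (DD N j j' s r i) := by
  intro e he
  exact isLat_lat _ e (Finset.mem_sdiff.1 he).1

theorem OO_sub (hs : s = 1 ∨ s = -1) (hj : j ≠ j') (hr : 1 ≤ r) (hN : 32 * r * i ≤ N)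
    (hN' : 2 * r ≤ N) : OO N j j' s r i ⊆ DD N j j' s r i := by
  refine seed_sub hs hj (by omega) ?_
  have h1 : ((32 * r * i : ℕ) : ℤ) ≤ N := by exact_mod_cast hN
  have h2 : ((2 * r : ℕ) : ℤ) ≤ N := by exact_mod_cast hN'
  push_cast at h1 h2
  nlinarith

/-- points above the seed by more than `l`: no forced edge within distance `l` -/
theorem far_seed (hs : s = 1 ∨ s = -1) {x : Pt d} {l : ℕ}
    (hx : (2 * r + l : ℤ) < N - s * x j) {e : Pt d × Pt d} (he : e ∈ OO N j j' s r i) :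
    e ∉ lat (cube x l) := by
  intro h
  have h1 := (verts_lat _ e he).1
  have h2 := (verts_lat _ e h).1
  unfold seedBox at h1
  rw [mem_cube] at h1 h2
  have h3 := h1 j
  have h4 := h2 j
  simp only [pos, if_true] at h3
  rw [abs_le] at h3 h4
  rcases hs with rfl | rfl <;> nlinarith

end FKB
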