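import Pool.Agent.FKB.Moment
import Pool.Agent.FKB.LatGeo

open Finset
noncomputable section
namespace FKB

/-- some cluster has at least `m` points in `Q` -/
def Dense {V : Type*} (A : Finset (V × V)) (Q : Finset V) (m : ℝ) : Prop :=
  ∃ x, m ≤ ((cl A Q x).card : ℝ)

theorem denseFree_thick {d : ℕ} {c x z : Pt d} {L m M : ℕ} (hx : x ∈ cube c L)
    (hz : z ∈ cube c L) (h : L + m ≤ M) : thick x z m ⊆ cube c M := by
  intro y hy
  rw [mem_cube] at hx hz ⊢
  rw [thick, Finset.mem_Icc] at hy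
  intro i
  have h1 := hy.1 i
  have h2 := hy.2 i
  simp only at h1 h2
  have h3 := abs_le.1 (hx i)
  have h4 := abs_le.1 (hz i)
  have hM : ((L : ℤ) + m) ≤ M := by exact_mod_cast h
  rw [abs_le]
  constructor
  · rcases min_choice (x i) (z i) with h5 | h5 <;> rw [h5] at h1 <;> omega
  · rcases max_choice (x i) (z i) with h5 | h5 <;> rw [h5] at h2 <;> omega

theorem denseFree_dist {d : ℕ} {c x z : Pt d} {L : ℕ} (hx : x ∈ cube c L)
    (hz : z ∈ cube c L) : (dist1 x z : ℝ) ≤ 2 * d * L := by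
  have h : dist1 x z ≤ 2 * d * L := by
    rw [mem_cube] at hx hz
    rw [dist1]
    calc ∑ i, |x i - z i| ≤ ∑ _i : Fin d, (2 * (L : ℤ)) := by
          refine Finset.sum_le_sum fun i _ => ?_
          have h3 := abs_le.1 (hx i)
          have h4 := abs_le.1 (hz i)
          rw [abs_le]
          constructor <;> omega
      _ = 2 * d * L := by simp; ring
  exact_mod_cast h

/-- the pointwise bound -/
theorem denseFree_sum {d l : ℕ} {A : Finset (Pt d × Pt d)} (hA : IsLat A) (Q : Finset (Pt d))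
    {M : ℝ} (hM : ∀ x ∈ Q, ((cl A Q x).card : ℝ) ≤ M) :
    ∑ x ∈ Q, ((cl A Q x).card : ℝ) ≤ nFar l A Q * M + (2 * l + 1) ^ d * Q.card := by
  classical
  have h1 : ∀ x ∈ Q, ((cl A Q x).card : ℝ) ≤ (if Far l A x then M else 0) + (2 * l + 1) ^ d := by
    intro x hx
    by_cases hF : Far l A x
    · rw [if_pos hF]
      have := hM x hx
      have h0 : (0 : ℝ) ≤ (2 * l + 1) ^ d := by positivity
      linarith
    · rw [if_neg hF, zero_add]
      have hsub : cl A Q x ⊆ cube x l := by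
        intro y hy
        rw [mem_cl] at hy
        exact notFar_cluster hA hF hy.2
      have := Finset.card_le_card hsub
      rw [card_cube] at this
      exact_mod_cast this
  refine (Finset.sum_le_sum h1).trans ?_
  rw [Finset.sum_add_distrib, Finset.sum_const, nsmul_eq_mul, ← Finset.sum_filter,
    Finset.sum_const, nsmul_eq_mul]
  have h2 : (nFar l A Q : ℝ) = ((Q.filter (fun x => Far l A x)).card : ℝ) := by
    unfold nFar
    congr!
  rw [h2]
  linarith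

theorem denseFree_card {V : Type*} (A : Finset (V × V)) (Q : Finset V) (x : V) :
    ((cl A Q x).card : ℝ) = ∑ z ∈ Q, ind (Conn A x z) := by
  classical
  unfold cl ind
  rw [Finset.card_filter]
  push_cast
  congr!

/-- the numerical conclusion -/
theorem denseFree_num {β η δ ε s θ θ0 Pn N m e : ℝ} (hβ : 0 < β) (hβ1 : β < 1)
    (hδ : 0 < δ) (hδ1 : δ ≤ 1) (hε : 0 < ε) (hs : 0 < s)
    (hsum : 3 * δ + ε + 2 * s ≤ β * η / 2) (hθ0 : 0 < θ0) (h1 : θ0 ≤ θ)
    (h2 : θ ≤ (1 + s) * θ0) (hm : 0 < m) (hPn : 0 ≤ Pn)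
    (he : (N / m + e) ≤ θ ^ 2 * (β * η / 2))
    (hmain : (1 - ε) * θ0 ^ 2 * m ^ 2 ≤ m ^ 2 * ((1 + δ) ^ 2 * θ ^ 2) -
      ((1 + δ) ^ 2 - (1 + δ) * (1 - β)) * θ ^ 2 * m ^ 2 * Pn + N * m + m ^ 2 * e)
    (hε1 : ε ≤ 1) : Pn ≤ η := by
  have hθ : 0 < θ := hθ0.trans_le h1
  have hm2 : 0 < m ^ 2 := by positivity
  -- divide by m^2
  have h3 : (1 - ε) * θ0 ^ 2 ≤ (1 + δ) ^ 2 * θ ^ 2 -
      ((1 + δ) ^ 2 - (1 + δ) * (1 - β)) * θ ^ 2 * Pn + (N / m + e) := by
    have h4 : m ^ 2 * (N / m + e) = N * m + m ^ 2 * e := by field_simp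
    have h5 : m ^ 2 * ((1 - ε) * θ0 ^ 2) ≤ m ^ 2 * ((1 + δ) ^ 2 * θ ^ 2 -
      ((1 + δ) ^ 2 - (1 + δ) * (1 - β)) * θ ^ 2 * Pn + (N / m + e)) := by
      have e1 : m ^ 2 * ((1 + δ) ^ 2 * θ ^ 2 -
        ((1 + δ) ^ 2 - (1 + δ) * (1 - β)) * θ ^ 2 * Pn + (N / m + e)) =
        m ^ 2 * ((1 + δ) ^ 2 * θ ^ 2) -
        ((1 + δ) ^ 2 - (1 + δ) * (1 - β)) * θ ^ 2 * m ^ 2 * Pn + m ^ 2 * (N / m + e) := by ring
      have e2 : m ^ 2 * ((1 - ε) * θ0 ^ 2) = (1 - ε) * θ0 ^ 2 * m ^ 2 := by ring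
      rw [e1, e2, h4]
      linarith
    exact le_of_mul_le_mul_left h5 hm2
  have h4 : (1 - 2 * s) * θ ^ 2 ≤ θ0 ^ 2 := by
    have h5 : θ ^ 2 ≤ (1 + s) ^ 2 * θ0 ^ 2 := by
      rw [← mul_pow]
      exact pow_le_pow_left₀ hθ.le h2 2
    have h6 : (1 - 2 * s) * (1 + s) ^ 2 ≤ 1 := by nlinarith [sq_nonneg s, mul_pos hs hs]
    have h7 : 0 ≤ θ0 ^ 2 := sq_nonneg _
    rcases le_or_gt (1 - 2 * s) 0 with h8 | h8
    · nlinarith [sq_nonneg θ]
    · calc (1 - 2 * s) * θ ^ 2 ≤ (1 - 2 * s) * ((1 + s) ^ 2 * θ0 ^ 2) :=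
            mul_le_mul_of_nonneg_left h5 h8.le
        _ = ((1 - 2 * s) * (1 + s) ^ 2) * θ0 ^ 2 := by ring
        _ ≤ 1 * θ0 ^ 2 := mul_le_mul_of_nonneg_right h6 h7
        _ = θ0 ^ 2 := one_mul _
  have hθ2 : 0 < θ ^ 2 := by positivity
  have h5 : (1 - ε - 2 * s) * θ ^ 2 ≤ (1 - ε) * θ0 ^ 2 := by
    have h6 : (1 - ε) * ((1 - 2 * s) * θ ^ 2) ≤ (1 - ε) * θ0 ^ 2 :=
      mul_le_mul_of_nonneg_left h4 (by linarith)
    have h7 : 0 ≤ ε * (2 * s) * θ ^ 2 := by positivity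
    have h8 : (1 - ε) * ((1 - 2 * s) * θ ^ 2) = (1 - ε - 2 * s) * θ ^ 2 + ε * (2 * s) * θ ^ 2 := by
      ring
    linarith
  have h6 : β * θ ^ 2 * Pn ≤ ((1 + δ) ^ 2 - (1 + δ) * (1 - β)) * θ ^ 2 * Pn := by
    have h7 : β ≤ (1 + δ) ^ 2 - (1 + δ) * (1 - β) := by nlinarith
    have h8 : 0 ≤ θ ^ 2 * Pn := by positivity
    have h9 := mul_le_mul_of_nonneg_right h7 h8
    calc β * θ ^ 2 * Pn = β * (θ ^ 2 * Pn) := by ring
      _ ≤ _ := h9
      _ = _ := by ring
  have h7 : (1 + δ) ^ 2 * θ ^ 2 ≤ (1 + 3 * δ) * θ ^ 2 := by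
    have : (1 + δ) ^ 2 ≤ 1 + 3 * δ := by nlinarith
    exact mul_le_mul_of_nonneg_right this hθ2.le
  have h8 : β * θ ^ 2 * Pn ≤ θ ^ 2 * (β * η) := by
    have h9 : (3 * δ + ε + 2 * s) * θ ^ 2 ≤ β * η / 2 * θ ^ 2 :=
      mul_le_mul_of_nonneg_right hsum hθ2.le
    have e1 : (1 + 3 * δ) * θ ^ 2 - (1 - ε - 2 * s) * θ ^ 2 = (3 * δ + ε + 2 * s) * θ ^ 2 := by
      ring
    have e2 : θ ^ 2 * (β * η) = β * η / 2 * θ ^ 2 + θ ^ 2 * (β * η / 2) := by ring
    linarith
  have h9 : β * θ ^ 2 * Pn ≤ β * θ ^ 2 * η := by linarith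
  exact le_of_mul_le_mul_left h9 (by positivity)

theorem dense_free {d : ℕ} (hd : 1 ≤ d) {β η : ℝ} (hβ : 0 < β) (hβ1 : β < 1) (hη : 0 < η) :
    ∃ s0 : ℝ, 0 < s0 ∧ ∀ (q p θ0 C : ℝ) (l : ℕ), 1 ≤ q → 0 ≤ p → p ≤ 1 → 0 < C → 0 < θ0 →
      θ0 ≤ th d l p q → th d l p q ≤ (1 + s0) * θ0 →
      (∀ n : ℕ, 1 ≤ n → ∀ x z : Pt d,
        (1 - C * dist1 x z / n) * θ0 ^ 2 ≤ fP (thick x z (2 * n + 1)) p q x z) →
      ∃ K : ℕ, 1 ≤ K ∧ ∃ L0 : ℕ, ∀ L : ℕ, L0 ≤ L → ∀ c : Pt d,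
        P (lat (cube c (K * L))) (fun _ => p) q
          (fun A => ¬ Dense A (cube c L) ((1 - β) * th d l p q * (cube c L).card)) ≤ η := by
  classical
  -- constants
  set r : ℝ := min (β * η) 1 with hr
  have hr0 : 0 < r := lt_min (by positivity) one_pos
  have hr1 : r ≤ 1 := min_le_right _ _
  have hrβ : r ≤ β * η := min_le_left _ _
  refine ⟨r / 16, by positivity, ?_⟩
  intro q p θ0 C l hq hp0 hp1 hC hθ0 hθ1 hθ2 hconn
  set θ := th d l p q with hθdef
  have hθ : 0 < θ := hθ0.trans_le hθ1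
  set δ : ℝ := r / 24 with hδdef
  have hδ : 0 < δ := by positivity
  set ε : ℝ := r / 8 with hεdef
  have hε : 0 < ε := by positivity
  obtain ⟨cc, hcc, hch⟩ := chernoff (d := d) (l := l) hq hp0 hp1 (by rw [← hθdef]; exact hθ) hδ
  -- the ratio
  obtain ⟨K', hK'⟩ := exists_nat_gt (2 * d * C / ε)
  have hK'0 : 0 < K' := by
    have h0 : (0 : ℝ) ≤ 2 * d * C / ε := by positivity
    have : (0 : ℝ) < K' := lt_of_le_of_lt h0 hK'
    exact_mod_cast this
  -- the size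
  set N : ℝ := (2 * l + 1) ^ d with hN
  have hN0 : 0 < N := by positivity
  obtain ⟨L0, hL0⟩ := exists_nat_gt (max (N / θ) ((N + 1 / cc) / (θ ^ 2 * (r / 2))))
  refine ⟨2 * K' + 2, by omega, L0 + 1, ?_⟩
  intro L hL c
  have hL1 : 1 ≤ L := by omega
  set Q := cube c L with hQ
  set m : ℝ := (Q.card : ℝ) with hm
  have hmL : (L : ℝ) ≤ m := by
    rw [hm, hQ, card_cube]
    have h1 : L ≤ (2 * L + 1) ^ d := by
      calc L ≤ 2 * L + 1 := by omega
        _ ≤ (2 * L + 1) ^ d := Nat.le_self_pow (by omega) _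
    exact_mod_cast h1
  have hm0 : 0 < m := by
    have : (0 : ℝ) < L := by exact_mod_cast hL1
    linarith
  have hmL0 : (L0 : ℝ) < m := by
    have : (L0 : ℝ) < L := by exact_mod_cast hL
    linarith
  have hmN : N ≤ θ * m := by
    have h1 : N / θ < m := (le_max_left _ _).trans_lt (hL0.trans hmL0)
    rw [div_lt_iff₀ hθ] at h1
    linarith
  have hme : (N + 1 / cc) ≤ θ ^ 2 * (r / 2) * m := by
    have h1 : (N + 1 / cc) / (θ ^ 2 * (r / 2)) < m :=
      (le_max_right _ _).trans_lt (hL0.trans hmL0)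
    rw [div_lt_iff₀ (by positivity)] at h1
    linarith
  set D := lat (cube c ((2 * K' + 2) * L)) with hD
  have hDlat : IsLat D := isLat_lat _
  have hadm : Adm D (fun _ => p) := fun e _ => ⟨hp0, hp1⟩
  have hq0 : 0 < q := by linarith
  have hsubLat : ∀ A, A ⊆ D → IsLat A := fun A hA e he => hDlat e (hA he)
  -- lower bound
  have hlow : (1 - ε) * θ0 ^ 2 * m ^ 2 ≤
      E D (fun _ => p) q (fun A => ∑ x ∈ Q, ∑ z ∈ Q, ind (Conn A x z)) := by
    rw [E_sum]
    have h1 : ∀ x ∈ Q, m * ((1 - ε) * θ0 ^ 2) ≤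
        E D (fun _ => p) q (fun A => ∑ z ∈ Q, ind (Conn A x z)) := by
      intro x hx
      rw [E_sum]
      have h2 : ∀ z ∈ Q, (1 - ε) * θ0 ^ 2 ≤ E D (fun _ => p) q (fun A => ind (Conn A x z)) := by
        intro z hz
        have hn : 1 ≤ K' * L := Nat.one_le_iff_ne_zero.2 (by positivity)
        have h3 := hconn (K' * L) hn x z
        have h4 : thick x z (2 * (K' * L) + 1) ⊆ cube c ((2 * K' + 2) * L) := by
          refine denseFree_thick hx hz ?_
          nlinarith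
        have h5 := fP_mono h4 hq hp0 hp1 x z
        have h6 : (1 - ε) * θ0 ^ 2 ≤ (1 - C * dist1 x z / (K' * L : ℕ)) * θ0 ^ 2 := by
          refine mul_le_mul_of_nonneg_right ?_ (sq_nonneg _)
          have h7 := denseFree_dist hx hz
          have h8 : (0 : ℝ) < ((K' * L : ℕ) : ℝ) := by exact_mod_cast hn
          have h9 : C * dist1 x z / (K' * L : ℕ) ≤ ε := by
            rw [div_le_iff₀ h8]
            have h10 : 2 * d * C < K' * ε := by
              rw [div_lt_iff₀ hε] at hK'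
              exact hK'
            have hL' : (0 : ℝ) < L := by exact_mod_cast hL1
            push_cast
            calc C * (dist1 x z : ℝ) ≤ C * (2 * d * L) := mul_le_mul_of_nonneg_left h7 hC.le
              _ = (2 * d * C) * L := by ring
              _ ≤ (K' * ε) * L := mul_le_mul_of_nonneg_right h10.le hL'.le
              _ = ε * (K' * L) := by ring
          linarith
        exact h6.trans (h3.trans h5)
      calc m * ((1 - ε) * θ0 ^ 2) = ∑ _z ∈ Q, (1 - ε) * θ0 ^ 2 := by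
            rw [Finset.sum_const, nsmul_eq_mul]
        _ ≤ _ := Finset.sum_le_sum h2
    calc (1 - ε) * θ0 ^ 2 * m ^ 2 = ∑ _x ∈ Q, m * ((1 - ε) * θ0 ^ 2) := by
          rw [Finset.sum_const, nsmul_eq_mul, ← hm]; ring
      _ ≤ _ := Finset.sum_le_sum h1
  -- pointwise upper bound
  set a : ℝ := ((1 + δ) ^ 2 - (1 + δ) * (1 - β)) * θ ^ 2 * m ^ 2 with ha
  have ha1 : 0 ≤ (1 + δ) ^ 2 - (1 + δ) * (1 - β) := by nlinarith
  have hup : ∀ A, A ⊆ D → ∑ x ∈ Q, ∑ z ∈ Q, ind (Conn A x z) ≤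
      (m ^ 2 * ((1 + δ) ^ 2 * θ ^ 2) + N * m) -
        a * ind (¬ Dense A Q ((1 - β) * θ * m)) +
        m ^ 2 * ind ((1 + δ) * θ * m < nFar l A Q) := by
    intro A hA
    have hlatA := hsubLat A hA
    have hcard : ∑ x ∈ Q, ∑ z ∈ Q, ind (Conn A x z) = ∑ x ∈ Q, ((cl A Q x).card : ℝ) :=
      Finset.sum_congr rfl fun x _ => (denseFree_card A Q x).symm
    rw [hcard]
    have hnF0 : (0 : ℝ) ≤ nFar l A Q := Nat.cast_nonneg _
    by_cases hW : (1 + δ) * θ * m < nFar l A Q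
    · rw [ind_true hW]
      have h1 : ∑ x ∈ Q, ((cl A Q x).card : ℝ) ≤ m * m := by
        calc ∑ x ∈ Q, ((cl A Q x).card : ℝ) ≤ ∑ _x ∈ Q, m := by
              refine Finset.sum_le_sum fun x _ => ?_
              have : (cl A Q x).card ≤ Q.card := Finset.card_le_card fun y hy => (mem_cl.1 hy).1
              rw [hm]
              exact_mod_cast this
          _ = m * m := by rw [Finset.sum_const, nsmul_eq_mul]
      have h2 := ind_le_one (¬ Dense A Q ((1 - β) * θ * m))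
      have h3 : 0 ≤ a := by rw [ha]; positivity
      have h4 : a ≤ m ^ 2 * ((1 + δ) ^ 2 * θ ^ 2) := by
        have h5 : 0 ≤ (1 + δ) * (1 - β) * (θ ^ 2 * m ^ 2) :=
          mul_nonneg (mul_nonneg (by linarith) (by linarith)) (by positivity)
        have h6 : a = m ^ 2 * ((1 + δ) ^ 2 * θ ^ 2) - (1 + δ) * (1 - β) * (θ ^ 2 * m ^ 2) := by
          rw [ha]; ring
        linarith
      have h5 : a * ind (¬ Dense A Q ((1 - β) * θ * m)) ≤ a * 1 :=
        mul_le_mul_of_nonneg_left h2 h3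
      have h6 : 0 ≤ N * m := by positivity
      have h7 : m * m = m ^ 2 := by ring
      linarith
    · rw [ind_false hW, mul_zero, add_zero]
      have hW' : (nFar l A Q : ℝ) ≤ (1 + δ) * θ * m := not_lt.1 hW
      by_cases hDen : Dense A Q ((1 - β) * θ * m)
      · rw [ind_false (not_not.2 hDen), mul_zero, sub_zero]
        have h1 : ∀ x ∈ Q, ((cl A Q x).card : ℝ) ≤ (1 + δ) * θ * m := by
          intro x _
          have h2 := card_cl_le hlatA Q x (l := l)
          have h3 : ((cl A Q x).card : ℝ) ≤ max (nFar l A Q : ℝ) N := by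
            rw [hN]
            exact_mod_cast h2
          refine h3.trans (max_le hW' ?_)
          have h4 : 0 ≤ δ * θ * m := by positivity
          nlinarith
        have h2 := denseFree_sum (l := l) hlatA Q h1
        have h3 : (nFar l A Q : ℝ) * ((1 + δ) * θ * m) ≤
            ((1 + δ) * θ * m) * ((1 + δ) * θ * m) :=
          mul_le_mul_of_nonneg_right hW' (by positivity)
        calc ∑ x ∈ Q, ((cl A Q x).card : ℝ) ≤ _ := h2
          _ ≤ ((1 + δ) * θ * m) * ((1 + δ) * θ * m) + N * m := by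
              rw [hN, hm]
              exact add_le_add_left h3 _
          _ = _ := by ring
      · rw [ind_true hDen, mul_one]
        have h1 : ∀ x ∈ Q, ((cl A Q x).card : ℝ) ≤ (1 - β) * θ * m := by
          intro x _
          by_contra hlt
          exact hDen ⟨x, (not_le.1 hlt).le⟩
        have h2 := denseFree_sum (l := l) hlatA Q h1
        have h3 : (nFar l A Q : ℝ) * ((1 - β) * θ * m) ≤
            ((1 + δ) * θ * m) * ((1 - β) * θ * m) :=
          mul_le_mul_of_nonneg_right hW'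
            (mul_nonneg (mul_nonneg (by linarith) hθ.le) hm0.le)
        calc ∑ x ∈ Q, ((cl A Q x).card : ℝ) ≤ _ := h2
          _ ≤ ((1 + δ) * θ * m) * ((1 - β) * θ * m) + N * m := by
              rw [hN, hm]
              exact add_le_add_left h3 _
          _ = _ := by rw [ha]; ring
  -- expectation of the upper bound
  have hexp : E D (fun _ => p) q (fun A => ∑ x ∈ Q, ∑ z ∈ Q, ind (Conn A x z)) ≤
      (m ^ 2 * ((1 + δ) ^ 2 * θ ^ 2) + N * m) -
        a * P D (fun _ => p) q (fun A => ¬ Dense A Q ((1 - β) * θ * m)) +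
        m ^ 2 * P D (fun _ => p) q (fun A => (1 + δ) * θ * m < nFar l A Q) := by
    refine (E_mono hq0 hadm hup).trans ?_
    rw [E_add, E_sub, E_smul, E_smul, E_const hq0 hadm]
    exact le_rfl
  have hW : P D (fun _ => p) q (fun A => (1 + δ) * θ * m < nFar l A Q) ≤
      Real.exp (-cc * m) := hch D (fun _ => p) hDlat hadm Q (fun x _ e _ _ => le_rfl)
  have hW2 : Real.exp (-cc * m) ≤ (1 / cc) / m := by
    have h1 : 0 < cc * m := by positivity
    have h2 : cc * m + 1 ≤ Real.exp (cc * m) := Real.add_one_le_exp _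
    have h3 : Real.exp (-cc * m) = (Real.exp (cc * m))⁻¹ := by
      rw [← Real.exp_neg]; congr 1; ring
    rw [h3, div_div, one_div]
    exact inv_anti₀ h1 (by linarith)
  have hPn := P_nonneg hq0 hadm (fun A => ¬ Dense A Q ((1 - β) * θ * m))
  refine denseFree_num (δ := δ) (ε := ε) (s := r / 16) (N := N) (m := m) (e := (1 / cc) / m)
    hβ hβ1 hδ (by rw [hδdef]; linarith) hε (by positivity) ?_ hθ0 hθ1 hθ2 hm0 hPn ?_ ?_
    (by rw [hεdef]; linarith)
  · rw [hδdef, hεdef]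
    linarith
  · rw [← add_div, div_le_iff₀ hm0]
    refine hme.trans ?_
    refine mul_le_mul_of_nonneg_right ?_ hm0.le
    refine mul_le_mul_of_nonneg_left ?_ (sq_nonneg _)
    linarith
  · have h1 := hlow.trans hexp
    have h2 : m ^ 2 * P D (fun _ => p) q (fun A => (1 + δ) * θ * m < nFar l A Q) ≤
        m ^ 2 * ((1 / cc) / m) := mul_le_mul_of_nonneg_left (hW.trans hW2) (sq_nonneg _)
    rw [ha] at h1
    linarith

end FKB
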