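import Pool.Agent.FKB.DomainA

open Finset
noncomputable section
namespace FKB

variable {V : Type*} [DecidableEq V]

theorem seq_inter {D1 D2 A : Finset (V × V)} (h : Disjoint D1 D2) : (A \ D1) ∩ D2 = A ∩ D2 := by
  ext e
  simp only [Finset.mem_inter, Finset.mem_sdiff]
  constructor
  · rintro ⟨⟨h1, _⟩, h3⟩; exact ⟨h1, h3⟩
  · rintro ⟨h1, h2⟩; exact ⟨⟨h1, fun h3 => Finset.disjoint_left.mp h h3 h2⟩, h2⟩

theorem seq_cond_le {D D1 : Finset (V × V)} {w : V × V → ℝ} {q : ℝ} (hq : 0 < q) (hw : Adm D w)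
    (hD : D1 ⊆ D) (G F : Finset (V × V) → ℝ) (hG : ∀ B, 0 ≤ G B) (c : ℝ)
    (hc : ∀ B, B ⊆ D \ D1 → E D (pin w D1 B) q F ≤ c) :
    E D w q (fun A => G (A \ D1) * F A) ≤ c * E D w q (fun A => G (A \ D1)) := by
  have h1 : E D w q (fun A => G (A \ D1)) =
      ∑ B ∈ (D \ D1).powerset, G B * P D w q (fun A => A \ D1 = B) := by
    have h2 := E_cond (q := q) hq hw hD G (fun _ => 1)
    simp only [mul_one] at h2
    rw [h2]
    refine Finset.sum_congr rfl fun B _ => ?_
    rw [E_const hq (domA_adm_pin hw), mul_one]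
  rw [E_cond hq hw hD G F, h1, Finset.mul_sum]
  refine Finset.sum_le_sum fun B hB => ?_
  rw [Finset.mem_powerset] at hB
  rw [mul_comm c]
  exact mul_le_mul_of_nonneg_left (hc B hB) (mul_nonneg (hG B) (P_nonneg hq hw _))

theorem seq_cond_ge {D D1 : Finset (V × V)} {w : V × V → ℝ} {q : ℝ} (hq : 0 < q) (hw : Adm D w)
    (hD : D1 ⊆ D) (G F : Finset (V × V) → ℝ) (hG : ∀ B, 0 ≤ G B) (c : ℝ)
    (hc : ∀ B, B ⊆ D \ D1 → G B ≠ 0 → c ≤ E D (pin w D1 B) q F) :
    c * E D w q (fun A => G (A \ D1)) ≤ E D w q (fun A => G (A \ D1) * F A) := by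
  have h1 : E D w q (fun A => G (A \ D1)) =
      ∑ B ∈ (D \ D1).powerset, G B * P D w q (fun A => A \ D1 = B) := by
    have h2 := E_cond (q := q) hq hw hD G (fun _ => 1)
    simp only [mul_one] at h2
    rw [h2]
    refine Finset.sum_congr rfl fun B _ => ?_
    rw [E_const hq (domA_adm_pin hw), mul_one]
  rw [E_cond hq hw hD G F, h1, Finset.mul_sum]
  refine Finset.sum_le_sum fun B hB => ?_
  rw [Finset.mem_powerset] at hB
  rw [mul_comm c]
  by_cases h0 : G B = 0
  · rw [h0]; simp
  · exact mul_le_mul_of_nonneg_left (hc B hB h0) (mul_nonneg (hG B) (P_nonneg hq hw _))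

/-- Disjoint regions: the probability that all (decreasing, local) bad events occur. -/
theorem P_bad {ι : Type*} (I : Finset ι) {D : Finset (V × V)} {w : V × V → ℝ} {q : ℝ}
    (hq : 1 ≤ q) (hw : Adm D w) (N : ι → Finset (V × V)) (hN : ∀ i ∈ I, N i ⊆ D)
    (hdisj : ∀ i ∈ I, ∀ j ∈ I, i ≠ j → Disjoint (N i) (N j))
    (w' : V × V → ℝ) (hw' : ∀ i ∈ I, ∀ e ∈ N i, 0 ≤ w' e ∧ w' e ≤ w e)
    (Bad : ι → Finset (V × V) → Prop)
    (hdec : ∀ i ∈ I, ∀ A B : Finset (V × V), A ⊆ B → B ⊆ N i → Bad i B → Bad i A) :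
    P D w q (fun A => ∀ i ∈ I, Bad i (A ∩ N i)) ≤ ∏ i ∈ I, P (N i) w' q (Bad i) := by
  classical
  have hq0 : 0 < q := lt_of_lt_of_le one_pos hq
  induction I using Finset.induction_on with
  | empty =>
    rw [Finset.prod_empty]
    exact P_le_one hq0 hw _
  | insert i I hi ih =>
    have ih' := ih (fun j hj => hN j (Finset.mem_insert_of_mem hj))
      (fun j hj k hk => hdisj j (Finset.mem_insert_of_mem hj) k (Finset.mem_insert_of_mem hk))
      (fun j hj => hw' j (Finset.mem_insert_of_mem hj))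
      (fun j hj => hdec j (Finset.mem_insert_of_mem hj))
    have hii : i ∈ insert i I := Finset.mem_insert_self i I
    have hdj : ∀ j ∈ I, Disjoint (N i) (N j) := fun j hj =>
      hdisj i hii j (Finset.mem_insert_of_mem hj) (fun h => hi (h ▸ hj))
    have hAi : Adm (N i) w' := fun e he =>
      ⟨(hw' i hii e he).1, (hw' i hii e he).2.trans (hw e (hN i hii he)).2⟩
    rw [Finset.prod_insert hi]
    set G : Finset (V × V) → ℝ := fun B => ind (∀ j ∈ I, Bad j (B ∩ N j)) with hG
    set F : Finset (V × V) → ℝ := fun A => ind (Bad i (A ∩ N i)) with hF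
    have hGA : ∀ A, G (A \ N i) = ind (∀ j ∈ I, Bad j (A ∩ N j)) := by
      intro A
      simp only [hG]
      apply ind_congr
      refine forall₂_congr fun j hj => ?_
      rw [seq_inter (hdj j hj)]
    have e1 : P D w q (fun A => ∀ j ∈ insert i I, Bad j (A ∩ N j)) =
        E D w q (fun A => G (A \ N i) * F A) := by
      unfold P
      refine E_congr fun A _ => ?_
      rw [hGA, hF, ← ind_and]
      apply ind_congr
      simp only
      rw [Finset.forall_mem_insert]
      exact and_comm
    have e2 : P D w q (fun A => ∀ j ∈ I, Bad j (A ∩ N j)) = E D w q (fun A => G (A \ N i)) := by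
      unfold P
      exact E_congr fun A _ => (hGA A).symm
    have e3 : ∀ B, B ⊆ D \ N i → E D (pin w (N i) B) q F ≤ P (N i) w' q (Bad i) := by
      intro B _
      have h1 : P (N i) w' q (Bad i) = E (N i) w' q F := by
        unfold P
        refine E_congr fun A hA => ?_
        simp only [hF]
        rw [Finset.inter_eq_left.mpr hA]
      rw [h1]
      have hinc : Inc D (fun A => (-1) * F A) := by
        intro A A' hAA' hA'D
        simp only [hF]
        have h2 : Bad i (A' ∩ N i) → Bad i (A ∩ N i) :=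
          hdec i hii _ _ (Finset.inter_subset_inter_right hAA') Finset.inter_subset_right
        have := ind_mono h2
        linarith
      have h3 := E_dom hq hAi (domA_adm_pin (D1 := N i) (B := B) hw) (hN i hii)
        (fun e he => by
          simp only [pin, he, if_true]
          exact (hw' i hii e he).2) hinc
      rw [E_smul, E_smul] at h3
      linarith
    rw [e1]
    refine (seq_cond_le hq0 hw (hN i hii) G F (fun B => ind_nonneg _) _ e3).trans ?_
    rw [← e2]
    exact mul_le_mul_of_nonneg_left ih' (P_nonneg hq0 hAi _)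

/-- Disjoint regions: product of nonnegative increasing local functions. -/
theorem E_prod_le {ι : Type*} (I : Finset ι) {D : Finset (V × V)} {w : V × V → ℝ} {q : ℝ}
    (hq : 1 ≤ q) (hw : Adm D w) (N : ι → Finset (V × V)) (hN : ∀ i ∈ I, N i ⊆ D)
    (hdisj : ∀ i ∈ I, ∀ j ∈ I, i ≠ j → Disjoint (N i) (N j))
    (f : ι → Finset (V × V) → ℝ) (hf0 : ∀ i ∈ I, ∀ A, 0 ≤ f i A)
    (hinc : ∀ i ∈ I, ∀ A B : Finset (V × V), A ⊆ B → B ⊆ N i → f i A ≤ f i B)
    (c : ι → ℝ)
    (hc : ∀ i ∈ I, E D (pin w (N i) D) q (fun A => f i (A ∩ N i)) ≤ c i) :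
    E D w q (fun A => ∏ i ∈ I, f i (A ∩ N i)) ≤ ∏ i ∈ I, c i := by
  classical
  have hq0 : 0 < q := lt_of_lt_of_le one_pos hq
  induction I using Finset.induction_on with
  | empty =>
    simp only [Finset.prod_empty]
    rw [E_const hq0 hw]
  | insert i I hi ih =>
    have ih' := ih (fun j hj => hN j (Finset.mem_insert_of_mem hj))
      (fun j hj k hk => hdisj j (Finset.mem_insert_of_mem hj) k (Finset.mem_insert_of_mem hk))
      (fun j hj => hf0 j (Finset.mem_insert_of_mem hj))
      (fun j hj => hinc j (Finset.mem_insert_of_mem hj))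
      (fun j hj => hc j (Finset.mem_insert_of_mem hj))
    have hii : i ∈ insert i I := Finset.mem_insert_self i I
    have hdj : ∀ j ∈ I, Disjoint (N i) (N j) := fun j hj =>
      hdisj i hii j (Finset.mem_insert_of_mem hj) (fun h => hi (h ▸ hj))
    rw [Finset.prod_insert hi]
    -- make the product nonnegative everywhere
    set G : Finset (V × V) → ℝ := fun B => ∏ j ∈ I, f j (B ∩ N j) with hG
    set F : Finset (V × V) → ℝ := fun A => f i (A ∩ N i) with hF
    have hG0 : ∀ B, 0 ≤ G B := fun B =>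
      Finset.prod_nonneg fun j hj => hf0 j (Finset.mem_insert_of_mem hj) _
    have hGA : ∀ A, G (A \ N i) = ∏ j ∈ I, f j (A ∩ N j) := by
      intro A
      simp only [hG]
      refine Finset.prod_congr rfl fun j hj => ?_
      rw [seq_inter (hdj j hj)]
    have e1 : E D w q (fun A => ∏ j ∈ insert i I, f j (A ∩ N j)) =
        E D w q (fun A => G (A \ N i) * F A) := by
      refine E_congr fun A _ => ?_
      rw [Finset.prod_insert hi, hGA, mul_comm]
    have e2 : E D w q (fun A => ∏ j ∈ I, f j (A ∩ N j)) = E D w q (fun A => G (A \ N i)) :=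
      E_congr fun A _ => (hGA A).symm
    have hinc' : Inc D F := by
      intro A A' hAA' _
      exact hinc i hii _ _ (Finset.inter_subset_inter_right hAA') Finset.inter_subset_right
    have e3 : ∀ B, B ⊆ D \ N i → E D (pin w (N i) B) q F ≤ c i := by
      intro B hB
      refine le_trans ?_ (hc i hii)
      refine E_holley hq (domA_adm_pin hw) (domA_adm_pin hw) (fun e he => ?_) hinc'
      unfold pin
      by_cases h1 : e ∈ N i
      · simp only [h1, if_true]; exact le_refl _
      · simp only [h1, he, if_true, if_false]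
        split_ifs
        · exact le_refl _
        · exact zero_le_one
    have hci : 0 ≤ c i := by
      refine le_trans ?_ (hc i hii)
      have h1 : E D (pin w (N i) D) q (fun _ => 0) ≤
          E D (pin w (N i) D) q (fun A => f i (A ∩ N i)) :=
        E_mono hq0 (domA_adm_pin hw) (fun A _ => hf0 i hii _)
      rwa [E_const hq0 (domA_adm_pin hw)] at h1
    rw [e1]
    refine (seq_cond_le hq0 hw (hN i hii) G F hG0 _ e3).trans ?_
    rw [← e2]
    exact mul_le_mul_of_nonneg_left ih' hci

/-- First open seed decomposition, one term. -/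
theorem P_seed {D D2 : Finset (V × V)} {w w' : V × V → ℝ} {q : ℝ}
    (hq : 1 ≤ q) (hw : Adm D w) (hD2 : D2 ⊆ D)
    (hw' : Adm D w') (hle : ∀ e ∈ D \ D2, w' e ≤ w e)
    (G T : Finset (V × V) → Prop) (hT : Inc D (fun A => ind (T A)))
    (hG : ∀ B, B ⊆ D2 → G B → ∀ e ∈ D2, w' e ≤ ind (e ∈ B)) :
    P D w q (fun A => G (A ∩ D2)) * P D w' q T ≤ P D w q (fun A => G (A ∩ D2) ∧ T A) := by
  classical
  have hq0 : 0 < q := lt_of_lt_of_le one_pos hq
  have hDD : D \ (D \ D2) = D2 := by
    ext e
    simp only [Finset.mem_sdiff]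
    constructor
    · rintro ⟨h1, h2⟩
      by_contra h3
      exact h2 ⟨h1, h3⟩
    · intro h; exact ⟨hD2 h, fun h1 => h1.2 h⟩
  have hA : ∀ A, A ⊆ D → A \ (D \ D2) = A ∩ D2 := by
    intro A hAD
    ext e
    simp only [Finset.mem_sdiff, Finset.mem_inter]
    constructor
    · rintro ⟨h1, h2⟩
      refine ⟨h1, ?_⟩
      by_contra h3
      exact h2 ⟨hAD h1, h3⟩
    · rintro ⟨h1, h2⟩; exact ⟨h1, fun h3 => h3.2 h2⟩
  have e1 : P D w q (fun A => G (A ∩ D2) ∧ T A) =
      E D w q (fun A => (fun B => ind (G B)) (A \ (D \ D2)) * ind (T A)) := by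
    unfold P
    refine E_congr fun A hAD => ?_
    simp only
    rw [hA A hAD, ind_and]
  have e2 : P D w q (fun A => G (A ∩ D2)) =
      E D w q (fun A => (fun B => ind (G B)) (A \ (D \ D2))) := by
    unfold P
    refine E_congr fun A hAD => ?_
    simp only
    rw [hA A hAD]
  rw [e1, e2, mul_comm]
  refine seq_cond_ge hq0 hw Finset.sdiff_subset (fun B => ind (G B)) (fun A => ind (T A))
    (fun B => ind_nonneg _) _ (fun B hB hGB => ?_)
  rw [hDD] at hB
  have hGB' : G B := by
    by_contra h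
    exact hGB (ind_false h)
  unfold P
  refine E_holley hq hw' (domA_adm_pin hw) (fun e he => ?_) hT
  unfold pin
  by_cases h1 : e ∈ D \ D2
  · simp only [h1, if_true]; exact hle e h1
  · have h2 : e ∈ D2 := by
      by_contra h3
      exact h1 (Finset.mem_sdiff.mpr ⟨he, h3⟩)
    simp only [h1, if_false]
    have h3 := hG B hB hGB' e h2
    split_ifs with h4
    · rwa [ind_true h4] at h3
    · rwa [ind_false h4] at h3

end FKB
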