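import Pool.Agent.FKB.ChainC
import Pool.Agent.FKB.Seq
import Pool.Agent.FKB.DenseFree

open Finset
noncomputable section
namespace FKB

variable {d : ℕ} {N : ℕ} {j j' : Fin d} {s : ℤ} {r i M K : ℕ}

theorem Dense.mono {V : Type*} {A B : Finset (V × V)} (h : A ⊆ B) {Q : Finset V} {m : ℝ}
    (hd : Dense A Q m) : Dense B Q m := by
  obtain ⟨x, hx⟩ := hd
  refine ⟨x, le_trans hx ?_⟩
  have : cl A Q x ⊆ cl B Q x := by
    intro y hy
    rw [mem_cl] at hy ⊢
    exact ⟨hy.1, hy.2.mono' h⟩
  exact_mod_cast Finset.card_le_card this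

theorem win_dense (hs : s = 1 ∨ s = -1) (hj : j ≠ j') (hM : 16 ≤ M) (hr : M ≤ r) (hK : 1 ≤ K)
    {q p t η : ℝ} (hq : 1 ≤ q) (hp0 : 0 ≤ p) (hp1 : p ≤ 1) {n : ℕ}
    (hTN : tq r M n ≤ N) (hN : 32 * r * i ≤ N)
    (hL : 1 ≤ Lq r M (16 * K * M) n)
    (hD : ∀ c : Pt d, P (lat (cube c (K * Lq r M (16 * K * M) n))) (fun _ => p) q
      (fun A => ¬ Dense A (cube c (Lq r M (16 * K * M) n))
        (t * (cube c (Lq r M (16 * K * M) n)).card)) ≤ η) :
    P (DD N j j' s r i) (pr (OO N j j' s r i) p) q
      (fun A => ∀ m ∈ Finset.range (n + 1), ∀ x,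
        ((cl A (cube (ctr N j j' s r i M K n m) (Lq r M (16 * K * M) n)) x).card : ℝ) <
          t * (cube (ctr N j j' s r i M K n m) (Lq r M (16 * K * M) n)).card) ≤ η ^ (n + 1) := by
  have hadm : Adm (DD N j j' s r i) (pr (OO N j j' s r i) p) := adm_pr' hp0 hp1
  set L := Lq r M (16 * K * M) n with hLd
  let Nb : ℕ → Finset (Pt d × Pt d) := fun m => lat (cube (ctr N j j' s r i M K n m) (K * L))
  have h1 := P_bad (Finset.range (n + 1)) hq hadm Nb (by
      intro m hm
      have hm' : m ≤ n := Nat.lt_succ_iff.1 (Finset.mem_range.1 hm)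
      apply win_sub hj hs hM hr n hTN hN
      intro x hx
      have h := win_cube (M := M) hs hj hK hL hm' (le_refl _) hx
      exact reg_mono (by have := Int.natCast_nonneg (tq r M n / M); omega)
        (by have := Int.natCast_nonneg (tq r M n / M); omega)
        (by have := Int.natCast_nonneg (tq r M n / M); omega) h)
    (by
      intro m _ m' _ hmm
      exact lat_disj (win_disj hj hmm))
    (fun _ => p) (by
      intro m _ e _
      exact ⟨hp0, le_pr hp1 e⟩)
    (fun m A => ¬ Dense A (cube (ctr N j j' s r i M K n m) L)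
      (t * (cube (ctr N j j' s r i M K n m) L).card))
    (by
      intro m _ A B hAB _ hB hA
      exact hB (hA.mono hAB))
  have h2 : P (DD N j j' s r i) (pr (OO N j j' s r i) p) q
      (fun A => ∀ m ∈ Finset.range (n + 1), ∀ x,
        ((cl A (cube (ctr N j j' s r i M K n m) L) x).card : ℝ) <
          t * (cube (ctr N j j' s r i M K n m) L).card) ≤
      P (DD N j j' s r i) (pr (OO N j j' s r i) p) q
        (fun A => ∀ m ∈ Finset.range (n + 1), ¬ Dense (A ∩ Nb m)
          (cube (ctr N j j' s r i M K n m) L)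
          (t * (cube (ctr N j j' s r i M K n m) L).card)) := by
    apply P_mono (by linarith) hadm
    intro A _ _ _ h m hm hdense
    obtain ⟨x, hx⟩ := hdense.mono Finset.inter_subset_left
    exact absurd (h m hm x) (not_lt.2 hx)
  refine le_trans h2 (le_trans h1 ?_)
  have h3 : ∏ m ∈ Finset.range (n + 1), P (Nb m) (fun _ => p) q
      (fun A => ¬ Dense A (cube (ctr N j j' s r i M K n m) L)
        (t * (cube (ctr N j j' s r i M K n m) L).card)) ≤ ∏ _m ∈ Finset.range (n + 1), η := by
    apply Finset.prod_le_prod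
    · intro m _
      exact P_nonneg (by linarith) (fun _ _ => ⟨hp0, hp1⟩) _
    · intro m _
      exact hD _
  refine le_trans h3 ?_
  rw [Finset.prod_const, Finset.card_range]

end FKB
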