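import Pool.Agent.FKB.ChainC
import Pool.Agent.FKB.Top

open Finset
noncomputable section
namespace FKB

variable {d : ℕ} {N : ℕ} {j j' : Fin d} {s : ℤ} {r i M K : ℕ}

theorem reg_wide {n : ℕ} {x : Pt d} (hx : x ∈ Reg N j j' s r i ((tq r M n : ℤ) - (tq r M n / M : ℕ))
      ((tq r M n : ℤ) + (tq r M n / M : ℕ)) ((tq r M n / M : ℕ))) :
    x ∈ Reg N j j' s r i ((tq r M n : ℤ) - 2 * (tq r M n / M : ℕ))
      ((tq r M n : ℤ) + 2 * (tq r M n / M : ℕ)) (2 * (tq r M n / M : ℕ)) := by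
  have h := Int.natCast_nonneg (tq r M n / M)
  exact reg_mono (by omega) (by omega) (by omega) hx

/-- the hull of two consecutive windows lies in `DD` -/
theorem hull_sub (hs : s = 1 ∨ s = -1) (hj : j ≠ j') (hM : 16 ≤ M) (hr : M ≤ r) (n : ℕ)
    (hTN : tq r M n ≤ N) (hN : 32 * r * i ≤ N) {c c' : Pt d} {e : ℕ}
    (hc : c ∈ Reg N j j' s r i ((tq r M n : ℤ) - (tq r M n / M : ℕ))
      ((tq r M n : ℤ) + (tq r M n / M : ℕ)) ((tq r M n / M : ℕ)))
    (hc' : c' ∈ Reg N j j' s r i ((tq r M n : ℤ) - (tq r M n / M : ℕ))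
      ((tq r M n : ℤ) + (tq r M n / M : ℕ)) ((tq r M n / M : ℕ)))
    (he : e ≤ tq r M n / M) : lat (thick c c' e) ⊆ DD N j j' s r i := by
  apply win_sub hj hs hM hr n hTN hN
  intro x hx
  have h := win_hull hs hc hc' he hx
  exact reg_mono (by omega) (by omega) (by omega) h

/-- the center of a window `n+1` cube at scale `n` -/
theorem ctr_reg' (hs : s = 1 ∨ s = -1) (hj : j ≠ j') (hM : 2 ≤ M) (hr : M ≤ r) (hK : 1 ≤ K)
    {n m : ℕ} (hL : 1 ≤ Lq r M (16 * K * M) (n + 1)) (hm : m ≤ n + 1) :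
    ctr N j j' s r i M K (n + 1) m ∈ Reg N j j' s r i ((tq r M n : ℤ) - (tq r M n / M : ℕ))
      ((tq r M n : ℤ) + (tq r M n / M : ℕ)) ((tq r M n / M : ℕ)) := by
  have h := win_cube' (N := N) (i := i) hs hj hM hr hK hL hm (R := 0) (Nat.zero_le _) (self_mem_cube _ _)
  -- the height of the center is exactly `T_n + δ_n`
  refine ⟨?_, ?_, h.2.2.1, h.2.2.2⟩
  · have h1 := h.1
    have h2 : ((tq r M n / M / 8 : ℕ) : ℤ) ≤ (tq r M n / M : ℕ) := by
      exact_mod_cast Nat.div_le_self _ _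
    have h3 := Int.natCast_nonneg (tq r M n / M)
    linarith
  · simp only [ctr, pos, if_true]
    have h10 : (tq r M (n + 1) : ℤ) = tq r M n + (tq r M n / M : ℕ) := by
      rw [tq_succ]; push_cast; rfl
    rw [h10]
    rcases hs with rfl | rfl
    · linarith
    · linarith

theorem L_le_D (hK : 1 ≤ K) (n : ℕ) : Lq r M (16 * K * M) n ≤ tq r M n / M := by
  have h := Lq_mul_le r M K n
  have : Lq r M (16 * K * M) n ≤ 16 * K * (n + 1) * Lq r M (16 * K * M) n := by
    have : 1 ≤ 16 * K * (n + 1) := by nlinarith [Nat.zero_le (K * n)]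
    nlinarith
  omega

theorem L_succ_le_D (hM : 2 ≤ M) (hr : M ≤ r) (hK : 1 ≤ K) (n : ℕ) :
    8 * Lq r M (16 * K * M) (n + 1) ≤ tq r M n / M := by
  have h := Lq_succ_mul_le hM hr K n
  have : 8 * Lq r M (16 * K * M) (n + 1) ≤ 8 * K * (n + 2) * Lq r M (16 * K * M) (n + 1) := by
    have : 8 ≤ 8 * K * (n + 2) := by nlinarith [Nat.zero_le (K * n)]
    exact Nat.mul_le_mul_right _ this
  omega

/-- separation of clusters in consecutive windows `n, n+1`, `n ≥ 1` -/
theorem win_sep (hs : s = 1 ∨ s = -1) (hj : j ≠ j') (hM : 16 ≤ M) (hr : M ≤ r) (hK : 1 ≤ K)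
    {q p p1 κ t c0 : ℝ} {l L0 : ℕ}
    (hsep : ∀ (D O : Finset (Pt d × Pt d)) (c c' : Pt d) (a b : ℕ),
      IsLat D → O ⊆ D → L0 ≤ a → L0 ≤ b → a ≤ 2 * b → b ≤ 2 * a →
      lat (thick c c' (max a b)) ⊆ D →
      (∀ x ∈ thick c c' (max a b), ∀ z ∈ cube c a ∪ cube c' b,
        κ ≤ P D (pr O p1) q (fun A => Conn A x z)) →
      (∀ x ∈ cube c a ∪ cube c' b, ∀ e ∈ O, e ∉ lat (cube x l)) →
      P D (pr O p) q (fun A => ∃ x y, ¬ Conn A x y ∧
        t * (cube c a).card ≤ (cl A (cube c a) x).card ∧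
        t * (cube c' b).card ≤ (cl A (cube c' b) y).card) ≤
      Real.exp (-c0 * (min a b : ℕ)))
    {n m m' : ℕ} (hn : 1 ≤ n)
    (hTN : tq r M n ≤ N) (hN : 32 * r * i ≤ N) (hN' : 2 * r ≤ N)
    (hL : max 1 L0 ≤ Lq r M (16 * K * M) n) (hL' : max 1 L0 ≤ Lq r M (16 * K * M) (n + 1))
    (hrat : Lq r M (16 * K * M) n ≤ 2 * Lq r M (16 * K * M) (n + 1) ∧
      Lq r M (16 * K * M) (n + 1) ≤ 2 * Lq r M (16 * K * M) n)
    (hrl : 4 * M * (l + 1) ≤ r)
    (hm : m ≤ n) (hm' : m' ≤ n + 1)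
    (htwo : ∀ x z : Pt d, x ∈ Reg N j j' s r i ((tq r M n : ℤ) - 2 * (tq r M n / M : ℕ))
      ((tq r M n : ℤ) + 2 * (tq r M n / M : ℕ)) (2 * (tq r M n / M : ℕ)) →
      z ∈ Reg N j j' s r i ((tq r M n : ℤ) - 2 * (tq r M n / M : ℕ))
      ((tq r M n : ℤ) + 2 * (tq r M n / M : ℕ)) (2 * (tq r M n / M : ℕ)) →
      κ ≤ P (DD N j j' s r i) (pr (OO N j j' s r i) p1) q (fun A => Conn A x z)) :
    P (DD N j j' s r i) (pr (OO N j j' s r i) p) q (fun A => ∃ x y, ¬ Conn A x y ∧
        t * (cube (ctr N j j' s r i M K n m) (Lq r M (16 * K * M) n)).card ≤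
          (cl A (cube (ctr N j j' s r i M K n m) (Lq r M (16 * K * M) n)) x).card ∧
        t * (cube (ctr N j j' s r i M K (n + 1) m') (Lq r M (16 * K * M) (n + 1))).card ≤
          (cl A (cube (ctr N j j' s r i M K (n + 1) m') (Lq r M (16 * K * M) (n + 1))) y).card) ≤
      Real.exp (-c0 * (min (Lq r M (16 * K * M) n) (Lq r M (16 * K * M) (n + 1)) : ℕ)) := by
  have hr1 : 1 ≤ r := by omega
  have hLK : Lq r M (16 * K * M) n ≤ K * Lq r M (16 * K * M) n := Nat.le_mul_of_pos_left _ hK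
  have hLK' : Lq r M (16 * K * M) (n + 1) ≤ K * Lq r M (16 * K * M) (n + 1) :=
    Nat.le_mul_of_pos_left _ hK
  have hL1 : 1 ≤ Lq r M (16 * K * M) n := le_trans (le_max_left _ _) hL
  have hL1' : 1 ≤ Lq r M (16 * K * M) (n + 1) := le_trans (le_max_left _ _) hL'
  have hc : ctr N j j' s r i M K n m ∈ Reg N j j' s r i ((tq r M n : ℤ) - (tq r M n / M : ℕ))
      ((tq r M n : ℤ) + (tq r M n / M : ℕ)) ((tq r M n / M : ℕ)) :=
    win_cube hs hj hK hL1 hm (R := 0) (Nat.zero_le _) (self_mem_cube _ _)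
  have hc' := ctr_reg' (N := N) (i := i) hs hj (by omega) hr hK hL1' hm'
  have he : max (Lq r M (16 * K * M) n) (Lq r M (16 * K * M) (n + 1)) ≤ tq r M n / M := by
    apply max_le (L_le_D hK n)
    have := L_succ_le_D (by omega) hr hK n
    omega
  -- cubes of both windows lie in the wide region of scale `n`
  have hQ : ∀ x ∈ cube (ctr N j j' s r i M K n m) (Lq r M (16 * K * M) n),
      x ∈ Reg N j j' s r i ((tq r M n : ℤ) - 2 * (tq r M n / M : ℕ))
      ((tq r M n : ℤ) + 2 * (tq r M n / M : ℕ)) (2 * (tq r M n / M : ℕ)) := fun x hx =>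
    reg_wide (win_cube hs hj hK hL1 hm hLK hx)
  have hQ' : ∀ x ∈ cube (ctr N j j' s r i M K (n + 1) m') (Lq r M (16 * K * M) (n + 1)),
      x ∈ Reg N j j' s r i ((tq r M n : ℤ) - 2 * (tq r M n / M : ℕ))
      ((tq r M n : ℤ) + 2 * (tq r M n / M : ℕ)) (2 * (tq r M n / M : ℕ)) := fun x hx => by
    have h := win_cube' (M := M) hs hj (by omega) hr hK hL1' hm' hLK' hx
    have h8 : ((tq r M n / M / 8 : ℕ) : ℤ) ≤ (tq r M n / M : ℕ) := by
      exact_mod_cast Nat.div_le_self _ _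
    exact reg_mono (by omega) (by omega) (by omega) h
  refine hsep _ _ _ _ _ _ isLat_DD (OO_sub hs hj hr1 hN hN') (le_trans (le_max_right _ _) hL)
    (le_trans (le_max_right _ _) hL') hrat.1 hrat.2 (hull_sub hs hj hM hr n hTN hN hc hc' he) ?_ ?_
  · intro x hx z hz
    apply htwo x z (win_hull hs hc hc' he hx)
    rcases Finset.mem_union.1 hz with hz | hz
    · exact hQ z hz
    · exact hQ' z hz
  · -- heights of the points of the cubes are above `2 r + l`
    have hT1 : 2 * r + 2 * r / M ≤ tq r M n := tq_ge_one r M hn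
    have hl1 : 8 * (l + 1) ≤ 2 * r / M := by
      rw [Nat.le_div_iff_mul_le (by omega)]
      nlinarith
    have hLn : 16 * Lq r M (16 * K * M) n ≤ tq r M n / M := by
      have h := Lq_mul_le r M K n
      have : 16 * Lq r M (16 * K * M) n ≤ 16 * K * (n + 1) * Lq r M (16 * K * M) n := by
        have : 16 ≤ 16 * K * (n + 1) := by nlinarith [Nat.zero_le (K * n)]
        exact Nat.mul_le_mul_right _ this
      omega
    have hheight : ∀ x : Pt d, (tq r M n : ℤ) - (tq r M n / M / 16 : ℕ) ≤ N - s * x j →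
        (2 * r + l : ℤ) < N - s * x j := by
      intro x hx
      refine lt_of_lt_of_le ?_ hx
      have hD : M * (tq r M n / M) ≤ tq r M n := Nat.mul_div_le _ _
      have hnat : 2 * r + l + tq r M n / M / 16 < tq r M n := by
        by_cases h4 : tq r M n ≤ 4 * r
        · have h5 : tq r M n / M ≤ 4 * r / M := Nat.div_le_div_right h4
          have h6 : 4 * r / M ≤ 2 * (2 * r / M) + 1 := by
            have h7 : 4 * r < M * (2 * (2 * r / M) + 2) := by
              have := Nat.lt_mul_div_succ (2 * r) (show 0 < M by omega)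
              nlinarith
            have := (Nat.div_lt_iff_lt_mul (show 0 < M by omega)).2
              (show 4 * r < (2 * (2 * r / M) + 2) * M by linarith [Nat.mul_comm M (2 * (2 * r / M) + 2)])
            omega
          omega
        · have h5 : 16 * (tq r M n / M) ≤ tq r M n := le_trans (Nat.mul_le_mul_right _ hM) hD
          have h6 : l ≤ r := by nlinarith
          have h7 : 4 * (l + 1) ≤ r := by nlinarith
          omega
      have : ((2 * r + l + tq r M n / M / 16 : ℕ) : ℤ) < (tq r M n : ℕ) := by exact_mod_cast hnat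
      push_cast at this ⊢
      linarith
    intro x hx e he'
    apply far_seed hs _ he'
    rcases Finset.mem_union.1 hx with hx | hx
    · apply hheight
      rw [mem_cube] at hx
      have h1 := hx j
      simp only [ctr, pos, if_true] at h1
      rw [abs_le] at h1
      have h2 : ((Lq r M (16 * K * M) n : ℕ) : ℤ) ≤ (tq r M n / M / 16 : ℕ) := by
        have : Lq r M (16 * K * M) n ≤ tq r M n / M / 16 := by omega
        exact_mod_cast this
      rcases hs with rfl | rfl <;> linarith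
    · apply hheight
      have h := win_cube' (M := M) hs hj (by omega) hr hK hL1' hm' hLK' hx
      have h8 : ((tq r M n / M / 8 : ℕ) : ℤ) ≤ (tq r M n / M : ℕ) := by
        exact_mod_cast Nat.div_le_self _ _
      have h9 := Int.natCast_nonneg (tq r M n / M / 16)
      have h10 := h.1
      linarith

end FKB
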