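import Pool.Agent.FKB.ChainE

open Finset
noncomputable section
namespace FKB

variable {d : ℕ} {N : ℕ} {j j' : Fin d} {s : ℤ} {r i M K : ℕ}

theorem cube0_sub_seed (hs : s = 1 ∨ s = -1) (hj : j ≠ j') (hM : 16 ≤ M) (hK : 1 ≤ K)
    {x : Pt d} (hx : x ∈ cube (ctr0 N j j' s r i M K) (Lq r M (16 * K * M) 0)) :
    x ∈ seedBox N j j' s r i := by
  have h1 := Lq_mul_le r M K 0
  have h0 : tq r M 0 = 2 * r := rfl
  rw [h0] at h1
  set L := Lq r M (16 * K * M) 0 with hLd
  have h2 : 16 * L ≤ 2 * r / M := by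
    have : 16 * L ≤ 16 * K * (0 + 1) * L := by
      have : 16 ≤ 16 * K * (0 + 1) := by omega
      exact Nat.mul_le_mul_right _ this
    omega
  have h3 : 2 * r / M ≤ r := by
    rw [Nat.div_le_iff_le_mul_add_pred (by omega)]
    nlinarith
  have h4 : 16 * L ≤ r := le_trans h2 h3
  have h4' : 16 * (L : ℤ) ≤ r := by exact_mod_cast h4
  have hL0 : (0 : ℤ) ≤ L := Int.natCast_nonneg _
  unfold seedBox
  rw [mem_cube] at hx ⊢
  intro a
  have h5 := hx a
  simp only [ctr0, pos] at h5 ⊢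
  rw [← hLd] at h5
  rw [abs_le] at h5 ⊢
  by_cases ha : a = j
  · subst ha
    simp only [if_true] at h5 ⊢
    push_cast at h5 ⊢
    rcases hs with rfl | rfl
    · constructor <;> linarith
    · constructor <;> linarith
  · simp only [if_neg ha] at h5 ⊢
    constructor <;> linarith

theorem win_sep0 (hs : s = 1 ∨ s = -1) (hj : j ≠ j') (hM : 16 ≤ M) (hr : M ≤ r) (hK : 1 ≤ K)
    {q p p1 κ t c0 : ℝ} {l L0 : ℕ}
    (hsep : ∀ (D O : Finset (Pt d × Pt d)) (c c' : Pt d) (a b : ℕ),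
      IsLat D → O ⊆ D → L0 ≤ a → L0 ≤ b → a ≤ 2 * b → b ≤ 2 * a →
      lat (thick c c' (max a b)) ⊆ D →
      (∀ x ∈ thick c c' (max a b), ∀ z ∈ cube c a ∪ cube c' b,
        κ ≤ P D (pr O p1) q (fun A => Conn A x z)) →
      (∀ x ∈ cube c a, Conn O c x) → Disjoint (cube c a) (cube c' b) →
      (∀ x ∈ cube c' b, ∀ e ∈ O, e ∉ lat (cube x l)) →
      P D (pr O p) q (fun A => ∃ y, ¬ Conn A c y ∧
        t * (cube c' b).card ≤ (cl A (cube c' b) y).card) ≤
      Real.exp (-c0 * (min a b : ℕ)))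
    {m' : ℕ}
    (hTN : 2 * r ≤ N) (hN : 32 * r * i ≤ N)
    (hL : max 1 L0 ≤ Lq r M (16 * K * M) 0) (hL' : max 1 L0 ≤ Lq r M (16 * K * M) 1)
    (hrat : Lq r M (16 * K * M) 0 ≤ 2 * Lq r M (16 * K * M) 1 ∧
      Lq r M (16 * K * M) 1 ≤ 2 * Lq r M (16 * K * M) 0)
    (hrl : 4 * M * (l + 1) ≤ r)
    (hm' : m' ≤ 1)
    (htwo : ∀ x z : Pt d, x ∈ Reg N j j' s r i ((tq r M 0 : ℤ) - 2 * (tq r M 0 / M : ℕ))
      ((tq r M 0 : ℤ) + 2 * (tq r M 0 / M : ℕ)) (2 * (tq r M 0 / M : ℕ)) →
      z ∈ Reg N j j' s r i ((tq r M 0 : ℤ) - 2 * (tq r M 0 / M : ℕ))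
      ((tq r M 0 : ℤ) + 2 * (tq r M 0 / M : ℕ)) (2 * (tq r M 0 / M : ℕ)) →
      κ ≤ P (DD N j j' s r i) (pr (OO N j j' s r i) p1) q (fun A => Conn A x z)) :
    P (DD N j j' s r i) (pr (OO N j j' s r i) p) q (fun A => ∃ y,
        ¬ Conn A (ctr0 N j j' s r i M K) y ∧
        t * (cube (ctr N j j' s r i M K 1 m') (Lq r M (16 * K * M) 1)).card ≤
          (cl A (cube (ctr N j j' s r i M K 1 m') (Lq r M (16 * K * M) 1)) y).card) ≤
      Real.exp (-c0 * (min (Lq r M (16 * K * M) 0) (Lq r M (16 * K * M) 1) : ℕ)) := by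
  have hr1 : 1 ≤ r := by omega
  have hLK' : Lq r M (16 * K * M) 1 ≤ K * Lq r M (16 * K * M) 1 := Nat.le_mul_of_pos_left _ hK
  have hL1' : 1 ≤ Lq r M (16 * K * M) 1 := le_trans (le_max_left _ _) hL'
  have hD0 := Int.natCast_nonneg (tq r M 0 / M)
  have hc : ctr0 N j j' s r i M K ∈ Reg N j j' s r i ((tq r M 0 : ℤ) - (tq r M 0 / M : ℕ))
      ((tq r M 0 : ℤ) + (tq r M 0 / M : ℕ)) ((tq r M 0 / M : ℕ)) :=
    reg_mono (le_refl _) (by linarith) (le_refl _)
      (win_cube0 hs hj hK (R := 0) (Nat.zero_le _) (self_mem_cube _ _))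
  have hc' := ctr_reg' (N := N) (i := i) (n := 0) hs hj (by omega) hr hK hL1' hm'
  have he : max (Lq r M (16 * K * M) 0) (Lq r M (16 * K * M) 1) ≤ tq r M 0 / M := by
    apply max_le (L_le_D hK 0)
    have h8 : 8 * Lq r M (16 * K * M) 1 ≤ tq r M 0 / M := L_succ_le_D (by omega) hr hK 0
    omega
  have hT0 : tq r M 0 ≤ N := hTN
  have hl1 : 8 * (l + 1) ≤ 2 * r / M := by
    rw [Nat.le_div_iff_mul_le (by omega)]
    nlinarith
  have hheight : ∀ x ∈ cube (ctr N j j' s r i M K 1 m') (Lq r M (16 * K * M) 1),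
      (2 * r + l : ℤ) < N - s * x j := by
    intro x hx
    have h := win_cube' (M := M) hs hj (by omega) hr hK (n := 0) hL1' hm' hLK' hx
    have h1 := h.1
    have h8 : 8 * (tq r M 0 / M / 8) ≤ tq r M 0 / M := Nat.mul_div_le _ _
    have h0 : tq r M 0 = 2 * r := rfl
    have hl2 : 8 * (l + 1) ≤ tq r M 0 / M := hl1
    refine lt_of_lt_of_le ?_ h1
    clear h1 h
    rw [h0] at h8 hl2 ⊢
    generalize 2 * r / M = D at h8 hl2 ⊢
    generalize D / 8 = D8 at h8 ⊢
    have h9 : (2 * r + l + D8 : ℕ) < 2 * r + D := by omega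
    have h10 : ((2 * r + l + D8 : ℕ) : ℤ) < ((2 * r + D : ℕ) : ℤ) := by exact_mod_cast h9
    push_cast at h10 ⊢
    linarith
  refine hsep _ _ _ _ _ _ isLat_DD (OO_sub hs hj hr1 hN hTN) (le_trans (le_max_right _ _) hL)
    (le_trans (le_max_right _ _) hL') hrat.1 hrat.2
    (hull_sub hs hj hM hr 0 hT0 hN hc hc' he) ?_ ?_ ?_ ?_
  · intro x hx z hz
    apply htwo x z (win_hull hs hc hc' he hx)
    rcases Finset.mem_union.1 hz with hz | hz
    · have h := win_cube0 (M := M) hs hj hK (le_refl _) hz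
      exact reg_wide (reg_mono (le_refl _) (by linarith) (le_refl _) h)
    · have h := win_cube' (M := M) hs hj (by omega) hr hK (n := 0) hL1' hm' hLK' hz
      have h8 : ((tq r M 0 / M / 8 : ℕ) : ℤ) ≤ (tq r M 0 / M : ℕ) := by
        exact_mod_cast Nat.div_le_self _ _
      exact reg_mono (by linarith) (by linarith) (by linarith) h
  · intro x hx
    exact conn_lat_cube (cube0_sub_seed hs hj hM hK (by
      rw [mem_cube]; intro a; simp)) (cube0_sub_seed hs hj hM hK hx)
  · rw [Finset.disjoint_left]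
    intro x hx hx'
    have h1 := hheight x hx'
    have h2 := (win_cube0 (M := M) hs hj hK (le_refl _) hx).2.1
    have h0 : (tq r M 0 : ℤ) = 2 * r := by
      have : tq r M 0 = 2 * r := rfl
      rw [this]; push_cast; ring
    rw [h0] at h2
    have := Int.natCast_nonneg l
    linarith
  · intro x hx e he'
    exact far_seed hs (hheight x hx) he'

/-- the origin and the top window -/
theorem win_top (hs : s = 1 ∨ s = -1) (hj : j ≠ j') (hM : 16 ≤ M) (hr : M ≤ r) (hK : 1 ≤ K)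
    {q p v ε β η θ : ℝ} {l L0 : ℕ} (hp0 : 0 ≤ p) (hp1 : p ≤ 1)
    (htop : ∀ (D : Finset (Pt d × Pt d)) (w : Pt d × Pt d → ℝ) (c x0 : Pt d) (L : ℕ)
      (β η v : ℝ), IsLat D → Adm D w → L0 ≤ L → 0 < β → β ≤ 1 / 2 → 0 ≤ η → 0 ≤ v →
      (∀ x ∈ cube c L, ∀ e ∈ D, e ∈ lat (cube x l) → w e ≤ p) →
      (∀ z ∈ cube c L, v ≤ P D w q (fun A => Conn A x0 z)) →
      P D w q (fun A => ¬ Dense A (cube c L) ((1 - β) * θ * (cube c L).card)) ≤ η →
      v / θ - (β + η / θ + ε) ≤
        P D w q (fun A => ∃ y, (1 - β) * θ * (cube c L).card ≤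
          (cl A (cube c L) y).card ∧ Conn A x0 y))
    {n : ℕ} (hn : 1 ≤ n) (hTN : tq r M n ≤ N) (hNT : N < tq r M (n + 1)) (hN : 32 * r * i ≤ N)
    (hN3 : 32 * M * r * i ≤ N)
    (hL : max 1 L0 ≤ Lq r M (16 * K * M) n) (hrl : 4 * M * (l + 1) ≤ r)
    (hβ : 0 < β) (hβ1 : β ≤ 1 / 2) (hη : 0 ≤ η) (hv : 0 ≤ v)
    (htwo : ∀ x z : Pt d, x ∈ Reg N j j' s r i ((tq r M n : ℤ) - 2 * (tq r M n / M : ℕ))
      ((tq r M n : ℤ) + 2 * (tq r M n / M : ℕ)) (2 * (tq r M n / M : ℕ)) →
      z ∈ Reg N j j' s r i ((tq r M n : ℤ) - 2 * (tq r M n / M : ℕ))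
      ((tq r M n : ℤ) + 2 * (tq r M n / M : ℕ)) (2 * (tq r M n / M : ℕ)) →
      v ≤ P (DD N j j' s r i) (pr (OO N j j' s r i) p) q (fun A => Conn A x z))
    (hdense : P (DD N j j' s r i) (pr (OO N j j' s r i) p) q
      (fun A => ¬ Dense A (cube (ctr N j j' s r i M K n 0) (Lq r M (16 * K * M) n))
        ((1 - β) * θ * (cube (ctr N j j' s r i M K n 0) (Lq r M (16 * K * M) n)).card)) ≤ η) :
    v / θ - (β + η / θ + ε) ≤
      P (DD N j j' s r i) (pr (OO N j j' s r i) p) q (fun A => ∃ y,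
        (1 - β) * θ * (cube (ctr N j j' s r i M K n 0) (Lq r M (16 * K * M) n)).card ≤
          (cl A (cube (ctr N j j' s r i M K n 0) (Lq r M (16 * K * M) n)) y).card ∧
        Conn A 0 y) := by
  have hLK : Lq r M (16 * K * M) n ≤ K * Lq r M (16 * K * M) n := Nat.le_mul_of_pos_left _ hK
  have hL1 : 1 ≤ Lq r M (16 * K * M) n := le_trans (le_max_left _ _) hL
  have hreg : ∀ x ∈ cube (ctr N j j' s r i M K n 0) (Lq r M (16 * K * M) n),
      x ∈ Reg N j j' s r i ((tq r M n : ℤ) - (tq r M n / M : ℕ))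
      ((tq r M n : ℤ) + (tq r M n / M : ℕ)) ((tq r M n / M : ℕ)) := fun x hx =>
    win_cube hs hj hK hL1 (Nat.zero_le _) hLK hx
  refine htop _ _ _ _ _ _ _ _ isLat_DD (adm_pr' hp0 hp1) (le_trans (le_max_right _ _) hL)
    hβ hβ1 hη hv ?_ ?_ hdense
  · -- no forced edges nearby
    intro x hx e _ he'
    have hnot : e ∉ OO N j j' s r i := by
      intro heO
      refine far_seed hs ?_ heO he'
      have hT1 : 2 * r + 2 * r / M ≤ tq r M n := tq_ge_one r M hn
      have hl1 : 8 * (l + 1) ≤ 2 * r / M := by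
        rw [Nat.le_div_iff_mul_le (by omega)]
        nlinarith
      have hLn : 16 * Lq r M (16 * K * M) n ≤ tq r M n / M := by
        have h := Lq_mul_le r M K n
        have : 16 * Lq r M (16 * K * M) n ≤ 16 * K * (n + 1) * Lq r M (16 * K * M) n := by
          have : 16 ≤ 16 * K * (n + 1) := by nlinarith [Nat.zero_le (K * n)]
          exact Nat.mul_le_mul_right _ this
        omega
      have hD : M * (tq r M n / M) ≤ tq r M n := Nat.mul_div_le _ _
      have hnat : 2 * r + l + tq r M n / M / 16 < tq r M n := by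
        by_cases h4 : tq r M n ≤ 4 * r
        · have h5 : tq r M n / M ≤ 4 * r / M := Nat.div_le_div_right h4
          have h6 : 4 * r / M ≤ 2 * (2 * r / M) + 1 := by
            have h7 : 4 * r < M * (2 * (2 * r / M) + 2) := by
              have := Nat.lt_mul_div_succ (2 * r) (show 0 < M by omega)
              nlinarith
            have := (Nat.div_lt_iff_lt_mul (show 0 < M by omega)).2
              (show 4 * r < (2 * (2 * r / M) + 2) * M by
                linarith [Nat.mul_comm M (2 * (2 * r / M) + 2)])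
            omega
          omega
        · have h5 : 16 * (tq r M n / M) ≤ tq r M n := le_trans (Nat.mul_le_mul_right _ hM) hD
          have h7 : 4 * (l + 1) ≤ r := by nlinarith
          omega
      have hx' := hx
      rw [mem_cube] at hx'
      have h1 := hx' j
      simp only [ctr, pos, if_true] at h1
      rw [abs_le] at h1
      have h2 : ((Lq r M (16 * K * M) n : ℕ) : ℤ) ≤ (tq r M n / M / 16 : ℕ) := by
        have : Lq r M (16 * K * M) n ≤ tq r M n / M / 16 := by omega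
        exact_mod_cast this
      have h3 : ((2 * r + l + tq r M n / M / 16 : ℕ) : ℤ) < (tq r M n : ℕ) := by
        exact_mod_cast hnat
      push_cast at h3
      rcases hs with rfl | rfl <;> push_cast at h1 h2 <;> linarith
    unfold pr
    rw [if_neg hnot]
  · intro z hz
    refine htwo 0 z ?_ (reg_wide (hreg z hz))
    -- the origin is in the wide region of the top window
    have hNT' : N < tq r M n + tq r M n / M := hNT
    have hD1 : tq r M n < M * (tq r M n / M + 1) := Nat.lt_mul_div_succ _ (by omega)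
    have hi : 16 * r * i ≤ 2 * (tq r M n / M) := by
      by_contra hcon
      rw [not_le] at hcon
      have h1 : M * (2 * (tq r M n / M) + 1) ≤ M * (16 * r * i) := Nat.mul_le_mul_left _ hcon
      have h2 : M * (16 * r * i) * 2 ≤ N := by
        have : M * (16 * r * i) * 2 = 32 * M * r * i := by ring
        omega
      have h3 : 3 ≤ tq r M n / M := by
        have := tq_ge r M n
        rw [Nat.le_div_iff_mul_le (by omega)]
        have hT1 : 2 * r + 2 * r / M ≤ tq r M n := tq_ge_one r M hn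
        have hl1 : 8 * (l + 1) ≤ 2 * r / M := by
          rw [Nat.le_div_iff_mul_le (by omega)]
          nlinarith
        nlinarith
      nlinarith
    have hi' : 16 * (r : ℤ) * i ≤ 2 * (tq r M n / M : ℕ) := by
      have := (Nat.cast_le (α := ℤ)).2 hi
      push_cast at this ⊢
      exact this
    have hNTz : (N : ℤ) < tq r M n + (tq r M n / M : ℕ) := by exact_mod_cast hNT'
    have hTNz : (tq r M n : ℤ) ≤ N := by exact_mod_cast hTN
    have hD0 := Int.natCast_nonneg (tq r M n / M)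
    refine ⟨?_, ?_, ?_, ?_⟩
    · simp only [Pi.zero_apply, mul_zero]; linarith
    · simp only [Pi.zero_apply, mul_zero]; linarith
    · simp only [Pi.zero_apply, zero_sub, abs_neg]
      rw [abs_of_nonneg (by positivity)]
      exact hi'
    · intro a _ _
      simp only [Pi.zero_apply, abs_zero]
      linarith

end FKB
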