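import Pool.Agent.FKB.Basic

open Finset
noncomputable section
namespace FKB

variable {V ι : Type*} [DecidableEq V]

theorem cp_sum_ge {κ : Type*} (I : Finset κ) (S : κ → Prop) (h : ∃ i ∈ I, S i) :
    1 ≤ ∑ i ∈ I, ind (S i) := by
  obtain ⟨i, hi, hS⟩ := h
  calc (1 : ℝ) = ind (S i) := (ind_true hS).symm
    _ ≤ _ := Finset.single_le_sum (f := fun i => ind (S i)) (fun j _ => ind_nonneg _) hi

theorem chain_prob {D : Finset (V × V)} {w : V × V → ℝ} {q : ℝ} (hq : 0 < q) (hw : Adm D w)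
    (K : ℕ) (hK : 1 ≤ K) (W : ℕ → Finset ι) (Q : ℕ → ι → Finset V) (m : ℕ → ι → ℝ)
    (xs x0 : V) (f g : ℕ → ℝ) (v : ℝ)
    (h0 : ∀ j ∈ W 1, P D w q (fun A => ∃ y, ¬ Conn A xs y ∧ m 1 j ≤ (cl A (Q 1 j) y).card) ≤ g 0)
    (hstep : ∀ n, 1 ≤ n → n < K → ∀ i ∈ W n, ∀ j ∈ W (n + 1),
      P D w q (fun A => ∃ x y, ¬ Conn A x y ∧ m n i ≤ (cl A (Q n i) x).card ∧
        m (n + 1) j ≤ (cl A (Q (n + 1) j) y).card) ≤ g n)
    (hdense : ∀ n, 1 ≤ n → n ≤ K →
      P D w q (fun A => ∀ j ∈ W n, ∀ x, (cl A (Q n j) x).card < m n j) ≤ f n)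
    (j0 : ι) (hj0 : j0 ∈ W K)
    (htop : v ≤ P D w q (fun A => ∃ y, m K j0 ≤ (cl A (Q K j0) y).card ∧ Conn A x0 y)) :
    v - ∑ n ∈ Finset.Icc 1 K, f n - (W 1).card * g 0 -
      ∑ n ∈ Finset.Ico 1 K, (W n).card * (W (n + 1)).card * g n ≤
      P D w q (fun A => Conn A xs x0) := by
  set ND : ℕ → Finset (V × V) → Prop :=
    fun n A => ∀ j ∈ W n, ∀ x, ((cl A (Q n j) x).card : ℝ) < m n j with hND
  set BA : ι → Finset (V × V) → Prop :=
    fun j A => ∃ y, ¬ Conn A xs y ∧ m 1 j ≤ (cl A (Q 1 j) y).card with hBA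
  set ST : ℕ → ι → ι → Finset (V × V) → Prop :=
    fun n i j A => ∃ x y, ¬ Conn A x y ∧ m n i ≤ (cl A (Q n i) x).card ∧
        m (n + 1) j ≤ (cl A (Q (n + 1) j) y).card with hST
  set T : Finset (V × V) → Prop :=
    fun A => ∃ y, m K j0 ≤ (cl A (Q K j0) y).card ∧ Conn A x0 y with hT
  have hpt : ∀ A, A ⊆ D → ind (T A) ≤ ind (Conn A xs x0) +
      (∑ n ∈ Finset.Icc 1 K, ind (ND n A) + (∑ j ∈ W 1, ind (BA j A) +
        ∑ n ∈ Finset.Ico 1 K, ∑ i ∈ W n, ∑ j ∈ W (n + 1), ind (ST n i j A))) := by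
    intro A _
    have p0 := ind_nonneg (Conn A xs x0)
    have p1 : 0 ≤ ∑ n ∈ Finset.Icc 1 K, ind (ND n A) := Finset.sum_nonneg fun _ _ => ind_nonneg _
    have p2 : 0 ≤ ∑ j ∈ W 1, ind (BA j A) := Finset.sum_nonneg fun _ _ => ind_nonneg _
    have p3 : 0 ≤ ∑ n ∈ Finset.Ico 1 K, ∑ i ∈ W n, ∑ j ∈ W (n + 1), ind (ST n i j A) :=
      Finset.sum_nonneg fun _ _ => Finset.sum_nonneg fun _ _ => Finset.sum_nonneg fun _ _ =>
        ind_nonneg _
    have hle := ind_le_one (T A)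
    by_cases b1 : ∃ n ∈ Finset.Icc 1 K, ND n A
    · have := cp_sum_ge (Finset.Icc 1 K) (fun n => ND n A) b1
      linarith only [this, p0, p2, p3, hle]
    by_cases b2 : ∃ j ∈ W 1, BA j A
    · have := cp_sum_ge (W 1) (fun j => BA j A) b2
      linarith only [this, p0, p1, p3, hle]
    by_cases b3 : ∃ n ∈ Finset.Ico 1 K, ∃ i ∈ W n, ∃ j ∈ W (n + 1), ST n i j A
    · obtain ⟨n, hn, i, hi, hj⟩ := b3
      have h1 := cp_sum_ge (W (n + 1)) (fun j => ST n i j A) hj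
      have h2 : ∑ j ∈ W (n + 1), ind (ST n i j A) ≤
          ∑ i ∈ W n, ∑ j ∈ W (n + 1), ind (ST n i j A) :=
        Finset.single_le_sum (f := fun i => ∑ j ∈ W (n + 1), ind (ST n i j A))
          (fun _ _ => Finset.sum_nonneg fun _ _ => ind_nonneg _) hi
      have h3 : ∑ i ∈ W n, ∑ j ∈ W (n + 1), ind (ST n i j A) ≤
          ∑ n ∈ Finset.Ico 1 K, ∑ i ∈ W n, ∑ j ∈ W (n + 1), ind (ST n i j A) :=
        Finset.single_le_sum (f := fun n => ∑ i ∈ W n, ∑ j ∈ W (n + 1), ind (ST n i j A))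
          (fun _ _ => Finset.sum_nonneg fun _ _ => Finset.sum_nonneg fun _ _ => ind_nonneg _) hn
      linarith only [h1, h2, h3, p0, p1, p2, hle]
    by_cases ht : T A
    · have hind : ∀ n, 1 ≤ n → n ≤ K → ∀ j ∈ W n, ∀ y,
          m n j ≤ ((cl A (Q n j) y).card : ℝ) → Conn A xs y := by
        intro n hn
        induction n, hn using Nat.le_induction with
        | base =>
          intro _ j hj y hy
          by_contra hc
          exact b2 ⟨j, hj, y, hc, hy⟩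
        | succ n hn ih =>
          intro hnK j hj y hy
          have h1 : ¬ ND n A := fun h => b1 ⟨n, Finset.mem_Icc.2 ⟨hn, by omega⟩, h⟩
          rw [hND] at h1
          simp only at h1
          push Not at h1
          obtain ⟨i, hi, x, hx⟩ := h1
          have h2 := ih (by omega) i hi x hx
          by_contra hc
          refine b3 ⟨n, Finset.mem_Ico.2 ⟨hn, by omega⟩, i, hi, j, hj, x, y, ?_, hx, hy⟩
          intro h3
          exact hc (h2.trans' h3)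
      obtain ⟨y, hy, hc⟩ := ht
      have h4 := hind K hK le_rfl j0 hj0 y hy
      have h5 : Conn A xs x0 := h4.trans' hc.symm'
      rw [ind_true h5]
      linarith only [p1, p2, p3, hle]
    · rw [ind_false ht]
      linarith only [p0, p1, p2, p3]
  have hE := E_mono hq hw hpt
  rw [E_add, E_add, E_add, E_sum, E_sum, E_sum] at hE
  have e1 : E D w q (fun A => ind (T A)) = P D w q T := rfl
  have e2 : ∑ n ∈ Finset.Icc 1 K, E D w q (fun A => ind (ND n A)) ≤ ∑ n ∈ Finset.Icc 1 K, f n :=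
    Finset.sum_le_sum fun n hn => hdense n (Finset.mem_Icc.1 hn).1 (Finset.mem_Icc.1 hn).2
  have e3 : ∑ j ∈ W 1, E D w q (fun A => ind (BA j A)) ≤ (W 1).card * g 0 := by
    rw [← nsmul_eq_mul, ← Finset.sum_const]
    exact Finset.sum_le_sum fun j hj => h0 j hj
  have e4 : ∑ n ∈ Finset.Ico 1 K, E D w q (fun A => ∑ i ∈ W n, ∑ j ∈ W (n + 1),
      ind (ST n i j A)) ≤ ∑ n ∈ Finset.Ico 1 K, (W n).card * (W (n + 1)).card * g n := by
    refine Finset.sum_le_sum fun n hn => ?_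
    rw [E_sum]
    have h1 : ∀ i ∈ W n, E D w q (fun A => ∑ j ∈ W (n + 1), ind (ST n i j A)) ≤
        (W (n + 1)).card * g n := by
      intro i hi
      rw [E_sum, ← nsmul_eq_mul, ← Finset.sum_const]
      exact Finset.sum_le_sum fun j hj =>
        hstep n (Finset.mem_Ico.1 hn).1 (Finset.mem_Ico.1 hn).2 i hi j hj
    refine (Finset.sum_le_sum h1).trans (le_of_eq ?_)
    rw [Finset.sum_const, nsmul_eq_mul]
    ring
  have e5 : E D w q (fun A => ind (Conn A xs x0)) = P D w q (fun A => Conn A xs x0) := rfl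
  rw [e1, e5] at hE
  linarith only [hE, e2, e3, e4, htop]

end FKB
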