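import Pool.Agent.FKB.ChainD
import Pool.Agent.FKB.ChainF
import Pool.Agent.FKB.ChainProb
import Pool.Agent.FKB.Holley

open Finset
noncomputable section
namespace FKB

theorem conn_inc {V : Type*} (D : Finset (V × V)) (x y : V) : Inc D (fun A => ind (Conn A x y)) :=
  fun _ _ hAB _ => ind_mono (fun h => h.mono' hAB)

theorem P_conn_mono_p {V : Type*} [DecidableEq V] {D O : Finset (V × V)} {p p' q : ℝ}
    (hq : 1 ≤ q) (hp0 : 0 ≤ p) (hpp : p ≤ p') (hp1 : p' ≤ 1) (x y : V) :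
    P D (pr O p) q (fun A => Conn A x y) ≤ P D (pr O p') q (fun A => Conn A x y) := by
  apply E_holley hq (adm_pr' hp0 (hpp.trans hp1)) (adm_pr' (hp0.trans hpp) hp1) _ (conn_inc D x y)
  intro e _
  unfold pr
  split_ifs
  · exact le_refl _
  · exact hpp

/-- the chain of windows, with all the inputs as hypotheses -/
theorem chain_core {d : ℕ} {N : ℕ} {j j' : Fin d} {s : ℤ} {r i M K Kn l Lmin : ℕ}
    (hs : s = 1 ∨ s = -1) (hj : j ≠ j') (hM : 16 ≤ M) (hr : M ≤ r) (hK : 1 ≤ K)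
    {q p p1 κ θ β η v ε c0 : ℝ} (hq : 1 ≤ q) (hp10 : 0 ≤ p1) (hp1p : p1 ≤ p) (hp1 : p ≤ 1)
    (hβ : 0 < β) (hβ1 : β ≤ 1 / 2) (hη : 0 ≤ η) (hv : 0 ≤ v)
    (hsep : ∀ (D O : Finset (Pt d × Pt d)) (c c' : Pt d) (a b : ℕ),
      IsLat D → O ⊆ D → Lmin ≤ a → Lmin ≤ b → a ≤ 2 * b → b ≤ 2 * a →
      lat (thick c c' (max a b)) ⊆ D →
      (∀ x ∈ thick c c' (max a b), ∀ z ∈ cube c a ∪ cube c' b,
        κ ≤ P D (pr O p1) q (fun A => Conn A x z)) →
      (∀ x ∈ cube c a ∪ cube c' b, ∀ e ∈ O, e ∉ lat (cube x l)) →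
      P D (pr O p) q (fun A => ∃ x y, ¬ Conn A x y ∧
        (1 - β) * θ * (cube c a).card ≤ (cl A (cube c a) x).card ∧
        (1 - β) * θ * (cube c' b).card ≤ (cl A (cube c' b) y).card) ≤
      Real.exp (-c0 * (min a b : ℕ)))
    (hseed : ∀ (D O : Finset (Pt d × Pt d)) (c c' : Pt d) (a b : ℕ),
      IsLat D → O ⊆ D → Lmin ≤ a → Lmin ≤ b → a ≤ 2 * b → b ≤ 2 * a →
      lat (thick c c' (max a b)) ⊆ D →
      (∀ x ∈ thick c c' (max a b), ∀ z ∈ cube c a ∪ cube c' b,
        κ ≤ P D (pr O p1) q (fun A => Conn A x z)) →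
      (∀ x ∈ cube c a, Conn O c x) → Disjoint (cube c a) (cube c' b) →
      (∀ x ∈ cube c' b, ∀ e ∈ O, e ∉ lat (cube x l)) →
      P D (pr O p) q (fun A => ∃ y, ¬ Conn A c y ∧
        (1 - β) * θ * (cube c' b).card ≤ (cl A (cube c' b) y).card) ≤
      Real.exp (-c0 * (min a b : ℕ)))
    (htop : ∀ (D : Finset (Pt d × Pt d)) (w : Pt d × Pt d → ℝ) (c x0 : Pt d) (L : ℕ)
      (β η v : ℝ), IsLat D → Adm D w → Lmin ≤ L → 0 < β → β ≤ 1 / 2 → 0 ≤ η → 0 ≤ v →
      (∀ x ∈ cube c L, ∀ e ∈ D, e ∈ lat (cube x l) → w e ≤ p) →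
      (∀ z ∈ cube c L, v ≤ P D w q (fun A => Conn A x0 z)) →
      P D w q (fun A => ¬ Dense A (cube c L) ((1 - β) * θ * (cube c L).card)) ≤ η →
      v / θ - (β + η / θ + ε) ≤
        P D w q (fun A => ∃ y, (1 - β) * θ * (cube c L).card ≤
          (cl A (cube c L) y).card ∧ Conn A x0 y))
    (hDf : ∀ L : ℕ, Lmin ≤ L → ∀ c : Pt d,
        P (lat (cube c (K * L))) (fun _ => p) q
          (fun A => ¬ Dense A (cube c L) ((1 - β) * θ * (cube c L).card)) ≤ η)
    (hKn : 1 ≤ Kn) (hTN : tq r M Kn ≤ N) (hNT : N < tq r M (Kn + 1)) (hN2 : 2 * r ≤ N)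
    (hN3 : 32 * M * r * i ≤ N)
    (hL : ∀ n, max 1 Lmin ≤ Lq r M (16 * K * M) n)
    (hrat : ∀ n, Lq r M (16 * K * M) n ≤ 2 * Lq r M (16 * K * M) (n + 1) ∧
      Lq r M (16 * K * M) (n + 1) ≤ 2 * Lq r M (16 * K * M) n)
    (hrl : 4 * M * (l + 1) ≤ r)
    (htwo : ∀ n, tq r M n ≤ N → ∀ x z : Pt d,
      x ∈ Reg N j j' s r i ((tq r M n : ℤ) - 2 * (tq r M n / M : ℕ))
      ((tq r M n : ℤ) + 2 * (tq r M n / M : ℕ)) (2 * (tq r M n / M : ℕ)) →
      z ∈ Reg N j j' s r i ((tq r M n : ℤ) - 2 * (tq r M n / M : ℕ))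
      ((tq r M n : ℤ) + 2 * (tq r M n / M : ℕ)) (2 * (tq r M n / M : ℕ)) →
      v ≤ P (DD N j j' s r i) (pr (OO N j j' s r i) p1) q (fun A => Conn A x z))
    (hκv : κ ≤ v) :
    v / θ - (β + η / θ + ε) - ∑ n ∈ Finset.Icc 1 Kn, η ^ (n + 1) -
      ∑ n ∈ Finset.range Kn, ((n : ℝ) + 1) * (n + 2) *
        Real.exp (-c0 * (min (Lq r M (16 * K * M) n) (Lq r M (16 * K * M) (n + 1)) : ℕ)) ≤
      P (DD N j j' s r i) (pr (OO N j j' s r i) p) q
        (fun A => Conn A (pos N j j' s r (16 * r * i)) 0) := by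
  have hp0 : 0 ≤ p := hp10.trans hp1p
  have hr1 : 1 ≤ r := by omega
  have hadm : Adm (DD N j j' s r i) (pr (OO N j j' s r i) p) := adm_pr' hp0 hp1
  have hN1 : 32 * r * i ≤ N := by
    have : 32 * r * i ≤ 32 * M * r * i := by
      have h1 : 32 * r ≤ 32 * M * r := by nlinarith
      exact Nat.mul_le_mul_right _ h1
    omega
  have htq_mono : ∀ n, n ≤ Kn → tq r M n ≤ N := by
    intro n hn
    exact le_trans (monotone_nat_of_le_succ (tq_le_succ r M) hn) hTN
  have hdense1 : ∀ n, 1 ≤ n → n ≤ Kn →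
      P (DD N j j' s r i) (pr (OO N j j' s r i) p) q
      (fun A => ∀ m ∈ Finset.range (n + 1), ∀ x,
        ((cl A (cube (ctr N j j' s r i M K n m) (Lq r M (16 * K * M) n)) x).card : ℝ) <
          (1 - β) * θ * (cube (ctr N j j' s r i M K n m) (Lq r M (16 * K * M) n)).card) ≤
        η ^ (n + 1) := by
    intro n _ hn
    exact win_dense hs hj hM hr hK hq hp0 hp1 (htq_mono n hn) hN1
      (le_trans (le_max_left _ _) (hL n))
      (fun c => hDf _ (le_trans (le_max_right _ _) (hL n)) c)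
  have hstep : ∀ n, 1 ≤ n → n < Kn → ∀ m ∈ Finset.range (n + 1), ∀ m' ∈ Finset.range (n + 1 + 1),
      P (DD N j j' s r i) (pr (OO N j j' s r i) p) q (fun A => ∃ x y, ¬ Conn A x y ∧
        (1 - β) * θ * (cube (ctr N j j' s r i M K n m) (Lq r M (16 * K * M) n)).card ≤
          (cl A (cube (ctr N j j' s r i M K n m) (Lq r M (16 * K * M) n)) x).card ∧
        (1 - β) * θ *
            (cube (ctr N j j' s r i M K (n + 1) m') (Lq r M (16 * K * M) (n + 1))).card ≤
          (cl A (cube (ctr N j j' s r i M K (n + 1) m') (Lq r M (16 * K * M) (n + 1))) y).card) ≤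
      Real.exp (-c0 * (min (Lq r M (16 * K * M) n) (Lq r M (16 * K * M) (n + 1)) : ℕ)) := by
    intro n hn1 hnK m hm m' hm'
    exact win_sep hs hj hM hr hK hsep hn1 (htq_mono n hnK.le) hN1 hN2 (hL n) (hL (n + 1)) (hrat n)
      hrl (Nat.lt_succ_iff.1 (Finset.mem_range.1 hm)) (Nat.lt_succ_iff.1 (Finset.mem_range.1 hm'))
      (fun x z hx hz => hκv.trans (htwo n (htq_mono n hnK.le) x z hx hz))
  have hstart : ∀ m' ∈ Finset.range (1 + 1),
      P (DD N j j' s r i) (pr (OO N j j' s r i) p) q (fun A => ∃ y,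
        ¬ Conn A (ctr0 N j j' s r i M K) y ∧
        (1 - β) * θ * (cube (ctr N j j' s r i M K 1 m') (Lq r M (16 * K * M) 1)).card ≤
          (cl A (cube (ctr N j j' s r i M K 1 m') (Lq r M (16 * K * M) 1)) y).card) ≤
      Real.exp (-c0 * (min (Lq r M (16 * K * M) 0) (Lq r M (16 * K * M) 1) : ℕ)) := by
    intro m' hm'
    exact win_sep0 hs hj hM hr hK hseed hN2 hN1 (hL 0) (hL 1) (hrat 0) hrl
      (Nat.lt_succ_iff.1 (Finset.mem_range.1 hm'))
      (fun x z hx hz => hκv.trans (htwo 0 hN2 x z hx hz))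
  have htop1 : v / θ - (β + η / θ + ε) ≤
      P (DD N j j' s r i) (pr (OO N j j' s r i) p) q (fun A => ∃ y,
        (1 - β) * θ * (cube (ctr N j j' s r i M K Kn 0) (Lq r M (16 * K * M) Kn)).card ≤
          (cl A (cube (ctr N j j' s r i M K Kn 0) (Lq r M (16 * K * M) Kn)) y).card ∧
        Conn A 0 y) := by
    refine win_top hs hj hM hr hK hp0 hp1 htop hKn hTN hNT hN1 hN3 (hL Kn) hrl hβ hβ1 hη hv ?_ ?_
    · intro x z hx hz
      exact (htwo Kn hTN x z hx hz).trans (P_conn_mono_p hq hp10 hp1p hp1 x z)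
    · -- density of the top cube: the domain dominates its free neighbourhood
      have hL1 : 1 ≤ Lq r M (16 * K * M) Kn := le_trans (le_max_left _ _) (hL Kn)
      have h1 := P_bad (Finset.range 1) hq hadm
        (fun _ => lat (cube (ctr N j j' s r i M K Kn 0) (K * Lq r M (16 * K * M) Kn)))
        (by
          intro m _
          apply win_sub hj hs hM hr Kn hTN hN1
          intro x hx
          have h := win_cube (M := M) hs hj hK hL1 (Nat.zero_le _) (le_refl _) hx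
          exact reg_mono (by have := Int.natCast_nonneg (tq r M Kn / M); omega)
            (by have := Int.natCast_nonneg (tq r M Kn / M); omega)
            (by have := Int.natCast_nonneg (tq r M Kn / M); omega) h)
        (by
          intro m hm m' hm' hmm
          rw [Finset.mem_range] at hm hm'
          omega)
        (fun _ => p) (fun m _ e _ => ⟨hp0, le_pr hp1 e⟩)
        (fun _ A => ¬ Dense A (cube (ctr N j j' s r i M K Kn 0) (Lq r M (16 * K * M) Kn))
          ((1 - β) * θ * (cube (ctr N j j' s r i M K Kn 0) (Lq r M (16 * K * M) Kn)).card))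
        (fun m _ A B hAB _ hB hA => hB (hA.mono hAB))
      have h2 : P (DD N j j' s r i) (pr (OO N j j' s r i) p) q
          (fun A => ¬ Dense A (cube (ctr N j j' s r i M K Kn 0) (Lq r M (16 * K * M) Kn))
          ((1 - β) * θ * (cube (ctr N j j' s r i M K Kn 0) (Lq r M (16 * K * M) Kn)).card)) ≤
          P (DD N j j' s r i) (pr (OO N j j' s r i) p) q
          (fun A => ∀ m ∈ Finset.range 1, ¬ Dense
            (A ∩ lat (cube (ctr N j j' s r i M K Kn 0) (K * Lq r M (16 * K * M) Kn)))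
            (cube (ctr N j j' s r i M K Kn 0) (Lq r M (16 * K * M) Kn))
          ((1 - β) * θ * (cube (ctr N j j' s r i M K Kn 0) (Lq r M (16 * K * M) Kn)).card)) := by
        apply P_mono (by linarith) hadm
        intro A _ _ _ h m _ hd
        exact h (hd.mono Finset.inter_subset_left)
      refine le_trans h2 (le_trans h1 ?_)
      rw [Finset.prod_range_one]
      exact hDf _ (le_trans (le_max_right _ _) (hL Kn)) _
  have hchain := chain_prob (ι := ℕ) (by linarith : 0 < q) hadm Kn hKn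
    (fun n => Finset.range (n + 1))
    (fun n m => cube (ctr N j j' s r i M K n m) (Lq r M (16 * K * M) n))
    (fun n m => (1 - β) * θ * (cube (ctr N j j' s r i M K n m) (Lq r M (16 * K * M) n)).card)
    (ctr0 N j j' s r i M K) 0 (fun n => η ^ (n + 1))
    (fun n => Real.exp (-c0 * (min (Lq r M (16 * K * M) n) (Lq r M (16 * K * M) (n + 1)) : ℕ)))
    (v / θ - (β + η / θ + ε)) hstart hstep hdense1 0 (Finset.mem_range.2 (Nat.succ_pos _)) htop1
  have hsum : ((Finset.range (1 + 1)).card : ℝ) *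
        Real.exp (-c0 * (min (Lq r M (16 * K * M) 0) (Lq r M (16 * K * M) (0 + 1)) : ℕ)) +
      ∑ n ∈ Finset.Ico 1 Kn, ((Finset.range (n + 1)).card : ℝ) * (Finset.range (n + 1 + 1)).card *
        Real.exp (-c0 * (min (Lq r M (16 * K * M) n) (Lq r M (16 * K * M) (n + 1)) : ℕ)) =
      ∑ n ∈ Finset.range Kn, ((n : ℝ) + 1) * (n + 2) *
        Real.exp (-c0 * (min (Lq r M (16 * K * M) n) (Lq r M (16 * K * M) (n + 1)) : ℕ)) := by
    simp only [Finset.card_range]
    have hrg : Finset.range Kn = Finset.Ico 0 Kn := Finset.range_eq_Ico Kn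
    rw [hrg, Finset.sum_eq_sum_Ico_succ_bot (show 0 < Kn by omega)]
    congr 1
    · simp only [Nat.cast_zero, zero_add]
      norm_num
    · apply Finset.sum_congr rfl
      intro n _
      push_cast
      ring
  have hfin : P (DD N j j' s r i) (pr (OO N j j' s r i) p) q
      (fun A => Conn A (ctr0 N j j' s r i M K) 0) ≤
      P (DD N j j' s r i) (pr (OO N j j' s r i) p) q
        (fun A => Conn A (pos N j j' s r (16 * r * i)) 0) := by
    apply P_mono (by linarith) hadm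
    intro A _ hO _ h
    have hOA : OO N j j' s r i ⊆ A := by
      intro e he
      apply hO e (OO_sub hs hj hr1 hN1 hN2 he)
      unfold pr
      rw [if_pos he]
    have h1 : Conn (OO N j j' s r i) (pos N j j' s r (16 * r * i)) (ctr0 N j j' s r i M K) := by
      apply conn_lat_cube
      · exact self_mem_cube _ _
      · exact cube0_sub_seed hs hj hM hK (self_mem_cube _ _)
    exact (h1.mono' hOA).trans' h
  refine le_trans ?_ hfin
  refine le_trans ?_ hchain
  rw [← hsum]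
  linarith

end FKB
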