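import Pool.Agent.FKB.ChainG
import Pool.Agent.FKB.Sep
import Pool.Agent.FKB.SepSeed
import Pool.Agent.FKB.TwoPoint

open Finset
noncomputable section
namespace FKB

theorem geom_small {η : ℝ} (h0 : 0 ≤ η) (h1 : η ≤ 1 / 16) (K : ℕ) :
    ∑ n ∈ Finset.Icc 1 K, η ^ (n + 1) ≤ η / 8 := by
  have h2 : ∀ K : ℕ, ∑ n ∈ Finset.Icc 1 K, η ^ (n + 1) ≤ (η / 8) * (1 - η ^ K) := by
    intro K
    induction K with
    | zero => simp
    | succ K ih =>
      rw [Finset.sum_Icc_succ_top (by omega)]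
      have h3 : 0 ≤ η ^ K := pow_nonneg h0 K
      have h4 : η ^ (K + 1 + 1) = η * η * η ^ K := by ring
      have h5 : η ^ (K + 1) = η * η ^ K := by ring
      rw [h4]
      rw [h5]
      nlinarith [mul_nonneg h0 h3, mul_nonneg (mul_nonneg h0 h0) h3]
  refine le_trans (h2 K) ?_
  have h3 : 0 ≤ η ^ K := pow_nonneg h0 K
  nlinarith [mul_nonneg h0 h3]

theorem chain_seed_aux {d k : ℕ} (hd : 2 ≤ d) (hk : 1 ≤ k) {p : ℝ} (hp0 : 0 < p) (hp1 : p < 1)
    (hth : 0 < th1 d p (2 * k : ℝ))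
    (hleft : ∀ s : ℝ, 0 < s → ∃ p0, 0 < p0 ∧ p0 < p ∧
      (1 - s) * th1 d p (2 * k : ℝ) ≤ th1 d p0 (2 * k : ℝ))
    {ε : ℝ} (hε : 0 < ε) (hε1 : ε ≤ 1) :
    ∃ r : ℕ, 1 ≤ r ∧ ∀ Nb : ℕ, ∃ n0 : ℕ, ∀ N : ℕ, n0 ≤ N → ∀ (j j' : Fin d) (s : ℤ), j ≠ j' →
      (s = 1 ∨ s = -1) → ∀ i, i < Nb →
      th1 d p (2 * k : ℝ) - ε ≤
        P (DD N j j' s r i) (pr (OO N j j' s r i) p) (2 * k : ℝ)
          (fun A => Conn A (pos N j j' s r (16 * r * i)) 0) := by
  have hk' : (1 : ℝ) ≤ k := by exact_mod_cast hk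
  set q : ℝ := 2 * k with hqd
  have hq : 1 ≤ q := by linarith
  set θ := th1 d p q with hθd
  have hθ1 : θ ≤ 1 := (th1_le (l := 0) hq hp0.le hp1.le).trans (th_le_one hq hp0.le hp1.le)
  -- constants
  set κ : ℝ := θ ^ 2 / 2 with hκd
  have hκ : 0 < κ := by positivity
  have hκ1 : κ ≤ 1 := by nlinarith
  set β : ℝ := min (ε / 16) (κ / 2 ^ (d + 6)) with hβd
  have hβ : 0 < β := lt_min (by positivity) (by positivity)
  have hβε : β ≤ ε / 16 := min_le_left _ _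
  have hβκ : β ≤ κ / 2 ^ (d + 6) := min_le_right _ _
  set η : ℝ := ε * θ / 16 with hηd
  have hη : 0 < η := by positivity
  have hη1 : η ≤ 1 / 16 := by
    rw [hηd]
    have : ε * θ ≤ 1 * 1 := mul_le_mul hε1 hθ1 hth.le (by norm_num)
    linarith
  have hηε : η ≤ ε / 16 := by
    rw [hηd]
    have : ε * θ ≤ ε * 1 := mul_le_mul_of_nonneg_left hθ1 hε.le
    linarith
  obtain ⟨s0, hs0, hdf⟩ := dense_free (d := d) (by omega) hβ (by linarith) hη
  set s : ℝ := min (s0 / 4) (ε / 16) with hsd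
  have hs : 0 < s := lt_min (by positivity) (by positivity)
  have hss0 : s ≤ s0 / 4 := min_le_left _ _
  have hsε : s ≤ ε / 16 := min_le_right _ _
  have hs16 : s ≤ 1 / 16 := by linarith
  obtain ⟨p0, hp00, hp0p, hp0th⟩ := hleft s hs
  set θ0 := th1 d p0 q with hθ0d
  have hθ0 : 0 < θ0 := by
    have : 0 < (1 - s) * θ := mul_pos (by linarith) hth
    linarith
  have hθ0θ : θ0 ≤ θ := th1_mono hq hp00.le hp0p.le hp1.le
  obtain ⟨l, hl⟩ := th_lt_of_pos (d := d) (p := p) (q := q) hq hp0.le hp1.le (r := (1 + s) * θ)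
    (by nlinarith)
  set θl := th d l p q with hθld
  have hθθl : θ ≤ θl := th1_le hq hp0.le hp1.le
  have hθl : 0 < θl := lt_of_lt_of_le hth hθθl
  have hθl0 : θl ≤ (1 + s0) * θ0 := by
    have h1 : (1 + s) * θ ≤ (1 + s0) * ((1 - s) * θ) := by
      have : (1 + s) ≤ (1 + s0) * (1 - s) := by nlinarith
      nlinarith
    have h2 : (1 + s0) * ((1 - s) * θ) ≤ (1 + s0) * θ0 :=
      mul_le_mul_of_nonneg_left hp0th (by linarith)
    linarith
  set p1 : ℝ := (p0 + p) / 2 with hp1d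
  have hp1a : p0 < p1 := by rw [hp1d]; linarith
  have hp1b : p1 < p := by rw [hp1d]; linarith
  have hp10 : 0 < p1 := hp00.trans hp1a
  obtain ⟨C, hC, hU⟩ := two_point (d := d) (k := k) (by omega) hk hp00 hp1a (hp1b.trans hp1) hθ0
  have hU' : ∀ n : ℕ, 1 ≤ n → ∀ x z : Pt d,
      (1 - C * dist1 x z / n) * θ0 ^ 2 ≤ fP (thick x z (2 * n + 1)) p q x z := by
    intro n hn x z
    exact (hU n hn x z).trans (fP_mono_p hq hp10.le hp1b.le hp1.le x z)
  obtain ⟨K, hK, Ld, hDf⟩ := hdf q p θ0 C l hq hp0.le hp1.le hC hθ0 (hθ0θ.trans hθθl) hθl0 hU'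
  obtain ⟨c1, hc1, L1, hsep⟩ := sep_bound (d := d) (k := k) (l := l) hd hk hp10 hp1b hp1 hκ hκ1
    hβ hβκ hθl
  obtain ⟨c2, hc2, L2, hseed⟩ := sep_seed (d := d) (k := k) (l := l) hd hk hp10 hp1b hp1 hκ hκ1
    hβ hβκ hθl
  obtain ⟨Lt, htop⟩ := top_bound (d := d) (l := l) (p := p) (q := q) (ε := ε / 4) hq hp0.le hp1.le
    (by positivity) hθl
  -- the scale ratio
  obtain ⟨M1, hM1⟩ := exists_nat_ge (128 * C * d / s)
  set M : ℕ := max M1 16 with hMd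
  have hM : 16 ≤ M := le_max_right _ _
  have hMs : 128 * C * d / M ≤ s := by
    have h1 : (M1 : ℝ) ≤ M := by exact_mod_cast le_max_left _ _
    have hMpos : (0 : ℝ) < M := by
      have : 0 < M := by omega
      exact_mod_cast this
    rw [div_le_iff₀ hMpos]
    have h2 : 128 * C * d / s ≤ M := hM1.trans h1
    rw [div_le_iff₀ hs] at h2
    linarith
  set c0 : ℝ := min c1 c2 with hc0d
  have hc0 : 0 < c0 := lt_min hc1 hc2
  set Lmin : ℕ := max (max Ld L1) (max L2 Lt) with hLmind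
  have hMK : 1 ≤ 16 * K * M := by
    have : 0 < 16 * K * M := by positivity
    omega
  obtain ⟨r1, hr1⟩ := Lq_large (M := M) (M' := 16 * K * M) (by omega) hMK (max 1 Lmin)
  obtain ⟨r2, hr2⟩ := Lq_ratio (M := M) (M' := 16 * K * M) (by omega) hMK
  obtain ⟨r3, hr3⟩ := sum_small (M := M) (M' := 16 * K * M) (by omega) hMK hc0
    (show 0 < ε / 8 by positivity)
  set r : ℕ := max (max r1 r2) (max r3 (4 * M * (l + 1))) with hrd
  have hrr1 : r1 ≤ r := (le_max_left _ _).trans (le_max_left _ _)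
  have hrr2 : r2 ≤ r := (le_max_right _ _).trans (le_max_left _ _)
  have hrr3 : r3 ≤ r := (le_max_left _ _).trans (le_max_right _ _)
  have hrl : 4 * M * (l + 1) ≤ r := (le_max_right _ _).trans (le_max_right _ _)
  have hr : M ≤ r := by
    have : M ≤ 4 * M * (l + 1) := by nlinarith [Nat.zero_le (M * l)]
    omega
  refine ⟨r, by omega, fun Nb => ⟨32 * M * r * Nb + 4 * r, ?_⟩⟩
  intro N hN j j' sg hj hsg i hi
  have hN4 : 4 * r ≤ N := by omega
  have hN3 : 32 * M * r * i ≤ N := by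
    have : 32 * M * r * i ≤ 32 * M * r * Nb := Nat.mul_le_mul_left _ hi.le
    omega
  have hN1 : 32 * r * i ≤ N := by
    have : 32 * r * i ≤ 32 * M * r * i := by
      have h1 : 32 * r ≤ 32 * M * r := by nlinarith
      exact Nat.mul_le_mul_right _ h1
    omega
  obtain ⟨Kn, hKn, hTN, hNT⟩ := tq_reach (M := M) (by omega) hr hN4
  set v : ℝ := (1 - s) * θ0 ^ 2 with hvd
  have hv : 0 ≤ v := mul_nonneg (by linarith) (sq_nonneg _)
  have hθ0sq : (1 - s) ^ 2 * θ ^ 2 ≤ θ0 ^ 2 := by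
    have : ((1 - s) * θ) ^ 2 ≤ θ0 ^ 2 := by
      apply pow_le_pow_left₀ (mul_nonneg (by linarith) hth.le) hp0th
    linarith [mul_pow (1 - s) θ 2]
  have hv1 : (1 - 4 * s) * θ * θl ≤ v := by
    -- (1-s)^3 θ² ≥ (1-4s)(1+s) θ²
    have h1 : (1 - s) * ((1 - s) ^ 2 * θ ^ 2) ≤ v :=
      mul_le_mul_of_nonneg_left hθ0sq (by linarith)
    have h2 : (1 - 4 * s) * θ * θl ≤ (1 - 4 * s) * θ * ((1 + s) * θ) := by
      apply mul_le_mul_of_nonneg_left hl.le
      apply mul_nonneg (by linarith) hth.le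
    have h3 : (1 - 4 * s) * (1 + s) ≤ (1 - s) * (1 - s) ^ 2 := by
      nlinarith [mul_nonneg hs.le hs.le, mul_nonneg (mul_nonneg hs.le hs.le) (show 0 ≤ 1 - s by linarith)]
    have h4 : (1 - 4 * s) * θ * ((1 + s) * θ) = ((1 - 4 * s) * (1 + s)) * θ ^ 2 := by ring
    have h5 : (1 - s) * ((1 - s) ^ 2 * θ ^ 2) = ((1 - s) * (1 - s) ^ 2) * θ ^ 2 := by ring
    have h6 : ((1 - 4 * s) * (1 + s)) * θ ^ 2 ≤ ((1 - s) * (1 - s) ^ 2) * θ ^ 2 :=
      mul_le_mul_of_nonneg_right h3 (sq_nonneg _)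
    linarith
  have hκv : κ ≤ v := by
    have h1 : (1 - s) * ((1 - s) ^ 2 * θ ^ 2) ≤ v :=
      mul_le_mul_of_nonneg_left hθ0sq (by linarith)
    have h2 : (1 : ℝ) / 2 ≤ (1 - s) * (1 - s) ^ 2 := by
      have h3 : (15 : ℝ) / 16 ≤ 1 - s := by linarith
      have h4 : ((15 : ℝ) / 16) ^ 2 ≤ (1 - s) ^ 2 := pow_le_pow_left₀ (by norm_num) h3 2
      have h5 : ((15 : ℝ) / 16) * ((15 : ℝ) / 16) ^ 2 ≤ (1 - s) * (1 - s) ^ 2 :=
        mul_le_mul h3 h4 (by positivity) (by linarith)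
      norm_num at h5
      linarith
    have h6 : 1 / 2 * θ ^ 2 ≤ ((1 - s) * (1 - s) ^ 2) * θ ^ 2 :=
      mul_le_mul_of_nonneg_right h2 (sq_nonneg _)
    have h7 : (1 - s) * ((1 - s) ^ 2 * θ ^ 2) = ((1 - s) * (1 - s) ^ 2) * θ ^ 2 := by ring
    rw [hκd]
    linarith
  have hexp : ∀ {c a : ℝ}, c0 ≤ c → 0 ≤ a → Real.exp (-c * a) ≤ Real.exp (-c0 * a) := by
    intro c a hc ha
    apply Real.exp_le_exp.2
    nlinarith
  have hmain := chain_core (N := N) (j := j) (j' := j') (s := sg) (r := r) (i := i) (M := M)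
    (K := K) (Kn := Kn) (l := l) (Lmin := Lmin) hsg hj hM hr hK (q := q) (p := p) (p1 := p1)
    (κ := κ) (θ := θl) (β := β) (η := η) (v := v) (ε := ε / 4) (c0 := c0) hq hp10.le hp1b.le
    hp1.le hβ (by linarith) hη.le hv
    (by
      intro D O c c' a b h1 h2 h3 h4 h5 h6 h7 h8 h9
      have hL : L1 ≤ Lmin := (le_max_right _ _).trans (le_max_left _ _)
      refine (hsep D O c c' a b h1 h2 (hL.trans h3) (hL.trans h4) h5 h6 h7 h8 h9).trans ?_
      exact hexp (min_le_left _ _) (Nat.cast_nonneg _))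
    (by
      intro D O c c' a b h1 h2 h3 h4 h5 h6 h7 h8 h9 h10 h11
      have hL : L2 ≤ Lmin := (le_max_left _ _).trans (le_max_right _ _)
      refine (hseed D O c c' a b h1 h2 (hL.trans h3) (hL.trans h4) h5 h6 h7 h8 h9 h10 h11).trans ?_
      exact hexp (min_le_right _ _) (Nat.cast_nonneg _))
    (by
      intro D w c x0 L β' η' v' h1 h2 h3 h4 h5 h6 h7 h8 h9 h10
      have hL : Lt ≤ Lmin := (le_max_right _ _).trans (le_max_right _ _)
      exact htop D w c x0 L β' η' v' h1 h2 (hL.trans h3) h4 h5 h6 h7 h8 h9 h10)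
    (by
      intro L hL c
      have hL' : Ld ≤ Lmin := (le_max_left _ _).trans (le_max_left _ _)
      exact hDf L (hL'.trans hL) c)
    hKn hTN hNT (by omega) hN3 (fun n => hr1 r hrr1 n) (fun n => hr2 r hrr2 n) hrl
    (by
      intro n hn x z hx hz
      have h1 := win_two hq hp10.le (hp1b.trans hp1).le hC hU hj hsg hM hr n hn hN1 hx hz
      refine le_trans ?_ h1
      apply mul_le_mul_of_nonneg_right _ (sq_nonneg _)
      linarith)
    hκv
  refine le_trans ?_ hmain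
  have e1 := geom_small hη.le hη1 Kn
  have e2 := hr3 r hrr3 Kn
  have e3 : θ - ε / 4 ≤ v / θl := by
    rw [le_div_iff₀ hθl]
    have h1 : (θ - ε / 4) * θl ≤ (1 - 4 * s) * θ * θl := by
      apply mul_le_mul_of_nonneg_right _ hθl.le
      have : 4 * s * θ ≤ ε / 4 := by
        have : 4 * s * θ ≤ 4 * s * 1 := mul_le_mul_of_nonneg_left hθ1 (by linarith)
        linarith
      nlinarith
    linarith
  have e4 : η / θl ≤ ε / 16 := by
    rw [div_le_iff₀ hθl, hηd]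
    have : ε * θ ≤ ε * θl := mul_le_mul_of_nonneg_left hθθl hε.le
    linarith
  linarith

theorem chain_seed {d k : ℕ} (hd : 2 ≤ d) (hk : 1 ≤ k) {p : ℝ} (hp0 : 0 < p) (hp1 : p < 1)
    (hth : 0 < th1 d p (2 * k : ℝ))
    (hleft : ∀ s : ℝ, 0 < s → ∃ p0, 0 < p0 ∧ p0 < p ∧
      (1 - s) * th1 d p (2 * k : ℝ) ≤ th1 d p0 (2 * k : ℝ))
    {ε : ℝ} (hε : 0 < ε) :
    ∃ r : ℕ, 1 ≤ r ∧ ∀ Nb : ℕ, ∃ n0 : ℕ, ∀ N : ℕ, n0 ≤ N → ∀ (j j' : Fin d) (s : ℤ), j ≠ j' →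
      (s = 1 ∨ s = -1) → ∀ i, i < Nb →
      th1 d p (2 * k : ℝ) - ε ≤
        P (DD N j j' s r i) (pr (OO N j j' s r i) p) (2 * k : ℝ)
          (fun A => Conn A (pos N j j' s r (16 * r * i)) 0) := by
  obtain ⟨r, hr, h⟩ := chain_seed_aux hd hk hp0 hp1 hth hleft (lt_min hε one_pos)
    (min_le_right ε 1)
  refine ⟨r, hr, fun Nb => ?_⟩
  obtain ⟨n0, hn0⟩ := h Nb
  refine ⟨n0, fun N hN j j' s hj hs i hi => ?_⟩
  refine le_trans ?_ (hn0 N hN j j' s hj hs i hi)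
  have := min_le_left ε 1
  linarith

end FKB
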