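import Pool.Agent.FKB.Clus

open Finset
noncomputable section
namespace FKB

variable {V : Type*} [DecidableEq V]

/-- `cosh (u + v) ≤ exp u * cosh v` for `u ≥ 0`. -/
theorem cosh_add_le {u v : ℝ} (hu : 0 ≤ u) : Real.cosh (u + v) ≤ Real.exp u * Real.cosh v := by
  rw [Real.cosh_eq, Real.cosh_eq]
  have h1 : Real.exp (u + v) = Real.exp u * Real.exp v := Real.exp_add _ _
  have h2 : Real.exp (-(u + v)) = Real.exp (-u) * Real.exp (-v) := by
    rw [neg_add, Real.exp_add]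
  have h3 : Real.exp (-u) ≤ Real.exp u := Real.exp_le_exp.2 (by linarith)
  have h4 : Real.exp (-u) * Real.exp (-v) ≤ Real.exp u * Real.exp (-v) :=
    mul_le_mul_of_nonneg_right h3 (Real.exp_pos _).le
  rw [h1, h2]
  nlinarith

theorem cosh_one (C Y : Finset V) (h : V → ℝ) (h0 : ∀ x ∈ C, 0 ≤ h x) (N : ℕ)
    (hN : ∀ x ∈ C, x ∈ Y → C.card ≤ N) :
    Real.cosh (∑ x ∈ C, h x) ≤
      Real.exp (∑ x ∈ C, if x ∈ Y then (N : ℝ) / 2 * (h x) ^ 2 else h x) := by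
  have hs : ∑ x ∈ C, h x = ∑ x ∈ C with ¬ x ∈ Y, h x + ∑ x ∈ C with x ∈ Y, h x := by
    rw [add_comm]; exact (Finset.sum_filter_add_sum_filter_not C (fun x => x ∈ Y) h).symm
  have hs2 : ∑ x ∈ C, (if x ∈ Y then (N : ℝ) / 2 * (h x) ^ 2 else h x) =
      ∑ x ∈ C with ¬ x ∈ Y, h x + (N : ℝ) / 2 * ∑ x ∈ C with x ∈ Y, (h x) ^ 2 := by
    rw [Finset.sum_ite, Finset.mul_sum, add_comm]
  rw [hs, hs2]
  have hu : 0 ≤ ∑ x ∈ C with ¬ x ∈ Y, h x :=
    Finset.sum_nonneg (fun x hx => h0 x (Finset.mem_filter.1 hx).1)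
  refine (cosh_add_le hu).trans ?_
  rw [Real.exp_add]
  refine mul_le_mul_of_nonneg_left ?_ (Real.exp_pos _).le
  refine (Real.cosh_le_exp_half_sq _).trans (Real.exp_le_exp.2 ?_)
  have h1 : (∑ x ∈ C with x ∈ Y, h x) ^ 2 ≤
      ((C.filter (fun x => x ∈ Y)).card : ℝ) * ∑ x ∈ C with x ∈ Y, (h x) ^ 2 :=
    sq_sum_le_card_mul_sum_sq
  have h2 : ((C.filter (fun x => x ∈ Y)).card : ℝ) * ∑ x ∈ C with x ∈ Y, (h x) ^ 2 ≤
      (N : ℝ) * ∑ x ∈ C with x ∈ Y, (h x) ^ 2 := by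
    rcases (C.filter (fun x => x ∈ Y)).eq_empty_or_nonempty with he | ⟨x, hx⟩
    · rw [he]; simp
    · refine mul_le_mul_of_nonneg_right ?_ (Finset.sum_nonneg (fun x _ => sq_nonneg _))
      have hx' := Finset.mem_filter.1 hx
      exact_mod_cast (Finset.card_filter_le C _).trans (hN x hx'.1 hx'.2)
  linarith

theorem cosh_upper {A : Finset (V × V)} {S Y : Finset V} (hYS : Y ⊆ S) (h : V → ℝ)
    (h0 : ∀ x ∈ S, 0 ≤ h x) (N : ℕ) (hN : ∀ x ∈ Y, (cl A S x).card ≤ N) :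
    ∏ C ∈ clusters A S, Real.cosh (∑ x ∈ C, h x) ≤
      Real.exp (∑ x ∈ S \ Y, h x + N / 2 * ∑ x ∈ Y, (h x) ^ 2) := by
  classical
  have hC : ∀ C ∈ clusters A S, C ⊆ S := by
    intro C hC x hx
    rw [← biUnion_clusters A S]
    exact Finset.mem_biUnion.2 ⟨C, hC, hx⟩
  have h1 : ∏ C ∈ clusters A S, Real.cosh (∑ x ∈ C, h x) ≤
      ∏ C ∈ clusters A S,
        Real.exp (∑ x ∈ C, if x ∈ Y then (N : ℝ) / 2 * (h x) ^ 2 else h x) := by
    refine Finset.prod_le_prod (fun C _ => (Real.cosh_pos _).le) (fun C hCm => ?_)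
    refine cosh_one C Y h (fun x hx => h0 x (hC C hCm hx)) N (fun x hx hxY => ?_)
    have hcl : C = cl A S x := by
      by_contra hne
      have hd := mem_clusters_disj hCm (self_mem_clusters (hC C hCm hx)) hne
      exact (Finset.disjoint_left.1 hd) hx (mem_cl.2 ⟨hC C hCm hx, Conn.rfl' A x⟩)
    rw [hcl]
    exact hN x hxY
  refine h1.trans ?_
  rw [← Real.exp_sum, sum_clusters A S (fun x => if x ∈ Y then (N : ℝ) / 2 * (h x) ^ 2 else h x)]
  refine Real.exp_le_exp.2 (le_of_eq ?_)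
  rw [← Finset.sum_sdiff hYS, Finset.mul_sum]
  congr 1
  · refine Finset.sum_congr rfl (fun x hx => ?_)
    rw [if_neg (Finset.mem_sdiff.1 hx).2]
  · refine Finset.sum_congr rfl (fun x hx => ?_)
    rw [if_pos hx]

theorem cosh_ge_half_exp (u : ℝ) : 1 / 2 * Real.exp u ≤ Real.cosh u := by
  rw [Real.cosh_eq]
  have := Real.exp_pos (-u)
  linarith

theorem cosh_lower {A : Finset (V × V)} {S : Finset V} (h : V → ℝ) {x y : V}
    (hx : x ∈ S) (hy : y ∈ S) (hxy : ¬ Conn A x y) :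
    1 / 4 * Real.exp (∑ z ∈ cl A S x, h z - ∑ z ∈ cl A S y, h z) ≤
      ∏ C ∈ clusters A S, Real.cosh (∑ z ∈ C, h z) := by
  classical
  have hne : cl A S x ≠ cl A S y := fun he => hxy ((cl_eq_iff hx).1 he)
  have hsub : ({cl A S x, cl A S y} : Finset (Finset V)) ⊆ clusters A S := by
    intro C hC
    rcases Finset.mem_insert.1 hC with rfl | hC
    · exact self_mem_clusters hx
    · rw [Finset.mem_singleton.1 hC]; exact self_mem_clusters hy
  have h1 : ∏ C ∈ ({cl A S x, cl A S y} : Finset (Finset V)), Real.cosh (∑ z ∈ C, h z) ≤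
      ∏ C ∈ clusters A S, Real.cosh (∑ z ∈ C, h z) := by
    rw [← Finset.prod_sdiff hsub]
    refine le_mul_of_one_le_left (Finset.prod_nonneg (fun C _ => (Real.cosh_pos _).le)) ?_
    exact Finset.one_le_prod (fun C _ => Real.one_le_cosh _)
  refine le_trans ?_ h1
  rw [Finset.prod_pair hne, sub_eq_add_neg, Real.exp_add]
  have a1 := cosh_ge_half_exp (∑ z ∈ cl A S x, h z)
  have a2 : 1 / 2 * Real.exp (-∑ z ∈ cl A S y, h z) ≤ Real.cosh (∑ z ∈ cl A S y, h z) := by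
    rw [← Real.cosh_neg]; exact cosh_ge_half_exp _
  have p1 := Real.exp_pos (∑ z ∈ cl A S x, h z)
  have p2 := Real.exp_pos (-∑ z ∈ cl A S y, h z)
  calc 1 / 4 * (Real.exp (∑ z ∈ cl A S x, h z) * Real.exp (-∑ z ∈ cl A S y, h z))
      = (1 / 2 * Real.exp (∑ z ∈ cl A S x, h z)) *
          (1 / 2 * Real.exp (-∑ z ∈ cl A S y, h z)) := by ring
    _ ≤ _ := mul_le_mul a1 a2 (by positivity) (Real.cosh_pos _).le

end FKB
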