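import Mathlib

/-!
Definitions for the finite random-cluster model (FK) used for MP_0110bf_pr.
Vertices: a type `V`; edges: ordered pairs `V × V` (a finite set `D` of pairs is the edge set).
-/

open Finset

noncomputable section

namespace FKB

/-- Indicator of a proposition. -/
def ind (p : Prop) : ℝ := by
  classical exact if p then 1 else 0

section Abstract

variable {V : Type*}

/-- `x` and `y` are joined by a path of edges of `A`. -/
def Conn (A : Finset (V × V)) : V → V → Prop := Relation.EqvGen (fun u v => (u, v) ∈ A)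

/-- The rank of `A` (number of vertices minus number of clusters). -/
def rk (A : Finset (V × V)) : ℕ :=
  Module.finrank ℚ (Submodule.span ℚ
    ((fun e : V × V => (Finsupp.single e.1 (1 : ℚ) - Finsupp.single e.2 1 : V →₀ ℚ)) ''
      (A : Set (V × V))))

/-- The vertices of `Q` joined to `x`. -/
def cl (A : Finset (V × V)) (Q : Finset V) (x : V) : Finset V := by
  classical exact Q.filter (fun y => Conn A x y)

/-- `w` is an admissible family of edge parameters on `D`. -/
def Adm (D : Finset (V × V)) (w : V × V → ℝ) : Prop := ∀ e ∈ D, 0 ≤ w e ∧ w e ≤ 1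

/-- All endpoints of edges of `D` are in `S`. -/
def Verts (D : Finset (V × V)) (S : Finset V) : Prop := ∀ e ∈ D, e.1 ∈ S ∧ e.2 ∈ S

/-- `F` is increasing on the subsets of `D`. -/
def Inc (D : Finset (V × V)) (F : Finset (V × V) → ℝ) : Prop :=
  ∀ A B : Finset (V × V), A ⊆ B → B ⊆ D → F A ≤ F B

/-- `s` (the set of minus spins) is constant on the edges of `A`. -/
def Compat (A : Finset (V × V)) (s : Finset V) : Prop := ∀ e ∈ A, (e.1 ∈ s ↔ e.2 ∈ s)

/-- The sign of `x` when `s` is the set of minus spins. -/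
def sgn (s : Finset V) (x : V) : ℝ := 1 - 2 * ind (x ∈ s)

variable [DecidableEq V]

/-- Random-cluster weight of `A ⊆ D`: edge parameters `w`, cluster weight `q`. -/
def wt (D : Finset (V × V)) (w : V × V → ℝ) (q : ℝ) (A : Finset (V × V)) : ℝ :=
  (∏ e ∈ A, w e) * (∏ e ∈ D \ A, (1 - w e)) * (q⁻¹) ^ rk A

/-- Partition function. -/
def Z (D : Finset (V × V)) (w : V × V → ℝ) (q : ℝ) : ℝ := ∑ A ∈ D.powerset, wt D w q A

/-- Expectation in the random-cluster model. -/
def E (D : Finset (V × V)) (w : V × V → ℝ) (q : ℝ) (F : Finset (V × V) → ℝ) : ℝ :=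
  (∑ A ∈ D.powerset, wt D w q A * F A) / Z D w q

/-- Probability in the random-cluster model. -/
def P (D : Finset (V × V)) (w : V × V → ℝ) (q : ℝ) (S : Finset (V × V) → Prop) : ℝ :=
  E D w q (fun A => ind (S A))

/-- Edge parameters: `1` on `O` (forced open), `p` elsewhere. -/
def pr (O : Finset (V × V)) (p : ℝ) : V × V → ℝ := fun e => if e ∈ O then 1 else p

/-- Edge parameters: `w` on `D1`, and the configuration `B` off `D1`. -/
def pin (w : V × V → ℝ) (D1 B : Finset (V × V)) : V × V → ℝ :=
  fun e => if e ∈ D1 then w e else if e ∈ B then 1 else 0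

/-- Joint weight of a configuration `A` and a set `s` of minus spins, with field `h` on `S`. -/
def jw (D : Finset (V × V)) (w : V × V → ℝ) (q : ℝ) (S : Finset V) (h : V → ℝ)
    (A : Finset (V × V)) (s : Finset V) : ℝ :=
  wt D w q A * (2 ^ rk A * (1 / 2) ^ S.card) *
    (ind (Compat A s) * Real.exp (∑ x ∈ S, h x * sgn s x))

/-- Joint sum of `φ`. -/
def jsum (D : Finset (V × V)) (w : V × V → ℝ) (q : ℝ) (S : Finset V) (h : V → ℝ)
    (φ : Finset (V × V) → Finset V → ℝ) : ℝ :=
  ∑ A ∈ D.powerset, ∑ s ∈ S.powerset, jw D w q S h A s * φ A s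

/-- Joint partition function. -/
def JZ (D : Finset (V × V)) (w : V × V → ℝ) (q : ℝ) (S : Finset V) (h : V → ℝ) : ℝ :=
  jsum D w q S h (fun _ _ => 1)

/-- Joint expectation. -/
def JE (D : Finset (V × V)) (w : V × V → ℝ) (q : ℝ) (S : Finset V) (h : V → ℝ)
    (φ : Finset (V × V) → Finset V → ℝ) : ℝ :=
  jsum D w q S h φ / JZ D w q S h

/-- The set of clusters of `A` in `S`. -/
def clusters (A : Finset (V × V)) (S : Finset V) : Finset (Finset V) := S.image (cl A S)

end Abstract

section Lattice

/-- Points of the lattice. -/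
abbrev Pt (d : ℕ) := Fin d → ℤ

variable {d : ℕ}

/-- The cube of radius `n` around `c`. -/
def cube (c : Pt d) (n : ℕ) : Finset (Pt d) :=
  Finset.Icc (fun i => c i - (n : ℤ)) (fun i => c i + (n : ℤ))

/-- The box spanned by `x` and `z`, thickened by `m`. -/
def thick (x z : Pt d) (m : ℕ) : Finset (Pt d) :=
  Finset.Icc (fun i => min (x i) (z i) - (m : ℤ)) (fun i => max (x i) (z i) + (m : ℤ))

/-- The `ℓ¹` distance. -/
def dist1 (x z : Pt d) : ℤ := ∑ i, |x i - z i|

/-- The lattice edges with both endpoints in `R`, each represented as `(x, x + e_i)`. -/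
def lat (R : Finset (Pt d)) : Finset (Pt d × Pt d) :=
  (R ×ˢ R).filter (fun e => ∃ i, e.2 = e.1 + Pi.single i 1)

/-- The inner vertex boundary of `H`. -/
def bd (H : Finset (Pt d)) : Finset (Pt d) :=
  H.filter (fun x => ∃ i, x + Pi.single i 1 ∉ H ∨ x - Pi.single i 1 ∉ H)

/-- Edge set of the wired model in `H`: lattice edges of `H` and all pairs of boundary points. -/
def wD (H : Finset (Pt d)) : Finset (Pt d × Pt d) := lat H ∪ bd H ×ˢ bd H

/-- The forced open pairs of the wired model in `H`. -/
def wO (H : Finset (Pt d)) : Finset (Pt d × Pt d) := bd H ×ˢ bd H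

/-- All edges of `D` are lattice edges. -/
def IsLat (D : Finset (Pt d × Pt d)) : Prop := ∀ e ∈ D, ∃ i, e.2 = e.1 + Pi.single i 1

/-- `x` is joined to the boundary of its cube of radius `l`, inside that cube. -/
def Far (l : ℕ) (A : Finset (Pt d × Pt d)) (x : Pt d) : Prop :=
  ∃ y ∈ bd (cube x l), Conn (A ∩ lat (cube x l)) x y

/-- The number of points of `T` that are `Far`. -/
def nFar (l : ℕ) (A : Finset (Pt d × Pt d)) (T : Finset (Pt d)) : ℕ := by
  classical exact (T.filter (fun x => Far l A x)).card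

/-- Free box connection probability. -/
def fP (H : Finset (Pt d)) (p q : ℝ) (x y : Pt d) : ℝ :=
  P (lat H) (fun _ => p) q (fun A => Conn A x y)

/-- Wired box connection probability. -/
def wP (H : Finset (Pt d)) (p q : ℝ) (x y : Pt d) : ℝ :=
  P (wD H) (pr (wO H) p) q (fun A => Conn A x y)

/-- Wired one-arm probability in the cube of radius `l`. -/
def th (d l : ℕ) (p q : ℝ) : ℝ :=
  P (wD (cube (0 : Pt d) l)) (pr (wO (cube (0 : Pt d) l)) p) q (fun A => Far l A 0)

/-- The wired density (limit of `th`). -/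
def th1 (d : ℕ) (p q : ℝ) : ℝ := ⨅ l : ℕ, th d l p q

/-- Free arm probability: in the cube of radius `m`, the origin is joined to the boundary of
the cube of radius `n`. -/
def fth (d m n : ℕ) (p q : ℝ) : ℝ :=
  P (lat (cube (0 : Pt d) m)) (fun _ => p) q (fun A => Far n A 0)

/-- The free density. -/
def th0 (d : ℕ) (p q : ℝ) : ℝ := ⨅ n : ℕ, ⨆ m : ℕ, fth d m n p q

end Lattice

end FKB
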