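import Pool.Agent.FKB.Joint

open Finset
noncomputable section
namespace FKB

variable {V : Type*} [DecidableEq V]

theorem Deriv_pow {x : ℝ} (hx : x ≠ 0) (i : ℕ) :
    HasDerivAt (fun u : ℝ => u ^ i) (x ^ i * (i / x)) x := by
  have h := hasDerivAt_pow i x
  rcases i with _ | i
  · simpa using h
  · refine h.congr_deriv ?_
    rw [Nat.add_sub_cancel, pow_succ]
    field_simp

theorem Deriv_wt_eq {D O A : Finset (V × V)} (hOA : O ⊆ A) (p q : ℝ) :
    wt D (pr O p) q A = p ^ (A \ O).card * (1 - p) ^ (D \ A).card * (q⁻¹) ^ rk A := by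
  unfold wt
  have h1 : ∏ e ∈ A, pr O p e = p ^ (A \ O).card := by
    rw [← Finset.prod_sdiff hOA]
    have h2 : ∏ e ∈ O, pr O p e = 1 := by
      refine Finset.prod_eq_one fun e he => ?_
      rw [pr, if_pos he]
    rw [h2, mul_one, ← Finset.prod_const]
    refine Finset.prod_congr rfl fun e he => ?_
    rw [pr, if_neg (Finset.mem_sdiff.1 he).2]
  have h3 : ∏ e ∈ D \ A, (1 - pr O p e) = (1 - p) ^ (D \ A).card := by
    rw [← Finset.prod_const]
    refine Finset.prod_congr rfl fun e he => ?_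
    rw [pr, if_neg (fun h => (Finset.mem_sdiff.1 he).2 (hOA h))]
  rw [h1, h3]

theorem Deriv_wt_zero {D O A : Finset (V × V)} (hO : O ⊆ D) (hOA : ¬ O ⊆ A) (p q : ℝ) :
    wt D (pr O p) q A = 0 := by
  unfold wt
  obtain ⟨e, he, heA⟩ := Finset.not_subset.1 hOA
  rw [Finset.prod_eq_zero (Finset.mem_sdiff.2 ⟨hO he, heA⟩), mul_zero, zero_mul]
  rw [pr, if_pos he, sub_self]

theorem Deriv_wt {D O A : Finset (V × V)} (hO : O ⊆ D) (hA : A ⊆ D) (q p1 t : ℝ)
    (h1 : 0 < p1 + t) (h2 : p1 + t < 1) :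
    HasDerivAt (fun u : ℝ => wt D (pr O (p1 + u)) q A)
      (wt D (pr O (p1 + t)) q A * ((((A \ O).card : ℝ) - (p1 + t) * ((D \ O).card : ℝ)) /
        ((p1 + t) * (1 - (p1 + t))))) t := by
  by_cases hOA : O ⊆ A
  · have hf : (fun u : ℝ => wt D (pr O (p1 + u)) q A) = fun u =>
        (p1 + u) ^ (A \ O).card * (1 - (p1 + u)) ^ (D \ A).card * (q⁻¹) ^ rk A := by
      funext u
      exact Deriv_wt_eq hOA _ _
    rw [hf, Deriv_wt_eq hOA]
    have ha : HasDerivAt (fun u : ℝ => p1 + u) 1 t := (hasDerivAt_id t).const_add p1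
    have hb : HasDerivAt (fun u : ℝ => 1 - (p1 + u)) (-1) t := ha.const_sub 1
    have hc : HasDerivAt (fun u : ℝ => (p1 + u) ^ (A \ O).card)
        ((p1 + t) ^ (A \ O).card * ((A \ O).card / (p1 + t)) * 1) t :=
      (Deriv_pow h1.ne' _).comp t ha
    have hd : HasDerivAt (fun u : ℝ => (1 - (p1 + u)) ^ (D \ A).card)
        ((1 - (p1 + t)) ^ (D \ A).card * ((D \ A).card / (1 - (p1 + t))) * (-1)) t :=
      (Deriv_pow (x := 1 - (p1 + t)) (by linarith) _).comp t hb
    have he := (hc.mul hd).mul_const ((q⁻¹) ^ rk A)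
    refine he.congr_deriv ?_
    have hcard : ((D \ A).card : ℝ) = ((D \ O).card : ℝ) - ((A \ O).card : ℝ) := by
      have e1 : D \ O = (D \ A) ∪ (A \ O) := by
        ext e
        simp only [Finset.mem_sdiff, Finset.mem_union]
        constructor
        · rintro ⟨a, b⟩
          by_cases c : e ∈ A
          · exact Or.inr ⟨c, b⟩
          · exact Or.inl ⟨a, c⟩
        · rintro (⟨a, b⟩ | ⟨a, b⟩)
          · exact ⟨a, fun h => b (hOA h)⟩
          · exact ⟨hA a, b⟩
      have e2 : Disjoint (D \ A) (A \ O) := by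
        rw [Finset.disjoint_left]
        intro e he he'
        exact (Finset.mem_sdiff.1 he).2 (Finset.mem_sdiff.1 he').1
      rw [e1, Finset.card_union_of_disjoint e2]
      push_cast
      ring
    rw [hcard]
    have hp : p1 + t ≠ 0 := h1.ne'
    have hp' : 1 - (p1 + t) ≠ 0 := by linarith
    field_simp
    ring
  · have hf : (fun u : ℝ => wt D (pr O (p1 + u)) q A) = fun _ => 0 := by
      funext u
      exact Deriv_wt_zero hO hOA _ _
    rw [hf, Deriv_wt_zero hO hOA, zero_mul]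
    exact hasDerivAt_const t 0

theorem Deriv_jw {D O A : Finset (V × V)} (hO : O ⊆ D) (hA : A ⊆ D) (q : ℝ) (S s : Finset V)
    (h0 : V → ℝ) (p1 lam t : ℝ) (h1 : 0 < p1 + t) (h2 : p1 + t < 1) :
    HasDerivAt (fun u : ℝ => jw D (pr O (p1 + u)) q S (fun x => lam * u * h0 x) A s)
      (jw D (pr O (p1 + t)) q S (fun x => lam * t * h0 x) A s *
        ((((A \ O).card : ℝ) - (p1 + t) * ((D \ O).card : ℝ)) / ((p1 + t) * (1 - (p1 + t))) +
          lam * ∑ x ∈ S, h0 x * sgn s x)) t := by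
  have ha := Deriv_wt hO hA q p1 t h1 h2
  have hb : HasDerivAt (fun u : ℝ => ∑ x ∈ S, lam * u * h0 x * sgn s x)
      (lam * ∑ x ∈ S, h0 x * sgn s x) t := by
    have e1 : (fun u : ℝ => ∑ x ∈ S, lam * u * h0 x * sgn s x) =
        fun u => (lam * ∑ x ∈ S, h0 x * sgn s x) * u := by
      funext u
      rw [Finset.mul_sum, Finset.sum_mul]
      refine Finset.sum_congr rfl fun x _ => ?_
      ring
    rw [e1]
    simpa using (hasDerivAt_id t).const_mul (lam * ∑ x ∈ S, h0 x * sgn s x)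
  have hc := hb.exp
  have hd := (ha.mul_const (2 ^ rk A * (1 / 2) ^ S.card)).mul
    (hc.const_mul (ind (Compat A s)))
  refine (hd.congr_deriv ?_)
  unfold jw
  ring

theorem deriv_logJZ {D O : Finset (V × V)} (hO : O ⊆ D) {q : ℝ} (hq : 0 < q) {S : Finset V}
    (hS : Verts D S) (h0 : V → ℝ) (p1 lam t : ℝ) (h1 : 0 < p1 + t) (h2 : p1 + t < 1) :
    HasDerivAt (fun u : ℝ => Real.log (JZ D (pr O (p1 + u)) q S (fun x => lam * u * h0 x)))
      ((JE D (pr O (p1 + t)) q S (fun x => lam * t * h0 x) (fun A _ => ((A \ O).card : ℝ)) -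
          (p1 + t) * ((D \ O).card : ℝ)) / ((p1 + t) * (1 - (p1 + t))) +
        lam * JE D (pr O (p1 + t)) q S (fun x => lam * t * h0 x)
          (fun _ s => ∑ x ∈ S, h0 x * sgn s x)) t := by
  have hadm : Adm D (pr O (p1 + t)) := adm_pr h1.le h2.le
  have hpos := JZ_pos hq hadm hS (fun x => lam * t * h0 x)
  have h3 : HasDerivAt (fun u : ℝ => JZ D (pr O (p1 + u)) q S (fun x => lam * u * h0 x))
      (∑ A ∈ D.powerset, ∑ s ∈ S.powerset,
        jw D (pr O (p1 + t)) q S (fun x => lam * t * h0 x) A s *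
        ((((A \ O).card : ℝ) - (p1 + t) * ((D \ O).card : ℝ)) / ((p1 + t) * (1 - (p1 + t))) +
          lam * ∑ x ∈ S, h0 x * sgn s x)) t := by
    have e1 : (fun u : ℝ => JZ D (pr O (p1 + u)) q S (fun x => lam * u * h0 x)) =
        fun u => ∑ A ∈ D.powerset, ∑ s ∈ S.powerset,
          jw D (pr O (p1 + u)) q S (fun x => lam * u * h0 x) A s := by
      funext u
      unfold JZ jsum
      simp only [mul_one]
    rw [e1]
    refine HasDerivAt.fun_sum fun A hA => HasDerivAt.fun_sum fun s _ => ?_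
    exact Deriv_jw hO (Finset.mem_powerset.1 hA) q S s h0 p1 lam t h1 h2
  have h4 := h3.log hpos.ne'
  refine h4.congr_deriv ?_
  have h5 : (∑ A ∈ D.powerset, ∑ s ∈ S.powerset,
        jw D (pr O (p1 + t)) q S (fun x => lam * t * h0 x) A s *
        ((((A \ O).card : ℝ) - (p1 + t) * ((D \ O).card : ℝ)) / ((p1 + t) * (1 - (p1 + t))) +
          lam * ∑ x ∈ S, h0 x * sgn s x)) / JZ D (pr O (p1 + t)) q S (fun x => lam * t * h0 x) =
      JE D (pr O (p1 + t)) q S (fun x => lam * t * h0 x) (fun A s =>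
        (((A \ O).card : ℝ) - (p1 + t) * ((D \ O).card : ℝ)) / ((p1 + t) * (1 - (p1 + t))) +
          lam * ∑ x ∈ S, h0 x * sgn s x) := rfl
  rw [h5, JE_add, JE_smul]
  congr 1
  have h6 : (fun (A : Finset (V × V)) (_ : Finset V) =>
      (((A \ O).card : ℝ) - (p1 + t) * ((D \ O).card : ℝ)) / ((p1 + t) * (1 - (p1 + t)))) =
      fun A _ => ((p1 + t) * (1 - (p1 + t)))⁻¹ * (((A \ O).card : ℝ) +
        (-((p1 + t) * ((D \ O).card : ℝ)))) := by
    funext A _
    rw [div_eq_inv_mul]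
    ring
  rw [h6, JE_smul, JE_add, JE_const hq hadm hS]
  rw [div_eq_inv_mul]
  ring

end FKB
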