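import Pool.Agent.FKB.Basic
import Pool.Agent.FKB.RankA

open Finset
noncomputable section
namespace FKB

variable {V : Type*} [DecidableEq V]

theorem EdgeP_conn_insert (B : Finset (V × V)) (e : V × V) :
    Conn (insert e B) e.1 e.2 := Conn.edge (mem_insert_self e B)

theorem P_edge {D : Finset (V × V)} {w : V × V → ℝ} {q : ℝ} (hq : 0 < q) (hw : Adm D w)
    {e : V × V} (he : e ∈ D) :
    P D w q (fun A => e ∈ A) =
      w e * (q⁻¹ + (1 - q⁻¹) * P D w q (fun A => Conn A e.1 e.2)) := by
  classical
  have key : E D w q (fun A => ind (e ∈ A) - w e * (q⁻¹ + (1 - q⁻¹) * ind (Conn A e.1 e.2))) =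
      0 := by
    unfold E
    rw [div_eq_zero_iff]
    left
    obtain ⟨D', hD', rfl⟩ : ∃ D', e ∉ D' ∧ D = insert e D' :=
      ⟨D.erase e, notMem_erase e D, (insert_erase he).symm⟩
    rw [sum_powerset_insert hD', ← sum_add_distrib]
    refine sum_eq_zero fun B hB => ?_
    rw [mem_powerset] at hB
    have heB : e ∉ B := fun h => hD' (hB h)
    beta_reduce
    rw [ind_false heB, ind_true (mem_insert_self e B), ind_true (EdgeP_conn_insert B e)]
    have h1 : wt (insert e D') w q B =
        (1 - w e) * ((∏ a ∈ B, w a) * (∏ a ∈ D' \ B, (1 - w a)) * (q⁻¹) ^ rk B) := by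
      unfold wt
      have : insert e D' \ B = insert e (D' \ B) := by
        rw [insert_sdiff_of_notMem _ heB]
      rw [this, prod_insert (by simp [hD'])]
      ring
    have h2 : wt (insert e D') w q (insert e B) =
        w e * ((∏ a ∈ B, w a) * (∏ a ∈ D' \ B, (1 - w a)) * (q⁻¹) ^ rk (insert e B)) := by
      unfold wt
      have : insert e D' \ insert e B = D' \ B := by
        ext a
        simp only [mem_sdiff, mem_insert]
        constructor
        · rintro ⟨h | h, h'⟩
          · exact absurd (Or.inl h) h'
          · exact ⟨h, fun hb => h' (Or.inr hb)⟩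
        · rintro ⟨h, h'⟩
          refine ⟨Or.inr h, ?_⟩
          rintro (rfl | hb)
          · exact hD' h
          · exact h' hb
      rw [this, prod_insert heB]
      ring
    rw [h1, h2]
    have hr := rk_insert B e
    by_cases hc : Conn B e.1 e.2
    · rw [ind_true hc] at hr ⊢
      have : rk (insert e B) = rk B := by
        have : (rk (insert e B) : ℝ) = rk B := by rw [hr]; ring
        exact_mod_cast this
      rw [this]; ring
    · rw [ind_false hc] at hr ⊢
      have : rk (insert e B) = rk B + 1 := by
        have : (rk (insert e B) : ℝ) = ((rk B + 1 : ℕ) : ℝ) := by rw [hr]; push_cast; ring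
        exact_mod_cast this
      rw [this, pow_succ]; ring
  rw [E_sub, sub_eq_zero, E_smul, E_add, E_const hq hw, E_smul] at key
  exact key

end FKB
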