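import Pool.Agent.FKB.FinDefs
import Pool.Agent.FKB.Clus
import Pool.Agent.FKB.Basic

open Finset
noncomputable section
namespace FKB

variable {d : ℕ}

theorem reachable_iff {A : Finset (Pt d × Pt d)} {x y : Pt d} :
    (openGraph (A : Set (Pt d × Pt d))).Reachable x y ↔ Conn A x y := by
  constructor
  · rintro ⟨p⟩
    induction p with
    | nil => exact Conn.rfl' A _
    | cons h _ ih =>
      refine Conn.trans' ?_ ih
      unfold openGraph at h
      rw [SimpleGraph.fromRel_adj] at h
      rcases h.2 with h | h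
      · exact Conn.edge (Finset.mem_coe.mp h)
      · exact (Conn.edge (Finset.mem_coe.mp h)).symm'
  · intro h
    induction h with
    | rel x y h =>
      by_cases hxy : x = y
      · rw [hxy]
      · apply SimpleGraph.Adj.reachable
        unfold openGraph
        rw [SimpleGraph.fromRel_adj]
        exact ⟨hxy, Or.inl (Finset.mem_coe.mpr h)⟩
    | refl x => exact SimpleGraph.Reachable.refl x
    | symm x y _ ih => exact ih.symm
    | trans x y z _ _ ih1 ih2 => exact ih1.trans ih2

theorem FinA_box {Λ : Finset (Pt d)} {A : Finset (Pt d × Pt d)} (hA : A ⊆ lat Λ) (x y : Λ) :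
    (boxGraph Λ (A : Set (Pt d × Pt d))).Reachable x y ↔ Conn A (x : Pt d) y := by
  constructor
  · rintro ⟨p⟩
    induction p with
    | nil => exact Conn.rfl' A _
    | cons h _ ih =>
      refine Conn.trans' ?_ ih
      unfold boxGraph at h
      rw [SimpleGraph.fromRel_adj] at h
      rcases h.2 with h | h
      · exact Conn.edge (Finset.mem_coe.mp h)
      · exact (Conn.edge (Finset.mem_coe.mp h)).symm'
  · have key : ∀ u v : Pt d, Conn A u v → u = v ∨ ∃ (hu : u ∈ Λ) (hv : v ∈ Λ),
        (boxGraph Λ (A : Set (Pt d × Pt d))).Reachable ⟨u, hu⟩ ⟨v, hv⟩ := by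
      intro u v h
      induction h with
      | rel u v h =>
        by_cases huv : u = v
        · exact Or.inl huv
        · right
          have h1 := hA h
          unfold lat at h1
          rw [Finset.mem_filter, Finset.mem_product] at h1
          refine ⟨h1.1.1, h1.1.2, ?_⟩
          apply SimpleGraph.Adj.reachable
          unfold boxGraph
          rw [SimpleGraph.fromRel_adj]
          refine ⟨fun h2 => huv (congrArg Subtype.val h2), Or.inl (Finset.mem_coe.mpr h)⟩
      | refl u => exact Or.inl rfl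
      | symm u v _ ih =>
        rcases ih with h | ⟨hu, hv, h⟩
        · exact Or.inl h.symm
        · exact Or.inr ⟨hv, hu, h.symm⟩
      | trans u v w _ _ ih1 ih2 =>
        rcases ih1 with h | ⟨hu, hv, h⟩
        · rw [h]; exact ih2
        · rcases ih2 with h' | ⟨hv', hw, h'⟩
          · rw [← h']; exact Or.inr ⟨hu, hv, h⟩
          · exact Or.inr ⟨hu, hw, h.trans h'⟩
    intro h
    rcases key x y h with h | ⟨hu, hv, h⟩
    · rw [Subtype.ext h]
    · exact h

theorem numClusters_eq {Λ : Finset (Pt d)} {A : Finset (Pt d × Pt d)} (hA : A ⊆ lat Λ) :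
    numClusters Λ (A : Set (Pt d × Pt d)) + rk A = Λ.card := by
  have hV : Verts A Λ := by
    intro e he
    have h1 := hA he
    unfold lat at h1
    rw [Finset.mem_filter, Finset.mem_product] at h1
    exact h1.1
  rw [← card_clusters hV]
  congr 1
  unfold numClusters
  let f : (boxGraph Λ (A : Set (Pt d × Pt d))).ConnectedComponent → clusters A Λ :=
    fun C => C.lift (fun x : Λ => (⟨cl A Λ (x : Pt d), self_mem_clusters x.2⟩ : clusters A Λ))
      (fun x y p _ => by
      apply Subtype.ext
      exact (cl_eq_iff x.2).mpr ((FinA_box hA x y).mp ⟨p⟩))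
  have hf : Function.Bijective f := by
    constructor
    · intro C C' h
      induction C using SimpleGraph.ConnectedComponent.ind with
      | _ x =>
        induction C' using SimpleGraph.ConnectedComponent.ind with
        | _ y =>
          have h1 : cl A Λ (x : Pt d) = cl A Λ y := congrArg Subtype.val h
          rw [SimpleGraph.ConnectedComponent.eq]
          exact (FinA_box hA x y).mpr ((cl_eq_iff x.2).mp h1)
    · rintro ⟨C, hC⟩
      obtain ⟨x, hx, rfl⟩ := Finset.mem_image.1 hC
      exact ⟨(boxGraph Λ (A : Set (Pt d × Pt d))).connectedComponentMk ⟨x, hx⟩, rfl⟩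
  rw [Nat.card_eq_of_bijective f hf, Nat.card_eq_fintype_card, Fintype.card_coe]

theorem FinA_weight {Λ : Finset (Pt d)} (p : ℝ) {q : ℝ} (hq : 0 < q)
    {A : Finset (Pt d × Pt d)} (hA : A ⊆ lat Λ) :
    boxWeight Λ p q A = q ^ Λ.card * wt (lat Λ) (fun _ => p) q A := by
  unfold boxWeight wt
  rw [Finset.prod_const, Finset.prod_const, Finset.card_sdiff_of_subset hA,
    ← numClusters_eq hA, pow_add]
  have : q ^ rk A * q⁻¹ ^ rk A = 1 := by
    rw [← mul_pow, mul_inv_cancel₀ hq.ne', one_pow]
  calc p ^ A.card * (1 - p) ^ ((lat Λ).card - A.card) * q ^ numClusters Λ (A : Set (Pt d × Pt d))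
      = p ^ A.card * (1 - p) ^ ((lat Λ).card - A.card) * q ^ numClusters Λ (A : Set (Pt d × Pt d))
        * (q ^ rk A * q⁻¹ ^ rk A) := by rw [this, mul_one]
    _ = _ := by ring

theorem phi0_eq (Λ : Finset (Pt d)) (p : ℝ) {q : ℝ} (hq : 0 < q)
    (ev : Set (Set (Pt d × Pt d))) :
    phi0 Λ p q ev = P (lat Λ) (fun _ => p) q (fun A => (A : Set (Pt d × Pt d)) ∈ ev) := by
  unfold phi0 P E Z
  have h1 : ∑ ω ∈ (lat Λ).powerset, boxWeight Λ p q ω =
      q ^ Λ.card * ∑ A ∈ (lat Λ).powerset, wt (lat Λ) (fun _ => p) q A := by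
    rw [Finset.mul_sum]
    exact Finset.sum_congr rfl fun A hA => FinA_weight p hq (Finset.mem_powerset.mp hA)
  have h2 : ∑ ω ∈ (lat Λ).powerset, boxWeight Λ p q ω *
        ind ((ω : Set (Pt d × Pt d)) ∈ ev) =
      q ^ Λ.card * ∑ A ∈ (lat Λ).powerset, wt (lat Λ) (fun _ => p) q A *
        ind ((A : Set (Pt d × Pt d)) ∈ ev) := by
    rw [Finset.mul_sum]
    refine Finset.sum_congr rfl fun A hA => ?_
    rw [FinA_weight p hq (Finset.mem_powerset.mp hA), mul_assoc]
  rw [h1, h2]
  exact mul_div_mul_left _ _ (pow_pos hq _).ne'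

end FKB
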