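import Pool.Agent.FKB.WiredB

open Finset
noncomputable section
namespace FKB

theorem limA_cube_mono {d : ℕ} {c : Pt d} {m m' : ℕ} (h : m ≤ m') : cube c m ⊆ cube c m' := by
  intro x hx
  rw [mem_cube] at hx ⊢
  intro i
  have := hx i
  have h2 : (m : ℤ) ≤ m' := by exact_mod_cast h
  omega

theorem limA_inc_far {d : ℕ} (D : Finset (Pt d × Pt d)) (l : ℕ) (x : Pt d) :
    Inc D (fun A => ind (Far l A x)) :=
  fun _ _ hAB _ => ind_mono (wirB_far_mono hAB)

/-- monotonicity of the free arm probabilities -/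
theorem fth_mono_m {d m m' n : ℕ} (h : m ≤ m') {p q : ℝ} (hq : 1 ≤ q) (hp0 : 0 ≤ p)
    (hp1 : p ≤ 1) : fth d m n p q ≤ fth d m' n p q :=
  E_dom hq (fun _ _ => ⟨hp0, hp1⟩) (fun _ _ => ⟨hp0, hp1⟩) (lat_mono (limA_cube_mono h))
    (fun _ _ => le_refl p) (limA_inc_far _ _ _)

theorem limA_fth_mono_p {d m n : ℕ} {p p' q : ℝ} (hq : 1 ≤ q) (hp0 : 0 ≤ p) (hpp : p ≤ p')
    (hp1 : p' ≤ 1) : fth d m n p q ≤ fth d m n p' q :=
  E_dom hq (fun _ _ => ⟨hp0, hpp.trans hp1⟩) (fun _ _ => ⟨hp0.trans hpp, hp1⟩)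
    (Finset.Subset.refl _) (fun _ _ => hpp) (limA_inc_far _ _ _)

theorem limA_fth_nonneg {d m n : ℕ} {p q : ℝ} (hq : 1 ≤ q) (hp0 : 0 ≤ p) (hp1 : p ≤ 1) :
    0 ≤ fth d m n p q :=
  P_nonneg (lt_of_lt_of_le one_pos hq) (fun _ _ => ⟨hp0, hp1⟩) _

theorem limA_fth_le_th {d m n : ℕ} {p q : ℝ} (hq : 1 ≤ q) (hp0 : 0 ≤ p) (hp1 : p ≤ 1) :
    fth d m n p q ≤ th d n p q := by
  have h1 := E_le_wired (D := lat (cube (0 : Pt d) m)) (w := fun _ => p) (p := p) hq hp0 hp1
    (fun _ _ => ⟨hp0, hp1⟩) (cube (0 : Pt d) n)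
    (fun e he hn => lat_local (isLat_lat _ e he) hn) (fun _ _ _ => Or.inl (le_refl p))
    (F := fun B => ind (Far n B (0 : Pt d))) (limA_inc_far _ _ _)
  have h2 : fth d m n p q = E (lat (cube (0 : Pt d) m)) (fun _ => p) q
      (fun A => ind (Far n (A ∩ lat (cube (0 : Pt d) n)) (0 : Pt d))) :=
    E_congr (fun A _ => ind_congr wirB_far_inter.symm)
  have h3 : th d n p q = E (wD (cube (0 : Pt d) n)) (pr (wO (cube (0 : Pt d) n)) p) q
      (fun A => ind (Far n (A ∩ lat (cube (0 : Pt d) n)) (0 : Pt d))) :=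
    E_congr (fun A _ => ind_congr wirB_far_inter.symm)
  rw [h2, h3]
  exact h1

theorem limA_bdd {d n : ℕ} {p q : ℝ} (hq : 1 ≤ q) (hp0 : 0 ≤ p) (hp1 : p ≤ 1) :
    BddAbove (Set.range (fun m : ℕ => fth d m n p q)) :=
  ⟨th d n p q, by rintro _ ⟨m, rfl⟩; exact limA_fth_le_th hq hp0 hp1⟩

theorem limA_sup_nonneg {d n : ℕ} {p q : ℝ} (hq : 1 ≤ q) (hp0 : 0 ≤ p) (hp1 : p ≤ 1) :
    0 ≤ ⨆ m : ℕ, fth d m n p q :=
  Real.iSup_nonneg (fun _ => limA_fth_nonneg hq hp0 hp1)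

theorem limA_bddBelow {d : ℕ} {p q : ℝ} (hq : 1 ≤ q) (hp0 : 0 ≤ p) (hp1 : p ≤ 1) :
    BddBelow (Set.range (fun n : ℕ => ⨆ m : ℕ, fth d m n p q)) :=
  ⟨0, by rintro _ ⟨m, rfl⟩; exact limA_sup_nonneg hq hp0 hp1⟩

theorem th0_mono {d : ℕ} {p p' q : ℝ} (hq : 1 ≤ q) (hp0 : 0 ≤ p) (hpp : p ≤ p') (hp1 : p' ≤ 1) :
    th0 d p q ≤ th0 d p' q := by
  apply ciInf_mono (limA_bddBelow hq hp0 (hpp.trans hp1))
  intro n
  exact ciSup_mono (limA_bdd hq (hp0.trans hpp) hp1) (fun m => limA_fth_mono_p hq hp0 hpp hp1)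

theorem th0_le_th1 {d : ℕ} {p q : ℝ} (hq : 1 ≤ q) (hp0 : 0 ≤ p) (hp1 : p ≤ 1) :
    th0 d p q ≤ th1 d p q := by
  apply ciInf_mono (limA_bddBelow hq hp0 hp1)
  intro n
  exact ciSup_le (fun m => limA_fth_le_th hq hp0 hp1)

/-- the upper bound -/
theorem upper_box {d : ℕ} (hd : 1 ≤ d) {p q : ℝ} (hq : 1 ≤ q) (hp0 : 0 ≤ p) (hp1 : p ≤ 1)
    {ε : ℝ} (hε : 0 < ε) :
    ∃ n0 : ℕ, ∀ a b : Pt d, (∀ i, a i ≤ -(n0 : ℤ)) → (∀ i, (n0 : ℤ) ≤ b i) →
        P (lat (Finset.Icc a b)) (fun _ => p) q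
          (fun A => ∃ y ∈ bd (Finset.Icc a b), Conn A 0 y) ≤ th0 d p q + ε := by
  have hq0 : 0 < q := lt_of_lt_of_le one_pos hq
  obtain ⟨n, hn⟩ := exists_lt_of_ciInf_lt (lt_add_of_pos_right (th0 d p q) hε)
  refine ⟨n + 1, ?_⟩
  intro a b ha hb
  -- a big cube
  obtain ⟨m, hm⟩ : ∃ m : ℕ, ∀ i, |a i| ≤ m ∧ |b i| ≤ m := by
    refine ⟨∑ i, ((a i).natAbs + (b i).natAbs), ?_⟩
    intro i
    have h1 : (a i).natAbs + (b i).natAbs ≤ ∑ i, ((a i).natAbs + (b i).natAbs) :=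
      Finset.single_le_sum (f := fun i => (a i).natAbs + (b i).natAbs)
        (fun _ _ => Nat.zero_le _) (Finset.mem_univ i)
    have h2 : (a i).natAbs ≤ ∑ i, ((a i).natAbs + (b i).natAbs) := by omega
    have h3 : (b i).natAbs ≤ ∑ i, ((a i).natAbs + (b i).natAbs) := by omega
    rw [Int.abs_eq_natAbs, Int.abs_eq_natAbs]
    exact ⟨by exact_mod_cast h2, by exact_mod_cast h3⟩
  have hsub : Finset.Icc a b ⊆ cube (0 : Pt d) m := by
    intro x hx
    rw [Finset.mem_Icc] at hx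
    rw [mem_cube]
    intro i
    have h1 := hx.1 i
    have h2 := hx.2 i
    have h3 := hm i
    simp only [Pi.zero_apply, sub_zero]
    rw [abs_le]
    have h4 := abs_le.mp h3.1
    have h5 := abs_le.mp h3.2
    constructor <;> linarith [h4.1, h5.2]
  have s1 : P (lat (Finset.Icc a b)) (fun _ => p) q
      (fun A => ∃ y ∈ bd (Finset.Icc a b), Conn A 0 y) ≤
      P (lat (Finset.Icc a b)) (fun _ => p) q (fun A => Far n A 0) := by
    apply P_mono hq0 (fun _ _ => ⟨hp0, hp1⟩)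
    intro A hA _ _
    rintro ⟨y, hy, hc⟩
    by_contra hfar
    have hL : IsLat A := fun e he => isLat_lat _ e (hA he)
    have h3 := notFar_cluster hL hfar hc
    rw [mem_cube] at h3
    unfold bd at hy
    rw [Finset.mem_filter, Finset.mem_Icc] at hy
    obtain ⟨⟨h4, h5⟩, i, hi⟩ := hy
    have key : y i ≤ a i ∨ b i ≤ y i := by
      by_contra hcon
      push Not at hcon
      rcases hi with hi | hi
      · apply hi
        rw [Finset.mem_Icc]
        constructor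
        · intro j
          by_cases hj : j = i
          · subst hj
            simp only [Pi.add_apply, Pi.single_eq_same]; linarith [h4 j]
          · simp only [Pi.add_apply, Pi.single_eq_of_ne hj, add_zero]; exact h4 j
        · intro j
          by_cases hj : j = i
          · subst hj
            simp only [Pi.add_apply, Pi.single_eq_same]; linarith [hcon.2]
          · simp only [Pi.add_apply, Pi.single_eq_of_ne hj, add_zero]; exact h5 j
      · apply hi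
        rw [Finset.mem_Icc]
        constructor
        · intro j
          by_cases hj : j = i
          · subst hj
            simp only [Pi.sub_apply, Pi.single_eq_same]; linarith [hcon.1]
          · simp only [Pi.sub_apply, Pi.single_eq_of_ne hj, sub_zero]; exact h4 j
        · intro j
          by_cases hj : j = i
          · subst hj
            simp only [Pi.sub_apply, Pi.single_eq_same]; linarith [h5 j]
          · simp only [Pi.sub_apply, Pi.single_eq_of_ne hj, sub_zero]; exact h5 j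
    have h6 := h3 i
    simp only [Pi.zero_apply, sub_zero] at h6
    have h7 := abs_le.mp h6
    have h8 := ha i
    have h9 := hb i
    push_cast at h8 h9
    rcases key with h | h
    · linarith [h7.1]
    · linarith [h7.2]
  have s2 : P (lat (Finset.Icc a b)) (fun _ => p) q (fun A => Far n A 0) ≤ fth d m n p q :=
    E_dom hq (fun _ _ => ⟨hp0, hp1⟩) (fun _ _ => ⟨hp0, hp1⟩) (lat_mono hsub)
      (fun _ _ => le_refl p) (limA_inc_far _ _ _)
  have s3 : fth d m n p q ≤ ⨆ m : ℕ, fth d m n p q := le_ciSup (limA_bdd hq hp0 hp1) m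
  linarith [s1.trans (s2.trans s3)]

end FKB
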