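import Pool.Agent.FKB.FinA
import Pool.Agent.FKB.LimitA

open Finset MeasureTheory Filter
noncomputable section
namespace FKB

variable {d : ℕ}

/-- the open edges of `ω` in the finite set `F` -/
private def finb_res (F : Finset (Pt d × Pt d)) (ω : Set (Pt d × Pt d)) :
    Finset (Pt d × Pt d) := by
  classical exact F.filter (fun e => e ∈ ω)

private theorem finb_mem_res {F : Finset (Pt d × Pt d)} {ω : Set (Pt d × Pt d)}
    {e : Pt d × Pt d} : e ∈ finb_res F ω ↔ e ∈ F ∧ e ∈ ω := by
  classical
  simp [finb_res]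

private theorem finb_res_coe (F A : Finset (Pt d × Pt d)) :
    finb_res F (A : Set (Pt d × Pt d)) = A ∩ F := by
  ext e
  rw [finb_mem_res, Finset.mem_inter, Finset.mem_coe, and_comm]

private theorem finb_res_eq (F T : Finset (Pt d × Pt d)) (ω : Set (Pt d × Pt d)) :
    finb_res F ω = T ↔ ω ∩ (F : Set (Pt d × Pt d)) = (T : Set (Pt d × Pt d)) := by
  constructor
  · intro h
    ext e
    rw [Set.mem_inter_iff, Finset.mem_coe, Finset.mem_coe, ← h, finb_mem_res, and_comm]
  · intro h
    ext e
    rw [finb_mem_res, ← Finset.mem_coe (s := T), ← h, Set.mem_inter_iff, Finset.mem_coe, and_comm]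

/-- the arm event of radius `n` -/
private def finb_ev (d n : ℕ) : Set (Set (Pt d × Pt d)) :=
  {ω | Far n (finb_res (lat (cube (0 : Pt d) n)) ω) 0}

private theorem finb_far_res {n : ℕ} {A : Finset (Pt d × Pt d)} :
    Far n (A ∩ lat (cube (0 : Pt d) n)) 0 ↔ Far n A 0 := by
  unfold Far
  rw [Finset.inter_assoc, Finset.inter_self]

private theorem finb_mem_ev_coe {n : ℕ} {A : Finset (Pt d × Pt d)} :
    (A : Set (Pt d × Pt d)) ∈ finb_ev d n ↔ Far n A 0 := by
  unfold finb_ev
  rw [Set.mem_setOf_eq, finb_res_coe, finb_far_res]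

/-- cylinder sets -/
private def finb_cyl (F T : Finset (Pt d × Pt d)) : Set (Set (Pt d × Pt d)) :=
  {ω | ω ∩ (F : Set (Pt d × Pt d)) = (T : Set (Pt d × Pt d))}

private theorem finb_cyl_meas (F T : Finset (Pt d × Pt d)) : MeasurableSet (finb_cyl F T) := by
  by_cases hT : T ⊆ F
  · have : finb_cyl F T = ⋂ e ∈ F, {ω : Set (Pt d × Pt d) | e ∈ ω ↔ e ∈ T} := by
      ext ω
      simp only [finb_cyl, Set.mem_setOf_eq, Set.mem_iInter]
      constructor
      · intro h e he
        rw [← Finset.mem_coe (s := T), ← h]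
        simp [he]
      · intro h
        ext e
        constructor
        · rintro ⟨h1, h2⟩
          exact (h e h2).1 h1
        · intro h1
          exact ⟨(h e (hT h1)).2 h1, hT h1⟩
    rw [this]
    apply Finset.measurableSet_biInter
    intro e _
    by_cases he : e ∈ T
    · simp only [he, iff_true]
      exact measurableSet_setOf.2 (measurable_set_mem e)
    · simp only [he, iff_false]
      exact measurableSet_setOf.2 (measurable_set_notMem e)
  · have : finb_cyl F T = ∅ := by
      ext ω
      simp only [finb_cyl, Set.mem_setOf_eq, Set.mem_empty_iff_false, iff_false]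
      intro h
      apply hT
      intro e he
      have : e ∈ ω ∩ (F : Set (Pt d × Pt d)) := by rw [h]; exact he
      exact this.2
    rw [this]
    exact MeasurableSet.empty

private theorem finb_cyl_disj (F : Finset (Pt d × Pt d)) (T T' : Finset (Pt d × Pt d))
    (h : T ≠ T') : Disjoint (finb_cyl F T) (finb_cyl F T') := by
  rw [Set.disjoint_left]
  intro ω h1 h2
  apply h
  have : (T : Set (Pt d × Pt d)) = T' := by
    rw [← show ω ∩ (F : Set (Pt d × Pt d)) = (T : Set (Pt d × Pt d)) from h1]
    exact h2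
  exact_mod_cast this

/-- the finite family of configurations with the arm -/
private def finb_fam (d n : ℕ) : Finset (Finset (Pt d × Pt d)) := by
  classical exact (lat (cube (0 : Pt d) n)).powerset.filter (fun T => Far n T 0)

private theorem finb_mem_fam {n : ℕ} {T : Finset (Pt d × Pt d)} :
    T ∈ finb_fam d n ↔ T ⊆ lat (cube (0 : Pt d) n) ∧ Far n T 0 := by
  classical
  simp [finb_fam]

private theorem finb_ev_eq (d n : ℕ) :
    finb_ev d n = ⋃ T ∈ finb_fam d n, finb_cyl (lat (cube (0 : Pt d) n)) T := by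
  ext ω
  simp only [Set.mem_iUnion, finb_ev, Set.mem_setOf_eq]
  constructor
  · intro h
    refine ⟨finb_res (lat (cube (0 : Pt d) n)) ω, finb_mem_fam.2 ⟨?_, h⟩, ?_⟩
    · intro e he
      exact (finb_mem_res.1 he).1
    · exact (finb_res_eq _ _ _).1 rfl
  · rintro ⟨T, hT, hω⟩
    rw [(finb_res_eq _ _ _).2 hω]
    exact (finb_mem_fam.1 hT).2

private theorem finb_ev_meas (d n : ℕ) : MeasurableSet (finb_ev d n) := by
  rw [finb_ev_eq]
  exact Finset.measurableSet_biUnion _ (fun T _ => finb_cyl_meas _ T)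

private theorem finb_ev_anti (n : ℕ) : finb_ev d (n + 1) ⊆ finb_ev d n := by
  intro ω hω
  have hsub : lat (cube (0 : Pt d) n) ⊆ lat (cube (0 : Pt d) (n + 1)) := by
    apply lat_mono
    intro x hx
    rw [mem_cube] at hx ⊢
    intro i
    have := hx i
    push_cast
    linarith
  set A := finb_res (lat (cube (0 : Pt d) (n + 1))) ω with hA
  have hAl : IsLat A := by
    intro e he
    exact isLat_lat _ e (finb_mem_res.1 he).1
  have hAn : A ∩ lat (cube (0 : Pt d) n) = finb_res (lat (cube (0 : Pt d) n)) ω := by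
    ext e
    rw [Finset.mem_inter, hA, finb_mem_res, finb_mem_res]
    constructor
    · rintro ⟨⟨_, h2⟩, h3⟩
      exact ⟨h3, h2⟩
    · rintro ⟨h1, h2⟩
      exact ⟨⟨hsub h1, h2⟩, h1⟩
  change Far n (finb_res (lat (cube (0 : Pt d) n)) ω) 0
  rw [← hAn, finb_far_res]
  by_contra hcon
  obtain ⟨y, hy, hc⟩ := hω
  have hc' : Conn A 0 y := hc.mono' Finset.inter_subset_left
  have h1 := notFar_cluster hAl hcon hc'
  obtain ⟨_, i, hi⟩ := mem_bd_cube.1 hy
  have h2 := mem_cube.1 h1 i
  rw [hi] at h2
  push_cast at h2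
  linarith

/-- lattice edges -/
private def finb_lattice (d : ℕ) : Set (Pt d × Pt d) := {e | ∃ i, e.2 = e.1 + Pi.single i 1}

private theorem finb_inf_iff (hd : 1 ≤ d) {ω : Set (Pt d × Pt d)} (hω : ω ⊆ finb_lattice d) :
    ω ∈ (toInfinity : Set (Set (Pt d × Pt d))) ↔ ∀ n, ω ∈ finb_ev d n := by
  classical
  constructor
  · intro h n
    by_contra hcon
    -- the cluster is inside the cube
    apply (show ¬ {y : Pt d | (openGraph ω).Reachable 0 y}.Infinite from ?_) h
    rw [Set.not_infinite]
    apply Set.Finite.subset (Finset.finite_toSet (cube (0 : Pt d) n))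
    intro y hy
    -- walk induction: all vertices are in the interior part
    set A := finb_res (lat (cube (0 : Pt d) n)) ω with hA
    have hcon' : ¬ Far n A 0 := hcon
    have hAA : A ∩ lat (cube (0 : Pt d) n) = A := by
      apply Finset.inter_eq_left.2
      intro e he
      exact (finb_mem_res.1 he).1
    have key : ∀ z : Pt d, (openGraph ω).Reachable 0 z →
        z ∈ cube (0 : Pt d) n ∧ Conn A 0 z := by
      intro z hz
      obtain ⟨w⟩ := hz
      have : ∀ (u v : Pt d) (w : (openGraph ω).Walk u v), (u ∈ cube (0 : Pt d) n ∧ Conn A 0 u) →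
          (v ∈ cube (0 : Pt d) n ∧ Conn A 0 v) := by
        intro u v w
        induction w with
        | nil => exact fun h => h
        | cons hadj w ih =>
          rename_i u v' w'
          intro hu
          apply ih
          have hadj' := hadj
          rw [openGraph, SimpleGraph.fromRel_adj] at hadj'
          obtain ⟨hne, hor⟩ := hadj'
          -- u is not in the boundary
          have hub : u ∉ bd (cube (0 : Pt d) n) := by
            intro hb
            exact hcon' ⟨u, hb, by rw [hAA]; exact hu.2⟩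
          rcases hor with he | he
          · have hlat : (u, v') ∈ lat (cube (0 : Pt d) n) := by
              by_contra hnl
              exact hub ((lat_local (hω he) hnl).1 hu.1)
            refine ⟨(verts_lat _ _ hlat).2, hu.2.trans' ?_⟩
            exact Conn.edge (e := (u, v')) (finb_mem_res.2 ⟨hlat, he⟩)
          · have hlat : (v', u) ∈ lat (cube (0 : Pt d) n) := by
              by_contra hnl
              exact hub ((lat_local (hω he) hnl).2 hu.1)
            refine ⟨(verts_lat _ _ hlat).1, hu.2.trans' ?_⟩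
            exact (Conn.edge (e := (v', u)) (finb_mem_res.2 ⟨hlat, he⟩)).symm'
      refine this 0 z w ⟨?_, Conn.rfl' A 0⟩
      rw [mem_cube]
      intro i
      simp
    exact (key y hy).1
  · intro h
    -- infinitely many points
    have hpt : ∀ n : ℕ, ∃ y : Pt d, (openGraph ω).Reachable 0 y ∧ ∃ i, |y i| = n := by
      intro n
      obtain ⟨y, hy, hc⟩ := h n
      obtain ⟨_, i, hi⟩ := mem_bd_cube.1 hy
      refine ⟨y, ?_, i, by simpa using hi⟩
      set A := finb_res (lat (cube (0 : Pt d) n)) ω with hA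
      have hc' : Conn A 0 y := hc.mono' Finset.inter_subset_left
      have h1 : (openGraph (A : Set (Pt d × Pt d))).Reachable 0 y := reachable_iff.2 hc'
      apply h1.mono
      intro u v huv
      rw [openGraph, SimpleGraph.fromRel_adj] at huv ⊢
      refine ⟨huv.1, ?_⟩
      rcases huv.2 with h2 | h2
      · exact Or.inl (finb_mem_res.1 h2).2
      · exact Or.inr (finb_mem_res.1 h2).2
    change {y : Pt d | (openGraph ω).Reachable 0 y}.Infinite
    intro hfin
    -- bounded
    obtain ⟨M, hM⟩ : ∃ M : ℕ, ∀ y ∈ {y : Pt d | (openGraph ω).Reachable 0 y}, ∀ i, |y i| < M := by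
      refine ⟨(∑ y ∈ hfin.toFinset, ∑ i, |y i|).toNat + 1, ?_⟩
      intro y hy i
      have h1 : |y i| ≤ ∑ i, |y i| :=
        Finset.single_le_sum (f := fun i => |y i|) (fun i _ => abs_nonneg _) (Finset.mem_univ i)
      have h2 : ∑ i, |y i| ≤ ∑ y ∈ hfin.toFinset, ∑ i, |y i| :=
        Finset.single_le_sum (f := fun y : Pt d => ∑ i, |y i|)
          (fun y _ => Finset.sum_nonneg (fun i _ => abs_nonneg _)) (hfin.mem_toFinset.2 hy)
      have h3 := Int.self_le_toNat (∑ y ∈ hfin.toFinset, ∑ i, |y i|)
      push_cast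
      linarith
    obtain ⟨y, hy, i, hi⟩ := hpt M
    have := hM y hy i
    rw [hi] at this
    exact lt_irrefl _ this

private theorem finb_exhausts (d : ℕ) :
    Exhausts (fun m : ℕ => (fun i : Fin d => (0 : Pt d) i - (m : ℤ)))
      (fun m : ℕ => (fun i : Fin d => (0 : Pt d) i + (m : ℤ))) where
  anti := by
    intro m m' h i
    simp only [Pi.zero_apply, zero_sub]
    have : (m : ℤ) ≤ m' := by exact_mod_cast h
    linarith
  mono := by
    intro m m' h i
    simp only [Pi.zero_apply, zero_add]
    exact_mod_cast h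
  cover := by
    intro x
    refine ⟨(∑ i, |x i|).toNat, ?_⟩
    have : x ∈ cube (0 : Pt d) (∑ i, |x i|).toNat := by
      rw [mem_cube]
      intro i
      have h1 : |x i| ≤ ∑ i, |x i| :=
        Finset.single_le_sum (f := fun i => |x i|) (fun i _ => abs_nonneg _) (Finset.mem_univ i)
      have h3 := Int.self_le_toNat (∑ i, |x i|)
      simp only [Pi.zero_apply, sub_zero]
      linarith
    exact this

private theorem finb_lattice_ae {p q : ℝ} {μ : Measure (Set (Pt d × Pt d))}
    (hμ : IsFreeLimit μ p q) : μ {ω | ¬ ω ⊆ finb_lattice d} = 0 := by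
  haveI := hμ.1
  have hsub : {ω : Set (Pt d × Pt d) | ¬ ω ⊆ finb_lattice d} ⊆
      ⋃ e ∈ {e : Pt d × Pt d | e ∉ finb_lattice d}, {ω : Set (Pt d × Pt d) | e ∈ ω} := by
    intro ω hω
    rw [Set.mem_setOf_eq, Set.not_subset] at hω
    obtain ⟨e, he, he'⟩ := hω
    simp only [Set.mem_iUnion]
    exact ⟨e, he', he⟩
  apply measure_mono_null hsub
  rw [measure_biUnion_null_iff (Set.to_countable _)]
  intro e he
  have h1 := hμ.2 {e} {e} _ _ (finb_exhausts d)
  have h2 : ∀ m : ℕ, phi0 (Finset.Icc (fun i : Fin d => (0 : Pt d) i - (m : ℤ))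
      (fun i : Fin d => (0 : Pt d) i + (m : ℤ))) p q
      {ω | ω ∩ (({e} : Finset (Pt d × Pt d)) : Set (Pt d × Pt d)) =
        (({e} : Finset (Pt d × Pt d)) : Set (Pt d × Pt d))} = 0 := by
    intro m
    rw [phi0, Finset.sum_eq_zero, zero_div]
    intro A hA
    rw [ind_false, mul_zero]
    intro h
    have h3 : e ∈ (A : Set (Pt d × Pt d)) ∩ (({e} : Finset (Pt d × Pt d)) : Set (Pt d × Pt d)) := by
      rw [show (A : Set (Pt d × Pt d)) ∩ (({e} : Finset (Pt d × Pt d)) : Set (Pt d × Pt d)) = _
        from h]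
      simp
    have h4 : e ∈ A := h3.1
    exact he (isLat_lat _ e (Finset.mem_powerset.1 hA h4))
  simp only [h2] at h1
  have h5 := tendsto_nhds_unique h1 tendsto_const_nhds
  have h6 : {ω : Set (Pt d × Pt d) | e ∈ ω} =
      {ω | ω ∩ (({e} : Finset (Pt d × Pt d)) : Set (Pt d × Pt d)) =
        (({e} : Finset (Pt d × Pt d)) : Set (Pt d × Pt d))} := by
    ext ω
    simp
  rw [h6]
  exact (measureReal_eq_zero_iff).1 h5

private theorem finb_ev_lim {p q : ℝ} (hq : 1 ≤ q) {μ : Measure (Set (Pt d × Pt d))}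
    (hμ : IsFreeLimit μ p q) (n : ℕ) :
    Tendsto (fun m => fth d m n p q) atTop (nhds (μ.real (finb_ev d n))) := by
  classical
  haveI := hμ.1
  have hq0 : 0 < q := by linarith
  have h1 : μ.real (finb_ev d n) =
      ∑ T ∈ finb_fam d n, μ.real (finb_cyl (lat (cube (0 : Pt d) n)) T) := by
    rw [finb_ev_eq, measureReal_biUnion_finset]
    · intro T _ T' _ hne
      exact finb_cyl_disj _ _ _ hne
    · intro T _
      exact finb_cyl_meas _ _
  rw [h1]
  have h2 : ∀ m, fth d m n p q = ∑ T ∈ finb_fam d n,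
      phi0 (Finset.Icc (fun i : Fin d => (0 : Pt d) i - (m : ℤ))
      (fun i : Fin d => (0 : Pt d) i + (m : ℤ))) p q (finb_cyl (lat (cube (0 : Pt d) n)) T) := by
    intro m
    have h3 : fth d m n p q = phi0 (cube (0 : Pt d) m) p q (finb_ev d n) := by
      rw [phi0_eq _ _ hq0, fth]
      congr 1
      funext A
      exact propext finb_mem_ev_coe.symm
    rw [h3]
    change phi0 (cube (0 : Pt d) m) p q (finb_ev d n) = ∑ T ∈ finb_fam d n,
      phi0 (cube (0 : Pt d) m) p q (finb_cyl (lat (cube (0 : Pt d) n)) T)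
    simp only [phi0]
    rw [← Finset.sum_div, Finset.sum_comm]
    congr 1
    apply Finset.sum_congr rfl
    intro A _
    rw [← Finset.mul_sum]
    congr 1
    by_cases hA : (A : Set (Pt d × Pt d)) ∈ finb_ev d n
    · rw [ind_true hA]
      have hT : A ∩ lat (cube (0 : Pt d) n) ∈ finb_fam d n := by
        rw [finb_mem_fam]
        exact ⟨Finset.inter_subset_right, finb_far_res.2 (finb_mem_ev_coe.1 hA)⟩
      rw [Finset.sum_eq_single_of_mem _ hT]
      · rw [ind_true]
        change (A : Set (Pt d × Pt d)) ∩ _ = _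
        rw [Finset.coe_inter]
      · intro T _ hne
        rw [ind_false]
        intro h
        apply hne
        have h4 : (A : Set (Pt d × Pt d)) ∩ (lat (cube (0 : Pt d) n) : Set (Pt d × Pt d)) =
          (T : Set (Pt d × Pt d)) := h
        rw [← Finset.coe_inter] at h4
        exact (Finset.coe_injective h4).symm
    · rw [ind_false hA]
      symm
      apply Finset.sum_eq_zero
      intro T hT
      rw [ind_false]
      intro h
      apply hA
      rw [finb_ev_eq]
      simp only [Set.mem_iUnion]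
      exact ⟨T, hT, h⟩
  simp only [h2]
  apply tendsto_finset_sum
  intro T _
  exact hμ.2 (lat (cube (0 : Pt d) n)) T _ _ (finb_exhausts d)

/-- the infinite-volume density of a weak limit is `th0` -/
theorem free_limit_th0 (hd : 1 ≤ d) {p q : ℝ} (hq : 1 ≤ q) (hp0 : 0 ≤ p) (hp1 : p ≤ 1)
    {μ : Measure (Set (Pt d × Pt d))} (hμ : IsFreeLimit μ p q) :
    μ.real toInfinity = th0 d p q := by
  haveI := hμ.1
  have hq0 : 0 < q := by linarith
  -- step 1
  have hsup : ∀ n, μ.real (finb_ev d n) = ⨆ m : ℕ, fth d m n p q := by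
    intro n
    have hmono : Monotone (fun m => fth d m n p q) := fun m m' h => fth_mono_m h hq hp0 hp1
    have hbdd : BddAbove (Set.range (fun m => fth d m n p q)) := by
      refine ⟨1, ?_⟩
      rintro _ ⟨m, rfl⟩
      exact P_le_one hq0 (fun e _ => ⟨hp0, hp1⟩) _
    exact tendsto_nhds_unique (finb_ev_lim hq hμ n) (tendsto_atTop_ciSup hmono hbdd)
  -- step 2
  have hanti : Antitone (fun n => finb_ev d n) := antitone_nat_of_succ_le finb_ev_anti
  have hae : μ.real toInfinity = μ.real (⋂ n, finb_ev d n) := by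
    apply measureReal_congr
    have h0 := finb_lattice_ae hμ
    have h1 : ∀ᵐ ω ∂μ, ω ⊆ finb_lattice d := h0
    filter_upwards [h1] with ω hω
    apply propext
    change ω ∈ toInfinity ↔ ω ∈ ⋂ n, finb_ev d n
    rw [finb_inf_iff hd hω, Set.mem_iInter]
  rw [hae]
  have hlim : Tendsto (fun n => μ.real (finb_ev d n)) atTop
      (nhds (μ.real (⋂ n, finb_ev d n))) := by
    have h2 := tendsto_measure_iInter_atTop (μ := μ) (s := fun n => finb_ev d n)
      (fun n => (finb_ev_meas d n).nullMeasurableSet) hanti ⟨0, measure_ne_top _ _⟩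
    exact (ENNReal.tendsto_toReal (measure_ne_top _ _)).comp h2
  have hlim2 : Tendsto (fun n => μ.real (finb_ev d n)) atTop
      (nhds (⨅ n, μ.real (finb_ev d n))) := by
    apply tendsto_atTop_ciInf
    · intro n n' h
      exact measureReal_mono (hanti h)
    · refine ⟨0, ?_⟩
      rintro _ ⟨n, rfl⟩
      exact measureReal_nonneg
  rw [tendsto_nhds_unique hlim hlim2, th0]
  congr 1
  funext n
  exact hsup n

end FKB
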