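import Pool.Agent.FKB.ChainSeed

open Finset
noncomputable section
namespace FKB

variable {V : Type*} [DecidableEq V]

/-- exactly one first open seed, if there is an open seed -/
theorem seeds_first (S : ℕ → Prop) (n : ℕ) :
    ∑ i ∈ Finset.range n, ind (S i ∧ ∀ i' < i, ¬ S i') = 1 - ind (∀ i < n, ¬ S i) := by
  induction n with
  | zero =>
    rw [Finset.sum_range_zero, ind_true (fun i hi => absurd hi (Nat.not_lt_zero i)), sub_self]
  | succ n ih =>
    rw [Finset.sum_range_succ, ih]
    by_cases h : ∀ i < n, ¬ S i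
    · by_cases hn : S n
      · rw [ind_true h, ind_true ⟨hn, h⟩, ind_false (fun h' => h' n (Nat.lt_succ_self n) hn)]
        ring
      · rw [ind_true h, ind_false (fun h' => hn h'.1), ind_true]
        · ring
        · intro i hi
          rcases Nat.lt_succ_iff_lt_or_eq.mp hi with h1 | h1
          · exact h i h1
          · rw [h1]; exact hn
    · rw [ind_false h, ind_false (fun h' => h h'.2),
        ind_false (fun h' => h (fun i hi => h' i (Nat.lt_succ_of_lt hi)))]
      ring

/-- the full configuration has probability bounded below -/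
theorem seeds_full {D : Finset (V × V)} {p q : ℝ} (hq : 1 ≤ q) (hp0 : 0 < p) (hp1 : p ≤ 1) :
    (p / q) ^ D.card ≤ P D (fun _ => p) q (fun A => D ⊆ A) := by
  have hq0 : 0 < q := lt_of_lt_of_le one_pos hq
  have hadm : Adm D (fun _ => p) := fun _ _ => ⟨hp0.le, hp1⟩
  have hZ : 0 < Z D (fun _ => p) q := Z_pos hq0 hadm
  have hqi : q⁻¹ ≤ 1 := inv_le_one_of_one_le₀ hq
  have hqi0 : 0 < q⁻¹ := inv_pos.mpr hq0
  have hZ1 : Z D (fun _ => p) q ≤ 1 := by
    unfold Z
    have h1 : ∑ A ∈ D.powerset, ((∏ _e ∈ A, p) * ∏ _e ∈ D \ A, (1 - p)) = 1 := by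
      rw [← Finset.prod_add]
      simp
    rw [← h1]
    refine Finset.sum_le_sum fun A _ => ?_
    unfold wt
    have h2 : 0 ≤ (∏ _e ∈ A, p) * ∏ _e ∈ D \ A, (1 - p) :=
      mul_nonneg (Finset.prod_nonneg fun _ _ => hp0.le)
        (Finset.prod_nonneg fun _ _ => by linarith)
    exact mul_le_of_le_one_right h2 (pow_le_one₀ hqi0.le hqi)
  have h3 : P D (fun _ => p) q (fun A => D ⊆ A) = wt D (fun _ => p) q D / Z D (fun _ => p) q := by
    unfold P E
    congr 1
    rw [Finset.sum_eq_single_of_mem D (Finset.mem_powerset_self D)]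
    · simp only
      rw [ind_true (Finset.Subset.refl D), mul_one]
    · intro A hA hne
      rw [Finset.mem_powerset] at hA
      simp only
      rw [ind_false (fun h => hne (Finset.Subset.antisymm hA h)), mul_zero]
  rw [h3]
  have h4 : (p / q) ^ D.card ≤ wt D (fun _ => p) q D := by
    unfold wt
    rw [Finset.sdiff_self, Finset.prod_empty, mul_one, Finset.prod_const, div_pow, div_eq_mul_inv,
      ← inv_pow]
    exact mul_le_mul_of_nonneg_left (pow_le_pow_of_le_one hqi0.le hqi (rk_le_card D))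
      (by positivity)
  refine h4.trans ?_
  rw [le_div_iff₀ hZ]
  exact mul_le_of_le_one_right (le_trans (by positivity) h4) hZ1

section geo

variable {d : ℕ} {N : ℕ} {j j' : Fin d} {s : ℤ} {r i : ℕ}

theorem seeds_pos_j (t u : ℤ) : pos N j j' s t u j = s * (N - t) := by
  simp [pos]

theorem seeds_pos_j' (hj : j ≠ j') (t u : ℤ) : pos N j j' s t u j' = u := by
  simp [pos, hj.symm]

theorem seeds_disj (hj : j ≠ j') (hr : 1 ≤ r) {i' : ℕ} (h : i ≠ i') :
    Disjoint (lat (seedBox N j j' s r i)) (lat (seedBox N j j' s r i')) := by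
  rw [Finset.disjoint_left]
  intro e h1 h2
  have a1 := (verts_lat _ e h1).1
  have a2 := (verts_lat _ e h2).1
  unfold seedBox at a1 a2
  rw [mem_cube] at a1 a2
  have b1 := a1 j'
  have b2 := a2 j'
  rw [seeds_pos_j' hj, abs_le] at b1 b2
  rcases Nat.lt_or_gt_of_ne h with h3 | h3
  · have h4 : (i : ℤ) + 1 ≤ i' := by exact_mod_cast h3
    have h5 : (1 : ℤ) ≤ r := by exact_mod_cast hr
    nlinarith [b1.1, b1.2, b2.1, b2.2]
  · have h4 : (i' : ℤ) + 1 ≤ i := by exact_mod_cast h3
    have h5 : (1 : ℤ) ≤ r := by exact_mod_cast hr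
    nlinarith [b1.1, b1.2, b2.1, b2.2]

/-- the seed is connected to the face -/
theorem seeds_face (hs : s = 1 ∨ s = -1) (hm : 16 * r * i + r ≤ N) :
    ∃ y ∈ cube (0 : Pt d) N, y j = s * N ∧
      Conn (lat (seedBox N j j' s r i)) (pos N j j' s r (16 * r * i)) y := by
  refine ⟨pos N j j' s 0 (16 * r * i), ?_, ?_, ?_⟩
  · rw [mem_cube]
    intro a
    rw [Pi.zero_apply, sub_zero]
    have hN : (16 : ℤ) * r * i + r ≤ N := by exact_mod_cast hm
    unfold pos
    split_ifs with h1 h2
    · rcases hs with hs | hs <;> rw [hs] <;> simp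
    · rw [abs_of_nonneg (by positivity)]
      linarith [Int.natCast_nonneg r]
    · simp
  · rw [seeds_pos_j]; ring
  · unfold seedBox
    apply conn_lat_cube
    · rw [mem_cube]
      intro a
      rw [sub_self, abs_zero]
      exact Int.natCast_nonneg r
    · rw [mem_cube]
      intro a
      unfold pos
      split_ifs with h1 h2
      · have : s * ((N : ℤ) - 0) - s * ((N : ℤ) - r) = s * r := by ring
        rw [this]
        rcases hs with hs | hs <;> rw [hs] <;> simp
      · simp
      · simp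

theorem seeds_card : (lat (seedBox N j j' s r i)).card ≤ ((2 * r + 1) ^ d) ^ 2 := by
  unfold lat seedBox
  refine (Finset.card_filter_le _ _).trans ?_
  rw [Finset.card_product, card_cube, sq]

end geo

theorem main_cube {d k : ℕ} (hd : 2 ≤ d) (hk : 1 ≤ k) {p : ℝ} (hp0 : 0 < p) (hp1 : p < 1)
    (hth : 0 < th1 d p (2 * k : ℝ))
    (hleft : ∀ s : ℝ, 0 < s → ∃ p0, 0 < p0 ∧ p0 < p ∧
      (1 - s) * th1 d p (2 * k : ℝ) ≤ th1 d p0 (2 * k : ℝ))
    {ε : ℝ} (hε : 0 < ε) :
    ∃ n0 : ℕ, ∀ N : ℕ, n0 ≤ N → ∀ (j : Fin d) (s : ℤ), (s = 1 ∨ s = -1) →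
      th1 d p (2 * k : ℝ) - ε ≤
        P (lat (cube (0 : Pt d) N)) (fun _ => p) (2 * k : ℝ)
          (fun A => ∃ y ∈ cube (0 : Pt d) N, y j = s * N ∧ Conn A 0 y) := by
  set q : ℝ := 2 * k with hqdef
  have hk1 : (1 : ℝ) ≤ k := by exact_mod_cast hk
  have hq : 1 ≤ q := by rw [hqdef]; linarith
  have hq0 : 0 < q := lt_of_lt_of_le one_pos hq
  set θ : ℝ := th1 d p q with hθ
  have hθ1 : θ ≤ 1 := (th1_le (l := 0) hq hp0.le hp1.le).trans (th_le_one hq hp0.le hp1.le)
  obtain ⟨r, hr, H⟩ := chain_seed hd hk hp0 hp1 hth hleft (half_pos hε)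
  -- the probability that a given seed is open
  set c : ℝ := (p / q) ^ (((2 * r + 1) ^ d) ^ 2) with hc
  have hc0 : 0 < c := by positivity
  have hpq : p / q ≤ 1 := by
    rw [div_le_one hq0]; linarith
  have hc1 : c ≤ 1 := pow_le_one₀ (by positivity) hpq
  obtain ⟨Nb, hNb⟩ := exists_pow_lt_of_lt_one (half_pos hε) (show 1 - c < 1 by linarith)
  obtain ⟨n0, hn0⟩ := H Nb
  refine ⟨max n0 (16 * r * Nb + r), fun N hN j s hs => ?_⟩
  have hN0 : n0 ≤ N := (le_max_left _ _).trans hN
  have hN1 : 16 * r * Nb + r ≤ N := (le_max_right _ _).trans hN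
  obtain ⟨j', hj⟩ : ∃ j' : Fin d, j ≠ j' := by
    have : Nontrivial (Fin d) := Fin.nontrivial_iff_two_le.mpr hd
    obtain ⟨j', hj'⟩ := exists_ne j
    exact ⟨j', hj'.symm⟩
  have hi : ∀ i, i < Nb → 16 * r * i + r ≤ N := by
    intro i hi
    have : 16 * r * i ≤ 16 * r * Nb := Nat.mul_le_mul_left _ hi.le
    omega
  set D : Finset (Pt d × Pt d) := lat (cube 0 N) with hD
  have hadm : Adm D (fun _ => p) := fun _ _ => ⟨hp0.le, hp1.le⟩
  set U : ℕ → Finset (Pt d × Pt d) := fun i => lat (seedBox N j j' s r i) with hU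
  have hUD : ∀ i, i < Nb → U i ⊆ D := by
    intro i hi'
    refine (seed_sub hs hj ?_ (hi i hi')).trans Finset.sdiff_subset
    have := hi i hi'
    omega
  set T : Finset (Pt d × Pt d) → Prop :=
    fun A => ∃ y ∈ cube (0 : Pt d) N, y j = s * N ∧ Conn A 0 y with hT
  set Ev : ℕ → Finset (Pt d × Pt d) → Prop :=
    fun i A => U i ⊆ A ∧ ∀ i' < i, ¬ U i' ⊆ A with hEv
  -- no open seed
  have hnone : P D (fun _ => p) q (fun A => ∀ i < Nb, ¬ U i ⊆ A) ≤ ε / 2 := by
    have h1 := P_bad (Finset.range Nb) hq hadm U (fun i hi' => hUD i (Finset.mem_range.mp hi'))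
      (fun i _ i' _ hne => seeds_disj hj hr hne) (fun _ => p)
      (fun i _ e _ => ⟨hp0.le, le_refl _⟩) (fun i A => ¬ U i ⊆ A)
      (fun i _ A B hAB _ hB hA => hB (hA.trans hAB))
    have h2 : P D (fun _ => p) q (fun A => ∀ i < Nb, ¬ U i ⊆ A) ≤
        P D (fun _ => p) q (fun A => ∀ i ∈ Finset.range Nb, ¬ U i ⊆ A ∩ U i) := by
      refine P_mono hq0 hadm fun A _ _ _ hA i hi' h => ?_
      exact hA i (Finset.mem_range.mp hi') (h.trans Finset.inter_subset_left)
    refine (h2.trans h1).trans ?_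
    calc ∏ i ∈ Finset.range Nb, P (U i) (fun _ => p) q (fun A => ¬ U i ⊆ A)
        ≤ ∏ _i ∈ Finset.range Nb, (1 - c) := by
          refine Finset.prod_le_prod (fun i _ => P_nonneg hq0 (fun _ _ => ⟨hp0.le, hp1.le⟩) _)
            (fun i _ => ?_)
          rw [P_compl hq0 (fun _ _ => ⟨hp0.le, hp1.le⟩)]
          have h3 := seeds_full (D := U i) hq hp0 hp1.le
          have h4 : c ≤ (p / q) ^ (U i).card :=
            pow_le_pow_of_le_one (by positivity) hpq seeds_card
          linarith
      _ = (1 - c) ^ Nb := by rw [Finset.prod_const, Finset.card_range]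
      _ ≤ ε / 2 := hNb.le
  -- one seed
  have hone : ∀ i, i < Nb → P D (fun _ => p) q (Ev i) * (θ - ε / 2) ≤
      P D (fun _ => p) q (fun A => Ev i A ∧ T A) := by
    intro i hi'
    set D2 : Finset (Pt d × Pt d) := (Finset.range (i + 1)).biUnion U with hD2
    have hUD2 : ∀ i', i' ≤ i → U i' ⊆ D2 := by
      intro i' h
      exact Finset.subset_biUnion_of_mem U (Finset.mem_range.mpr (by omega))
    have hD2D : D2 ⊆ D := by
      rw [hD2, Finset.biUnion_subset]
      intro i' h
      exact hUD i' (by rw [Finset.mem_range] at h; omega)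
    set D3 : Finset (Pt d × Pt d) := (Finset.range i).biUnion U with hD3
    set w' : Pt d × Pt d → ℝ := fun e => if e ∈ U i then 1 else if e ∈ D3 then 0 else p with hw'
    have hadm' : Adm D w' := by
      intro e _
      simp only [hw']
      split_ifs
      · exact ⟨zero_le_one, le_refl _⟩
      · exact ⟨le_refl _, zero_le_one⟩
      · exact ⟨hp0.le, hp1.le⟩
    have hEvi : ∀ A, Ev i (A ∩ D2) ↔ Ev i A := by
      intro A
      simp only [hEv]
      constructor
      · rintro ⟨h1, h2⟩
        refine ⟨h1.trans Finset.inter_subset_left, fun i' hi2 h3 => h2 i' hi2 ?_⟩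
        exact Finset.subset_inter h3 (hUD2 i' hi2.le)
      · rintro ⟨h1, h2⟩
        refine ⟨Finset.subset_inter h1 (hUD2 i le_rfl), fun i' hi2 h3 => h2 i' hi2 ?_⟩
        exact h3.trans Finset.inter_subset_left
    have h1 := P_seed (D := D) (D2 := D2) (w := fun _ => p) (w' := w') hq hadm hD2D hadm'
      (fun e he => by
        simp only [hw']
        rw [Finset.mem_sdiff] at he
        have a1 : e ∉ U i := fun h => he.2 (hUD2 i le_rfl h)
        rw [if_neg a1]
        split_ifs
        · exact hp0.le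
        · exact le_refl _)
      (Ev i) (fun A => Conn A (pos N j j' s r (16 * r * i)) 0)
      (fun A B hAB _ => ind_mono (fun h => h.mono' hAB))
      (fun B _ hGB e he => by
        simp only [hw']
        by_cases a1 : e ∈ U i
        · rw [if_pos a1, ind_true (hGB.1 a1)]
        · rw [if_neg a1]
          have a2 : e ∈ D3 := by
            rw [hD2, Finset.mem_biUnion] at he
            obtain ⟨i', hi2, hi3⟩ := he
            rw [hD3, Finset.mem_biUnion]
            refine ⟨i', ?_, hi3⟩
            rw [Finset.mem_range] at hi2 ⊢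
            rcases Nat.lt_succ_iff_lt_or_eq.mp hi2 with h | h
            · exact h
            · rw [h] at hi3; exact absurd hi3 a1
          rw [if_pos a2]
          exact ind_nonneg _)
    have h2 : P D w' q (fun A => Conn A (pos N j j' s r (16 * r * i)) 0) =
        P (DD N j j' s r i) (pr (OO N j j' s r i) p) q
          (fun A => Conn A (pos N j j' s r (16 * r * i)) 0) := by
      unfold P
      rw [E_drop (D := DD N j j' s r i) hq0 hadm' Finset.sdiff_subset]
      · apply E_w_congr
        intro e he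
        simp only [hw', pr]
        change (if e ∈ U i then 1 else if e ∈ D3 then 0 else p) = if e ∈ U i then 1 else p
        have a2 : e ∉ D3 := (Finset.mem_sdiff.mp he).2
        rw [if_neg a2]
      · intro e he
        simp only [hw']
        have a2 : e ∈ D3 := by
          by_contra h
          rw [Finset.mem_sdiff] at he
          exact he.2 (Finset.mem_sdiff.mpr ⟨he.1, h⟩)
        have a1 : e ∉ U i := by
          intro h
          rw [hD3, Finset.mem_biUnion] at a2
          obtain ⟨i', hi2, hi3⟩ := a2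
          rw [Finset.mem_range] at hi2
          exact Finset.disjoint_left.mp (seeds_disj hj hr (ne_of_gt hi2)) h hi3
        rw [if_neg a1, if_pos a2]
    have h3 := hn0 N hN0 j j' s hj hs i hi'
    rw [← h2] at h3
    have h4 : P D (fun _ => p) q (fun A => Ev i (A ∩ D2)) = P D (fun _ => p) q (Ev i) := by
      unfold P
      exact E_congr fun A _ => ind_congr (hEvi A)
    rw [h4] at h1
    refine (mul_le_mul_of_nonneg_left h3 (P_nonneg hq0 hadm _)).trans (h1.trans ?_)
    refine P_mono hq0 hadm fun A _ _ _ hA => ?_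
    have hA1 := (hEvi A).mp hA.1
    refine ⟨hA1, ?_⟩
    obtain ⟨y, hy1, hy2, hy3⟩ := seeds_face (d := d) (N := N) (j := j) (j' := j') (s := s) (r := r)
      (i := i) hs (hi i hi')
    exact ⟨y, hy1, hy2, hA.2.symm'.trans' (hy3.mono' hA1.1)⟩
  -- sum over the seeds
  have hsum1 : ∑ i ∈ Finset.range Nb, P D (fun _ => p) q (fun A => Ev i A ∧ T A) ≤
      P D (fun _ => p) q T := by
    unfold P
    rw [← E_sum]
    refine E_mono hq0 hadm fun A _ => ?_
    calc ∑ i ∈ Finset.range Nb, ind (Ev i A ∧ T A)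
        = (∑ i ∈ Finset.range Nb, ind (Ev i A)) * ind (T A) := by
          rw [Finset.sum_mul]
          exact Finset.sum_congr rfl fun i _ => ind_and _ _
      _ ≤ 1 * ind (T A) := by
          refine mul_le_mul_of_nonneg_right ?_ (ind_nonneg _)
          have := seeds_first (fun i => U i ⊆ A) Nb
          simp only [hEv]
          rw [this]
          linarith [ind_nonneg (∀ i < Nb, ¬ U i ⊆ A)]
      _ = ind (T A) := one_mul _
  have hsum2 : ∑ i ∈ Finset.range Nb, P D (fun _ => p) q (Ev i) =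
      1 - P D (fun _ => p) q (fun A => ∀ i < Nb, ¬ U i ⊆ A) := by
    rw [← P_compl hq0 hadm]
    unfold P
    rw [← E_sum]
    refine E_congr fun A _ => ?_
    rw [ind_not]
    exact seeds_first (fun i => U i ⊆ A) Nb
  have hfin : (1 - P D (fun _ => p) q (fun A => ∀ i < Nb, ¬ U i ⊆ A)) * (θ - ε / 2) ≤
      P D (fun _ => p) q T := by
    rw [← hsum2, Finset.sum_mul]
    exact (Finset.sum_le_sum fun i hi' => hone i (Finset.mem_range.mp hi')).trans hsum1
  set x : ℝ := P D (fun _ => p) q (fun A => ∀ i < Nb, ¬ U i ⊆ A) with hx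
  have hx0 : 0 ≤ x := P_nonneg hq0 hadm _
  have hT0 : 0 ≤ P D (fun _ => p) q T := P_nonneg hq0 hadm _
  by_cases hcase : θ - ε / 2 ≤ 0
  · linarith
  · push Not at hcase
    nlinarith

end FKB
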