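import Pool.Agent.FKB.LimitA
import Pool.Agent.FKB.Seeds

open Finset
noncomputable section
namespace FKB

/-- a point of `(p0, p)` where `th1` is left-continuous (relative form) -/
theorem limB_point {d : ℕ} {q p0 p : ℝ} (hq : 1 ≤ q) (h0 : 0 ≤ p0) (h1 : p0 < p) (h2 : p ≤ 1)
    (hpos : 0 < th0 d p0 q) :
    ∃ p', p0 < p' ∧ p' < p ∧ 0 < th1 d p' q ∧
      ∀ s : ℝ, 0 < s → ∃ p0', 0 < p0' ∧ p0' < p' ∧ (1 - s) * th1 d p' q ≤ th1 d p0' q := by
  set f : ℝ → ℝ := fun x => th1 d (max 0 (min 1 x)) q with hf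
  have hmono : Monotone f := by
    intro x y hxy
    apply th1_mono hq (le_max_left _ _)
    · exact max_le_max le_rfl (min_le_min le_rfl hxy)
    · exact max_le zero_le_one (min_le_left _ _)
  have hfx : ∀ x, 0 ≤ x → x ≤ 1 → f x = th1 d x q := by
    intro x hx0 hx1
    simp only [hf]
    rw [min_eq_right hx1, max_eq_right hx0]
  have hc := hmono.countable_not_continuousAt
  obtain ⟨p', hp', hcont⟩ : ∃ p' ∈ Set.Ioo p0 p, ContinuousAt f p' := by
    by_contra hcon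
    push Not at hcon
    have hsub : Set.Ioo p0 p ⊆ {x | ¬ ContinuousAt f x} := fun x hx => hcon x hx
    have h3 := hc.mono hsub
    exact (Cardinal.Real.Ioo_countable_iff.mp h3).not_gt h1
  have hp'0 : 0 < p' := lt_of_le_of_lt h0 hp'.1
  have hp'1 : p' < 1 := lt_of_lt_of_le hp'.2 h2
  have hth : 0 < th1 d p' q := by
    have h4 := th0_mono (d := d) hq h0 hp'.1.le hp'1.le
    have h5 := th0_le_th1 (d := d) hq hp'0.le hp'1.le
    linarith
  refine ⟨p', hp'.1, hp'.2, hth, ?_⟩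
  intro s hs
  rw [Metric.continuousAt_iff] at hcont
  obtain ⟨δ, hδ, hcl⟩ := hcont (s * th1 d p' q) (mul_pos hs hth)
  set x : ℝ := max (p' - δ / 2) (p' / 2) with hx
  have hx1 : x < p' := by
    rw [hx]; apply max_lt <;> linarith
  have hx0 : 0 < x := by
    rw [hx]; exact lt_of_lt_of_le (by linarith) (le_max_right _ _)
  have hx2 : p' - δ / 2 ≤ x := le_max_left _ _
  refine ⟨x, hx0, hx1, ?_⟩
  have h6 : dist x p' < δ := by
    rw [Real.dist_eq, abs_lt]; constructor <;> linarith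
  have h7 := hcl h6
  rw [Real.dist_eq, abs_lt, hfx x hx0.le (by linarith), hfx p' hp'0.le hp'1.le] at h7
  linarith [h7.1]

/-- the lower bound, at every left-continuity point of the free density -/
theorem lower_box {d k : ℕ} (hd : 2 ≤ d) (hk : 1 ≤ k) {p : ℝ} (hp0 : 0 ≤ p) (hp1 : p ≤ 1)
    (hleft : ∀ s : ℝ, 0 < s → ∃ p0, 0 ≤ p0 ∧ p0 < p ∧
      th0 d p (2 * k : ℝ) - s ≤ th0 d p0 (2 * k : ℝ))
    {ε : ℝ} (hε : 0 < ε) :
    ∃ n0 : ℕ, ∀ a b : Pt d, (∀ i, a i ≤ -(n0 : ℤ)) → (∀ i, (n0 : ℤ) ≤ b i) →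
      th0 d p (2 * k : ℝ) - ε ≤
        P (lat (Finset.Icc a b)) (fun _ => p) (2 * k : ℝ)
          (fun A => ∃ y ∈ bd (Finset.Icc a b), Conn A 0 y) := by
  have hk' : (1 : ℝ) ≤ k := by exact_mod_cast hk
  have hq : (1 : ℝ) ≤ 2 * k := by linarith
  have hq0 : (0 : ℝ) < 2 * k := by linarith
  by_cases hbig : th0 d p (2 * k : ℝ) ≤ ε
  · refine ⟨0, fun a b _ _ => ?_⟩
    have := P_nonneg (D := lat (Finset.Icc a b)) (w := fun _ => p) hq0 (fun _ _ => ⟨hp0, hp1⟩)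
      (fun A => ∃ y ∈ bd (Finset.Icc a b), Conn A 0 y)
    linarith
  push Not at hbig
  obtain ⟨p0, h00, h0p, hp0'⟩ := hleft (ε / 2) (half_pos hε)
  have hpos : 0 < th0 d p0 (2 * k : ℝ) := by linarith
  obtain ⟨p', hpp0, hpp, hth, hlc⟩ := limB_point hq h00 h0p hp1 hpos
  have hp'0 : 0 < p' := lt_of_le_of_lt h00 hpp0
  have hp'1 : p' < 1 := lt_of_lt_of_le hpp hp1
  obtain ⟨n0, hn0⟩ := main_cube hd hk hp'0 hp'1 hth hlc (half_pos hε)
  refine ⟨n0, ?_⟩
  intro a b ha hb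
  have hne : (Finset.univ : Finset (Fin d)).Nonempty := ⟨⟨0, by omega⟩, Finset.mem_univ _⟩
  obtain ⟨j, _, hj⟩ := Finset.exists_min_image Finset.univ (fun i => min (-a i) (b i)) hne
  have hgj : (n0 : ℤ) ≤ min (-a j) (b j) := le_min (by linarith [ha j]) (hb j)
  obtain ⟨N, hN⟩ : ∃ N : ℕ, (N : ℤ) = min (-a j) (b j) :=
    ⟨(min (-a j) (b j)).toNat, Int.toNat_of_nonneg (by
      have : (0 : ℤ) ≤ n0 := Int.natCast_nonneg _
      linarith)⟩
  have hN0 : n0 ≤ N := by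
    have : (n0 : ℤ) ≤ N := by rw [hN]; exact hgj
    exact_mod_cast this
  have hsub : cube (0 : Pt d) N ⊆ Finset.Icc a b := by
    intro x hx
    rw [mem_cube] at hx
    rw [Finset.mem_Icc]
    have hx' : ∀ i, -(N : ℤ) ≤ x i ∧ x i ≤ N := by
      intro i
      have := hx i
      simp only [Pi.zero_apply, sub_zero] at this
      exact abs_le.mp this
    have hNi : ∀ i, (N : ℤ) ≤ -a i ∧ (N : ℤ) ≤ b i := by
      intro i
      have := hj i (Finset.mem_univ i)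
      rw [← hN] at this
      exact le_min_iff.mp this
    constructor
    · intro i; linarith [(hx' i).1, (hNi i).1]
    · intro i; linarith [(hx' i).2, (hNi i).2]
  -- the face
  obtain ⟨s, hs, hface⟩ : ∃ s : ℤ, (s = 1 ∨ s = -1) ∧
      ∀ y ∈ cube (0 : Pt d) N, y j = s * N → y ∈ bd (Finset.Icc a b) := by
    rcases min_choice (-a j) (b j) with hm | hm
    · refine ⟨-1, Or.inr rfl, ?_⟩
      intro y hy hyj
      unfold bd
      rw [Finset.mem_filter]
      refine ⟨hsub hy, j, Or.inr ?_⟩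
      intro hcon
      rw [Finset.mem_Icc] at hcon
      have h3 := hcon.1 j
      simp only [Pi.sub_apply, Pi.single_eq_same] at h3
      rw [hyj, hN, hm] at h3
      linarith
    · refine ⟨1, Or.inl rfl, ?_⟩
      intro y hy hyj
      unfold bd
      rw [Finset.mem_filter]
      refine ⟨hsub hy, j, Or.inl ?_⟩
      intro hcon
      rw [Finset.mem_Icc] at hcon
      have h3 := hcon.2 j
      simp only [Pi.add_apply, Pi.single_eq_same] at h3
      rw [hyj, hN, hm] at h3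
      linarith
  have hmain := hn0 N hN0 j s hs
  have s1 : P (lat (cube (0 : Pt d) N)) (fun _ => p') (2 * k : ℝ)
      (fun A => ∃ y ∈ cube (0 : Pt d) N, y j = s * N ∧ Conn A 0 y) ≤
      P (lat (Finset.Icc a b)) (fun _ => p) (2 * k : ℝ)
      (fun A => ∃ y ∈ cube (0 : Pt d) N, y j = s * N ∧ Conn A 0 y) := by
    apply E_dom hq (fun _ _ => ⟨hp'0.le, hp'1.le⟩) (fun _ _ => ⟨hp0, hp1⟩) (lat_mono hsub)
      (fun _ _ => hpp.le)
    intro A B hAB _
    apply ind_mono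
    rintro ⟨y, hy, hyj, hc⟩
    exact ⟨y, hy, hyj, hc.mono' hAB⟩
  have s2 : P (lat (Finset.Icc a b)) (fun _ => p) (2 * k : ℝ)
      (fun A => ∃ y ∈ cube (0 : Pt d) N, y j = s * N ∧ Conn A 0 y) ≤
      P (lat (Finset.Icc a b)) (fun _ => p) (2 * k : ℝ)
          (fun A => ∃ y ∈ bd (Finset.Icc a b), Conn A 0 y) := by
    apply P_mono hq0 (fun _ _ => ⟨hp0, hp1⟩)
    intro A _ _ _
    rintro ⟨y, hy, hyj, hc⟩
    exact ⟨y, hface y hy hyj, hc⟩
  have h5 := th0_le_th1 (d := d) hq hp'0.le hp'1.le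
  have h6 := th0_mono (d := d) hq h00 hpp0.le hp'1.le
  linarith

end FKB
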