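import Pool.Agent.FKB.FinB
import Pool.Agent.FKB.LimitB

open Finset MeasureTheory Filter
noncomputable section
namespace FKB

/-- the free box one-arm probability -/
def finC_beta {d : ℕ} (a b : Pt d) (p q : ℝ) : ℝ :=
  P (lat (Finset.Icc a b)) (fun _ => p) q (fun A => ∃ y ∈ bd (Finset.Icc a b), Conn A 0 y)

theorem finC_phi {d : ℕ} (a b : Pt d) (p : ℝ) {q : ℝ} (hq : 0 < q) :
    phi0 (Finset.Icc a b) p q (toBoundary (Finset.Icc a b)) = finC_beta a b p q := by
  rw [phi0_eq _ _ hq]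
  unfold finC_beta P
  refine E_congr fun A _ => ind_congr ?_
  unfold toBoundary
  simp only [Set.mem_ofPred_eq, reachable_iff]

theorem finC_exhausts {d : ℕ} {a b : ℕ → Pt d} (hab : Exhausts a b) (n0 : ℕ) :
    ∀ᶠ m in atTop, (∀ i, a m i ≤ -(n0 : ℤ)) ∧ (∀ i, (n0 : ℤ) ≤ b m i) := by
  obtain ⟨m1, h1⟩ := hab.cover (fun _ => -(n0 : ℤ))
  obtain ⟨m2, h2⟩ := hab.cover (fun _ => (n0 : ℤ))
  rw [Finset.mem_Icc] at h1 h2
  filter_upwards [eventually_ge_atTop (max m1 m2)] with m hm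
  constructor
  · intro i
    exact (hab.anti ((le_max_left _ _).trans hm) i).trans (h1.1 i)
  · intro i
    exact (h2.2 i).trans (hab.mono ((le_max_right _ _).trans hm) i)

theorem finC_adm {d : ℕ} (D : Finset (Pt d × Pt d)) {p : ℝ} (hp0 : 0 ≤ p) (hp1 : p ≤ 1) :
    Adm D (fun _ => p) := fun _ _ => ⟨hp0, hp1⟩

/-- at `p = 0` the free density vanishes -/
theorem finC_zero {d : ℕ} {q : ℝ} (hq : 1 ≤ q) : th0 d 0 q ≤ 0 := by
  have hq0 : 0 < q := lt_of_lt_of_le one_pos hq
  have h1 : ∀ m, fth d m 1 0 q ≤ 0 := by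
    intro m
    unfold fth
    calc P (lat (cube (0 : Pt d) m)) (fun _ => (0 : ℝ)) q (fun A => Far 1 A 0) ≤
        P (lat (cube (0 : Pt d) m)) (fun _ => (0 : ℝ)) q (fun _ => False) := by
          refine P_mono hq0 (finC_adm _ le_rfl zero_le_one) fun A _ _ hA hfar => ?_
          have hA0 : A = ∅ := Finset.eq_empty_of_forall_notMem fun e he => hA e he rfl
          subst hA0
          obtain ⟨y, hy, hc⟩ := hfar
          rw [Finset.empty_inter] at hc
          have h2 : y = 0 := ((hc.inv (fun v => v = 0) (fun e he => by simp at he)).1 rfl)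
          subst h2
          rw [mem_bd_cube] at hy
          obtain ⟨_, i, hi⟩ := hy
          simp at hi
      _ = 0 := by
          unfold P
          have : (fun _ : Finset (Pt d × Pt d) => ind False) = fun _ => (0 : ℝ) := by
            funext A
            exact ind_false not_false
          rw [this]
          exact E_const hq0 (finC_adm _ le_rfl zero_le_one) 0
  have hnn : ∀ n m, 0 ≤ fth d m n 0 q := fun n m =>
    P_nonneg hq0 (finC_adm _ le_rfl zero_le_one) _
  unfold th0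
  have hb : BddBelow (Set.range fun n : ℕ => ⨆ m : ℕ, fth d m n 0 q) := by
    refine ⟨0, ?_⟩
    rintro _ ⟨n, rfl⟩
    exact Real.iSup_nonneg (fun m => hnn n m)
  exact (ciInf_le hb 1).trans (Real.iSup_nonpos h1)

/-- `th0 ≤ 1` -/
theorem finC_le_one {d : ℕ} {p q : ℝ} (hq : 1 ≤ q) (hp0 : 0 ≤ p) (hp1 : p ≤ 1) :
    th0 d p q ≤ 1 := by
  have hq0 : 0 < q := lt_of_lt_of_le one_pos hq
  have h1 : ∀ n m, fth d m n p q ≤ 1 := fun n m =>
    P_le_one hq0 (finC_adm _ hp0 hp1) _
  have hnn : ∀ n m, 0 ≤ fth d m n p q := fun n m =>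
    P_nonneg hq0 (finC_adm _ hp0 hp1) _
  unfold th0
  have hb : BddBelow (Set.range fun n : ℕ => ⨆ m : ℕ, fth d m n p q) := by
    refine ⟨0, ?_⟩
    rintro _ ⟨n, rfl⟩
    exact Real.iSup_nonneg (fun m => hnn n m)
  exact (ciInf_le hb 0).trans (ciSup_le fun m => h1 0 m)

/-- the straight line from the origin to the boundary -/
theorem finC_line {d : ℕ} (i : Fin d) {a b : Pt d} (ha : ∀ j, a j ≤ 0) (hb : ∀ j, 0 ≤ b j)
    (t : ℕ) (ht : (t : ℤ) ≤ b i) :
    Pi.single i (t : ℤ) ∈ Finset.Icc a b ∧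
      Conn (lat (Finset.Icc a b)) 0 (Pi.single i (t : ℤ)) := by
  have hmem : ∀ t : ℕ, (t : ℤ) ≤ b i → (Pi.single i (t : ℤ) : Pt d) ∈ Finset.Icc a b := by
    intro t ht
    rw [Finset.mem_Icc, Pi.le_def, Pi.le_def]
    constructor
    · intro j
      by_cases hj : j = i
      · subst hj
        rw [Pi.single_eq_same]
        exact (ha j).trans (by positivity)
      · rw [Pi.single_eq_of_ne hj]
        exact ha j
    · intro j
      by_cases hj : j = i
      · subst hj
        rw [Pi.single_eq_same]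
        exact ht
      · rw [Pi.single_eq_of_ne hj]
        exact hb j
  refine ⟨hmem t ht, ?_⟩
  induction t with
  | zero =>
    have : (Pi.single i ((0 : ℕ) : ℤ) : Pt d) = 0 := by simp
    rw [this]
    exact Conn.rfl' _ _
  | succ t ih =>
    have ht' : (t : ℤ) ≤ b i := by push_cast at ht; omega
    refine (ih ht').trans' ?_
    refine Conn.edge (e := ((Pi.single i (t : ℤ) : Pt d),
      (Pi.single i ((t + 1 : ℕ) : ℤ) : Pt d))) ?_
    rw [latgeo_mem_lat]
    refine ⟨⟨hmem t ht', hmem (t + 1) ht⟩, i, ?_⟩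
    show (Pi.single i ((t + 1 : ℕ) : ℤ) : Pt d) = Pi.single i (t : ℤ) + Pi.single i 1
    rw [← Pi.single_add]
    push_cast
    rfl

/-- at `p = 1` the box probability is `1` -/
theorem finC_one {d : ℕ} (hd : 1 ≤ d) {q : ℝ} (hq : 1 ≤ q) {a b : Pt d} (ha : ∀ j, a j ≤ 0)
    (hb : ∀ j, 0 ≤ b j) : 1 ≤ finC_beta a b 1 q := by
  have hq0 : 0 < q := lt_of_lt_of_le one_pos hq
  unfold finC_beta
  have hadm := finC_adm (lat (Finset.Icc a b)) zero_le_one (le_refl (1 : ℝ))
  calc (1 : ℝ) = E (lat (Finset.Icc a b)) (fun _ => (1 : ℝ)) q (fun _ => 1) :=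
        (E_const hq0 hadm 1).symm
    _ = P (lat (Finset.Icc a b)) (fun _ => (1 : ℝ)) q (fun _ => True) := by
        unfold P
        exact E_congr fun A _ => (ind_true trivial).symm
    _ ≤ _ := by
        refine P_mono hq0 hadm fun A hA h1 _ _ => ?_
        have hAeq : A = lat (Finset.Icc a b) :=
          Finset.Subset.antisymm hA (fun e he => h1 e he rfl)
        subst hAeq
        have i : Fin d := ⟨0, hd⟩
        have hcast : ((b i).toNat : ℤ) = b i := Int.toNat_of_nonneg (hb i)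
        obtain ⟨hm, hc⟩ := finC_line i ha hb (b i).toNat hcast.le
        refine ⟨_, ?_, hc⟩
        rw [bd, Finset.mem_filter]
        refine ⟨hm, i, Or.inl ?_⟩
        intro hmem
        rw [Finset.mem_Icc, Pi.le_def, Pi.le_def] at hmem
        have := hmem.2 i
        rw [Pi.add_apply, Pi.single_eq_same, Pi.single_eq_same, hcast] at this
        omega

/-- the limit at every left-continuity point of the free density -/
theorem limit_left {d k : ℕ} (hd : 2 ≤ d) (hk : 1 ≤ k) {p : ℝ} (hp0 : 0 ≤ p) (hp1 : p ≤ 1)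
    (hleft : p = 0 ∨ p = 1 ∨ ∀ s : ℝ, 0 < s → ∃ p0, 0 ≤ p0 ∧ p0 < p ∧
      th0 d p (2 * k : ℝ) - s ≤ th0 d p0 (2 * k : ℝ))
    (a b : ℕ → Pt d) (hab : Exhausts a b) :
    Tendsto (fun m => phi0 (Finset.Icc (a m) (b m)) p (2 * k : ℝ)
        (toBoundary (Finset.Icc (a m) (b m)))) atTop (nhds (th0 d p (2 * k : ℝ))) := by
  have hk1 : (1 : ℝ) ≤ k := by exact_mod_cast hk
  have hq : (1 : ℝ) ≤ 2 * k := by linarith
  have hq0 : (0 : ℝ) < 2 * k := by linarith
  have hphi : (fun m => phi0 (Finset.Icc (a m) (b m)) p (2 * k : ℝ)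
        (toBoundary (Finset.Icc (a m) (b m)))) = fun m => finC_beta (a m) (b m) p (2 * k : ℝ) := by
    funext m
    exact finC_phi _ _ _ hq0
  rw [hphi]
  -- the lower bound
  have hlow : ∀ ε : ℝ, 0 < ε → ∃ n0 : ℕ, ∀ a b : Pt d, (∀ i, a i ≤ -(n0 : ℤ)) →
      (∀ i, (n0 : ℤ) ≤ b i) → th0 d p (2 * k : ℝ) - ε ≤ finC_beta a b p (2 * k : ℝ) := by
    intro ε hε
    rcases hleft with h | h | h
    · subst h
      refine ⟨0, fun a b _ _ => ?_⟩
      have h1 := finC_zero (d := d) hq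
      have h2 : 0 ≤ finC_beta a b 0 (2 * k : ℝ) :=
        P_nonneg hq0 (finC_adm _ le_rfl zero_le_one) _
      linarith
    · subst h
      refine ⟨0, fun a b ha hb => ?_⟩
      have h1 := finC_le_one (d := d) hq hp0 hp1
      have h2 : 1 ≤ finC_beta a b 1 (2 * k : ℝ) :=
        finC_one (by omega) hq (fun j => by simpa using ha j) (fun j => by simpa using hb j)
      linarith
    · exact lower_box hd hk hp0 hp1 h hε
  rw [Metric.tendsto_atTop]
  intro ε hε
  obtain ⟨n1, h1⟩ := hlow (ε / 2) (by linarith)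
  obtain ⟨n2, h2⟩ := upper_box (d := d) (p := p) (q := (2 * k : ℝ)) (by omega) hq hp0 hp1
    (ε := ε / 2) (by linarith)
  have he := (finC_exhausts hab n1).and (finC_exhausts hab n2)
  obtain ⟨M, hM⟩ := eventually_atTop.1 he
  refine ⟨M, fun m hm => ?_⟩
  obtain ⟨⟨ha1, hb1⟩, ha2, hb2⟩ := hM m hm
  have e1 := h1 (a m) (b m) ha1 hb1
  have e2 := h2 (a m) (b m) ha2 hb2
  have e3 : finC_beta (a m) (b m) p (2 * k : ℝ) ≤ th0 d p (2 * k : ℝ) + ε / 2 := e2
  rw [Real.dist_eq, abs_lt]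
  constructor <;> linarith

/-- final statement, version 1 -/
theorem final_countable {d k : ℕ} (hd : 2 ≤ d) (hk : 1 ≤ k) :
    ∃ N : Set ℝ, N.Countable ∧ ∀ p : ℝ, 0 ≤ p → p ≤ 1 → p ∉ N →
      ∀ μ : Measure (Set (Pt d × Pt d)), IsFreeLimit μ p (2 * k : ℝ) →
      ∀ a b : ℕ → Pt d, Exhausts a b →
      Tendsto (fun m => phi0 (Finset.Icc (a m) (b m)) p (2 * k : ℝ)
        (toBoundary (Finset.Icc (a m) (b m)))) atTop (nhds (μ.real toInfinity)) := by
  have hk1 : (1 : ℝ) ≤ k := by exact_mod_cast hk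
  have hq : (1 : ℝ) ≤ 2 * k := by linarith
  set f : ℝ → ℝ := fun p => th0 d (max 0 (min p 1)) (2 * k : ℝ) with hf
  have hmono : Monotone f := by
    intro x y hxy
    exact th0_mono hq (le_max_left _ _) (max_le_max le_rfl (min_le_min hxy le_rfl))
      (max_le zero_le_one (min_le_right _ _))
  refine ⟨{x | ¬ ContinuousAt f x}, hmono.countable_not_continuousAt, ?_⟩
  intro p hp0 hp1 hpN μ hμ a b hab
  have hc : ContinuousAt f p := by
    by_contra h
    exact hpN h
  rw [free_limit_th0 (by omega) hq hp0 hp1 hμ]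
  refine limit_left hd hk hp0 hp1 ?_ a b hab
  rcases hp0.eq_or_lt with h | h
  · exact Or.inl h.symm
  right
  rcases hp1.eq_or_lt with h' | h'
  · exact Or.inl h'
  right
  intro s hs
  rw [Metric.continuousAt_iff] at hc
  obtain ⟨δ, hδ, hδ2⟩ := hc s hs
  have hpp : p - min (δ / 2) p < p := by
    have : 0 < min (δ / 2) p := lt_min (by linarith) h
    linarith
  have hpp0 : 0 ≤ p - min (δ / 2) p := by
    have := min_le_right (δ / 2) p
    linarith
  refine ⟨p - min (δ / 2) p, hpp0, hpp, ?_⟩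
  have h3 := hδ2 (x := p - min (δ / 2) p) (by
    rw [Real.dist_eq]
    have h4 : p - min (δ / 2) p - p = - min (δ / 2) p := by ring
    rw [h4, abs_neg, abs_of_pos (lt_min (by linarith) h)]
    exact (min_le_left _ _).trans_lt (by linarith))
  have hclamp : ∀ x : ℝ, 0 ≤ x → x ≤ 1 → f x = th0 d x (2 * k : ℝ) := by
    intro x hx0 hx1
    simp only [hf]
    rw [min_eq_left hx1, max_eq_right hx0]
  rw [hclamp _ hpp0 (hpp.le.trans hp1), hclamp _ hp0 hp1, Real.dist_eq, abs_lt] at h3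
  linarith [h3.1]

end FKB
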