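import Pool.Agent.FKB.Defs

/-!
The objects of the final statement, as in the problem file.
A configuration is a set of edges; the edge `{x, x + e_i}` is written `(x, x + e_i)`.
-/

open Finset MeasureTheory Filter
noncomputable section
namespace FKB

variable {d : ℕ}

/-- the graph of the open edges of `ω` with both endpoints in `Λ`, on the vertex set `Λ` -/
def boxGraph (Λ : Finset (Pt d)) (ω : Set (Pt d × Pt d)) : SimpleGraph Λ :=
  SimpleGraph.fromRel (fun x y => ((x : Pt d), (y : Pt d)) ∈ ω)

/-- the graph of the open edges of `ω`, on all lattice points -/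
def openGraph (ω : Set (Pt d × Pt d)) : SimpleGraph (Pt d) :=
  SimpleGraph.fromRel (fun x y => (x, y) ∈ ω)

/-- number of open clusters in the box, isolated vertices included -/
def numClusters (Λ : Finset (Pt d)) (ω : Set (Pt d × Pt d)) : ℕ :=
  Nat.card (boxGraph Λ ω).ConnectedComponent

/-- random-cluster weight of a configuration `ω ⊆ lat Λ` with free boundary conditions -/
def boxWeight (Λ : Finset (Pt d)) (p q : ℝ) (ω : Finset (Pt d × Pt d)) : ℝ :=
  p ^ ω.card * (1 - p) ^ ((lat Λ).card - ω.card) * q ^ numClusters Λ (ω : Set (Pt d × Pt d))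

/-- the free random-cluster measure of the box `Λ` (probability of the event `ev`) -/
def phi0 (Λ : Finset (Pt d)) (p q : ℝ) (ev : Set (Set (Pt d × Pt d))) : ℝ :=
  (∑ ω ∈ (lat Λ).powerset, boxWeight Λ p q ω * ind ((ω : Set (Pt d × Pt d)) ∈ ev)) /
    ∑ ω ∈ (lat Λ).powerset, boxWeight Λ p q ω

/-- increasing sequence of boxes `[a m, b m]` whose union is the whole lattice -/
structure Exhausts (a b : ℕ → Pt d) : Prop where
  anti : Antitone a
  mono : Monotone b
  cover : ∀ x : Pt d, ∃ m, x ∈ Finset.Icc (a m) (b m)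

/-- the event that the origin is joined to `∂Λ` -/
def toBoundary (Λ : Finset (Pt d)) : Set (Set (Pt d × Pt d)) :=
  {ω | ∃ y ∈ bd Λ, (openGraph ω).Reachable 0 y}

/-- the event that the open cluster of the origin is infinite -/
def toInfinity : Set (Set (Pt d × Pt d)) :=
  {ω | {y : Pt d | (openGraph ω).Reachable 0 y}.Infinite}

/-- `μ` is the weak limit of the free measures along increasing sequences of boxes -/
def IsFreeLimit (μ : Measure (Set (Pt d × Pt d))) (p q : ℝ) : Prop :=
  IsProbabilityMeasure μ ∧ ∀ (F T : Finset (Pt d × Pt d)) (a b : ℕ → Pt d), Exhausts a b →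
    Tendsto (fun m => phi0 (Finset.Icc (a m) (b m)) p q
        {ω | ω ∩ (F : Set (Pt d × Pt d)) = (T : Set (Pt d × Pt d))}) atTop
      (nhds (μ.real {ω | ω ∩ (F : Set (Pt d × Pt d)) = (T : Set (Pt d × Pt d))}))

end FKB
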