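import Pool.Agent.FKB.LatGeo

open Finset
noncomputable section
namespace FKB

/-- Telescoping along an integer segment. -/
private theorem tele_aux (F : ℤ → ℝ) {p q : ℤ} (hpq : p ≤ q) :
    |F p - F q| ≤ ∑ t ∈ Finset.Ico p q, |F t - F (t + 1)| := by
  induction q, hpq using Int.leInduction with
  | base => simp
  | succ q hq ih =>
    have h1 : Finset.Ico p (q + 1) = insert q (Finset.Ico p q) := by
      ext t
      simp only [Finset.mem_Ico, Finset.mem_insert]
      omega
    rw [h1, Finset.sum_insert (by simp)]
    calc |F p - F (q + 1)| = |(F q - F (q + 1)) + (F p - F q)| := by ring_nf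
      _ ≤ |F q - F (q + 1)| + |F p - F q| := abs_add_le _ _
      _ ≤ _ := by linarith

private theorem tele (F : ℤ → ℝ) {p q lo hi : ℤ} (hp : lo ≤ p ∧ p ≤ hi) (hq : lo ≤ q ∧ q ≤ hi) :
    |F p - F q| ≤ ∑ t ∈ Finset.Ico lo hi, |F t - F (t + 1)| := by
  rcases le_total p q with h | h
  · refine (tele_aux F h).trans ?_
    apply Finset.sum_le_sum_of_subset_of_nonneg
    · intro t ht
      simp only [Finset.mem_Ico] at ht ⊢
      omega
    · intro t _ _
      exact abs_nonneg _
  · rw [abs_sub_comm]
    refine (tele_aux F h).trans ?_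
    apply Finset.sum_le_sum_of_subset_of_nonneg
    · intro t ht
      simp only [Finset.mem_Ico] at ht ⊢
      omega
    · intro t _ _
      exact abs_nonneg _

/-- The intermediate points of the coordinate path. -/
private def zp {d : ℕ} (x y : Pt d) (i : ℕ) : Pt d := fun j => if (j : ℕ) < i then y j else x j

private theorem zp_zero {d : ℕ} (x y : Pt d) : zp x y 0 = x := by
  funext j
  simp [zp]

private theorem zp_last {d : ℕ} (x y : Pt d) : zp x y d = y := by
  funext j
  simp [zp, j.2]

private theorem zp_self {d : ℕ} (x y : Pt d) (i : Fin d) :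
    Function.update (zp x y i) i (x i) = zp x y i := by
  funext j
  by_cases h : j = i
  · subst h
    simp [zp]
  · simp [Function.update_of_ne h]

private theorem zp_succ {d : ℕ} (x y : Pt d) (i : Fin d) :
    Function.update (zp x y i) i (y i) = zp x y (i + 1) := by
  funext j
  by_cases h : j = i
  · subst h
    simp [zp]
  · rw [Function.update_of_ne h]
    have h1 : (j : ℕ) ≠ i := fun h2 => h (Fin.ext h2)
    unfold zp
    by_cases h2 : (j : ℕ) < i
    · rw [if_pos h2, if_pos (by omega)]
    · rw [if_neg h2, if_neg (by omega)]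

private theorem mem_cube' {d : ℕ} {c x : Pt d} {n : ℕ} :
    x ∈ cube c n ↔ ∀ i, c i - n ≤ x i ∧ x i ≤ c i + n := by
  unfold cube
  rw [Finset.mem_Icc, Pi.le_def, Pi.le_def]
  constructor
  · rintro ⟨h1, h2⟩ i
    exact ⟨h1 i, h2 i⟩
  · intro h
    exact ⟨fun i => (h i).1, fun i => (h i).2⟩

private theorem mem_thick' {d : ℕ} {x z v : Pt d} {m : ℕ} :
    v ∈ thick x z m ↔ ∀ i, min (x i) (z i) - m ≤ v i ∧ v i ≤ max (x i) (z i) + m := by
  unfold thick
  rw [Finset.mem_Icc, Pi.le_def, Pi.le_def]
  constructor
  · rintro ⟨h1, h2⟩ i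
    exact ⟨h1 i, h2 i⟩
  · intro h
    exact ⟨fun i => (h i).1, fun i => (h i).2⟩

private theorem zp_bounds {d : ℕ} {c c' x y : Pt d} {a b : ℕ} (hx : x ∈ cube c a)
    (hy : y ∈ cube c' b) (i : ℕ) (j : Fin d) :
    min (c j) (c' j) - (max a b : ℕ) ≤ zp x y i j ∧
      zp x y i j ≤ max (c j) (c' j) + (max a b : ℕ) := by
  have h1 := mem_cube'.1 hx j
  have h2 := mem_cube'.1 hy j
  have h3 : (a : ℤ) ≤ (max a b : ℕ) := by exact_mod_cast le_max_left a b
  have h4 : (b : ℤ) ≤ (max a b : ℕ) := by exact_mod_cast le_max_right a b
  unfold zp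
  split_ifs
  · constructor
    · have := min_le_right (c j) (c' j)
      linarith [h2.1]
    · have := le_max_right (c j) (c' j)
      linarith [h2.2]
  · constructor
    · have := min_le_left (c j) (c' j)
      linarith [h1.1]
    · have := le_max_left (c j) (c' j)
      linarith [h1.2]

/-- The edge used. -/
private def ed {d : ℕ} (i : Fin d) (x y : Pt d) (t : ℤ) : Pt d × Pt d :=
  (Function.update (zp x y i) i t, Function.update (zp x y i) i (t + 1))

private theorem ed_dir {d : ℕ} (i : Fin d) (x y : Pt d) (t : ℤ) :
    (ed i x y t).2 = (ed i x y t).1 + Pi.single i 1 := by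
  unfold ed
  funext j
  by_cases h : j = i
  · subst h
    simp
  · simp [Function.update_of_ne h, Pi.single_eq_of_ne h]

private theorem ed_mem {d : ℕ} {c c' x y : Pt d} {a b : ℕ} (hx : x ∈ cube c a)
    (hy : y ∈ cube c' b) (i : Fin d) {t : ℤ}
    (ht : t ∈ Finset.Ico (min (c i) (c' i) - (max a b : ℕ)) (max (c i) (c' i) + (max a b : ℕ))) :
    ed i x y t ∈ lat (thick c c' (max a b)) := by
  rw [Finset.mem_Ico] at ht
  unfold lat
  rw [Finset.mem_filter, Finset.mem_product]
  refine ⟨⟨?_, ?_⟩, i, ed_dir i x y t⟩
  · rw [mem_thick']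
    intro j
    unfold ed
    by_cases h : j = i
    · subst h
      simp only [Function.update_self]
      exact ⟨ht.1, ht.2.le⟩
    · simp only [Function.update_of_ne h]
      exact zp_bounds hx hy i j
  · rw [mem_thick']
    intro j
    unfold ed
    by_cases h : j = i
    · subst h
      simp only [Function.update_self]
      constructor
      · linarith [ht.1]
      · linarith [Int.add_one_le_iff.2 ht.2]
    · simp only [Function.update_of_ne h]
      exact zp_bounds hx hy i j

/-- The number of triples which use a given edge. -/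
private theorem fibre_card {d : ℕ} (c c' : Pt d) (a b : ℕ) (i : Fin d) (I : Finset ℤ)
    (e : Pt d × Pt d) :
    (((cube c a ×ˢ cube c' b) ×ˢ I).filter
      (fun w => ed i w.1.1 w.1.2 w.2 = e)).card ≤ (2 * max a b + 1) ^ (d + 1) := by
  classical
  set m := max a b with hm
  set B : Finset (Pt d) := Fintype.piFinset (fun j : Fin d =>
    if (j : ℕ) < i then Finset.Icc (c j - (a : ℤ)) (c j + a)
    else Finset.Icc (c' j - (b : ℤ)) (c' j + b)) with hB
  set J : Finset ℤ := Finset.Icc (c i - (a : ℤ)) (c i + a) with hJ
  have hBcard : B.card ≤ (2 * m + 1) ^ d := by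
    rw [hB, Fintype.card_piFinset]
    calc ∏ j : Fin d, (if (j : ℕ) < i then Finset.Icc (c j - (a : ℤ)) (c j + a)
          else Finset.Icc (c' j - (b : ℤ)) (c' j + b)).card ≤ ∏ _j : Fin d, (2 * m + 1) := by
          apply Finset.prod_le_prod'
          intro j _
          have h1 : a ≤ m := le_max_left a b
          have h2 : b ≤ m := le_max_right a b
          split_ifs
          · rw [Int.card_Icc]
            omega
          · rw [Int.card_Icc]
            omega
      _ = (2 * m + 1) ^ d := by simp
  have hJcard : J.card ≤ 2 * m + 1 := by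
    rw [hJ, Int.card_Icc]
    have h1 : a ≤ m := le_max_left a b
    omega
  calc _ ≤ (B ×ˢ J).card := by
        apply Finset.card_le_card_of_injOn
          (fun w => ((fun j : Fin d => if (j : ℕ) < i then w.1.1 j else w.1.2 j), w.1.1 i))
        · intro w hw
          rw [Finset.mem_coe, Finset.mem_filter, Finset.mem_product, Finset.mem_product] at hw
          obtain ⟨⟨⟨hx, hy⟩, _⟩, _⟩ := hw
          rw [Finset.mem_coe, Finset.mem_product]
          constructor
          · rw [hB, Fintype.mem_piFinset]
            intro j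
            by_cases h : (j : ℕ) < i
            · simp only [h, if_true]
              rw [Finset.mem_Icc]
              exact mem_cube'.1 hx j
            · simp only [h, if_false]
              rw [Finset.mem_Icc]
              exact mem_cube'.1 hy j
          · rw [hJ, Finset.mem_Icc]
            exact mem_cube'.1 hx i
        · rintro ⟨⟨x, y⟩, t⟩ hw ⟨⟨x', y'⟩, t'⟩ hw' heq
          rw [Finset.mem_coe, Finset.mem_filter] at hw hw'
          have he : ed i x y t = ed i x' y' t' := hw.2.trans hw'.2.symm
          simp only [Prod.mk.injEq] at heq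
          obtain ⟨h1, h2⟩ := heq
          have h3 : Function.update (zp x y i) i t = Function.update (zp x' y' i) i t' :=
            congrArg Prod.fst he
          have ht : t = t' := by
            have := congrFun h3 i
            simpa using this
          have hz : ∀ j : Fin d, j ≠ i → zp x y i j = zp x' y' i j := by
            intro j hj
            have := congrFun h3 j
            simpa [Function.update_of_ne hj] using this
          have hxx : x = x' := by
            funext j
            by_cases hji : j = i
            · rw [hji]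
              exact h2
            · by_cases hlt : (j : ℕ) < i
              · have := congrFun h1 j
                simpa [hlt] using this
              · have := hz j hji
                simpa [zp, hlt] using this
          have hyy : y = y' := by
            funext j
            by_cases hlt : (j : ℕ) < i
            · have hji : j ≠ i := by
                rintro rfl
                exact lt_irrefl _ hlt
              have := hz j hji
              simpa [zp, hlt] using this
            · have := congrFun h1 j
              simpa [hlt] using this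
          rw [hxx, hyy, ht]
    _ = B.card * J.card := Finset.card_product _ _
    _ ≤ (2 * m + 1) ^ d * (2 * m + 1) := Nat.mul_le_mul hBcard hJcard
    _ = (2 * m + 1) ^ (d + 1) := by ring

theorem flow {d : ℕ} (hd : 1 ≤ d) (c c' : Pt d) (a b : ℕ) (r : Pt d → ℝ) :
    2 * (((cube c a).card : ℝ) * (cube c' b).card) ≤
      (2 * (max a b : ℕ) + 1 : ℝ) ^ (d + 1) *
          ∑ e ∈ lat (thick c c' (max a b)), |r e.1 - r e.2| +
        (cube c' b).card * ∑ x ∈ cube c a, (1 - r x) +
        (cube c a).card * ∑ x ∈ cube c' b, (1 + r x) := by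
  classical
  set m := max a b with hm
  set L := lat (thick c c' m) with hL
  set I : Fin d → Finset ℤ := fun i =>
    Finset.Ico (min (c i) (c' i) - (m : ℤ)) (max (c i) (c' i) + (m : ℤ)) with hI
  set h : Pt d × Pt d → ℝ := fun e => |r e.1 - r e.2| with hh
  have hh0 : ∀ e, 0 ≤ h e := fun e => abs_nonneg _
  set K : ℝ := (2 * (m : ℝ) + 1) ^ (d + 1) with hK
  have hK0 : 0 ≤ K := by positivity
  -- one direction
  have hdir : ∀ i : Fin d,
      ∑ w ∈ (cube c a ×ˢ cube c' b) ×ˢ I i, h (ed i w.1.1 w.1.2 w.2) ≤
        K * ∑ e ∈ L.filter (fun e => e.2 = e.1 + Pi.single i 1), h e := by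
    intro i
    set T := (cube c a ×ˢ cube c' b) ×ˢ I i with hT
    set Li := L.filter (fun e => e.2 = e.1 + Pi.single i 1) with hLi
    have hmaps : ∀ w ∈ T, ed i w.1.1 w.1.2 w.2 ∈ Li := by
      intro w hw
      rw [hT, Finset.mem_product, Finset.mem_product] at hw
      rw [hLi, Finset.mem_filter]
      exact ⟨ed_mem hw.1.1 hw.1.2 i hw.2, ed_dir i _ _ _⟩
    rw [← Finset.sum_fiberwise_of_maps_to hmaps, Finset.mul_sum]
    apply Finset.sum_le_sum
    intro e _
    have h1 : ∑ w ∈ T.filter (fun w => ed i w.1.1 w.1.2 w.2 = e), h (ed i w.1.1 w.1.2 w.2) =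
        (T.filter (fun w => ed i w.1.1 w.1.2 w.2 = e)).card * h e := by
      rw [Finset.sum_congr rfl (g := fun _ => h e), Finset.sum_const, nsmul_eq_mul]
      intro w hw
      rw [(Finset.mem_filter.1 hw).2]
    rw [h1]
    apply mul_le_mul_of_nonneg_right _ (hh0 e)
    have h2 := fibre_card c c' a b i (I i) e
    rw [hK]
    have h3 : ((T.filter (fun w => ed i w.1.1 w.1.2 w.2 = e)).card : ℝ) ≤
        (((2 * m + 1) ^ (d + 1) : ℕ) : ℝ) := by
      exact_mod_cast h2
    refine h3.trans (le_of_eq ?_)
    push_cast
    ring
  -- all directions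
  have hall : ∑ i : Fin d, ∑ e ∈ L.filter (fun e => e.2 = e.1 + Pi.single i 1), h e ≤
      ∑ e ∈ L, h e := by
    simp only [Finset.sum_filter]
    rw [Finset.sum_comm]
    apply Finset.sum_le_sum
    intro e _
    rw [← Finset.sum_filter, Finset.sum_const, nsmul_eq_mul]
    have h1 : (Finset.univ.filter (fun i : Fin d => e.2 = e.1 + Pi.single i 1)).card ≤ 1 := by
      rw [Finset.card_le_one]
      intro i hi j hj
      rw [Finset.mem_filter] at hi hj
      have h2 : (Pi.single i 1 : Pt d) = Pi.single j 1 := add_left_cancel (hi.2.symm.trans hj.2)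
      by_contra hij
      have := congrFun h2 i
      rw [Pi.single_eq_same, Pi.single_eq_of_ne hij] at this
      exact one_ne_zero this
    have h2 : ((Finset.univ.filter (fun i : Fin d => e.2 = e.1 + Pi.single i 1)).card : ℝ) ≤ 1 := by
      exact_mod_cast h1
    have := mul_le_mul_of_nonneg_right h2 (hh0 e)
    linarith
  -- paths
  have hpath : ∑ w ∈ cube c a ×ˢ cube c' b, (r w.1 - r w.2) ≤ K * ∑ e ∈ L, h e := by
    calc ∑ w ∈ cube c a ×ˢ cube c' b, (r w.1 - r w.2)
        ≤ ∑ w ∈ cube c a ×ˢ cube c' b, ∑ i : Fin d, ∑ t ∈ I i, h (ed i w.1 w.2 t) := by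
          apply Finset.sum_le_sum
          rintro ⟨x, y⟩ hw
          rw [Finset.mem_product] at hw
          have h1 : r x - r y = ∑ i ∈ Finset.range d, (r (zp x y i) - r (zp x y (i + 1))) := by
            rw [Finset.sum_range_sub', zp_zero, zp_last]
          rw [h1, ← Fin.sum_univ_eq_sum_range
            (fun i => r (zp x y i) - r (zp x y (i + 1))) d]
          apply Finset.sum_le_sum
          intro i _
          refine (le_abs_self _).trans ?_
          have h2 := tele (fun t => r (Function.update (zp x y i) i t))
            (p := x i) (q := y i) (lo := min (c i) (c' i) - (m : ℤ))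
            (hi := max (c i) (c' i) + (m : ℤ)) ?_ ?_
          · simp only [zp_self, zp_succ] at h2
            exact h2
          · have := zp_bounds hw.1 hw.2 i i
            have e1 : zp x y i i = x i := by simp [zp]
            rwa [e1] at this
          · have := zp_bounds hw.1 hw.2 (i + 1) i
            have e1 : zp x y (i + 1) i = y i := by simp [zp]
            rwa [e1] at this
      _ = ∑ i : Fin d, ∑ w ∈ (cube c a ×ˢ cube c' b) ×ˢ I i, h (ed i w.1.1 w.1.2 w.2) := by
          rw [Finset.sum_comm]
          apply Finset.sum_congr rfl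
          intro i _
          rw [Finset.sum_product (s := cube c a ×ˢ cube c' b) (t := I i)
            (f := fun w => h (ed i w.1.1 w.1.2 w.2))]
      _ ≤ ∑ i : Fin d, K * ∑ e ∈ L.filter (fun e => e.2 = e.1 + Pi.single i 1), h e :=
          Finset.sum_le_sum fun i _ => hdir i
      _ = K * ∑ i : Fin d, ∑ e ∈ L.filter (fun e => e.2 = e.1 + Pi.single i 1), h e := by
          rw [Finset.mul_sum]
      _ ≤ K * ∑ e ∈ L, h e := mul_le_mul_of_nonneg_left hall hK0
  have hsum : 2 * (((cube c a).card : ℝ) * (cube c' b).card) =
      ∑ w ∈ cube c a ×ˢ cube c' b, (r w.1 - r w.2) +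
        (cube c' b).card * ∑ x ∈ cube c a, (1 - r x) +
        (cube c a).card * ∑ x ∈ cube c' b, (1 + r x) := by
    rw [Finset.sum_product]
    simp only [Finset.sum_sub_distrib, Finset.sum_add_distrib, Finset.sum_const, nsmul_eq_mul,
      ← Finset.mul_sum]
    ring
  rw [hsum]
  linarith

end FKB
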