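import Mathlib

open Finset
noncomputable section
namespace FKB

variable {G : Type*} [AddCommGroup G] [Fintype G]

/-- `f = Re (ψ²)` for an additive character `ψ`. -/
def gf (ψ : AddChar G ℂ) (a : G) : ℝ := (ψ (a + a)).re

/-- `gen (ψ, ε) (a, b) = f(a) ± f(b)`. -/
def gen (t : AddChar G ℂ × Bool) (ab : G × G) : ℝ :=
  gf t.1 ab.1 + (if t.2 then 1 else -1) * gf t.1 ab.2

/-- real or imaginary part -/
private def gT (t : AddChar G ℂ × Bool) (c : G) : ℝ :=
  if t.2 then (t.1 c).re else (t.1 c).im

private def gs (l : List (AddChar G ℂ × Bool)) : ℝ :=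
  (l.map (fun t => if t.2 then (1 : ℝ) else -1)).prod

private def gP (l : List (AddChar G ℂ × Bool)) (c : G) : ℝ := (l.map (fun t => gT t c)).prod

private lemma gen_eq (t : AddChar G ℂ × Bool) (ab : G × G) :
    gen t ab = (if t.2 then (1 : ℝ) else -1) * 2 * gT t (ab.1 + ab.2) * gT t (ab.1 - ab.2) := by
  obtain ⟨ψ, ε⟩ := t
  obtain ⟨a, b⟩ := ab
  have ha : (ψ a).re * (ψ a).re + (ψ a).im * (ψ a).im = 1 := by
    rw [← Complex.normSq_apply, Complex.normSq_eq_norm_sq, AddChar.norm_apply]; norm_num
  have hb : (ψ b).re * (ψ b).re + (ψ b).im * (ψ b).im = 1 := by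
    rw [← Complex.normSq_apply, Complex.normSq_eq_norm_sq, AddChar.norm_apply]; norm_num
  have hb' : ψ (-b) = (starRingEnd ℂ) (ψ b) := AddChar.map_neg_eq_conj ψ b
  cases ε
  · simp only [gen, gf, gT, sub_eq_add_neg, AddChar.map_add_eq_mul, hb', Complex.mul_re,
      Complex.mul_im, Complex.conj_re, Complex.conj_im]
    simp only [Bool.false_eq_true, if_false]
    linear_combination (2 * (ψ b).re ^ 2 - 1) * ha + (1 - 2 * (ψ a).re ^ 2) * hb
  · simp only [gen, gf, gT, sub_eq_add_neg, AddChar.map_add_eq_mul, hb', Complex.mul_re,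
      Complex.mul_im, Complex.conj_re, Complex.conj_im]
    simp only [if_true]
    linear_combination (2 * (ψ b).im ^ 2 - 1) * ha + (1 - 2 * (ψ a).re ^ 2) * hb

private lemma prod_eq (l : List (AddChar G ℂ × Bool)) (ab : G × G) :
    (l.map (fun t => gen t ab)).prod =
      gs l * 2 ^ l.length * gP l (ab.1 + ab.2) * gP l (ab.1 - ab.2) := by
  induction l with
  | nil => simp [gs, gP]
  | cons t l ih =>
    simp only [List.map_cons, List.prod_cons, ih, gen_eq t ab, gs, gP, List.length_cons, pow_succ]
    ring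

omit [Fintype G] in
private lemma swap_eq (l : List (AddChar G ℂ × Bool)) (ab : G × G) :
    (l.map (fun t => gen t ab.swap)).prod = gs l * (l.map (fun t => gen t ab)).prod := by
  induction l with
  | nil => simp [gs]
  | cons t l ih =>
    have h1 : gen t ab.swap = (if t.2 then (1 : ℝ) else -1) * gen t ab := by
      unfold gen
      split_ifs <;> simp [add_comm]
    simp only [List.map_cons, List.prod_cons, ih, h1, gs]
    ring

omit [Fintype G] in
private lemma gs_cases (l : List (AddChar G ℂ × Bool)) : gs l = 1 ∨ gs l = -1 := by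
  induction l with
  | nil => simp [gs]
  | cons t l ih =>
    simp only [gs, List.map_cons, List.prod_cons] at ih ⊢
    split_ifs
    · simpa using ih
    · rcases ih with h | h
      · right; rw [h]; norm_num
      · left; rw [h]; norm_num

private lemma sum_nonneg_T (T : G → ℝ) : 0 ≤ ∑ ab : G × G, T (ab.1 + ab.2) * T (ab.1 - ab.2) := by
  have h1 : (Fintype.card G : ℝ) * ∑ ab : G × G, T (ab.1 + ab.2) * T (ab.1 - ab.2) =
      ∑ c : G, (∑ g : G, T (c - g - g)) ^ 2 := by
    have h2 : ∀ g : G, ∑ ab : G × G, T (ab.1 + ab.2) * T (ab.1 - ab.2) =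
        ∑ ch : G × G, T (ch.1 - g - g) * T (ch.1 - ch.2 - ch.2) := by
      intro g
      symm
      refine Fintype.sum_equiv
        { toFun := fun ch => (ch.1 - g - ch.2, ch.2 - g)
          invFun := fun ab => (ab.1 + g + (ab.2 + g), ab.2 + g)
          left_inv := fun ch => by
            ext
            · simp only []; abel
            · simp
          right_inv := fun ab => by
            ext
            · simp only []; abel
            · simp } _ _ ?_
      intro ch
      simp only [Equiv.coe_fn_mk]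
      congr 2
      · abel
      · abel
    calc (Fintype.card G : ℝ) * ∑ ab : G × G, T (ab.1 + ab.2) * T (ab.1 - ab.2)
        = ∑ _g : G, ∑ ab : G × G, T (ab.1 + ab.2) * T (ab.1 - ab.2) := by
          rw [Finset.sum_const, Finset.card_univ, nsmul_eq_mul]
      _ = ∑ g : G, ∑ ch : G × G, T (ch.1 - g - g) * T (ch.1 - ch.2 - ch.2) :=
          Finset.sum_congr rfl fun g _ => h2 g
      _ = ∑ g : G, ∑ c : G, ∑ h : G, T (c - g - g) * T (c - h - h) := by
          refine Finset.sum_congr rfl fun g _ => ?_
          rw [Fintype.sum_prod_type]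
      _ = ∑ c : G, ∑ g : G, ∑ h : G, T (c - g - g) * T (c - h - h) := Finset.sum_comm
      _ = ∑ c : G, (∑ g : G, T (c - g - g)) ^ 2 := by
          refine Finset.sum_congr rfl fun c _ => ?_
          rw [sq, Finset.sum_mul_sum]
  have h3 : 0 ≤ (Fintype.card G : ℝ) * ∑ ab : G × G, T (ab.1 + ab.2) * T (ab.1 - ab.2) := by
    rw [h1]
    exact Finset.sum_nonneg fun c _ => sq_nonneg _
  have h4 : (0 : ℝ) < Fintype.card G := by
    have : Nonempty G := ⟨0⟩
    exact_mod_cast Fintype.card_pos
  exact nonneg_of_mul_nonneg_right h3 h4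

theorem ginibre (l : List (AddChar G ℂ × Bool)) :
    0 ≤ ∑ ab : G × G, (l.map (fun t => gen t ab)).prod := by
  rcases gs_cases l with h | h
  · have h1 : ∑ ab : G × G, (l.map (fun t => gen t ab)).prod =
        2 ^ l.length * ∑ ab : G × G, gP l (ab.1 + ab.2) * gP l (ab.1 - ab.2) := by
      rw [Finset.mul_sum]
      refine Finset.sum_congr rfl fun ab _ => ?_
      rw [prod_eq, h]
      ring
    rw [h1]
    exact mul_nonneg (by positivity) (sum_nonneg_T _)
  · have h1 : ∑ ab : G × G, (l.map (fun t => gen t ab)).prod =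
        - ∑ ab : G × G, (l.map (fun t => gen t ab)).prod := by
      conv_lhs => rw [← Equiv.sum_comp (Equiv.prodComm G G)]
      rw [← Finset.sum_neg_distrib]
      refine Finset.sum_congr rfl fun ab _ => ?_
      rw [Equiv.coe_prodComm, swap_eq, h]
      ring
    linarith

end FKB
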