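import Pool.Agent.FKB.GinA

open Finset
noncomputable section
namespace FKB

variable {G : Type*} [AddCommGroup G] [Fintype G]

/-- The closed cone of pair functions generated by products of the `gen`s. -/
def GP (F : G × G → ℝ) : Prop :=
  F ∈ closure (Submodule.span NNReal
    {f : G × G → ℝ | ∃ l : List (AddChar G ℂ × Bool), f = fun ab => (l.map (fun t => gen t ab)).prod}
    : Set (G × G → ℝ))

theorem GP.sum_nonneg {F : G × G → ℝ} (h : GP F) : 0 ≤ ∑ ab : G × G, F ab := by
  have hcl : IsClosed {F : G × G → ℝ | 0 ≤ ∑ ab : G × G, F ab} :=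
    isClosed_le continuous_const (continuous_finsetSum _ fun i _ => continuous_apply i)
  refine closure_minimal ?_ hcl h
  intro F hF
  change 0 ≤ ∑ ab : G × G, F ab
  induction hF using Submodule.span_induction with
  | mem x hx =>
    obtain ⟨l, rfl⟩ := hx
    exact ginibre l
  | zero => simp
  | add x y _ _ hx hy =>
    simp only [Pi.add_apply, Finset.sum_add_distrib]
    exact add_nonneg hx hy
  | smul c x _ hx =>
    simp only [Pi.smul_apply, NNReal.smul_def, smul_eq_mul, ← Finset.mul_sum]
    exact mul_nonneg c.2 hx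

theorem GP.lim {F : ℕ → G × G → ℝ} {F' : G × G → ℝ} (h : ∀ n, GP (F n))
    (hF : ∀ ab, Filter.Tendsto (fun n => F n ab) Filter.atTop (nhds (F' ab))) : GP F' :=
  isClosed_closure.mem_of_tendsto (tendsto_pi_nhds.2 hF) (Filter.Eventually.of_forall h)

theorem GP.add {F F' : G × G → ℝ} (h : GP F) (h' : GP F') : GP (fun ab => F ab + F' ab) := by
  have := map_mem_closure₂ (f := fun a b : G × G → ℝ => a + b) (by fun_prop) h h'
    (fun a ha b hb => add_mem ha hb)
  exact this

theorem GP.smul {F : G × G → ℝ} (h : GP F) {c : ℝ} (hc : 0 ≤ c) : GP (fun ab => c * F ab) := by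
  have := map_mem_closure (f := fun a : G × G → ℝ => (⟨c, hc⟩ : NNReal) • a) (by fun_prop) h
    (fun a ha => Submodule.smul_mem _ _ ha)
  exact this

theorem gp_mul_span {a b : G × G → ℝ}
    (ha : a ∈ Submodule.span NNReal {f : G × G → ℝ | ∃ l : List (AddChar G ℂ × Bool),
      f = fun ab => (l.map (fun t => gen t ab)).prod})
    (hb : b ∈ Submodule.span NNReal {f : G × G → ℝ | ∃ l : List (AddChar G ℂ × Bool),
      f = fun ab => (l.map (fun t => gen t ab)).prod}) :
    a * b ∈ Submodule.span NNReal {f : G × G → ℝ | ∃ l : List (AddChar G ℂ × Bool),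
      f = fun ab => (l.map (fun t => gen t ab)).prod} := by
  induction ha, hb using Submodule.span_induction₂ with
  | mem_mem x y hx hy =>
    obtain ⟨l, rfl⟩ := hx
    obtain ⟨l', rfl⟩ := hy
    refine Submodule.subset_span ⟨l ++ l', ?_⟩
    funext ab
    simp
  | zero_left y hy => simp
  | zero_right x hx => simp
  | add_left x y z hx hy hz h1 h2 =>
    rw [add_mul]
    exact add_mem h1 h2
  | add_right x y z hx hy hz h1 h2 =>
    rw [mul_add]
    exact add_mem h1 h2
  | smul_left r x y hx hy h =>
    rw [smul_mul_assoc]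
    exact Submodule.smul_mem _ _ h
  | smul_right r x y hx hy h =>
    rw [mul_smul_comm]
    exact Submodule.smul_mem _ _ h

theorem GP.mul {F F' : G × G → ℝ} (h : GP F) (h' : GP F') : GP (fun ab => F ab * F' ab) := by
  have := map_mem_closure₂ (f := fun a b : G × G → ℝ => a * b) (by fun_prop) h h'
    (fun a ha b hb => gp_mul_span ha hb)
  exact this

theorem GP.one : GP (fun _ : G × G => (1 : ℝ)) := by
  refine subset_closure (Submodule.subset_span ⟨[], ?_⟩)
  funext ab
  simp

theorem GP.prod {ι : Type*} (I : Finset ι) {F : ι → G × G → ℝ} (h : ∀ i ∈ I, GP (F i)) :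
    GP (fun ab => ∏ i ∈ I, F i ab) := by
  classical
  induction I using Finset.induction_on with
  | empty => simpa using GP.one
  | insert i I hi ih =>
    simp only [Finset.prod_insert hi]
    exact (h i (Finset.mem_insert_self _ _)).mul
      (ih (fun j hj => h j (Finset.mem_insert_of_mem hj)))

theorem GP.exp {F : G × G → ℝ} (h : GP F) : GP (fun ab => Real.exp (F ab)) := by
  apply GP.lim (F := fun n ab => (1 + F ab / n) ^ n)
  · intro n
    have h1 : GP (fun ab => 1 + F ab / n) := by
      have := GP.one.add (h.smul (c := (n : ℝ)⁻¹) (by positivity))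
      convert this using 2 with ab
      rw [div_eq_inv_mul]
    have h2 := GP.prod (F := fun _ : ℕ => fun ab => 1 + F ab / n) (Finset.range n)
      (fun _ _ => h1)
    simpa only [Finset.prod_const, Finset.card_range] using h2
  · intro ab
    exact Real.tendsto_one_add_div_pow_exp (F ab)

end FKB
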