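import Pool.Agent.FKB.GinB

open Finset
noncomputable section
namespace FKB

variable {G : Type*} [AddCommGroup G] [Fintype G]

/-- The cone of functions on `G`: nonnegative combinations of the `gf ψ`. -/
def GC (f : G → ℝ) : Prop :=
  f ∈ (Submodule.span NNReal (Set.range (gf (G := G))) : Set (G → ℝ))

theorem GP.zero : GP (fun _ : G × G => (0 : ℝ)) := by
  have := (GP.one (G := G)).smul (c := 0) le_rfl
  simpa using this

theorem GP.gen (t : AddChar G ℂ × Bool) : GP (fun ab : G × G => gen t ab) := by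
  refine subset_closure (Submodule.subset_span ⟨[t], ?_⟩)
  funext ab
  simp

theorem GC.plus {f : G → ℝ} (h : GC f) : GP (fun ab => f ab.1 + f ab.2) := by
  have h' : f ∈ Submodule.span NNReal (Set.range (gf (G := G))) := h
  clear h
  induction h' using Submodule.span_induction with
  | mem x hx =>
    obtain ⟨ψ, rfl⟩ := hx
    have := GP.gen (ψ, true)
    simpa [FKB.gen] using this
  | zero => simpa using GP.zero
  | add x y _ _ hx hy =>
    have := hx.add hy
    convert this using 2 with ab
    simp only [Pi.add_apply]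
    ring
  | smul c x _ hx =>
    have := hx.smul c.2
    convert this using 2 with ab
    simp only [Pi.smul_apply, NNReal.smul_def, smul_eq_mul, NNReal.val_eq_coe]
    ring

theorem GC.minus {f : G → ℝ} (h : GC f) : GP (fun ab => f ab.1 - f ab.2) := by
  have h' : f ∈ Submodule.span NNReal (Set.range (gf (G := G))) := h
  clear h
  induction h' using Submodule.span_induction with
  | mem x hx =>
    obtain ⟨ψ, rfl⟩ := hx
    have := GP.gen (ψ, false)
    simpa [FKB.gen, sub_eq_add_neg] using this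
  | zero => simpa using GP.zero
  | add x y _ _ hx hy =>
    have := hx.add hy
    convert this using 2 with ab
    simp only [Pi.add_apply]
    ring
  | smul c x _ hx =>
    have := hx.smul c.2
    convert this using 2 with ab
    simp only [Pi.smul_apply, NNReal.smul_def, smul_eq_mul, NNReal.val_eq_coe]
    ring

theorem GC.one : GC (fun _ : G => (1 : ℝ)) := by
  refine Submodule.subset_span ⟨1, ?_⟩
  funext a
  simp [gf]

theorem GC.add {f g : G → ℝ} (h : GC f) (h' : GC g) : GC (fun a => f a + g a) :=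
  Submodule.add_mem _ h h'

theorem GC.smul {f : G → ℝ} (h : GC f) {c : ℝ} (hc : 0 ≤ c) : GC (fun a => c * f a) :=
  Submodule.smul_mem _ (⟨c, hc⟩ : NNReal) h

theorem gf_mul (ψ χ : AddChar G ℂ) :
    gf ψ * gf χ = (2⁻¹ : NNReal) • (gf (ψ * χ) + gf (ψ * χ⁻¹)) := by
  funext a
  change gf ψ a * gf χ a = ((2⁻¹ : NNReal) : ℝ) * (gf (ψ * χ) a + gf (ψ * χ⁻¹) a)
  simp only [gf, AddChar.mul_apply, AddChar.inv_apply, AddChar.map_neg_eq_conj, NNReal.coe_inv,
    NNReal.coe_ofNat, Complex.mul_re, Complex.conj_re, Complex.conj_im]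
  ring

theorem GC.mul {f g : G → ℝ} (h : GC f) (h' : GC g) : GC (fun a => f a * g a) := by
  have key : f * g ∈ Submodule.span NNReal (Set.range (gf (G := G))) := by
    have ha : f ∈ Submodule.span NNReal (Set.range (gf (G := G))) := h
    have hb : g ∈ Submodule.span NNReal (Set.range (gf (G := G))) := h'
    clear h h'
    induction ha, hb using Submodule.span_induction₂ with
    | mem_mem x y hx hy =>
      obtain ⟨ψ, rfl⟩ := hx
      obtain ⟨χ, rfl⟩ := hy
      rw [gf_mul]
      exact Submodule.smul_mem _ _ (Submodule.add_mem _ (Submodule.subset_span ⟨_, rfl⟩)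
        (Submodule.subset_span ⟨_, rfl⟩))
    | zero_left y hy => simp
    | zero_right x hx => simp
    | add_left x y z hx hy hz h1 h2 =>
      rw [add_mul]
      exact Submodule.add_mem _ h1 h2
    | add_right x y z hx hy hz h1 h2 =>
      rw [mul_add]
      exact Submodule.add_mem _ h1 h2
    | smul_left r x y hx hy h =>
      rw [smul_mul_assoc]
      exact Submodule.smul_mem _ _ h
    | smul_right r x y hx hy h =>
      rw [mul_smul_comm]
      exact Submodule.smul_mem _ _ h
  exact key

/-- couplings `K ≥ |K'|` -/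
theorem GC.expo {f : G → ℝ} (h : GC f) {K K' : ℝ} (hK : |K'| ≤ K) :
    GP (fun ab => Real.exp (K * f ab.1 + K' * f ab.2)) := by
  rw [abs_le] at hK
  have h1 := h.plus.smul (c := (K + K') / 2) (by linarith)
  have h2 := h.minus.smul (c := (K - K') / 2) (by linarith)
  have h3 := (h1.add h2).exp
  convert h3 using 3 with ab
  ring

theorem GC.bond_lt {f : G → ℝ} (h : GC f) (h01 : ∀ a, f a = 0 ∨ f a = 1) {w w' : ℝ}
    (h0 : 0 ≤ w') (hle : w' ≤ w) (h1 : w < 1) :
    GP (fun ab => ((1 - w) + w * f ab.1) * ((1 - w') + w' * f ab.2)) := by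
  have hw : 0 < 1 - w := by linarith
  have hw' : 0 < 1 - w' := by linarith
  have e : ∀ (v : ℝ) (_ : 0 < 1 - v) (a : G),
      (1 - v) + v * f a = (1 - v) * Real.exp (-Real.log (1 - v) * f a) := by
    intro v hv a
    rcases h01 a with h | h
    · rw [h]; simp
    · rw [h, mul_one, mul_one, Real.exp_neg, Real.exp_log hv, mul_inv_cancel₀ hv.ne']
      ring
  have hlog : Real.log (1 - w) ≤ Real.log (1 - w') := Real.log_le_log hw (by linarith)
  have hlog' : Real.log (1 - w') ≤ 0 := Real.log_nonpos hw'.le (by linarith)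
  have h2 := (h.expo (K := -Real.log (1 - w)) (K' := -Real.log (1 - w'))
    (by rw [abs_of_nonneg (by linarith)]; linarith)).smul (c := (1 - w) * (1 - w')) (by positivity)
  convert h2 using 2 with ab
  rw [e w hw, e w' hw', Real.exp_add]
  ring

/-- bond factors: `f` with values in `{0,1}` -/
theorem GC.bond {f : G → ℝ} (h : GC f) (h01 : ∀ a, f a = 0 ∨ f a = 1) {w w' : ℝ}
    (h0 : 0 ≤ w') (hle : w' ≤ w) (h1 : w ≤ 1) :
    GP (fun ab => ((1 - w) + w * f ab.1) * ((1 - w') + w' * f ab.2)) := by
  have ht : Filter.Tendsto (fun n : ℕ => 1 - 1 / ((n : ℝ) + 1)) Filter.atTop (nhds 1) := by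
    have := (tendsto_one_div_add_atTop_nhds_zero_nat (𝕜 := ℝ)).const_sub 1
    simpa using this
  have hn : ∀ n : ℕ, 0 ≤ 1 - 1 / ((n : ℝ) + 1) ∧ 1 - 1 / ((n : ℝ) + 1) < 1 := by
    intro n
    have h2 : (0 : ℝ) < (n : ℝ) + 1 := by positivity
    refine ⟨?_, ?_⟩
    · rw [sub_nonneg, div_le_one h2]
      linarith [(Nat.cast_nonneg n : (0 : ℝ) ≤ n)]
    · have : 0 < 1 / ((n : ℝ) + 1) := by positivity
      linarith
  apply GP.lim (F := fun (n : ℕ) ab =>
    ((1 - (1 - 1 / ((n : ℝ) + 1)) * w) + (1 - 1 / ((n : ℝ) + 1)) * w * f ab.1) *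
      ((1 - (1 - 1 / ((n : ℝ) + 1)) * w') + (1 - 1 / ((n : ℝ) + 1)) * w' * f ab.2))
  · intro n
    obtain ⟨h2, h3⟩ := hn n
    apply h.bond_lt h01
    · exact mul_nonneg h2 h0
    · exact mul_le_mul_of_nonneg_left hle h2
    · rcases h2.lt_or_eq with h4 | h4
      · calc (1 - 1 / ((n : ℝ) + 1)) * w ≤ (1 - 1 / ((n : ℝ) + 1)) * 1 :=
            mul_le_mul_of_nonneg_left h1 h2
          _ < 1 := by linarith
      · rw [← h4]; simp
  · intro ab
    have e1 := ht.mul_const w
    have e2 := ht.mul_const w'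
    have e3 := ((e1.const_sub 1).add (e1.mul_const (f ab.1))).mul
      ((e2.const_sub 1).add (e2.mul_const (f ab.2)))
    simpa using e3

end FKB
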