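import Pool.Agent.FKB.SpinDefs
import Pool.Agent.FKB.Clus

open Finset
noncomputable section
namespace FKB

variable {V : Type*} [Fintype V] [DecidableEq V] (k : ℕ) [NeZero k]

theorem sgn_ms (a : V → ZMod (4 * k)) (x : V) : sgn (ms k a) x = ss k x a := by
  unfold sgn ss ms
  by_cases h : Even (a x).val
  · rw [ind_false (by simp [h]), if_pos h]; norm_num
  · rw [if_neg h, ind_true]
    · norm_num
    · exact Finset.mem_filter.2 ⟨Finset.mem_univ _, h⟩

/-- parity homomorphism -/
private def par : ZMod (4 * k) →+* ZMod 2 :=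
  ZMod.castHom (dvd_mul_of_dvd_left (by norm_num) k : 2 ∣ 4 * k) (ZMod 2)

private lemma even_iff (z : ZMod (4 * k)) : Even z.val ↔ par k z = 0 := by
  rw [par, ZMod.castHom_apply, ← ZMod.natCast_val, ZMod.natCast_eq_zero_iff_even]

private lemma par_two_mul (u : ZMod (4 * k)) : par k (2 * u) = 0 := by
  rw [map_mul]
  have : par k 2 = 0 := by
    rw [map_ofNat]; rfl
  rw [this, zero_mul]

private lemma exists_half {z : ZMod (4 * k)} (h : par k z = 0) : ∃ v, z = 2 * v := by
  rw [← even_iff] at h
  obtain ⟨m, hm⟩ := h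
  refine ⟨(m : ZMod (4 * k)), ?_⟩
  have h1 : ((z.val : ℕ) : ZMod (4 * k)) = z := ZMod.natCast_zmod_val z
  rw [← h1, hm]; push_cast; ring

private lemma par_of_two_mul {z : ZMod (4 * k)} (h : 2 * z = 0) : par k z = 0 := by
  rw [← even_iff]
  have h1 : ((z.val : ℕ) : ZMod (4 * k)) = z := ZMod.natCast_zmod_val z
  rw [← h1] at h
  have h2 : ((2 * z.val : ℕ) : ZMod (4 * k)) = 0 := by push_cast; exact h
  rw [ZMod.natCast_eq_zero_iff] at h2
  obtain ⟨c, hc⟩ := h2
  exact ⟨k * c, by nlinarith⟩

private lemma card_four : (∑ u : ZMod (4 * k), ind (4 * u = 0)) = 4 := by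
  classical
  have h1 : (∑ u : ZMod (4 * k), ind (4 * u = 0)) =
      ((univ.filter (fun u : ZMod (4 * k) => 4 * u = 0)).card : ℝ) := by
    rw [Finset.card_filter]
    push_cast
    refine Finset.sum_congr rfl fun u _ => ?_
    by_cases h : 4 * u = 0 <;> simp [ind, h]
  rw [h1]
  have h2 : univ.filter (fun u : ZMod (4 * k) => 4 * u = 0) =
      (Finset.range 4).image (fun i : ℕ => ((i * k : ℕ) : ZMod (4 * k))) := by
    ext u
    simp only [Finset.mem_filter, Finset.mem_univ, true_and, Finset.mem_image, Finset.mem_range]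
    constructor
    · intro h
      have h3 : ((u.val : ℕ) : ZMod (4 * k)) = u := ZMod.natCast_zmod_val u
      rw [← h3] at h
      have h4 : ((4 * u.val : ℕ) : ZMod (4 * k)) = 0 := by push_cast; exact h
      rw [ZMod.natCast_eq_zero_iff] at h4
      have h5 : k ∣ u.val := Nat.dvd_of_mul_dvd_mul_left (by norm_num) h4
      obtain ⟨c, hc⟩ := h5
      refine ⟨c, ?_, ?_⟩
      · have h6 : u.val < 4 * k := ZMod.val_lt u
        rw [hc, mul_comm k c] at h6
        exact lt_of_mul_lt_mul_right h6 (Nat.zero_le k)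
      · rw [mul_comm c k, ← hc]; exact h3
    · rintro ⟨i, _, rfl⟩
      have h4 : ((4 * (i * k) : ℕ) : ZMod (4 * k)) = 0 := by
        rw [ZMod.natCast_eq_zero_iff]
        exact ⟨i, by ring⟩
      push_cast at h4
      push_cast
      exact h4
  rw [h2, Finset.card_image_of_injOn]
  · simp
  · intro i hi j hj hij
    simp only [Finset.coe_range, Set.mem_Iio] at hi hj
    have hk : 0 < k := Nat.pos_of_ne_zero (NeZero.ne k)
    have h3 : (i * k) % (4 * k) = (j * k) % (4 * k) := (ZMod.natCast_eq_natCast_iff' _ _ _).1 hij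
    rw [Nat.mod_eq_of_lt (Nat.mul_lt_mul_of_pos_right hi hk),
      Nat.mod_eq_of_lt (Nat.mul_lt_mul_of_pos_right hj hk)] at h3
    exact Nat.eq_of_mul_eq_mul_right hk h3

private lemma sum_shift {z : ZMod (4 * k)} (h : par k z = 0) :
    (∑ u : ZMod (4 * k), ind (2 * (z + 2 * u) = 0)) = 4 := by
  obtain ⟨v, rfl⟩ := exists_half k h
  rw [← card_four k, ← Equiv.sum_comp (Equiv.addLeft v)
    (fun u : ZMod (4 * k) => ind (4 * u = 0))]
  refine Finset.sum_congr rfl fun u _ => ?_
  apply ind_congr
  rw [Equiv.coe_addLeft]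
  have : 2 * (2 * v + 2 * u) = 4 * (v + u) := by ring
  rw [this]

private lemma mem_ms_iff (a : V → ZMod (4 * k)) (x : V) : x ∈ ms k a ↔ par k (a x) ≠ 0 := by
  simp [ms, ← even_iff]

private lemma zmod2_ne {b c : ZMod 2} : (b ≠ 0 ↔ c ≠ 0) ↔ b = c := by
  revert b c; decide

private lemma dl_conn {A : Finset (V × V)} {a : V → ZMod (4 * k)}
    (h : ∀ e ∈ A, 2 * (a e.1 - a e.2) = 0) {x y : V} (hxy : Conn A x y) :
    2 * (a x - a y) = 0 := by
  have := (hxy.inv (fun v => 2 * (a x - a v) = 0) (fun e he => by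
    have h1 := h e he
    constructor
    · intro h2
      have : 2 * (a x - a e.2) = 2 * (a x - a e.1) + 2 * (a e.1 - a e.2) := by ring
      rw [this, h1, h2, add_zero]
    · intro h2
      have : 2 * (a x - a e.1) = 2 * (a x - a e.2) - 2 * (a e.1 - a e.2) := by ring
      rw [this, h1, h2, sub_zero])).1 (by simp)
  exact this

private lemma prod_dl (A : Finset (V × V)) (a : V → ZMod (4 * k)) :
    (∏ e ∈ A, dl k e a) = ind (∀ e ∈ A, 2 * (a e.1 - a e.2) = 0) := by
  by_cases h : ∀ e ∈ A, 2 * (a e.1 - a e.2) = 0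
  · rw [ind_true h]
    exact Finset.prod_eq_one fun e he => ind_true (h e he)
  · rw [ind_false h]
    push Not at h
    obtain ⟨e, he, h⟩ := h
    exact Finset.prod_eq_zero he (ind_false h)

private def NF (A : Finset (V × V)) (s : Finset V) : ℝ :=
  ∑ a : V → ZMod (4 * k), (∏ e ∈ A, dl k e a) * ind (ms k a = s)

private lemma par_one_ne : par k 1 = 1 := map_one _

/-- flipping the spins on `s` -/
private lemma NF_empty (s : Finset V) :
    NF k (∅ : Finset (V × V)) s = (2 * k : ℝ) ^ Fintype.card V := by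
  have hc : ∀ s : Finset V, NF k (∅ : Finset (V × V)) s = NF k (∅ : Finset (V × V)) ∅ := by
    intro s
    unfold NF
    rw [← Equiv.sum_comp (Equiv.addRight (fun v : V => if v ∈ s then (1 : ZMod (4 * k)) else 0))]
    refine Finset.sum_congr rfl fun a _ => ?_
    simp only [Finset.prod_empty, one_mul, Equiv.coe_addRight]
    apply ind_congr
    constructor
    · intro h
      ext x
      have h1 : x ∈ ms k (a + fun v : V => if v ∈ s then (1 : ZMod (4 * k)) else 0) ↔ x ∈ s := by
        rw [h]
      rw [mem_ms_iff] at h1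
      simp only [Pi.add_apply, map_add] at h1
      rw [mem_ms_iff]
      simp only [Finset.notMem_empty, iff_false, not_not]
      by_cases hx : x ∈ s
      · simp only [hx, if_true, iff_true, par_one_ne] at h1
        revert h1
        generalize par k (a x) = b
        revert b; decide
      · simp only [hx, if_false, iff_false, map_zero, add_zero, not_not] at h1
        exact h1
    · intro h
      ext x
      have h1 : x ∈ ms k a ↔ x ∈ (∅ : Finset V) := by rw [h]
      rw [mem_ms_iff] at h1
      simp only [Finset.notMem_empty, iff_false, not_not] at h1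
      rw [mem_ms_iff]
      simp only [Pi.add_apply, map_add, h1, zero_add]
      by_cases hx : x ∈ s
      · simp [hx]
      · simp [hx]
  have h1 : ∑ s : Finset V, NF k (∅ : Finset (V × V)) s = (4 * k : ℝ) ^ Fintype.card V := by
    unfold NF
    rw [Finset.sum_comm]
    have : ∀ a : V → ZMod (4 * k), (∑ s : Finset V, (∏ e ∈ (∅ : Finset (V × V)), dl k e a) *
        ind (ms k a = s)) = 1 := by
      intro a
      rw [Finset.sum_eq_single (ms k a)]
      · simp [ind]
      · intro s _ hs
        rw [ind_false (fun h => hs h.symm), mul_zero]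
      · simp
    simp only [this]
    rw [Finset.sum_const, Finset.card_univ, Fintype.card_fun, ZMod.card]
    simp
  have h2 : ∑ s : Finset V, NF k (∅ : Finset (V × V)) s =
      (2 : ℝ) ^ Fintype.card V * NF k (∅ : Finset (V × V)) ∅ := by
    rw [Finset.sum_congr rfl (fun s _ => hc s), Finset.sum_const, Finset.card_univ,
      Fintype.card_finset]
    simp
  rw [hc s]
  have h3 : (2 : ℝ) ^ Fintype.card V * NF k (∅ : Finset (V × V)) ∅ =
      (2 : ℝ) ^ Fintype.card V * (2 * k : ℝ) ^ Fintype.card V := by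
    rw [← h2, h1, ← mul_pow]; congr 1; ring
  exact mul_left_cancel₀ (by positivity) h3

private lemma NF_insert_conn {A : Finset (V × V)} {e : V × V} (he : e ∉ A)
    (hc : Conn A e.1 e.2) (s : Finset V) : NF k (insert e A) s = NF k A s := by
  unfold NF
  refine Finset.sum_congr rfl fun a _ => ?_
  rw [Finset.prod_insert he, prod_dl]
  by_cases h : ∀ e ∈ A, 2 * (a e.1 - a e.2) = 0
  · rw [dl, ind_true (dl_conn k h hc), one_mul]
  · rw [ind_false h]; simp

private lemma NF_insert_not {A : Finset (V × V)} {e : V × V} (he : e ∉ A)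
    (hc : ¬ Conn A e.1 e.2) (s : Finset V) :
    NF k (insert e A) s = ind (e.1 ∈ s ↔ e.2 ∈ s) * ((k : ℝ)⁻¹ * NF k A s) := by
  classical
  have hk : (0 : ℝ) < k := by exact_mod_cast Nat.pos_of_ne_zero (NeZero.ne k)
  by_cases hs : (e.1 ∈ s ↔ e.2 ∈ s)
  swap
  · rw [ind_false hs, zero_mul]
    unfold NF
    refine Finset.sum_eq_zero fun a _ => ?_
    rw [Finset.prod_insert he]
    by_cases h : ms k a = s
    · have : dl k e a = 0 := by
        apply ind_false
        intro h2
        apply hs
        rw [← h, mem_ms_iff, mem_ms_iff, zmod2_ne]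
        have := par_of_two_mul k h2
        rw [map_sub, sub_eq_zero] at this
        exact this
      rw [this]; simp
    · rw [ind_false h]; simp
  rw [ind_true hs, one_mul]
  have key : ∀ u : ZMod (4 * k), NF k (insert e A) s =
      ∑ a : V → ZMod (4 * k), (∏ e ∈ A, dl k e a) * ind (ms k a = s) *
        ind (2 * ((a e.1 - a e.2) + 2 * u) = 0) := by
    intro u
    unfold NF
    rw [← Equiv.sum_comp (Equiv.addRight (fun v : V => if Conn A e.1 v then 2 * u else 0))]
    refine Finset.sum_congr rfl fun a _ => ?_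
    rw [Equiv.coe_addRight, Finset.prod_insert he]
    have h1 : ms k (a + fun v : V => if Conn A e.1 v then 2 * u else 0) = ms k a := by
      ext x
      rw [mem_ms_iff, mem_ms_iff]
      simp only [Pi.add_apply, map_add]
      by_cases hx : Conn A e.1 x
      · simp [hx, par_two_mul]
      · simp [hx]
    have h2 : ∀ e' ∈ A, dl k e' (a + fun v : V => if Conn A e.1 v then 2 * u else 0) =
        dl k e' a := by
      intro e' he'
      have h3 : Conn A e.1 e'.1 ↔ Conn A e.1 e'.2 :=
        ⟨fun h => h.trans' (Conn.edge he'), fun h => h.trans' (Conn.edge he').symm'⟩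
      unfold dl
      simp only [Pi.add_apply]
      by_cases hx : Conn A e.1 e'.1
      · rw [if_pos hx, if_pos (h3.1 hx)]
        congr 2; ring
      · rw [if_neg hx, if_neg (fun h => hx (h3.2 h))]
        congr 2; ring
    have h4 : dl k e (a + fun v : V => if Conn A e.1 v then 2 * u else 0) =
        ind (2 * ((a e.1 - a e.2) + 2 * u) = 0) := by
      unfold dl
      simp only [Pi.add_apply]
      rw [if_pos (Conn.rfl' A e.1), if_neg hc]
      congr 2; ring
    rw [Finset.prod_congr rfl h2, h1, h4]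
    ring
  have h5 : (4 * k : ℝ) * NF k (insert e A) s = 4 * NF k A s := by
    have h6 : (4 * k : ℝ) * NF k (insert e A) s =
        ∑ _u : ZMod (4 * k), NF k (insert e A) s := by
      rw [Finset.sum_const, Finset.card_univ, ZMod.card]; simp
    rw [h6, Finset.sum_congr rfl (fun u _ => key u), Finset.sum_comm]
    unfold NF
    rw [Finset.mul_sum]
    refine Finset.sum_congr rfl fun a _ => ?_
    rw [← Finset.mul_sum]
    by_cases h : ms k a = s
    · have h7 : par k (a e.1 - a e.2) = 0 := by
        rw [← h, mem_ms_iff, mem_ms_iff, zmod2_ne] at hs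
        rw [map_sub, hs, sub_self]
      rw [sum_shift k h7]; ring
    · rw [ind_false h]; simp
  field_simp
  linarith

private lemma NF_eq (A : Finset (V × V)) (s : Finset V) :
    NF k A s = ind (Compat A s) * ((2 * k : ℝ) ^ Fintype.card V * ((k : ℝ)⁻¹) ^ rk A) := by
  induction A using Finset.induction_on with
  | empty =>
    rw [NF_empty, rk_empty, ind_true (by intro e he; simp at he)]
    simp
  | insert e A he ih =>
    have hr := rk_insert A e
    have hcomp : ind (Compat (insert e A) s) = ind (e.1 ∈ s ↔ e.2 ∈ s) * ind (Compat A s) := by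
      rw [← ind_and]
      apply ind_congr
      unfold Compat
      simp only [Finset.mem_insert, forall_eq_or_imp]
    by_cases hc : Conn A e.1 e.2
    · rw [ind_true hc] at hr
      have hr' : rk (insert e A) = rk A := by
        have : (rk (insert e A) : ℝ) = rk A := by linarith
        exact_mod_cast this
      rw [NF_insert_conn k he hc, ih, hr']
      congr 1
      apply ind_congr
      constructor
      · intro h e' he'
        rcases Finset.mem_insert.1 he' with rfl | h'
        · exact compat_conn h hc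
        · exact h e' h'
      · intro h e' he'
        exact h e' (Finset.mem_insert_of_mem he')
    · rw [ind_false hc] at hr
      have hr' : rk (insert e A) = rk A + 1 := by
        have : (rk (insert e A) : ℝ) = ((rk A + 1 : ℕ) : ℝ) := by push_cast; linarith
        exact_mod_cast this
      rw [NF_insert_not k he hc, ih, hr', hcomp, pow_succ]
      ring

private lemma sum_ms (A : Finset (V × V)) (G : Finset V → ℝ) :
    ∑ a : V → ZMod (4 * k), (∏ e ∈ A, dl k e a) * G (ms k a) =
      ∑ s : Finset V, NF k A s * G s := by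
  unfold NF
  simp only [Finset.sum_mul]
  rw [Finset.sum_comm]
  refine Finset.sum_congr rfl fun a _ => ?_
  rw [Finset.sum_eq_single (ms k a)]
  · rw [ind_true rfl]; ring
  · intro s _ hs
    rw [ind_false (fun h => hs h.symm)]; ring
  · simp

/-- general form of the spin representation -/
private lemma jsum_gen (D : Finset (V × V)) (w : V × V → ℝ) (h : V → ℝ)
    (ψ : Finset (V × V) → Finset V → ℝ) :
    jsum D w (2 * k : ℝ) univ h ψ =
      (∑ a : V → ZMod (4 * k), ∑ A ∈ D.powerset, (∏ e ∈ A, (w e * dl k e a)) *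
        (∏ e ∈ D \ A, (1 - w e)) * (Real.exp (∑ x, h x * ss k x a) * ψ A (ms k a))) /
        (4 * k : ℝ) ^ Fintype.card V := by
  have hk : (0 : ℝ) < k := by exact_mod_cast Nat.pos_of_ne_zero (NeZero.ne k)
  rw [Finset.sum_comm, Finset.sum_div]
  unfold jsum
  refine Finset.sum_congr rfl fun A _ => ?_
  have h1 : (∑ a : V → ZMod (4 * k), (∏ e ∈ A, (w e * dl k e a)) *
      (∏ e ∈ D \ A, (1 - w e)) * (Real.exp (∑ x, h x * ss k x a) * ψ A (ms k a))) =
      (∏ e ∈ A, w e) * (∏ e ∈ D \ A, (1 - w e)) *
      ∑ a : V → ZMod (4 * k), (∏ e ∈ A, dl k e a) *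
        (fun s => Real.exp (∑ x, h x * sgn s x) * ψ A s) (ms k a) := by
    rw [Finset.mul_sum]
    refine Finset.sum_congr rfl fun a _ => ?_
    simp only [sgn_ms]
    rw [Finset.prod_mul_distrib]
    ring
  rw [h1, sum_ms k A (fun s => Real.exp (∑ x, h x * sgn s x) * ψ A s), Finset.powerset_univ,
    Finset.mul_sum, Finset.sum_div]
  refine Finset.sum_congr rfl fun s _ => ?_
  rw [NF_eq]
  unfold jw wt
  rw [Finset.card_univ]
  rw [eq_div_iff (by positivity)]
  have h2 : (4 * k : ℝ) ^ Fintype.card V = 2 ^ Fintype.card V * (2 * k : ℝ) ^ Fintype.card V := by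
    rw [← mul_pow]; congr 1; ring
  have h3 : ((2 * k : ℝ)⁻¹) ^ rk A * 2 ^ rk A = ((k : ℝ)⁻¹) ^ rk A := by
    rw [← mul_pow]; congr 1; field_simp
  have h4 : ((1 : ℝ) / 2) ^ Fintype.card V * 2 ^ Fintype.card V = 1 := by
    rw [← mul_pow]; norm_num
  rw [h2, ← h3]
  calc _ = (∏ e ∈ A, w e) * (∏ e ∈ D \ A, (1 - w e)) *
        (((2 * k : ℝ)⁻¹) ^ rk A * 2 ^ rk A) * ind (Compat A s) *
        Real.exp (∑ x, h x * sgn s x) * ψ A s * (2 * k : ℝ) ^ Fintype.card V *
        (((1 : ℝ) / 2) ^ Fintype.card V * 2 ^ Fintype.card V) := by ring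
    _ = _ := by rw [h4]; ring

/-- the joint sum of a function of the signs is the spin sum -/
theorem jsum_spin (D : Finset (V × V)) (w : V × V → ℝ) (h : V → ℝ) (φ : Finset V → ℝ) :
    jsum D w (2 * k : ℝ) univ h (fun _ s => φ s) =
      (∑ a : V → ZMod (4 * k), sw k D w h a * φ (ms k a)) / (4 * k : ℝ) ^ Fintype.card V := by
  rw [jsum_gen]
  congr 1
  refine Finset.sum_congr rfl fun a _ => ?_
  rw [← Finset.sum_mul, ← Finset.prod_add]
  unfold sw
  rw [Finset.prod_congr rfl (fun e _ => add_comm (w e * dl k e a) (1 - w e))]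
  ring

/-- open bond and spins -/
theorem jsum_edge (D : Finset (V × V)) (w : V × V → ℝ) (h : V → ℝ) {e : V × V} (he : e ∈ D) :
    jsum D w (2 * k : ℝ) univ h (fun A _ => ind (e ∈ A)) =
      (∑ a : V → ZMod (4 * k), sw k D w h a * (w e * dl k e a)) /
        (4 * k : ℝ) ^ Fintype.card V := by
  rw [jsum_gen]
  congr 1
  refine Finset.sum_congr rfl fun a _ => ?_
  have h1 : ∀ A ∈ D.powerset, (∏ e ∈ A, (w e * dl k e a)) *
      (∏ e ∈ D \ A, (1 - w e)) * (Real.exp (∑ x, h x * ss k x a) * ind (e ∈ A)) =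
      ((∏ e ∈ A, (w e * dl k e a)) * (∏ e' ∈ D \ A, (if e' = e then 0 else (1 - w e')))) *
        Real.exp (∑ x, h x * ss k x a) := by
    intro A _
    by_cases hA : e ∈ A
    · rw [ind_true hA]
      have : ∏ e' ∈ D \ A, (if e' = e then 0 else (1 - w e')) = ∏ e' ∈ D \ A, (1 - w e') := by
        refine Finset.prod_congr rfl fun e' he' => ?_
        rw [if_neg]
        rintro rfl
        exact (Finset.mem_sdiff.1 he').2 hA
      rw [this]; ring
    · rw [ind_false hA]
      have : ∏ e' ∈ D \ A, (if e' = e then 0 else (1 - w e')) = 0 :=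
        Finset.prod_eq_zero (Finset.mem_sdiff.2 ⟨he, hA⟩) (by simp)
      rw [this]; ring
  rw [Finset.sum_congr rfl h1, ← Finset.sum_mul, ← Finset.prod_add]
  unfold sw
  rw [← Finset.mul_prod_erase D _ he, ← Finset.mul_prod_erase D _ he]
  have h2 : ∏ x ∈ D.erase e, (w x * dl k x a + if x = e then 0 else 1 - w x) =
      ∏ x ∈ D.erase e, (1 - w x + w x * dl k x a) := by
    refine Finset.prod_congr rfl fun x hx => ?_
    rw [if_neg (Finset.ne_of_mem_erase hx)]; ring
  rw [h2]
  have h3 : w e * dl k e a + (if e = e then 0 else 1 - w e) =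
      (1 - w e + w e * dl k e a) * (w e * dl k e a) := by
    simp only [if_true, add_zero]
    rcases ind_zero_or_one (2 * (a e.1 - a e.2) = 0) with h | h <;>
      · unfold dl; rw [h]; ring
  rw [h3]; ring

end FKB
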