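import Pool.Agent.FKB.SpinC
import Pool.Agent.FKB.SpinRep
import Pool.Agent.FKB.Joint

open Finset
noncomputable section
namespace FKB

variable {V : Type*} [Fintype V] [DecidableEq V]

section Core

variable (k : ℕ) [NeZero k]

/-- spin sum -/
private def sS (D : Finset (V × V)) (w : V × V → ℝ) (h : V → ℝ)
    (f : (V → ZMod (4 * k)) → ℝ) : ℝ := ∑ a : V → ZMod (4 * k), sw k D w h a * f a

private lemma sS_add (D : Finset (V × V)) (w : V × V → ℝ) (h : V → ℝ)
    (f g : (V → ZMod (4 * k)) → ℝ) :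
    sS k D w h (fun a => f a + g a) = sS k D w h f + sS k D w h g := by
  simp only [sS, mul_add, Finset.sum_add_distrib]

private lemma sS_sub (D : Finset (V × V)) (w : V × V → ℝ) (h : V → ℝ)
    (f g : (V → ZMod (4 * k)) → ℝ) :
    sS k D w h (fun a => f a - g a) = sS k D w h f - sS k D w h g := by
  simp only [sS, mul_sub, Finset.sum_sub_distrib]

private lemma sS_smul (D : Finset (V × V)) (w : V × V → ℝ) (h : V → ℝ) (c : ℝ)
    (f : (V → ZMod (4 * k)) → ℝ) :
    sS k D w h (fun a => c * f a) = c * sS k D w h f := by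
  simp only [sS, Finset.mul_sum]
  exact Finset.sum_congr rfl fun a _ => by ring

omit [DecidableEq V] in
private lemma card_pos' : (0 : ℝ) < (4 * k : ℝ) ^ Fintype.card V := by
  have : (0 : ℝ) < k := by exact_mod_cast Nat.pos_of_ne_zero (NeZero.ne k)
  positivity

private lemma sS_one_pos {D : Finset (V × V)} {w : V × V → ℝ} (hw : Adm D w) (h : V → ℝ) :
    0 < sS k D w h (fun _ => 1) := by
  have hk : (0 : ℝ) < k := by exact_mod_cast Nat.pos_of_ne_zero (NeZero.ne k)
  have h1 := JZ_pos (q := (2 * k : ℝ)) (by positivity) hw (S := univ)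
    (fun e _ => ⟨Finset.mem_univ _, Finset.mem_univ _⟩) h
  have h2 := jsum_spin k D w h (fun _ => 1)
  unfold JZ at h1
  rw [h2] at h1
  exact (div_pos_iff_of_pos_right (card_pos' k)).1 h1

private lemma JE_eq (D : Finset (V × V)) (w : V × V → ℝ) (h : V → ℝ) (φ : Finset V → ℝ) :
    JE D w (2 * k : ℝ) univ h (fun _ s => φ s) =
      sS k D w h (fun a => φ (ms k a)) / sS k D w h (fun _ => 1) := by
  unfold JE JZ
  rw [jsum_spin k D w h φ, jsum_spin k D w h (fun _ => 1)]
  exact div_div_div_cancel_right₀ (card_pos' (V := V) k).ne' _ _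

private lemma JE_edge_eq (D : Finset (V × V)) (w : V × V → ℝ) (h : V → ℝ) {e : V × V}
    (he : e ∈ D) :
    JE D w (2 * k : ℝ) univ h (fun A _ => ind (e ∈ A)) =
      w e * (sS k D w h (fun a => dl k e a) / sS k D w h (fun _ => 1)) := by
  unfold JE JZ
  rw [jsum_edge k D w h he, jsum_spin k D w h (fun _ => 1)]
  rw [div_div_div_cancel_right₀ (card_pos' (V := V) k).ne', ← mul_div_assoc]
  congr 1
  rw [sS, Finset.mul_sum]
  exact Finset.sum_congr rfl fun a _ => by ring

private lemma pair_sum (D : Finset (V × V)) (w w' : V × V → ℝ) (h h' : V → ℝ)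
    (f g : (V → ZMod (4 * k)) → ℝ) :
    ∑ ab : (V → ZMod (4 * k)) × (V → ZMod (4 * k)),
      (sw k D w h ab.1 * sw k D w' h' ab.2) * (f ab.1 * g ab.2) =
      sS k D w h f * sS k D w' h' g := by
  rw [Fintype.sum_prod_type, sS, sS, Finset.sum_mul_sum]
  exact Finset.sum_congr rfl fun a _ => Finset.sum_congr rfl fun b _ => by ring

private lemma pair_GP {D : Finset (V × V)} {w w' : V × V → ℝ}
    (hw : Adm D w) (hw' : Adm D w') (hle : ∀ e ∈ D, w' e ≤ w e) {h h' : V → ℝ}
    (hh : ∀ x, |h' x| ≤ h x) :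
    GP (fun ab : (V → ZMod (4 * k)) × (V → ZMod (4 * k)) =>
      sw k D w h ab.1 * sw k D w' h' ab.2) := by
  have h1 : GP (fun ab : (V → ZMod (4 * k)) × (V → ZMod (4 * k)) =>
      ∏ e ∈ D, (((1 - w e) + w e * dl k e ab.1) * ((1 - w' e) + w' e * dl k e ab.2))) := by
    refine GP.prod D fun e he => ?_
    exact GC.bond (GC_dl k e) (fun a => ind_zero_or_one _) (hw' e he).1 (hle e he) (hw e he).2
  have h2 : GP (fun ab : (V → ZMod (4 * k)) × (V → ZMod (4 * k)) =>
      ∏ x : V, Real.exp (h x * ss k x ab.1 + h' x * ss k x ab.2)) := by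
    refine GP.prod univ fun x _ => ?_
    exact GC.expo (GC_ss k x) (hh x)
  have h3 := h1.mul h2
  convert h3 using 2 with ab
  simp only [sw]
  rw [Finset.prod_mul_distrib, ← Real.exp_sum, Finset.sum_add_distrib, Real.exp_add]
  ring

private lemma pair_nonneg {D : Finset (V × V)} {w w' : V × V → ℝ}
    (hw : Adm D w) (hw' : Adm D w') (hle : ∀ e ∈ D, w' e ≤ w e) {h h' : V → ℝ}
    (hh : ∀ x, |h' x| ≤ h x)
    {F : (V → ZMod (4 * k)) × (V → ZMod (4 * k)) → ℝ} (hF : GP F) :
    0 ≤ ∑ ab : (V → ZMod (4 * k)) × (V → ZMod (4 * k)),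
      (sw k D w h ab.1 * sw k D w' h' ab.2) * F ab :=
  ((pair_GP k hw hw' hle hh).mul hF).sum_nonneg

/-- comparison of one expectation -/
private lemma core_one_sub {D : Finset (V × V)} {w w' : V × V → ℝ}
    (hw : Adm D w) (hw' : Adm D w') (hle : ∀ e ∈ D, w' e ≤ w e) {h h' : V → ℝ}
    (hh : ∀ x, |h' x| ≤ h x) {f : (V → ZMod (4 * k)) → ℝ} (hf : GC f) :
    sS k D w' h' f / sS k D w' h' (fun _ => 1) ≤ sS k D w h f / sS k D w h (fun _ => 1) := by
  have h1 := pair_nonneg k hw hw' hle hh hf.minus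
  have h2 : ∑ ab : (V → ZMod (4 * k)) × (V → ZMod (4 * k)),
      (sw k D w h ab.1 * sw k D w' h' ab.2) * (f ab.1 - f ab.2) =
      sS k D w h f * sS k D w' h' (fun _ => 1) - sS k D w h (fun _ => 1) * sS k D w' h' f := by
    rw [← pair_sum, ← pair_sum, ← Finset.sum_sub_distrib]
    exact Finset.sum_congr rfl fun a _ => by ring
  rw [h2] at h1
  rw [div_le_div_iff₀ (sS_one_pos k hw' h') (sS_one_pos k hw h)]
  linarith

private lemma core_one_add {D : Finset (V × V)} {w w' : V × V → ℝ}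
    (hw : Adm D w) (hw' : Adm D w') (hle : ∀ e ∈ D, w' e ≤ w e) {h h' : V → ℝ}
    (hh : ∀ x, |h' x| ≤ h x) {f : (V → ZMod (4 * k)) → ℝ} (hf : GC f) :
    -(sS k D w' h' f / sS k D w' h' (fun _ => 1)) ≤ sS k D w h f / sS k D w h (fun _ => 1) := by
  have h1 := pair_nonneg k hw hw' hle hh hf.plus
  have h2 : ∑ ab : (V → ZMod (4 * k)) × (V → ZMod (4 * k)),
      (sw k D w h ab.1 * sw k D w' h' ab.2) * (f ab.1 + f ab.2) =
      sS k D w h f * sS k D w' h' (fun _ => 1) + sS k D w h (fun _ => 1) * sS k D w' h' f := by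
    rw [← pair_sum, ← pair_sum, ← Finset.sum_add_distrib]
    exact Finset.sum_congr rfl fun a _ => by ring
  rw [h2] at h1
  rw [← neg_div, div_le_div_iff₀ (sS_one_pos k hw' h') (sS_one_pos k hw h)]
  linarith

private lemma core_two {D : Finset (V × V)} {w w' : V × V → ℝ}
    (hw : Adm D w) (hw' : Adm D w') (hle : ∀ e ∈ D, w' e ≤ w e) {h h' : V → ℝ}
    (hh : ∀ x, |h' x| ≤ h x) {f g : (V → ZMod (4 * k)) → ℝ} (hf : GC f) (hg : GC g) :
    |sS k D w h f / sS k D w h (fun _ => 1) * (sS k D w' h' g / sS k D w' h' (fun _ => 1)) -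
      sS k D w' h' f / sS k D w' h' (fun _ => 1) * (sS k D w h g / sS k D w h (fun _ => 1))| ≤
      sS k D w h (fun a => f a * g a) / sS k D w h (fun _ => 1) -
      sS k D w' h' (fun a => f a * g a) / sS k D w' h' (fun _ => 1) := by
  have hZ := sS_one_pos k hw h
  have hZ' := sS_one_pos k hw' h'
  have h1 := pair_nonneg k hw hw' hle hh (hf.plus.mul hg.minus)
  have h2 := pair_nonneg k hw hw' hle hh (hf.minus.mul hg.plus)
  have e1 : ∑ ab : (V → ZMod (4 * k)) × (V → ZMod (4 * k)),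
      (sw k D w h ab.1 * sw k D w' h' ab.2) * ((f ab.1 + f ab.2) * (g ab.1 - g ab.2)) =
      sS k D w h (fun a => f a * g a) * sS k D w' h' (fun _ => 1) -
        sS k D w h f * sS k D w' h' g + sS k D w h g * sS k D w' h' f -
        sS k D w h (fun _ => 1) * sS k D w' h' (fun a => f a * g a) := by
    rw [← pair_sum, ← pair_sum, ← pair_sum, ← pair_sum, ← Finset.sum_sub_distrib,
      ← Finset.sum_add_distrib, ← Finset.sum_sub_distrib]
    exact Finset.sum_congr rfl fun a _ => by ring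
  have e2 : ∑ ab : (V → ZMod (4 * k)) × (V → ZMod (4 * k)),
      (sw k D w h ab.1 * sw k D w' h' ab.2) * ((f ab.1 - f ab.2) * (g ab.1 + g ab.2)) =
      sS k D w h (fun a => f a * g a) * sS k D w' h' (fun _ => 1) +
        sS k D w h f * sS k D w' h' g - sS k D w h g * sS k D w' h' f -
        sS k D w h (fun _ => 1) * sS k D w' h' (fun a => f a * g a) := by
    rw [← pair_sum, ← pair_sum, ← pair_sum, ← pair_sum, ← Finset.sum_add_distrib,
      ← Finset.sum_sub_distrib, ← Finset.sum_sub_distrib]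
    exact Finset.sum_congr rfl fun a _ => by ring
  rw [e1] at h1
  rw [e2] at h2
  have hne := hZ.ne'
  have hne' := hZ'.ne'
  have hZZ := mul_pos hZ hZ'
  have k1 : sS k D w h f / sS k D w h (fun _ => 1) * (sS k D w' h' g / sS k D w' h' (fun _ => 1)) -
      sS k D w' h' f / sS k D w' h' (fun _ => 1) * (sS k D w h g / sS k D w h (fun _ => 1)) =
      (sS k D w h f * sS k D w' h' g - sS k D w' h' f * sS k D w h g) /
        (sS k D w h (fun _ => 1) * sS k D w' h' (fun _ => 1)) := by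
    field_simp
  have k2 : sS k D w h (fun a => f a * g a) / sS k D w h (fun _ => 1) -
      sS k D w' h' (fun a => f a * g a) / sS k D w' h' (fun _ => 1) =
      (sS k D w h (fun a => f a * g a) * sS k D w' h' (fun _ => 1) -
        sS k D w h (fun _ => 1) * sS k D w' h' (fun a => f a * g a)) /
        (sS k D w h (fun _ => 1) * sS k D w' h' (fun _ => 1)) := by
    field_simp
  rw [k1, k2, abs_le]
  constructor
  · rw [← neg_div]
    refine div_le_div_of_nonneg_right ?_ hZZ.le
    linarith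
  · refine div_le_div_of_nonneg_right ?_ hZZ.le
    linarith

end Core

private lemma ss_sq {V : Type*} (k : ℕ) [NeZero k] (x : V) (a : V → ZMod (4 * k)) :
    ss k x a * ss k x a = 1 := by
  unfold ss; split_ifs <;> norm_num

theorem keyfin_one {k : ℕ} (hk : 1 ≤ k) {D : Finset (V × V)} {w w' : V × V → ℝ}
    (hw : Adm D w) (hw' : Adm D w') (hle : ∀ e ∈ D, w' e ≤ w e) {h h' : V → ℝ}
    (hh : ∀ x, |h' x| ≤ h x) (x : V) :
    |JE D w' (2 * k : ℝ) univ h' (fun _ s => sgn s x)| ≤
      JE D w (2 * k : ℝ) univ h (fun _ s => sgn s x) := by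
  have : NeZero k := ⟨by omega⟩
  rw [JE_eq k D w h (fun s => sgn s x), JE_eq k D w' h' (fun s => sgn s x)]
  simp only [sgn_ms]
  rw [abs_le]
  constructor
  · have := core_one_add k hw hw' hle hh (GC_ss k x)
    linarith
  · exact core_one_sub k hw hw' hle hh (GC_ss k x)

theorem keyfin_two {k : ℕ} (hk : 1 ≤ k) {D : Finset (V × V)} {w w' : V × V → ℝ}
    (hw : Adm D w) (hw' : Adm D w') (hle : ∀ e ∈ D, w' e ≤ w e) {h h' : V → ℝ}
    (hh : ∀ x, |h' x| ≤ h x) (x y : V) :
    |JE D w (2 * k : ℝ) univ h (fun _ s => sgn s x) * JE D w' (2 * k : ℝ) univ h' (fun _ s => sgn s y)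
      - JE D w' (2 * k : ℝ) univ h' (fun _ s => sgn s x) * JE D w (2 * k : ℝ) univ h (fun _ s => sgn s y)|
      ≤ JE D w (2 * k : ℝ) univ h (fun _ s => sgn s x * sgn s y) -
        JE D w' (2 * k : ℝ) univ h' (fun _ s => sgn s x * sgn s y) := by
  have : NeZero k := ⟨by omega⟩
  rw [JE_eq k D w h (fun s => sgn s x), JE_eq k D w' h' (fun s => sgn s x),
    JE_eq k D w h (fun s => sgn s y), JE_eq k D w' h' (fun s => sgn s y),
    JE_eq k D w h (fun s => sgn s x * sgn s y), JE_eq k D w' h' (fun s => sgn s x * sgn s y)]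
  simp only [sgn_ms]
  exact core_two k hw hw' hle hh (GC_ss k x) (GC_ss k y)

theorem keyfin_edge {k : ℕ} (hk : 1 ≤ k) {D : Finset (V × V)} {w : V × V → ℝ}
    (hw : Adm D w) {h h' : V → ℝ} (hh : ∀ x, |h' x| ≤ h x) {e : V × V} (he : e ∈ D) :
    w e / (2 * k : ℝ) * (JE D w (2 * k : ℝ) univ h (fun _ s => sgn s e.1 * sgn s e.2) -
        JE D w (2 * k : ℝ) univ h' (fun _ s => sgn s e.1 * sgn s e.2)) ≤
      JE D w (2 * k : ℝ) univ h (fun A _ => ind (e ∈ A)) -
        JE D w (2 * k : ℝ) univ h' (fun A _ => ind (e ∈ A)) := by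
  have : NeZero k := ⟨by omega⟩
  rw [JE_eq k D w h (fun s => sgn s e.1 * sgn s e.2), JE_eq k D w h' (fun s => sgn s e.1 * sgn s e.2),
    JE_edge_eq k D w h he, JE_edge_eq k D w h' he]
  simp only [sgn_ms]
  have h1 := core_one_sub k hw hw (fun _ _ => le_rfl) hh (GC_dl_sub k e)
  rw [sS_sub, sS_sub, sS_smul, sS_smul, sub_div, sub_div, mul_div_assoc, mul_div_assoc] at h1
  have h2 := (hw e he).1
  set X := sS k D w h (fun a => ss k e.1 a * ss k e.2 a) / sS k D w h (fun _ => 1)
  set X' := sS k D w h' (fun a => ss k e.1 a * ss k e.2 a) / sS k D w h' (fun _ => 1)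
  set Y := sS k D w h (fun a => dl k e a) / sS k D w h (fun _ => 1)
  set Y' := sS k D w h' (fun a => dl k e a) / sS k D w h' (fun _ => 1)
  have h3 : w e / (2 * k : ℝ) * (X - X') = w e * (1 / (2 * k : ℝ) * X - 1 / (2 * k : ℝ) * X') := by
    ring
  have h4 : w e * Y - w e * Y' = w e * (Y - Y') := by ring
  rw [h3, h4]
  exact mul_le_mul_of_nonneg_left (by linarith) h2

theorem keyfin_I {k : ℕ} (hk : 1 ≤ k) {D : Finset (V × V)} {w w' : V × V → ℝ}
    (hw : Adm D w) (hw' : Adm D w') (hle : ∀ e ∈ D, w' e ≤ w e) {h h' : V → ℝ}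
    (hh : ∀ x, |h' x| ≤ h x) (x y z : V) :
    |JE D w (2 * k : ℝ) univ h (fun _ s => sgn s x * sgn s z) *
        JE D w' (2 * k : ℝ) univ h' (fun _ s => sgn s y * sgn s z)
      - JE D w' (2 * k : ℝ) univ h' (fun _ s => sgn s x * sgn s z) *
        JE D w (2 * k : ℝ) univ h (fun _ s => sgn s y * sgn s z)|
      ≤ JE D w (2 * k : ℝ) univ h (fun _ s => sgn s x * sgn s y) -
        JE D w' (2 * k : ℝ) univ h' (fun _ s => sgn s x * sgn s y) := by
  have : NeZero k := ⟨by omega⟩
  rw [JE_eq k D w h (fun s => sgn s x * sgn s z), JE_eq k D w' h' (fun s => sgn s x * sgn s z),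
    JE_eq k D w h (fun s => sgn s y * sgn s z), JE_eq k D w' h' (fun s => sgn s y * sgn s z),
    JE_eq k D w h (fun s => sgn s x * sgn s y), JE_eq k D w' h' (fun s => sgn s x * sgn s y)]
  simp only [sgn_ms]
  have h1 := core_two k hw hw' hle hh ((GC_ss k x).mul (GC_ss k z)) ((GC_ss k y).mul (GC_ss k z))
  have h2 : ∀ a : V → ZMod (4 * k), ss k x a * ss k z a * (ss k y a * ss k z a) =
      ss k x a * ss k y a := by
    intro a
    have := ss_sq k z a
    linear_combination (ss k x a * ss k y a) * this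
  simp only [h2] at h1
  exact h1

theorem keyfin_gks {k : ℕ} (hk : 1 ≤ k) {D : Finset (V × V)} {w : V × V → ℝ}
    (hw : Adm D w) {h : V → ℝ} (hh : ∀ x, 0 ≤ h x) (x y : V) :
    JE D w (2 * k : ℝ) univ h (fun _ s => sgn s x) *
        JE D w (2 * k : ℝ) univ h (fun _ s => sgn s y) ≤
      JE D w (2 * k : ℝ) univ h (fun _ s => sgn s x * sgn s y) := by
  have : NeZero k := ⟨by omega⟩
  rw [JE_eq k D w h (fun s => sgn s x), JE_eq k D w h (fun s => sgn s y),
    JE_eq k D w h (fun s => sgn s x * sgn s y)]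
  simp only [sgn_ms]
  have hZ := sS_one_pos k hw h
  have h1 := pair_nonneg k hw hw (fun _ _ => le_rfl) (h := h) (h' := h)
    (fun x => (abs_of_nonneg (hh x)).le) ((GC_ss k x).minus.mul (GC_ss k y).minus)
  have e1 : ∑ ab : (V → ZMod (4 * k)) × (V → ZMod (4 * k)),
      (sw k D w h ab.1 * sw k D w h ab.2) *
        ((ss k x ab.1 - ss k x ab.2) * (ss k y ab.1 - ss k y ab.2)) =
      sS k D w h (fun a => ss k x a * ss k y a) * sS k D w h (fun _ => 1) -
        sS k D w h (fun a => ss k x a) * sS k D w h (fun a => ss k y a) -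
        sS k D w h (fun a => ss k y a) * sS k D w h (fun a => ss k x a) +
        sS k D w h (fun _ => 1) * sS k D w h (fun a => ss k x a * ss k y a) := by
    rw [← pair_sum, ← pair_sum, ← pair_sum, ← pair_sum, ← Finset.sum_sub_distrib,
      ← Finset.sum_sub_distrib, ← Finset.sum_add_distrib]
    exact Finset.sum_congr rfl fun a _ => by ring
  rw [e1] at h1
  rw [div_mul_div_comm, div_le_div_iff₀ (mul_pos hZ hZ) hZ]
  have h2 : sS k D w h (fun a => ss k x a) * sS k D w h (fun a => ss k y a) ≤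
      sS k D w h (fun a => ss k x a * ss k y a) * sS k D w h (fun _ => 1) := by linarith
  calc sS k D w h (fun a => ss k x a) * sS k D w h (fun a => ss k y a) * sS k D w h (fun _ => 1)
      ≤ (sS k D w h (fun a => ss k x a * ss k y a) * sS k D w h (fun _ => 1)) *
          sS k D w h (fun _ => 1) := mul_le_mul_of_nonneg_right h2 hZ.le
    _ = _ := by ring

end FKB
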