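import Pool.Agent.FKB.Key

open Finset
noncomputable section
namespace FKB

variable {V : Type*} [DecidableEq V]

/-- the total field energy -/
def magnH (S : Finset V) (h0 : V → ℝ) (s : Finset V) : ℝ := ∑ x ∈ S, h0 x * sgn s x

theorem magn_hasDerivAt_jsum (D : Finset (V × V)) (w : V × V → ℝ) (q : ℝ) (S : Finset V)
    (h0 : V → ℝ) (φ : Finset (V × V) → Finset V → ℝ) (u : ℝ) :
    HasDerivAt (fun u : ℝ => jsum D w q S (fun y => u * h0 y) φ)
      (jsum D w q S (fun y => u * h0 y) (fun A s => magnH S h0 s * φ A s)) u := by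
  unfold jsum
  refine HasDerivAt.fun_sum fun A _ => HasDerivAt.fun_sum fun s _ => ?_
  unfold jw
  have h1 : ∀ u : ℝ, (∑ x ∈ S, u * h0 x * sgn s x) = u * magnH S h0 s := by
    intro u
    unfold magnH
    rw [Finset.mul_sum]
    exact Finset.sum_congr rfl fun x _ => by ring
  simp only [h1]
  have h2 : HasDerivAt (fun u : ℝ => Real.exp (u * magnH S h0 s))
      (Real.exp (u * magnH S h0 s) * (1 * magnH S h0 s)) u :=
    ((hasDerivAt_id u).mul_const (magnH S h0 s)).exp
  have h3 := ((h2.const_mul (ind (Compat A s))).const_mul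
    (wt D w q A * (2 ^ rk A * (1 / 2) ^ S.card))).mul_const (φ A s)
  refine h3.congr_deriv ?_
  ring

theorem magn_hasDerivAt_JE {D : Finset (V × V)} {w : V × V → ℝ} {q : ℝ} (hq : 0 < q)
    (hw : Adm D w) {S : Finset V} (hS : Verts D S)
    (h0 : V → ℝ) (φ : Finset (V × V) → Finset V → ℝ) (u : ℝ) :
    HasDerivAt (fun u : ℝ => JE D w q S (fun y => u * h0 y) φ)
      (JE D w q S (fun y => u * h0 y) (fun A s => magnH S h0 s * φ A s) -
        JE D w q S (fun y => u * h0 y) φ *
          JE D w q S (fun y => u * h0 y) (fun _ s => magnH S h0 s)) u := by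
  have hZ : JZ D w q S (fun y => u * h0 y) ≠ 0 := (JZ_pos hq hw hS _).ne'
  have h1 := magn_hasDerivAt_jsum D w q S h0 φ u
  have h2 := magn_hasDerivAt_jsum D w q S h0 (fun _ _ => 1) u
  have h3 := h1.div h2 hZ
  have h4 : HasDerivAt (fun u : ℝ => JE D w q S (fun y => u * h0 y) φ) _ u := h3
  convert h4 using 1
  have h5 : jsum D w q S (fun y => u * h0 y) (fun _ _ => 1) = JZ D w q S (fun y => u * h0 y) := rfl
  rw [h5]
  simp only [mul_one]
  unfold JE
  field_simp

theorem magn_lower {k : ℕ} (hk : 1 ≤ k) {D : Finset (V × V)} {S : Finset V} (hS : Verts D S)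
    {w : V × V → ℝ} (hw : Adm D w) {h0 : V → ℝ} (hh : ∀ x ∈ S, 0 ≤ h0 x) {W : Finset V}
    (hWS : W ⊆ S) (hW : ∀ x ∈ W, 1 ≤ h0 x) {x : V} (hx : x ∈ S) {κ t : ℝ} (hκ : 0 < κ)
    (hκ1 : κ ≤ 1) (ht : 0 ≤ t) (h2 : 2 ≤ t * κ * W.card)
    (hP : ∀ z ∈ W, κ ≤ P D w (2 * k : ℝ) (fun A => Conn A x z)) :
    κ / 2 ≤ JE D w (2 * k : ℝ) S (fun y => t * h0 y) (fun _ s => sgn s x) := by
  have hq : (0 : ℝ) < 2 * (k : ℝ) := by
    have : (1 : ℝ) ≤ k := by exact_mod_cast hk
    linarith
  set m : ℝ → ℝ := fun u => JE D w (2 * k : ℝ) S (fun y => u * h0 y) (fun _ s => sgn s x)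
    with hm
  by_contra hlt
  push Not at hlt
  have hlt' : m t < κ / 2 := hlt
  -- monotonicity
  have hmono : ∀ u, 0 ≤ u → u ≤ t → m u ≤ m t := by
    intro u hu hut
    have := key_one hk hS hw hw (fun _ _ => le_rfl) (h := fun y => t * h0 y)
      (h' := fun y => u * h0 y) (fun z hz => by
        rw [abs_of_nonneg (mul_nonneg hu (hh z hz))]
        exact mul_le_mul_of_nonneg_right hut (hh z hz)) hx
    exact (le_abs_self _).trans this
  have hnonneg : ∀ u, 0 ≤ u → 0 ≤ m u := by
    intro u hu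
    have := key_one hk hS hw hw (fun _ _ => le_rfl) (h := fun y => u * h0 y)
      (h' := fun y => u * h0 y) (fun z hz => by
        rw [abs_of_nonneg (mul_nonneg hu (hh z hz))]) hx
    exact (abs_nonneg _).trans this
  have hle1 : ∀ (u : ℝ) (z : V),
      JE D w (2 * k : ℝ) S (fun y => u * h0 y) (fun _ s => sgn s z) ≤ 1 := by
    intro u z
    have h1 := JE_mono (q := 2 * (k : ℝ)) hq hw hS (fun y => u * h0 y)
      (φ := fun _ s => sgn s z) (ψ := fun _ _ => 1) (fun A _ _ _ s _ _ => by
        rcases sgn_eq s z with h | h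
        · rw [h]
        · rw [h]
          norm_num)
    rwa [JE_const hq hw hS] at h1
  have hderiv : ∀ u : ℝ, HasDerivAt m
      (∑ z ∈ S, h0 z * (JE D w (2 * k : ℝ) S (fun y => u * h0 y) (fun _ s => sgn s x * sgn s z) -
        m u * JE D w (2 * k : ℝ) S (fun y => u * h0 y) (fun _ s => sgn s z))) u := by
    intro u
    have h1 := magn_hasDerivAt_JE (q := 2 * (k : ℝ)) hq hw hS h0 (fun _ s => sgn s x) u
    convert h1 using 1
    have e1 : (fun (A : Finset (V × V)) (s : Finset V) => magnH S h0 s * sgn s x) =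
        (fun A s => ∑ z ∈ S, (h0 z * (sgn s x * sgn s z))) := by
      funext A s
      unfold magnH
      rw [Finset.sum_mul]
      exact Finset.sum_congr rfl fun z _ => by ring
    have e2 : (fun (A : Finset (V × V)) (s : Finset V) => magnH S h0 s) =
        (fun A s => ∑ z ∈ S, (h0 z * (sgn s z))) := rfl
    rw [e1, e2, JE_sum S (fun y => u * h0 y) (fun z _ s => h0 z * (sgn s x * sgn s z)),
      JE_sum S (fun y => u * h0 y) (fun z _ s => h0 z * sgn s z), Finset.mul_sum,
      ← Finset.sum_sub_distrib]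
    refine Finset.sum_congr rfl fun z _ => ?_
    rw [JE_smul, JE_smul]
    ring
  have hlow : ∀ u, 0 ≤ u → u ≤ t → (W.card : ℝ) * (κ / 2) ≤
      ∑ z ∈ S, h0 z * (JE D w (2 * k : ℝ) S (fun y => u * h0 y) (fun _ s => sgn s x * sgn s z) -
        m u * JE D w (2 * k : ℝ) S (fun y => u * h0 y) (fun _ s => sgn s z)) := by
    intro u hu hut
    have hmu := hmono u hu hut
    have hmu0 := hnonneg u hu
    have hcov : ∀ z ∈ S, 0 ≤ (JE D w (2 * k : ℝ) S (fun y => u * h0 y)
        (fun _ s => sgn s x * sgn s z) -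
        m u * JE D w (2 * k : ℝ) S (fun y => u * h0 y) (fun _ s => sgn s z)) := by
      intro z hz
      have := key_gks hk hS hw (h := fun y => u * h0 y)
        (fun y hy => mul_nonneg hu (hh y hy)) hx hz
      linarith
    have hcovW : ∀ z ∈ W, κ / 2 ≤ (JE D w (2 * k : ℝ) S (fun y => u * h0 y)
        (fun _ s => sgn s x * sgn s z) -
        m u * JE D w (2 * k : ℝ) S (fun y => u * h0 y) (fun _ s => sgn s z)) := by
      intro z hz
      have hzS := hWS hz
      have h3 := key_two hk hS hw hw (fun _ _ => le_rfl) (h := fun y => u * h0 y)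
        (h' := fun _ => 0) (fun y hy => by simpa using mul_nonneg hu (hh y hy)) hx hzS
      have h4 := (abs_nonneg _).trans h3
      rw [JE_zero_two hS hx hzS] at h4
      have h5 := hP z hz
      have h6 := hle1 u z
      have h7 : m u * JE D w (2 * k : ℝ) S (fun y => u * h0 y) (fun _ s => sgn s z) ≤ m u * 1 :=
        mul_le_mul_of_nonneg_left h6 hmu0
      linarith
    calc (W.card : ℝ) * (κ / 2) = ∑ _z ∈ W, (κ / 2) := by simp
      _ ≤ ∑ z ∈ W, h0 z * (JE D w (2 * k : ℝ) S (fun y => u * h0 y)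
            (fun _ s => sgn s x * sgn s z) -
            m u * JE D w (2 * k : ℝ) S (fun y => u * h0 y) (fun _ s => sgn s z)) := by
          refine Finset.sum_le_sum fun z hz => ?_
          have h1 := hW z hz
          have h8 := hcovW z hz
          have h9 := hcov z (hWS hz)
          nlinarith
      _ ≤ _ := Finset.sum_le_sum_of_subset_of_nonneg hWS
          (fun z hz _ => mul_nonneg (hh z hz) (hcov z hz))
  have hmv : ((W.card : ℝ) * (κ / 2)) * (t - 0) ≤ m t - m 0 := by
    refine Convex.mul_sub_le_image_sub_of_le_deriv (convex_Icc (0 : ℝ) t) ?_ ?_ ?_ 0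
      (Set.left_mem_Icc.2 ht) t (Set.right_mem_Icc.2 ht) ht
    · exact fun u _ => (hderiv u).continuousAt.continuousWithinAt
    · exact fun u _ => (hderiv u).differentiableAt.differentiableWithinAt
    · intro u hu
      have hu' := interior_subset hu
      rw [(hderiv u).deriv]
      exact hlow u hu'.1 hu'.2
  have h00 := hnonneg 0 le_rfl
  have : (1 : ℝ) ≤ ((W.card : ℝ) * (κ / 2)) * (t - 0) := by nlinarith
  linarith

end FKB
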