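import Pool.Agent.FKB.Flow
import Pool.Agent.FKB.Magn
import Pool.Agent.FKB.Deriv
import Pool.Agent.FKB.Holley

open Finset
noncomputable section
namespace FKB

section LPAbstract

variable {V : Type*} [DecidableEq V]

theorem lp_JE_congr {D : Finset (V × V)} {w : V × V → ℝ} {q : ℝ} {S : Finset V} (h : V → ℝ)
    {φ ψ : Finset (V × V) → Finset V → ℝ}
    (hc : ∀ A, A ⊆ D → ∀ s, s ⊆ S → φ A s = ψ A s) :
    JE D w q S h φ = JE D w q S h ψ := by
  unfold JE jsum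
  congr 1
  refine Finset.sum_congr rfl fun A hA => Finset.sum_congr rfl fun s hs => ?_
  rw [hc A (Finset.mem_powerset.mp hA) s (Finset.mem_powerset.mp hs)]

theorem lp_card {A O D : Finset (V × V)} (hA : A ⊆ D) :
    ((A \ O).card : ℝ) = ∑ e ∈ D \ O, ind (e ∈ A) := by
  have h1 : A \ O = (D \ O).filter (fun e => e ∈ A) := by
    ext e
    simp only [Finset.mem_sdiff, Finset.mem_filter]
    constructor
    · rintro ⟨h, h'⟩; exact ⟨⟨hA h, h'⟩, h⟩
    · rintro ⟨⟨_, h'⟩, h⟩; exact ⟨h, h'⟩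
  rw [h1, Finset.card_filter]
  push_cast
  refine Finset.sum_congr rfl fun e _ => ?_
  by_cases he : e ∈ A
  · rw [if_pos he, ind_true he]
  · rw [if_neg he, ind_false he]

theorem lp_JE_card {D O : Finset (V × V)} {w : V × V → ℝ} {q : ℝ} {S : Finset V} (h : V → ℝ) :
    JE D w q S h (fun A _ => ((A \ O).card : ℝ)) =
      ∑ e ∈ D \ O, JE D w q S h (fun A _ => ind (e ∈ A)) := by
  rw [← JE_sum (D \ O) h (fun e A _ => ind (e ∈ A))]
  exact lp_JE_congr h fun A hA s _ => lp_card hA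

theorem lp_two_nonneg {k : ℕ} (hk : 1 ≤ k) {D : Finset (V × V)} {S : Finset V} (hS : Verts D S)
    {w : V × V → ℝ} (hw : Adm D w) {h h' : V → ℝ} (hh : ∀ x ∈ S, |h' x| ≤ h x) {x y : V}
    (hx : x ∈ S) (hy : y ∈ S) :
    0 ≤ JE D w (2 * k : ℝ) S h (fun _ s => sgn s x * sgn s y) -
        JE D w (2 * k : ℝ) S h' (fun _ s => sgn s x * sgn s y) :=
  (abs_nonneg _).trans (key_two hk hS hw hw (fun _ _ => le_refl _) hh hx hy)

theorem lp_edges {k : ℕ} (hk : 1 ≤ k) {D O : Finset (V × V)} {S : Finset V} (hS : Verts D S)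
    {p : ℝ} (hp0 : 0 ≤ p) (hp1 : p ≤ 1) {h h' : V → ℝ} (hh : ∀ x ∈ S, |h' x| ≤ h x)
    {E' : Finset (V × V)} (hE' : E' ⊆ D \ O) :
    p / (2 * k : ℝ) * ∑ e ∈ E',
        (JE D (pr O p) (2 * k : ℝ) S h (fun _ s => sgn s e.1 * sgn s e.2) -
          JE D (pr O p) (2 * k : ℝ) S h' (fun _ s => sgn s e.1 * sgn s e.2)) ≤
      JE D (pr O p) (2 * k : ℝ) S h (fun A _ => ((A \ O).card : ℝ)) -
        JE D (pr O p) (2 * k : ℝ) S h' (fun A _ => ((A \ O).card : ℝ)) := by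
  have hw : Adm D (pr O p) := adm_pr hp0 hp1
  have hk0 : (0 : ℝ) ≤ p / (2 * k : ℝ) := div_nonneg hp0 (by positivity)
  rw [lp_JE_card, lp_JE_card, ← Finset.sum_sub_distrib]
  have h1 : ∑ e ∈ E',
        (JE D (pr O p) (2 * k : ℝ) S h (fun _ s => sgn s e.1 * sgn s e.2) -
          JE D (pr O p) (2 * k : ℝ) S h' (fun _ s => sgn s e.1 * sgn s e.2)) ≤
      ∑ e ∈ D \ O,
        (JE D (pr O p) (2 * k : ℝ) S h (fun _ s => sgn s e.1 * sgn s e.2) -
          JE D (pr O p) (2 * k : ℝ) S h' (fun _ s => sgn s e.1 * sgn s e.2)) := by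
    refine Finset.sum_le_sum_of_subset_of_nonneg hE' fun e he _ => ?_
    have heD := (Finset.mem_sdiff.mp he).1
    exact lp_two_nonneg hk hS hw hh (hS e heD).1 (hS e heD).2
  refine (mul_le_mul_of_nonneg_left h1 hk0).trans ?_
  rw [Finset.mul_sum]
  refine Finset.sum_le_sum fun e he => ?_
  have heD := (Finset.mem_sdiff.mp he).1
  have heO := (Finset.mem_sdiff.mp he).2
  have := key_edge hk hS hw hh heD
  have hpe : pr O p e = p := by unfold pr; rw [if_neg heO]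
  rw [hpe] at this
  exact this

theorem lp_forced {k : ℕ} (hk : 1 ≤ k) {D O : Finset (V × V)} {S : Finset V} (hS : Verts D S)
    {p : ℝ} (hp0 : 0 ≤ p) (hp1 : p ≤ 1) (h : V → ℝ) {e : V × V} (heO : e ∈ O) (heD : e ∈ D) :
    JE D (pr O p) (2 * k : ℝ) S h (fun _ s => sgn s e.1) =
      JE D (pr O p) (2 * k : ℝ) S h (fun _ s => sgn s e.2) := by
  have hw : Adm D (pr O p) := adm_pr hp0 hp1
  have hq : (0 : ℝ) < 2 * k := by
    have : (1 : ℝ) ≤ k := by exact_mod_cast hk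
    linarith
  have hpe : pr O p e = 1 := by unfold pr; rw [if_pos heO]
  refine le_antisymm ?_ ?_
  · refine JE_mono hq hw hS h fun A _ h2 _ s _ hc => ?_
    exact (sgn_conn hc (Conn.edge (h2 e heD hpe))).le
  · refine JE_mono hq hw hS h fun A _ h2 _ s _ hc => ?_
    exact (sgn_conn hc (Conn.edge (h2 e heD hpe))).ge

theorem lp_field {D : Finset (V × V)} {w : V × V → ℝ} {q : ℝ} {S : Finset V} (h h0 : V → ℝ) :
    JE D w q S h (fun _ s => ∑ x ∈ S, h0 x * sgn s x) =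
      ∑ x ∈ S, h0 x * JE D w q S h (fun _ s => sgn s x) := by
  rw [JE_sum S h (fun x _ s => h0 x * sgn s x)]
  refine Finset.sum_congr rfl fun x _ => ?_
  exact JE_smul h (h0 x) (fun _ s => sgn s x)

omit [DecidableEq V] in
theorem lp_sum_ind {S Q : Finset V} (hQ : Q ⊆ S) (M : V → ℝ) :
    ∑ x ∈ S, ind (x ∈ Q) * M x = ∑ x ∈ Q, M x := by
  rw [← Finset.sum_subset hQ (f := fun x => ind (x ∈ Q) * M x)]
  · refine Finset.sum_congr rfl fun x hx => ?_
    rw [ind_true hx, one_mul]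
  · intro x _ hx
    rw [ind_false hx, zero_mul]

end LPAbstract

variable {d : ℕ}

/-- the two field profiles -/
def hp (Q Q' : Finset (Pt d)) (x : Pt d) : ℝ := ind (x ∈ Q) + ind (x ∈ Q')
def hm (Q Q' : Finset (Pt d)) (x : Pt d) : ℝ := ind (x ∈ Q) - ind (x ∈ Q')

/-- the speed of the field -/
def spd (k : ℕ) (κ : ℝ) (m : ℕ) : ℝ := κ / (2 * (2 * k) * (2 * m + 1))

theorem lp_hm_le (Q Q' : Finset (Pt d)) (x : Pt d) : |hm Q Q' x| ≤ hp Q Q' x := by
  unfold hm hp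
  have h1 := ind_nonneg (x ∈ Q)
  have h2 := ind_nonneg (x ∈ Q')
  rw [abs_le]
  constructor <;> linarith

theorem lp_hm_le_mul {t : ℝ} (ht : 0 ≤ t) (Q Q' : Finset (Pt d)) (x : Pt d) :
    |t * hm Q Q' x| ≤ t * hp Q Q' x := by
  rw [abs_mul, abs_of_nonneg ht]
  exact mul_le_mul_of_nonneg_left (lp_hm_le Q Q' x) ht

theorem lp_sum_hp {S Q Q' : Finset (Pt d)} (hQ : Q ⊆ S) (hQ' : Q' ⊆ S) (M : Pt d → ℝ) :
    ∑ x ∈ S, hp Q Q' x * M x = ∑ x ∈ Q, M x + ∑ x ∈ Q', M x := by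
  unfold hp
  simp only [add_mul]
  rw [Finset.sum_add_distrib, lp_sum_ind hQ, lp_sum_ind hQ']

theorem lp_sum_hm {S Q Q' : Finset (Pt d)} (hQ : Q ⊆ S) (hQ' : Q' ⊆ S) (M : Pt d → ℝ) :
    ∑ x ∈ S, hm Q Q' x * M x = ∑ x ∈ Q, M x - ∑ x ∈ Q', M x := by
  unfold hm
  simp only [sub_mul]
  rw [Finset.sum_sub_distrib, lp_sum_ind hQ, lp_sum_ind hQ']

/-- the field part of the derivative -/
theorem lp_fieldpart {k : ℕ} {D : Finset (Pt d × Pt d)} {S Q Q' : Finset (Pt d)}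
    (hQ : Q ⊆ S) (hQ' : Q' ⊆ S) (w : Pt d × Pt d → ℝ) (t : ℝ) :
    JE D w (2 * k : ℝ) S (fun x => t * hp Q Q' x) (fun _ s => ∑ x ∈ S, hp Q Q' x * sgn s x) -
      JE D w (2 * k : ℝ) S (fun x => t * hm Q Q' x) (fun _ s => ∑ x ∈ S, hm Q Q' x * sgn s x) =
    ∑ x ∈ Q, (JE D w (2 * k : ℝ) S (fun x => t * hp Q Q' x) (fun _ s => sgn s x) -
        JE D w (2 * k : ℝ) S (fun x => t * hm Q Q' x) (fun _ s => sgn s x)) +
      ∑ x ∈ Q', (JE D w (2 * k : ℝ) S (fun x => t * hp Q Q' x) (fun _ s => sgn s x) +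
        JE D w (2 * k : ℝ) S (fun x => t * hm Q Q' x) (fun _ s => sgn s x)) := by
  rw [lp_field, lp_field, lp_sum_hp hQ hQ', lp_sum_hm hQ hQ', Finset.sum_sub_distrib,
    Finset.sum_add_distrib]
  ring

/-- the derivative is nonnegative -/
theorem lp_nonneg {k : ℕ} (hk : 1 ≤ k) {D O : Finset (Pt d × Pt d)} {S Q Q' : Finset (Pt d)}
    (hS : Verts D S) (hQ : Q ⊆ S) (hQ' : Q' ⊆ S) {p t lam : ℝ} (hp0 : 0 < p) (hp1 : p < 1)
    (ht : 0 ≤ t) (hlam : 0 ≤ lam) :
    0 ≤ (JE D (pr O p) (2 * k : ℝ) S (fun x => t * hp Q Q' x) (fun A _ => ((A \ O).card : ℝ)) -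
        JE D (pr O p) (2 * k : ℝ) S (fun x => t * hm Q Q' x) (fun A _ => ((A \ O).card : ℝ))) /
          (p * (1 - p)) +
      lam * (JE D (pr O p) (2 * k : ℝ) S (fun x => t * hp Q Q' x)
          (fun _ s => ∑ x ∈ S, hp Q Q' x * sgn s x) -
        JE D (pr O p) (2 * k : ℝ) S (fun x => t * hm Q Q' x)
          (fun _ s => ∑ x ∈ S, hm Q Q' x * sgn s x)) := by
  have hw : Adm D (pr O p) := adm_pr hp0.le hp1.le
  have hh : ∀ x ∈ S, |t * hm Q Q' x| ≤ t * hp Q Q' x := fun x _ => lp_hm_le_mul ht Q Q' x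
  have h1 := lp_edges (O := O) hk hS hp0.le hp1.le hh (Finset.empty_subset (D \ O))
  rw [Finset.sum_empty, mul_zero] at h1
  rw [lp_fieldpart hQ hQ']
  have h2 : ∀ x ∈ S, |JE D (pr O p) (2 * k : ℝ) S (fun x => t * hm Q Q' x) (fun _ s => sgn s x)| ≤
      JE D (pr O p) (2 * k : ℝ) S (fun x => t * hp Q Q' x) (fun _ s => sgn s x) :=
    fun x hx => key_one hk hS hw hw (fun _ _ => le_refl _) hh hx
  refine add_nonneg (div_nonneg h1 (mul_nonneg hp0.le (by linarith))) (mul_nonneg hlam ?_)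
  refine add_nonneg (Finset.sum_nonneg fun x hx => ?_) (Finset.sum_nonneg fun x hx => ?_)
  · have := (abs_le.mp (h2 x (hQ hx))).2
    linarith
  · have := (abs_le.mp (h2 x (hQ' hx))).1
    linarith

/-- the lower bound of the derivative through the flow -/
theorem lp_big {k : ℕ} (hk : 1 ≤ k) {D O : Finset (Pt d × Pt d)} {S Q Q' R : Finset (Pt d)}
    (hS : Verts D S) (hQ : Q ⊆ R) (hQ' : Q' ⊆ R) (hR : R ⊆ S) (hlat : lat R ⊆ D)
    {p t lam M0 : ℝ} (hp0 : 0 < p) (hp1 : p < 1)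
    (ht : 0 ≤ t) (hlam : 0 ≤ lam) (hM0 : 0 < M0)
    (hM : ∀ x ∈ R, M0 ≤ JE D (pr O p) (2 * k : ℝ) S (fun x => t * hp Q Q' x)
      (fun _ s => sgn s x)) :
    ∃ r : Pt d → ℝ,
      M0 ^ 2 / (2 * k : ℝ) * ∑ e ∈ lat R, |r e.1 - r e.2| +
        lam * M0 * (∑ x ∈ Q, (1 - r x) + ∑ x ∈ Q', (1 + r x)) ≤
      (JE D (pr O p) (2 * k : ℝ) S (fun x => t * hp Q Q' x) (fun A _ => ((A \ O).card : ℝ)) -
        JE D (pr O p) (2 * k : ℝ) S (fun x => t * hm Q Q' x) (fun A _ => ((A \ O).card : ℝ))) /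
          (p * (1 - p)) +
      lam * (JE D (pr O p) (2 * k : ℝ) S (fun x => t * hp Q Q' x)
          (fun _ s => ∑ x ∈ S, hp Q Q' x * sgn s x) -
        JE D (pr O p) (2 * k : ℝ) S (fun x => t * hm Q Q' x)
          (fun _ s => ∑ x ∈ S, hm Q Q' x * sgn s x)) ∧
      (∀ x ∈ R, |r x| ≤ 1) := by
  have hw : Adm D (pr O p) := adm_pr hp0.le hp1.le
  have hh : ∀ x ∈ S, |t * hm Q Q' x| ≤ t * hp Q Q' x := fun x _ => lp_hm_le_mul ht Q Q' x
  have hk1 : (1 : ℝ) ≤ k := by exact_mod_cast hk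
  set Ma : Pt d → ℝ := fun x => JE D (pr O p) (2 * k : ℝ) S (fun x => t * hp Q Q' x)
      (fun _ s => sgn s x) with hMa
  set Mb : Pt d → ℝ := fun x => JE D (pr O p) (2 * k : ℝ) S (fun x => t * hm Q Q' x)
      (fun _ s => sgn s x) with hMb
  have h2 : ∀ x ∈ S, |Mb x| ≤ Ma x :=
    fun x hx => key_one hk hS hw hw (fun _ _ => le_refl _) hh hx
  have hMpos : ∀ x ∈ R, 0 < Ma x := fun x hx => lt_of_lt_of_le hM0 (hM x hx)
  have hr1 : ∀ x ∈ R, |Mb x / Ma x| ≤ 1 := by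
    intro x hx
    rw [abs_div, abs_of_pos (hMpos x hx), div_le_one (hMpos x hx)]
    exact h2 x (hR hx)
  refine ⟨fun x => Mb x / Ma x, ?_, hr1⟩
  rw [lp_fieldpart (hQ.trans hR) (hQ'.trans hR)]
  refine add_le_add ?_ ?_
  · -- the edge part
    have h3 := lp_edges (O := O) (E' := lat R \ O) hk hS hp0.le hp1.le hh
      (Finset.sdiff_subset_sdiff hlat (Finset.Subset.refl O))
    have h4 : M0 ^ 2 * ∑ e ∈ lat R, |Mb e.1 / Ma e.1 - Mb e.2 / Ma e.2| ≤
        ∑ e ∈ lat R \ O,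
          (JE D (pr O p) (2 * k : ℝ) S (fun x => t * hp Q Q' x)
              (fun _ s => sgn s e.1 * sgn s e.2) -
            JE D (pr O p) (2 * k : ℝ) S (fun x => t * hm Q Q' x)
              (fun _ s => sgn s e.1 * sgn s e.2)) := by
      have h5 : ∑ e ∈ lat R, |Mb e.1 / Ma e.1 - Mb e.2 / Ma e.2| =
          ∑ e ∈ lat R \ O, |Mb e.1 / Ma e.1 - Mb e.2 / Ma e.2| := by
        symm
        refine Finset.sum_subset Finset.sdiff_subset fun e he hne => ?_
        have heO : e ∈ O := by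
          by_contra hcon
          exact hne (Finset.mem_sdiff.mpr ⟨he, hcon⟩)
        have ea : Ma e.1 = Ma e.2 := lp_forced hk hS hp0.le hp1.le _ heO (hlat he)
        have eb : Mb e.1 = Mb e.2 := lp_forced hk hS hp0.le hp1.le _ heO (hlat he)
        rw [ea, eb, sub_self, abs_zero]
      rw [h5, Finset.mul_sum]
      refine Finset.sum_le_sum fun e he => ?_
      have heL := (Finset.mem_sdiff.mp he).1
      have hx := (verts_lat R e heL).1
      have hy := (verts_lat R e heL).2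
      have hkey : |Ma e.1 * Mb e.2 - Mb e.1 * Ma e.2| ≤
          JE D (pr O p) (2 * k : ℝ) S (fun x => t * hp Q Q' x)
              (fun _ s => sgn s e.1 * sgn s e.2) -
            JE D (pr O p) (2 * k : ℝ) S (fun x => t * hm Q Q' x)
              (fun _ s => sgn s e.1 * sgn s e.2) :=
        key_two hk hS hw hw (fun _ _ => le_refl _) hh (hR hx) (hR hy)
      refine le_trans ?_ hkey
      have px := hMpos _ hx
      have py := hMpos _ hy
      have e1 : Ma e.1 * Mb e.2 - Mb e.1 * Ma e.2 =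
          -(Ma e.1 * Ma e.2 * (Mb e.1 / Ma e.1 - Mb e.2 / Ma e.2)) := by
        field_simp
        ring
      rw [e1, abs_neg, abs_mul, abs_of_pos (mul_pos px py)]
      refine mul_le_mul_of_nonneg_right ?_ (abs_nonneg _)
      rw [pow_two]
      exact mul_le_mul (hM _ hx) (hM _ hy) hM0.le px.le
    have hpp : 0 < p * (1 - p) := mul_pos hp0 (by linarith)
    rw [le_div_iff₀ hpp]
    have h6 : 0 ≤ M0 ^ 2 * ∑ e ∈ lat R, |Mb e.1 / Ma e.1 - Mb e.2 / Ma e.2| :=
      mul_nonneg (by positivity) (Finset.sum_nonneg fun _ _ => abs_nonneg _)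
    have h7 : p / (2 * k : ℝ) * (M0 ^ 2 * ∑ e ∈ lat R, |Mb e.1 / Ma e.1 - Mb e.2 / Ma e.2|) ≤
        JE D (pr O p) (2 * k : ℝ) S (fun x => t * hp Q Q' x) (fun A _ => ((A \ O).card : ℝ)) -
        JE D (pr O p) (2 * k : ℝ) S (fun x => t * hm Q Q' x) (fun A _ => ((A \ O).card : ℝ)) :=
      (mul_le_mul_of_nonneg_left h4 (div_nonneg hp0.le (by positivity))).trans h3
    refine le_trans ?_ h7
    have e2 : ∀ G : ℝ, (M0 ^ 2 / (2 * k : ℝ) * G) * (p * (1 - p)) =
        (p / (2 * k : ℝ) * (M0 ^ 2 * G)) * (1 - p) := by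
      intro G
      ring
    refine (e2 _).le.trans ?_
    exact mul_le_of_le_one_right (mul_nonneg (div_nonneg hp0.le (by positivity)) h6)
      (by linarith)
  · -- the field part
    rw [mul_assoc]
    refine mul_le_mul_of_nonneg_left ?_ hlam
    rw [mul_add, Finset.mul_sum, Finset.mul_sum]
    refine add_le_add (Finset.sum_le_sum fun x hx => ?_) (Finset.sum_le_sum fun x hx => ?_)
    · have px := hMpos x (hQ hx)
      have hb := (abs_le.mp (hr1 x (hQ hx))).2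
      have e1 : Ma x - Mb x = Ma x * (1 - Mb x / Ma x) := by field_simp
      change M0 * (1 - Mb x / Ma x) ≤ Ma x - Mb x
      rw [e1]
      exact mul_le_mul_of_nonneg_right (hM x (hQ hx)) (by linarith)
    · have px := hMpos x (hQ' hx)
      have hb := (abs_le.mp (hr1 x (hQ' hx))).1
      have e1 : Ma x + Mb x = Ma x * (1 + Mb x / Ma x) := by field_simp
      change M0 * (1 + Mb x / Ma x) ≤ Ma x + Mb x
      rw [e1]
      exact mul_le_mul_of_nonneg_right (hM x (hQ' hx)) (by linarith)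

theorem lp_cube_sub_left (c c' : Pt d) (a b : ℕ) : cube c a ⊆ thick c c' (max a b) := by
  unfold cube thick
  refine Finset.Icc_subset_Icc (fun i => ?_) (fun i => ?_)
  · have h1 : min (c i) (c' i) ≤ c i := min_le_left _ _
    have h2 : (a : ℤ) ≤ ((max a b : ℕ) : ℤ) := by exact_mod_cast le_max_left a b
    dsimp only
    linarith
  · have h1 : c i ≤ max (c i) (c' i) := le_max_left _ _
    have h2 : (a : ℤ) ≤ ((max a b : ℕ) : ℤ) := by exact_mod_cast le_max_left a b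
    dsimp only
    linarith

theorem lp_cube_sub_right (c c' : Pt d) (a b : ℕ) : cube c' b ⊆ thick c c' (max a b) := by
  unfold cube thick
  refine Finset.Icc_subset_Icc (fun i => ?_) (fun i => ?_)
  · have h1 : min (c i) (c' i) ≤ c' i := min_le_right _ _
    have h2 : (b : ℤ) ≤ ((max a b : ℕ) : ℤ) := by exact_mod_cast le_max_right a b
    dsimp only
    linarith
  · have h1 : c' i ≤ max (c i) (c' i) := le_max_right _ _
    have h2 : (b : ℤ) ≤ ((max a b : ℕ) : ℤ) := by exact_mod_cast le_max_right a b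
    dsimp only
    linarith

/-- arithmetic: from the flow inequality to the bound by `μ ^ (d - 1)` -/
theorem lp_arith (hd : 1 ≤ d) {a b : ℕ} (hab : a ≤ 2 * b) (hba : b ≤ 2 * a) {G H H' : ℝ}
    (hH : 0 ≤ H) (hH' : 0 ≤ H')
    (hflow : 2 * ((2 * (a : ℝ) + 1) ^ d * (2 * (b : ℝ) + 1) ^ d) ≤
      (2 * ((max a b : ℕ) : ℝ) + 1) ^ (d + 1) * G + (2 * (b : ℝ) + 1) ^ d * H +
        (2 * (a : ℝ) + 1) ^ d * H') :
    (2 * ((max a b : ℕ) : ℝ) + 1) * (2 * ((min a b : ℕ) : ℝ) + 1) ^ (d - 1) ≤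
      (2 * ((max a b : ℕ) : ℝ) + 1) * G + H + H' := by
  obtain ⟨d', rfl⟩ : ∃ d', d = d' + 1 := ⟨d - 1, by omega⟩
  simp only [Nat.add_sub_cancel]
  set M : ℝ := 2 * ((max a b : ℕ) : ℝ) + 1 with hM
  set m : ℝ := 2 * ((min a b : ℕ) : ℝ) + 1 with hm
  have hM1 : 1 ≤ M := by
    have : (0 : ℝ) ≤ ((max a b : ℕ) : ℝ) := Nat.cast_nonneg _
    linarith
  have hm1 : 1 ≤ m := by
    have : (0 : ℝ) ≤ ((min a b : ℕ) : ℝ) := Nat.cast_nonneg _
    linarith
  have hMm : M ≤ 2 * m := by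
    have h1 : max a b ≤ 2 * min a b := by omega
    have h2 : ((max a b : ℕ) : ℝ) ≤ 2 * ((min a b : ℕ) : ℝ) := by exact_mod_cast h1
    linarith
  have haM : (2 * (a : ℝ) + 1) ≤ M := by
    have : (a : ℝ) ≤ ((max a b : ℕ) : ℝ) := by exact_mod_cast le_max_left a b
    linarith
  have hbM : (2 * (b : ℝ) + 1) ≤ M := by
    have : (b : ℝ) ≤ ((max a b : ℕ) : ℝ) := by exact_mod_cast le_max_right a b
    linarith
  have ha0 : (0 : ℝ) ≤ 2 * (a : ℝ) + 1 := by positivity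
  have hb0 : (0 : ℝ) ≤ 2 * (b : ℝ) + 1 := by positivity
  have hprod : (2 * (a : ℝ) + 1) ^ (d' + 1) * (2 * (b : ℝ) + 1) ^ (d' + 1) =
      M ^ (d' + 1) * m ^ (d' + 1) := by
    rcases le_total a b with h | h
    · rw [hM, hm, max_eq_right h, min_eq_left h, mul_comm]
    · rw [hM, hm, max_eq_left h, min_eq_right h]
  rw [hprod] at hflow
  have hMd : 0 < M ^ (d' + 1) := by positivity
  have h1 : (2 * (b : ℝ) + 1) ^ (d' + 1) * H ≤ M ^ (d' + 1) * H :=
    mul_le_mul_of_nonneg_right (pow_le_pow_left₀ hb0 hbM _) hH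
  have h2 : (2 * (a : ℝ) + 1) ^ (d' + 1) * H' ≤ M ^ (d' + 1) * H' :=
    mul_le_mul_of_nonneg_right (pow_le_pow_left₀ ha0 haM _) hH'
  have h3 : M ^ (d' + 1) * (2 * m ^ (d' + 1)) ≤ M ^ (d' + 1) * (M * G + H + H') := by
    have e1 : M ^ (d' + 1 + 1) * G = M ^ (d' + 1) * (M * G) := by ring
    rw [e1] at hflow
    linarith
  have h4 : 2 * m ^ (d' + 1) ≤ M * G + H + H' := le_of_mul_le_mul_left h3 hMd
  refine le_trans ?_ h4
  have hmd : 0 ≤ m ^ d' := by positivity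
  calc M * m ^ d' ≤ (2 * m) * m ^ d' := mul_le_mul_of_nonneg_right hMm hmd
    _ = 2 * m ^ (d' + 1) := by ring

theorem lp_lower {k : ℕ} (hd : 2 ≤ d) (hk : 1 ≤ k) {p1 p κ : ℝ} (hp0 : 0 < p1) (hpp : p1 < p)
    (hp1 : p < 1) (hκ : 0 < κ) (hκ1 : κ ≤ 1) :
    ∃ L0 : ℕ, ∀ (D O : Finset (Pt d × Pt d)) (S : Finset (Pt d)) (c c' : Pt d) (a b : ℕ),
      O ⊆ D → Verts D S → thick c c' (max a b) ⊆ S → L0 ≤ a → L0 ≤ b → a ≤ 2 * b → b ≤ 2 * a →
      lat (thick c c' (max a b)) ⊆ D →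
      (∀ x ∈ thick c c' (max a b), ∀ z ∈ cube c a ∪ cube c' b,
        κ ≤ P D (pr O p1) (2 * k : ℝ) (fun A => Conn A x z)) →
      (p - p1) * κ ^ 2 / (8 * (2 * k)) * (2 * (min a b : ℕ) + 1 : ℝ) ^ (d - 1) ≤
        Real.log (JZ D (pr O p) (2 * k : ℝ) S
            (fun x => spd k κ (max a b) * (p - p1) * hp (cube c a) (cube c' b) x)) -
          Real.log (JZ D (pr O p) (2 * k : ℝ) S
            (fun x => spd k κ (max a b) * (p - p1) * hm (cube c a) (cube c' b) x)) := by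
  have hk1 : (1 : ℝ) ≤ k := by exact_mod_cast hk
  have hq : (0 : ℝ) < 2 * k := by linarith
  have hU : 0 < p - p1 := by linarith
  obtain ⟨L0, hL0⟩ := exists_nat_ge (8 * (2 * (k : ℝ)) * 2 / (κ ^ 2 * (p - p1)))
  refine ⟨L0, ?_⟩
  intro D O S c c' a b hO hS hthick hLa hLb hab hba hlat hconn
  set m := max a b with hmdef
  set lam : ℝ := spd k κ m with hlam
  set Q := cube c a with hQ
  set Q' := cube c' b with hQ'
  set R := thick c c' m with hR
  have hQR : Q ⊆ R := lp_cube_sub_left c c' a b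
  have hQR' : Q' ⊆ R := lp_cube_sub_right c c' a b
  have hMpos : (0 : ℝ) < 2 * m + 1 := by positivity
  have hlampos : 0 < lam := by
    rw [hlam]; unfold spd
    exact div_pos hκ (by positivity)
  -- the function and its derivative
  set τ : ℝ → ℝ := fun u =>
    Real.log (JZ D (pr O (p1 + u)) (2 * k : ℝ) S (fun x => lam * u * hp Q Q' x)) -
      Real.log (JZ D (pr O (p1 + u)) (2 * k : ℝ) S (fun x => lam * u * hm Q Q' x)) with hτ
  set τ' : ℝ → ℝ := fun u =>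
    (JE D (pr O (p1 + u)) (2 * k : ℝ) S (fun x => lam * u * hp Q Q' x)
          (fun A _ => ((A \ O).card : ℝ)) -
        JE D (pr O (p1 + u)) (2 * k : ℝ) S (fun x => lam * u * hm Q Q' x)
          (fun A _ => ((A \ O).card : ℝ))) / ((p1 + u) * (1 - (p1 + u))) +
      lam * (JE D (pr O (p1 + u)) (2 * k : ℝ) S (fun x => lam * u * hp Q Q' x)
          (fun _ s => ∑ x ∈ S, hp Q Q' x * sgn s x) -
        JE D (pr O (p1 + u)) (2 * k : ℝ) S (fun x => lam * u * hm Q Q' x)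
          (fun _ s => ∑ x ∈ S, hm Q Q' x * sgn s x)) with hτ'
  have hder : ∀ u, 0 ≤ u → u ≤ p - p1 → HasDerivAt τ (τ' u) u := by
    intro u hu0 hu1
    have h1 : 0 < p1 + u := by linarith
    have h2 : p1 + u < 1 := by linarith
    have := (deriv_logJZ hO hq hS (hp Q Q') p1 lam u h1 h2).sub
      (deriv_logJZ hO hq hS (hm Q Q') p1 lam u h1 h2)
    refine this.congr_deriv ?_
    rw [hτ']
    dsimp only
    ring
  have hτ'0 : ∀ u, 0 ≤ u → u ≤ p - p1 → 0 ≤ τ' u := by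
    intro u hu0 hu1
    exact lp_nonneg hk hS (hQR.trans hthick) (hQR'.trans hthick) (by linarith) (by linarith)
      (mul_nonneg hlampos.le hu0) hlampos.le
  set μ : ℝ := (2 * ((min a b : ℕ) : ℝ) + 1) with hμ
  have hτ'1 : ∀ u, (p - p1) / 2 ≤ u → u ≤ p - p1 → κ ^ 2 / (4 * (2 * k)) * μ ^ (d - 1) ≤ τ' u := by
    intro u hu0 hu1
    have hu : 0 < u := by linarith
    have hpu : 0 < p1 + u := by linarith
    have hpu1 : p1 + u < 1 := by linarith
    -- magnetization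
    have hmag : ∀ x ∈ R, κ / 2 ≤ JE D (pr O (p1 + u)) (2 * k : ℝ) S
        (fun y => lam * u * hp Q Q' y) (fun _ s => sgn s x) := by
      intro x hx
      refine magn_lower hk hS (adm_pr hpu.le hpu1.le) (h0 := hp Q Q') ?_ (W := Q)
        (hQR.trans hthick) ?_ (hthick hx) hκ hκ1 (mul_nonneg hlampos.le hu.le) ?_ ?_
      · intro y _
        unfold hp
        exact add_nonneg (ind_nonneg _) (ind_nonneg _)
      · intro y hy
        unfold hp
        rw [ind_true hy]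
        linarith [ind_nonneg (y ∈ Q')]
      · -- size
        rw [hQ, card_cube]
        push_cast
        have hm2 : (2 * (m : ℝ) + 1) ≤ 2 * (2 * (a : ℝ) + 1) := by
          have h1 : m ≤ 2 * a := by omega
          have h2 : (m : ℝ) ≤ 2 * (a : ℝ) := by exact_mod_cast h1
          linarith
        have ha1 : (1 : ℝ) ≤ 2 * (a : ℝ) + 1 := by
          have : (0 : ℝ) ≤ (a : ℝ) := Nat.cast_nonneg _
          linarith
        have hLa' : 8 * (2 * (k : ℝ)) * 2 / (κ ^ 2 * (p - p1)) ≤ (a : ℝ) :=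
          hL0.trans (by exact_mod_cast hLa)
        have h8 : 8 * (2 * (k : ℝ)) * 2 ≤ (a : ℝ) * (κ ^ 2 * (p - p1)) := by
          rwa [div_le_iff₀ (by positivity)] at hLa'
        have hpow : (2 * (a : ℝ) + 1) ^ 2 ≤ (2 * (a : ℝ) + 1) ^ d :=
          pow_le_pow_right₀ ha1 hd
        have hlam2 : κ / (4 * (2 * k) * (2 * (a : ℝ) + 1)) ≤ lam := by
          rw [hlam]; unfold spd
          refine div_le_div_of_nonneg_left hκ.le (by positivity) ?_
          have : 2 * (2 * (k : ℝ)) * (2 * (m : ℝ) + 1) ≤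
              2 * (2 * (k : ℝ)) * (2 * (2 * (a : ℝ) + 1)) :=
            mul_le_mul_of_nonneg_left hm2 (by positivity)
          linarith
        have hstep : κ / (4 * (2 * k) * (2 * (a : ℝ) + 1)) * ((p - p1) / 2) * κ *
            (2 * (a : ℝ) + 1) ^ 2 ≤ lam * u * κ * (2 * (a : ℝ) + 1) ^ d := by
          refine mul_le_mul ?_ hpow (by positivity) (by positivity)
          refine mul_le_mul_of_nonneg_right ?_ hκ.le
          exact mul_le_mul hlam2 hu0 (by linarith) hlampos.le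
        refine le_trans ?_ hstep
        have e1 : κ / (4 * (2 * k) * (2 * (a : ℝ) + 1)) * ((p - p1) / 2) * κ *
            (2 * (a : ℝ) + 1) ^ 2 = (2 * (a : ℝ) + 1) * (κ ^ 2 * (p - p1)) / (8 * (2 * k)) := by
          field_simp
          ring
        rw [e1, le_div_iff₀ (by positivity)]
        have : 0 ≤ (a + 1 : ℝ) * (κ ^ 2 * (p - p1)) := by positivity
        nlinarith
      · -- connection probabilities at `p1 + u`
        intro z hz
        refine (hconn x hx z (Finset.mem_union_left _ hz)).trans ?_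
        refine E_holley (by linarith) (adm_pr hp0.le (by linarith))
          (adm_pr hpu.le hpu1.le) ?_ ?_
        · intro e _
          unfold pr
          split
          · exact le_refl _
          · linarith
        · intro A B hAB _
          exact ind_mono fun h => h.mono' hAB
    obtain ⟨r, hr, hr1⟩ := lp_big (Q := Q) (Q' := Q') (R := R) (O := O) hk hS hQR hQR' hthick hlat
      hpu hpu1 (mul_nonneg hlampos.le hu.le) hlampos.le (half_pos hκ) hmag
    have hflow : 2 * (((Q).card : ℝ) * Q'.card) ≤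
      (2 * (m : ℝ) + 1) ^ (d + 1) * ∑ e ∈ lat R, |r e.1 - r e.2| +
        Q'.card * ∑ x ∈ Q, (1 - r x) + Q.card * ∑ x ∈ Q', (1 + r x) :=
      flow (by omega : 1 ≤ d) c c' a b r
    have hQc : (Q.card : ℝ) = (2 * (a : ℝ) + 1) ^ d := by
      rw [hQ, card_cube]; push_cast; ring
    have hQc' : (Q'.card : ℝ) = (2 * (b : ℝ) + 1) ^ d := by
      rw [hQ', card_cube]; push_cast; ring
    rw [hQc, hQc'] at hflow
    have hH0 : 0 ≤ ∑ x ∈ Q, (1 - r x) := Finset.sum_nonneg fun x hx => by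
      have := (abs_le.mp (hr1 x (hQR hx))).2
      linarith
    have hH0' : 0 ≤ ∑ x ∈ Q', (1 + r x) := Finset.sum_nonneg fun x hx => by
      have := (abs_le.mp (hr1 x (hQR' hx))).1
      linarith
    have har := lp_arith (d := d) (by omega) hab hba hH0 hH0' hflow
    refine le_trans ?_ hr
    have e1 : (κ / 2) ^ 2 / (2 * k : ℝ) * ∑ e ∈ lat R, |r e.1 - r e.2| +
        lam * (κ / 2) * (∑ x ∈ Q, (1 - r x) + ∑ x ∈ Q', (1 + r x)) =
        κ ^ 2 / (4 * (2 * k) * (2 * (m : ℝ) + 1)) *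
          ((2 * (m : ℝ) + 1) * ∑ e ∈ lat R, |r e.1 - r e.2| + ∑ x ∈ Q, (1 - r x) +
            ∑ x ∈ Q', (1 + r x)) := by
      rw [hlam]; unfold spd
      field_simp
      ring
    rw [e1]
    have e2 : κ ^ 2 / (4 * (2 * k)) * μ ^ (d - 1) =
        κ ^ 2 / (4 * (2 * k) * (2 * (m : ℝ) + 1)) * ((2 * (m : ℝ) + 1) * μ ^ (d - 1)) := by
      field_simp
    rw [e2]
    exact mul_le_mul_of_nonneg_left har (by positivity)
  -- integrate
  have hhalf : 0 < (p - p1) / 2 := by linarith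
  have hmv1 : 0 ≤ τ ((p - p1) / 2) - τ 0 := by
    obtain ⟨ξ, hξ, hξ'⟩ := exists_hasDerivAt_eq_slope τ τ' hhalf
      (fun u hu => (hder u hu.1 (by linarith [hu.2])).continuousAt.continuousWithinAt)
      (fun u hu => hder u hu.1.le (by linarith [hu.2]))
    have h1 := hτ'0 ξ hξ.1.le (by linarith [hξ.2])
    rw [hξ'] at h1
    have h2 : 0 < (p - p1) / 2 - 0 := by linarith
    have h3 := mul_nonneg h1 h2.le
    rwa [div_mul_cancel₀ _ h2.ne'] at h3
  have hmv2 : κ ^ 2 / (4 * (2 * k)) * μ ^ (d - 1) * ((p - p1) / 2) ≤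
      τ (p - p1) - τ ((p - p1) / 2) := by
    obtain ⟨ξ, hξ, hξ'⟩ := exists_hasDerivAt_eq_slope τ τ' (by linarith : (p - p1) / 2 < p - p1)
      (fun u hu => (hder u (by linarith [hu.1]) hu.2).continuousAt.continuousWithinAt)
      (fun u hu => hder u (by linarith [hu.1]) hu.2.le)
    have h1 := hτ'1 ξ hξ.1.le hξ.2.le
    rw [hξ'] at h1
    have h2 : p - p1 - (p - p1) / 2 = (p - p1) / 2 := by ring
    rw [h2] at h1
    rwa [le_div_iff₀ hhalf] at h1
  have hτ0 : τ 0 = 0 := by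
    rw [hτ]
    simp only [mul_zero, zero_mul, sub_self]
  have hfin : τ (p - p1) = Real.log (JZ D (pr O p) (2 * k : ℝ) S
            (fun x => lam * (p - p1) * hp Q Q' x)) -
          Real.log (JZ D (pr O p) (2 * k : ℝ) S
            (fun x => lam * (p - p1) * hm Q Q' x)) := by
    rw [hτ]
    have : p1 + (p - p1) = p := by ring
    simp only [this]
  rw [← hfin]
  have e3 : (p - p1) * κ ^ 2 / (8 * (2 * k)) * μ ^ (d - 1) =
      κ ^ 2 / (4 * (2 * k)) * μ ^ (d - 1) * ((p - p1) / 2) := by ring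
  rw [e3]
  linarith

end FKB
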