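import Pool.Agent.FKB.LatGeo

open Finset
noncomputable section
namespace FKB

variable {d : ℕ}

/-- the point at height `t` below the face `{x j = s N}` with coordinate `u` in direction `j'` -/
def pos (N : ℕ) (j j' : Fin d) (s t u : ℤ) : Pt d :=
  fun i => if i = j then s * (N - t) else if i = j' then u else 0

/-- the seed boxes, touching the face -/
def seedBox (N : ℕ) (j j' : Fin d) (s : ℤ) (r i : ℕ) : Finset (Pt d) :=
  cube (pos N j j' s r (16 * r * i)) r

/-- lattice edges of the cube without those of the seed boxes with index `< i` -/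
def DD (N : ℕ) (j j' : Fin d) (s : ℤ) (r i : ℕ) : Finset (Pt d × Pt d) :=
  lat (cube 0 N) \ (Finset.range i).biUnion (fun i' => lat (seedBox N j j' s r i'))

def OO (N : ℕ) (j j' : Fin d) (s : ℤ) (r i : ℕ) : Finset (Pt d × Pt d) :=
  lat (seedBox N j j' s r i)

/-- region: heights in `[lo, hi]`, lateral distance at most `m` from the axis of seed `i` -/
def Reg (N : ℕ) (j j' : Fin d) (s : ℤ) (r i : ℕ) (lo hi m : ℤ) : Set (Pt d) :=
  {x | lo ≤ N - s * x j ∧ N - s * x j ≤ hi ∧ |x j' - 16 * r * i| ≤ m ∧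
    ∀ a, a ≠ j → a ≠ j' → |x a| ≤ m}

variable {N : ℕ} {j j' : Fin d} {s : ℤ} {r i : ℕ}

theorem reg_thick (hs : s = 1 ∨ s = -1) {lo hi m : ℤ} {x z : Pt d}
    (hx : x ∈ Reg N j j' s r i lo hi m) (hz : z ∈ Reg N j j' s r i lo hi m) (e : ℕ) {y : Pt d}
    (hy : y ∈ thick x z e) : y ∈ Reg N j j' s r i (lo - e) (hi + e) (m + e) := by
  obtain ⟨hx1, hx2, hx3, hx4⟩ := hx
  obtain ⟨hz1, hz2, hz3, hz4⟩ := hz
  rw [thick, Finset.mem_Icc] at hy
  obtain ⟨hy1, hy2⟩ := hy
  have key : ∀ a : Fin d, min (x a) (z a) - e ≤ y a ∧ y a ≤ max (x a) (z a) + e :=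
    fun a => ⟨hy1 a, hy2 a⟩
  have kj := key j
  have kj' := key j'
  rw [abs_le] at hx3 hz3
  refine ⟨?_, ?_, ?_, ?_⟩
  · rcases hs with rfl | rfl <;> omega
  · rcases hs with rfl | rfl <;> omega
  · rw [abs_le]
    constructor <;>
    · have h1 := hx3.1
      have h2 := hx3.2
      have h3 := hz3.1
      have h4 := hz3.2
      generalize 16 * (r : ℤ) * i = c at *
      omega
  · intro a ha ha'
    have h1 := hx4 a ha ha'
    have h2 := hz4 a ha ha'
    have ka := key a
    rw [abs_le] at h1 h2 ⊢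
    omega

theorem reg_sub (hs : s = 1 ∨ s = -1) (hj : j ≠ j') {lo hi m : ℤ} (hlo : 0 ≤ lo)
    (hhi : hi ≤ 2 * N) (hm : 16 * r * i + m ≤ N) {x : Pt d}
    (hx : x ∈ Reg N j j' s r i lo hi m) : x ∈ cube 0 N := by
  obtain ⟨hx1, hx2, hx3, hx4⟩ := hx
  rw [mem_cube]
  intro a
  have h0 : (0 : ℤ) ≤ 16 * r * i := by positivity
  simp only [Pi.zero_apply, sub_zero]
  by_cases ha : a = j
  · subst ha
    rw [abs_le]
    rcases hs with rfl | rfl <;> omega
  · by_cases ha' : a = j'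
    · subst ha'
      rw [abs_le] at hx3 ⊢
      generalize 16 * (r : ℤ) * i = c at *
      omega
    · have := hx4 a ha ha'
      generalize 16 * (r : ℤ) * i = c at *
      omega

theorem reg_disj (hs : s = 1 ∨ s = -1) (hj : j ≠ j') {lo hi m : ℤ} {i' : ℕ} (hi' : i' ≠ i)
    (h : 2 * r < lo ∨ m < 15 * r) {x : Pt d} (hx : x ∈ Reg N j j' s r i lo hi m) :
    x ∉ seedBox N j j' s r i' := by
  intro hmem
  obtain ⟨hx1, hx2, hx3, hx4⟩ := hx
  rw [seedBox, mem_cube] at hmem
  have h1 := hmem j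
  have h2 := hmem j'
  simp only [pos, if_true] at h1
  simp only [pos, if_neg hj.symm, if_true] at h2
  rcases h with h | h
  · rw [abs_le] at h1
    rcases hs with rfl | rfl <;> omega
  · rw [abs_le] at h2 hx3
    have h3 : (1 : ℤ) ≤ |(i : ℤ) - i'| := by
      have : (i : ℤ) - i' ≠ 0 := by omega
      exact Int.one_le_abs this
    have h4 : 16 * (r : ℤ) * |(i : ℤ) - i'| ≤ m + r := by
      have h5 : 16 * (r : ℤ) * |(i : ℤ) - i'| = |16 * (r : ℤ) * i - 16 * r * i'| := by
        rw [← mul_sub, abs_mul, abs_of_nonneg (by positivity : (0 : ℤ) ≤ 16 * r)]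
      rw [h5, abs_le]
      constructor <;> linarith [h2.1, h2.2, hx3.1, hx3.2]
    nlinarith [Int.natCast_nonneg r]

/-- boxes in a good region: all their lattice edges are in `DD` -/
theorem lat_sub_DD (hs : s = 1 ∨ s = -1) (hj : j ≠ j') {lo hi m : ℤ} (hlo : 0 ≤ lo)
    (hhi : hi ≤ 2 * N) (hm : 16 * r * i + m ≤ N) (h : 2 * r < lo ∨ m < 15 * r)
    {H : Finset (Pt d)} (hH : ∀ x ∈ H, x ∈ Reg N j j' s r i lo hi m) :
    lat H ⊆ DD N j j' s r i := by
  have hHs : H ⊆ cube 0 N := fun x hx => reg_sub hs hj hlo hhi hm (hH x hx)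
  intro e he
  rw [DD, Finset.mem_sdiff]
  refine ⟨lat_mono hHs he, ?_⟩
  rw [Finset.mem_biUnion]
  rintro ⟨i', hi', he'⟩
  have h1 := (verts_lat H e he).1
  have h2 := (verts_lat _ e he').1
  exact reg_disj hs hj (Finset.mem_range.1 hi').ne h (hH _ h1) h2

theorem reg_dist (hs : s = 1 ∨ s = -1) (hj : j ≠ j') {lo hi m : ℤ} {x z : Pt d}
    (hx : x ∈ Reg N j j' s r i lo hi m) (hz : z ∈ Reg N j j' s r i lo hi m) (b : ℤ)
    (h1 : hi - lo ≤ b) (h2 : 2 * m ≤ b) : dist1 x z ≤ d * b := by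
  obtain ⟨hx1, hx2, hx3, hx4⟩ := hx
  obtain ⟨hz1, hz2, hz3, hz4⟩ := hz
  unfold dist1
  have key : ∀ a : Fin d, |x a - z a| ≤ b := by
    intro a
    by_cases ha : a = j
    · subst ha
      rw [abs_le]
      rcases hs with rfl | rfl <;> omega
    · by_cases ha' : a = j'
      · subst ha'
        rw [abs_le] at hx3 hz3 ⊢
        generalize 16 * (r : ℤ) * i = c at *
        omega
      · have h3 := hx4 a ha ha'
        have h4 := hz4 a ha ha'
        rw [abs_le] at h3 h4 ⊢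
        omega
  calc ∑ a, |x a - z a| ≤ ∑ _a : Fin d, b := Finset.sum_le_sum fun a _ => key a
    _ = d * b := by rw [Finset.sum_const, Finset.card_univ, Fintype.card_fin]; simp

theorem reg_cube (hs : s = 1 ∨ s = -1) (hj : j ≠ j') (t u : ℤ) (L : ℕ) (m : ℤ)
    (hm : |u - 16 * r * i| + L ≤ m) {x : Pt d} (hx : x ∈ cube (pos N j j' s t u) L) :
    x ∈ Reg N j j' s r i (t - L) (t + L) m := by
  rw [mem_cube] at hx
  have h1 := hx j
  have h2 := hx j'
  simp only [pos, if_true] at h1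
  simp only [pos, if_neg hj.symm, if_true] at h2
  refine ⟨?_, ?_, ?_, ?_⟩
  · rw [abs_le] at h1
    rcases hs with rfl | rfl <;> omega
  · rw [abs_le] at h1
    rcases hs with rfl | rfl <;> omega
  · calc |x j' - 16 * r * i| = |(x j' - u) + (u - 16 * r * i)| := by ring_nf
      _ ≤ |x j' - u| + |u - 16 * r * i| := abs_add_le _ _
      _ ≤ m := by linarith
  · intro a ha ha'
    have h3 := hx a
    simp only [pos, if_neg ha, if_neg ha', sub_zero] at h3
    have h4 : 0 ≤ |u - 16 * (r : ℤ) * i| := abs_nonneg _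
    linarith

theorem seed_sub (hs : s = 1 ∨ s = -1) (hj : j ≠ j') (hN : 2 * r ≤ 2 * N)
    (hm : 16 * r * i + r ≤ N) : lat (seedBox N j j' s r i) ⊆ DD N j j' s r i := by
  rcases Nat.eq_zero_or_pos r with h0 | h0
  · intro e he
    exfalso
    have h1 := verts_lat _ e he
    obtain ⟨a, ha⟩ := isLat_lat _ e he
    have h2 := mem_cube.1 h1.1 a
    have h3 := mem_cube.1 h1.2 a
    rw [ha] at h3
    simp only [Pi.add_apply, Pi.single_eq_same] at h3
    subst h0
    rw [abs_le] at h2 h3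
    push_cast at h2 h3
    omega
  · refine lat_sub_DD hs hj (lo := 0) (hi := 2 * r) (m := r) le_rfl (by exact_mod_cast hN)
      (by exact_mod_cast hm) (Or.inr (by omega)) ?_
    intro x hx
    have := reg_cube (N := N) (r := r) (i := i) hs hj (r : ℤ) (16 * r * i) r (r : ℤ)
      (by simp) hx
    rwa [sub_self, ← two_mul] at this

end FKB
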