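import Pool.Agent.FKB.Clus

open Finset
noncomputable section
namespace FKB

variable {V : Type*} [DecidableEq V]

/-- membership in a union of clusters -/
theorem Signs_mem_biUnion {A : Finset (V × V)} {S : Finset V} {T : Finset (Finset V)}
    (hT : T ⊆ clusters A S) {x : V} (hx : x ∈ S) : x ∈ T.biUnion id ↔ cl A S x ∈ T := by
  rw [Finset.mem_biUnion]
  constructor
  · rintro ⟨C, hC, hxC⟩
    obtain ⟨y, hy, rfl⟩ := Finset.mem_image.1 (hT hC)
    have h1 : Conn A y x := (mem_cl.1 hxC).2
    rwa [(cl_eq_iff hx).2 h1.symm']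
  · intro h
    exact ⟨cl A S x, h, mem_cl.2 ⟨hx, Conn.rfl' _ _⟩⟩

/-- compatible sets are the unions of clusters -/
theorem Signs_sum {A : Finset (V × V)} {S : Finset V} (h : Verts A S) (g : Finset V → ℝ) :
    ∑ s ∈ S.powerset, ind (Compat A s) * g s =
      ∑ T ∈ (clusters A S).powerset, g (T.biUnion id) := by
  classical
  have h1 : ∑ s ∈ S.powerset, ind (Compat A s) * g s =
      ∑ s ∈ S.powerset.filter (fun s => Compat A s), g s := by
    rw [Finset.sum_filter]
    refine Finset.sum_congr rfl fun s _ => ?_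
    by_cases hs : Compat A s
    · rw [ind_true hs, one_mul, if_pos hs]
    · rw [ind_false hs, zero_mul, if_neg hs]
  rw [h1]
  symm
  refine Finset.sum_bij' (fun T _ => T.biUnion id)
    (fun s _ => (clusters A S).filter (fun C => C ⊆ s)) ?_ ?_ ?_ ?_ ?_
  · intro T hT
    rw [Finset.mem_powerset] at hT
    rw [Finset.mem_filter, Finset.mem_powerset]
    constructor
    · conv_rhs => rw [← biUnion_clusters A S]
      exact Finset.biUnion_subset_biUnion_of_subset_left _ hT
    · intro e he
      obtain ⟨he1, he2⟩ := h e he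
      rw [Signs_mem_biUnion hT he1, Signs_mem_biUnion hT he2,
        (cl_eq_iff he1).2 (Conn.edge he)]
  · intro s _
    rw [Finset.mem_powerset]
    exact Finset.filter_subset _ _
  · intro T hT
    rw [Finset.mem_powerset] at hT
    ext C
    rw [Finset.mem_filter]
    constructor
    · rintro ⟨hC, hCs⟩
      obtain ⟨x, hx, rfl⟩ := Finset.mem_image.1 hC
      have : x ∈ T.biUnion id := hCs (mem_cl.2 ⟨hx, Conn.rfl' _ _⟩)
      exact (Signs_mem_biUnion hT hx).1 this
    · intro hC
      exact ⟨hT hC, Finset.subset_biUnion_of_mem id hC⟩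
  · intro s hs
    rw [Finset.mem_filter, Finset.mem_powerset] at hs
    ext x
    rw [Finset.mem_biUnion]
    constructor
    · rintro ⟨C, hC, hxC⟩
      exact (Finset.mem_filter.1 hC).2 hxC
    · intro hx
      refine ⟨cl A S x, ?_, mem_cl.2 ⟨hs.1 hx, Conn.rfl' _ _⟩⟩
      rw [Finset.mem_filter]
      refine ⟨self_mem_clusters (hs.1 hx), fun y hy => ?_⟩
      exact (compat_conn hs.2 (mem_cl.1 hy).2).1 hx
  · intro T _
    rfl

theorem Signs_norm {A : Finset (V × V)} {S : Finset V} (h : Verts A S) :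
    (2 : ℝ) ^ rk A * (1 / 2) ^ S.card * 2 ^ (clusters A S).card = 1 := by
  rw [← card_clusters h, pow_add]
  have h1 : (2 : ℝ) ^ rk A * (1 / 2) ^ rk A = 1 := by
    rw [← mul_pow]
    norm_num
  have h2 : (1 / 2 : ℝ) ^ (clusters A S).card * 2 ^ (clusters A S).card = 1 := by
    rw [← mul_pow]
    norm_num
  linear_combination h1 * (1 / 2 : ℝ) ^ (clusters A S).card * 2 ^ (clusters A S).card + h2

theorem compat_exp {A : Finset (V × V)} {S : Finset V} (hA : Verts A S) (h : V → ℝ) :
    (2 : ℝ) ^ rk A * (1 / 2) ^ S.card *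
      ∑ s ∈ S.powerset, ind (Compat A s) * Real.exp (∑ x ∈ S, h x * sgn s x) =
      ∏ C ∈ clusters A S, Real.cosh (∑ x ∈ C, h x) := by
  have h1 : ∑ s ∈ S.powerset, ind (Compat A s) * Real.exp (∑ x ∈ S, h x * sgn s x) =
      ∏ C ∈ clusters A S, (Real.exp (-∑ x ∈ C, h x) + Real.exp (∑ x ∈ C, h x)) := by
    rw [Signs_sum hA (fun s => Real.exp (∑ x ∈ S, h x * sgn s x)), Finset.prod_add]
    refine Finset.sum_congr rfl fun T hT => ?_
    rw [Finset.mem_powerset] at hT
    rw [← Real.exp_sum, ← Real.exp_sum, ← Real.exp_add]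
    congr 1
    rw [← sum_clusters A S (fun x => h x * sgn (T.biUnion id) x), ← Finset.sum_sdiff hT,
      add_comm]
    congr 1
    · refine Finset.sum_congr rfl fun C hC => ?_
      rw [← Finset.sum_neg_distrib]
      refine Finset.sum_congr rfl fun x hx => ?_
      have : x ∈ T.biUnion id := Finset.mem_biUnion.2 ⟨C, hC, hx⟩
      rw [sgn, ind_true this]
      ring
    · refine Finset.sum_congr rfl fun C hC => ?_
      refine Finset.sum_congr rfl fun x hx => ?_
      rw [Finset.mem_sdiff] at hC
      have : x ∉ T.biUnion id := by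
        intro hx'
        obtain ⟨y, hy, rfl⟩ := Finset.mem_image.1 hC.1
        have hxy := mem_cl.1 hx
        rw [Signs_mem_biUnion hT hxy.1, (cl_eq_iff hxy.1).2 hxy.2.symm'] at hx'
        exact hC.2 hx'
      rw [sgn, ind_false this]
      ring
  have h2 : ∏ C ∈ clusters A S, (Real.exp (-∑ x ∈ C, h x) + Real.exp (∑ x ∈ C, h x)) =
      2 ^ (clusters A S).card * ∏ C ∈ clusters A S, Real.cosh (∑ x ∈ C, h x) := by
    rw [← Finset.prod_const, ← Finset.prod_mul_distrib]
    refine Finset.prod_congr rfl fun C _ => ?_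
    rw [Real.cosh_eq]
    ring
  rw [h1, h2, ← mul_assoc, Signs_norm hA, one_mul]

theorem compat_count {A : Finset (V × V)} {S : Finset V} (h : Verts A S) :
    (2 : ℝ) ^ rk A * (1 / 2) ^ S.card * ∑ s ∈ S.powerset, ind (Compat A s) = 1 := by
  have := compat_exp h (fun _ => 0)
  simpa using this

theorem compat_two {A : Finset (V × V)} {S : Finset V} (h : Verts A S) {x y : V}
    (hx : x ∈ S) (hy : y ∈ S) :
    (2 : ℝ) ^ rk A * (1 / 2) ^ S.card *
      ∑ s ∈ S.powerset, ind (Compat A s) * (sgn s x * sgn s y) = ind (Conn A x y) := by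
  by_cases hc : Conn A x y
  · have e1 : ∑ s ∈ S.powerset, ind (Compat A s) * (sgn s x * sgn s y) =
        ∑ s ∈ S.powerset, ind (Compat A s) := by
      refine Finset.sum_congr rfl fun s _ => ?_
      by_cases hs : Compat A s
      · rw [← sgn_conn hs hc]
        rcases sgn_eq s x with h1 | h1 <;> rw [h1] <;> ring
      · rw [ind_false hs, zero_mul]
    rw [ind_true hc, e1, compat_count h]
  · rw [ind_false hc]
    have hne : cl A S x ≠ cl A S y := fun h1 => hc ((cl_eq_iff hx).1 h1)
    have key : ∀ z ∈ S, ∀ T ⊆ clusters A S, sgn (T.biUnion id) z =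
        ∏ C ∈ T, (if C = cl A S z then (-1 : ℝ) else 1) := by
      intro z hz T hT
      rw [Finset.prod_ite_eq']
      by_cases hzT : cl A S z ∈ T
      · rw [if_pos hzT, sgn, ind_true ((Signs_mem_biUnion hT hz).2 hzT)]
        norm_num
      · rw [if_neg hzT, sgn, ind_false (fun h1 => hzT ((Signs_mem_biUnion hT hz).1 h1))]
        norm_num
    have h1 : ∑ s ∈ S.powerset, ind (Compat A s) * (sgn s x * sgn s y) =
        ∏ C ∈ clusters A S, ((if C = cl A S x then (-1 : ℝ) else 1) *
          (if C = cl A S y then (-1 : ℝ) else 1) + 1) := by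
      rw [Signs_sum h (fun s => sgn s x * sgn s y), Finset.prod_add]
      refine Finset.sum_congr rfl fun T hT => ?_
      rw [Finset.mem_powerset] at hT
      rw [key x hx T hT, key y hy T hT, ← Finset.prod_mul_distrib, Finset.prod_const_one,
        mul_one]
    rw [h1, Finset.prod_eq_zero (self_mem_clusters hx), mul_zero]
    rw [if_pos rfl, if_neg hne]
    norm_num

end FKB
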