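import Pool.Agent.FKB.SpinDefs
import Pool.Agent.FKB.GinC

open Finset
noncomputable section
namespace FKB

variable {V : Type*} (k : ℕ) [NeZero k]

/-- linear characters of the spins -/
def spChar (j : ZMod (4 * k)) (x y : V) : AddChar (V → ZMod (4 * k)) ℂ :=
  (ZMod.stdAddChar (N := 4 * k)).compAddMonoidHom
    { toFun := fun a => j * (a x - a y)
      map_zero' := by simp
      map_add' := by intro a b; simp only [Pi.add_apply]; ring }

theorem spChar_apply (j : ZMod (4 * k)) (x y : V) (a : V → ZMod (4 * k)) :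
    spChar k j x y a = ZMod.stdAddChar (j * (a x - a y)) := rfl

def spCharOne (x : V) : AddChar (V → ZMod (4 * k)) ℂ :=
  (ZMod.stdAddChar (N := 4 * k)).compAddMonoidHom
    { toFun := fun a => (k : ZMod (4 * k)) * a x
      map_zero' := by simp
      map_add' := by intro a b; simp only [Pi.add_apply]; ring }

theorem spCharOne_apply (x : V) (a : V → ZMod (4 * k)) :
    spCharOne k x a = ZMod.stdAddChar ((k : ZMod (4 * k)) * a x) := rfl

/-- sign of a residue -/
def sg (b : ZMod (4 * k)) : ℝ := if Even b.val then 1 else -1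

theorem sg_sq (b : ZMod (4 * k)) : sg k b * sg k b = 1 := by
  unfold sg
  split_ifs <;> norm_num

theorem std_two_k (b : ZMod (4 * k)) :
    ZMod.stdAddChar ((2 * k : ZMod (4 * k)) * b) = ((sg k b : ℝ) : ℂ) := by
  have hk : (k : ℂ) ≠ 0 := by exact_mod_cast NeZero.ne k
  have h1 : (2 * k : ZMod (4 * k)) * b = (((2 * k * b.val : ℕ) : ℤ) : ZMod (4 * k)) := by
    push_cast
    rw [ZMod.natCast_zmod_val]
  rw [h1, ZMod.stdAddChar_coe]
  have h2 : (2 * Real.pi * Complex.I * (((2 * k * b.val : ℕ) : ℤ) : ℂ) / ((4 * k : ℕ) : ℂ)) =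
      (b.val : ℂ) * (Real.pi * Complex.I) := by
    push_cast
    field_simp
    ring
  rw [h2, Complex.exp_nat_mul, Complex.exp_pi_mul_I]
  unfold sg
  by_cases h : Even b.val
  · rw [if_pos h, h.neg_one_pow]
    simp
  · rw [if_neg h, (Nat.not_even_iff_odd.1 h).neg_one_pow]
    simp

theorem std_two_k_sub (b c : ZMod (4 * k)) :
    ZMod.stdAddChar ((2 * k : ZMod (4 * k)) * (b - c)) = ((sg k b * sg k c : ℝ) : ℂ) := by
  have h4 : (4 * k : ZMod (4 * k)) = 0 := by
    have := ZMod.natCast_self (4 * k)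
    push_cast at this
    exact this
  have h : (2 * k : ZMod (4 * k)) * (b - c) = (2 * k : ZMod (4 * k)) * b + (2 * k) * c := by
    have : (2 * k : ZMod (4 * k)) * (b - c) = (2 * k : ZMod (4 * k)) * b + (2 * k) * c -
        (4 * k) * c := by ring
    rw [this, h4]
    ring
  rw [h, AddChar.map_add_eq_mul, std_two_k, std_two_k]
  push_cast
  rfl

theorem GC.sum_mem' {G : Type*} [AddCommGroup G] [Fintype G] {ι : Type*} (I : Finset ι)
    {f : ι → G → ℝ} (h : ∀ i ∈ I, GC (f i)) : GC (fun a => ∑ i ∈ I, f i a) := by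
  have : (fun a => ∑ i ∈ I, f i a) = ∑ i ∈ I, f i := by
    funext a
    rw [Finset.sum_apply]
  unfold GC
  rw [this]
  exact Submodule.sum_mem _ h

theorem GC.of_gf {G : Type*} [AddCommGroup G] [Fintype G] (ψ : AddChar G ℂ) : GC (gf ψ) :=
  Submodule.subset_span ⟨ψ, rfl⟩

theorem gf_spChar [Fintype V] (j : ZMod (4 * k)) (x y : V) (a : V → ZMod (4 * k)) :
    gf (spChar k j x y) a = (ZMod.stdAddChar (j * (2 * (a x - a y)))).re := by
  unfold gf
  rw [spChar_apply]
  congr 2
  simp only [Pi.add_apply]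
  ring

theorem dl_eq_sum [Fintype V] (e : V × V) (a : V → ZMod (4 * k)) :
    dl k e a = 1 / (4 * k : ℝ) * ∑ j : ZMod (4 * k), gf (spChar k j e.1 e.2) a := by
  have hk : (k : ℝ) ≠ 0 := by exact_mod_cast NeZero.ne k
  have h1 : ∑ j : ZMod (4 * k), gf (spChar k j e.1 e.2) a =
      (∑ j : ZMod (4 * k), ZMod.stdAddChar (j * (2 * (a e.1 - a e.2)))).re := by
    rw [Complex.re_sum]
    exact Finset.sum_congr rfl (fun j _ => gf_spChar k j e.1 e.2 a)
  have h2 := AddChar.sum_mulShift (R := ZMod (4 * k)) (R' := ℂ) (ψ := ZMod.stdAddChar)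
    (2 * (a e.1 - a e.2)) (ZMod.isPrimitive_stdAddChar (4 * k))
  rw [h1]
  unfold dl
  by_cases h : 2 * (a e.1 - a e.2) = 0
  · rw [ind_true h, h2, if_pos h]
    rw [ZMod.card]
    push_cast
    simp only [Complex.mul_re, Complex.natCast_re, Complex.natCast_im]
    norm_num
    field_simp
  · rw [ind_false h, h2, if_neg h]
    simp

/-- For finite `V`: the bond indicator is in the cone, the product of signs too, and the
difference `δ - (1/q) σσ` too. -/
theorem GC_dl [Fintype V] [DecidableEq V] (e : V × V) :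
    GC (fun a : V → ZMod (4 * k) => dl k e a) := by
  have h : (fun a : V → ZMod (4 * k) => dl k e a) =
      fun a => 1 / (4 * k : ℝ) * ∑ j : ZMod (4 * k), gf (spChar k j e.1 e.2) a := by
    funext a
    exact dl_eq_sum k e a
  rw [h]
  exact (GC.sum_mem' univ (fun j _ => GC.of_gf _)).smul (by positivity)

theorem GC_ss [Fintype V] [DecidableEq V] (x : V) :
    GC (fun a : V → ZMod (4 * k) => ss k x a) := by
  have h : (fun a : V → ZMod (4 * k) => ss k x a) = gf (spCharOne k x) := by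
    funext a
    unfold gf
    rw [spCharOne_apply]
    have : (k : ZMod (4 * k)) * (a + a) x = (2 * k : ZMod (4 * k)) * a x := by
      simp only [Pi.add_apply]
      ring
    rw [this, std_two_k]
    simp [sg, ss]
  rw [h]
  exact GC.of_gf _

theorem GC_dl_sub [Fintype V] [DecidableEq V] (e : V × V) :
    GC (fun a : V → ZMod (4 * k) => dl k e a - 1 / (2 * k : ℝ) * (ss k e.1 a * ss k e.2 a)) := by
  have hkpos : 0 < k := Nat.pos_of_ne_zero (NeZero.ne k)
  have hk : (k : ℝ) ≠ 0 := by exact_mod_cast NeZero.ne k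
  have h4 : (4 * k : ZMod (4 * k)) = 0 := by
    have := ZMod.natCast_self (4 * k)
    push_cast at this
    exact this
  have hne : ((k : ℕ) : ZMod (4 * k)) ≠ ((3 * k : ℕ) : ZMod (4 * k)) := by
    intro h
    have h' := congrArg ZMod.val h
    rw [ZMod.val_natCast, ZMod.val_natCast, Nat.mod_eq_of_lt (by omega),
      Nat.mod_eq_of_lt (by omega)] at h'
    omega
  have h1 : ∀ a : V → ZMod (4 * k), gf (spChar k ((k : ℕ) : ZMod (4 * k)) e.1 e.2) a =
      ss k e.1 a * ss k e.2 a := by
    intro a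
    rw [gf_spChar]
    have : ((k : ℕ) : ZMod (4 * k)) * (2 * (a e.1 - a e.2)) =
        (2 * k : ZMod (4 * k)) * (a e.1 - a e.2) := by ring
    rw [this, std_two_k_sub, Complex.ofReal_re]
    simp [sg, ss]
  have h3 : ∀ a : V → ZMod (4 * k), gf (spChar k ((3 * k : ℕ) : ZMod (4 * k)) e.1 e.2) a =
      ss k e.1 a * ss k e.2 a := by
    intro a
    rw [gf_spChar]
    have : ((3 * k : ℕ) : ZMod (4 * k)) * (2 * (a e.1 - a e.2)) =
        (2 * k : ZMod (4 * k)) * (a e.1 - a e.2) := by
      push_cast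
      have : (3 * k : ZMod (4 * k)) * (2 * (a e.1 - a e.2)) =
        (2 * k : ZMod (4 * k)) * (a e.1 - a e.2) + (4 * k) * (a e.1 - a e.2) := by ring
      rw [this, h4]
      ring
    rw [this, std_two_k_sub, Complex.ofReal_re]
    simp [sg, ss]
  have h : (fun a : V → ZMod (4 * k) => dl k e a - 1 / (2 * k : ℝ) * (ss k e.1 a * ss k e.2 a)) =
      fun a => 1 / (4 * k : ℝ) * ∑ j ∈ (univ.erase ((k : ℕ) : ZMod (4 * k))).erase
        ((3 * k : ℕ) : ZMod (4 * k)), gf (spChar k j e.1 e.2) a := by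
    funext a
    rw [dl_eq_sum, ← Finset.add_sum_erase univ _ (Finset.mem_univ ((k : ℕ) : ZMod (4 * k))),
      ← Finset.add_sum_erase (univ.erase ((k : ℕ) : ZMod (4 * k))) _
        (Finset.mem_erase.2 ⟨hne.symm, Finset.mem_univ ((3 * k : ℕ) : ZMod (4 * k))⟩), h1, h3]
    field_simp
    ring
  rw [h]
  exact (GC.sum_mem' _ (fun j _ => GC.of_gf _)).smul (by positivity)

end FKB
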