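import Pool.Agent.FKB.Base

open Finset
noncomputable section
namespace FKB

variable {V : Type*} (k : ℕ) [NeZero k]

/-- sign of a spin: `(-1)^a` -/
def ss (x : V) (a : V → ZMod (4 * k)) : ℝ := if Even (a x).val then 1 else -1
/-- bond indicator: `a x - a y ∈ {0, 2k}` -/
def dl (e : V × V) (a : V → ZMod (4 * k)) : ℝ := ind (2 * (a e.1 - a e.2) = 0)
/-- spin weight -/
def sw [Fintype V] [DecidableEq V] (D : Finset (V × V)) (w : V × V → ℝ) (h : V → ℝ)
    (a : V → ZMod (4 * k)) : ℝ :=
  (∏ e ∈ D, ((1 - w e) + w e * dl k e a)) * Real.exp (∑ x, h x * ss k x a)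
/-- minus set of a spin configuration -/
def ms [Fintype V] (a : V → ZMod (4 * k)) : Finset V := univ.filter (fun x => ¬ Even (a x).val)

end FKB
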