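import Pool.Agent.FKB.WiredA
import Pool.Agent.FKB.Deriv
import Pool.Agent.FKB.EdgeP

open Finset
noncomputable section
namespace FKB

section surf

variable {V : Type*} [DecidableEq V]

private theorem surf_verts (D : Finset (V × V)) :
    Verts D (D.image Prod.fst ∪ D.image Prod.snd) := by
  intro e he
  exact ⟨Finset.mem_union_left _ (Finset.mem_image_of_mem _ he),
    Finset.mem_union_right _ (Finset.mem_image_of_mem _ he)⟩

private theorem surf_deriv {D O : Finset (V × V)} (hO : O ⊆ D) {q : ℝ} (hq : 0 < q) {p : ℝ}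
    (h0 : 0 < p) (h1 : p < 1) :
    HasDerivAt (fun u : ℝ => Real.log (Z D (pr O u) q))
      ((E D (pr O p) q (fun A => ((A \ O).card : ℝ)) - p * ((D \ O).card : ℝ)) /
        (p * (1 - p))) p := by
  have hS := surf_verts D
  have key := deriv_logJZ hO hq hS (fun _ => 0) 0 0 p (by linarith) (by linarith)
  simp only [zero_add, zero_mul, mul_zero, add_zero] at key
  have e1 : (fun u : ℝ => Real.log (JZ D (pr O u) q (D.image Prod.fst ∪ D.image Prod.snd)
      (fun _ => 0))) = (fun u : ℝ => Real.log (Z D (pr O u) q)) := by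
    funext u
    rw [JZ_zero hS]
  rw [e1, JE_zero hS] at key
  exact key

private theorem surf_card {D O A : Finset (V × V)} (hA : A ⊆ D) :
    ((A \ O).card : ℝ) = ∑ e ∈ D \ O, ind (e ∈ A) := by
  have h1 : A \ O = (D \ O).filter (fun e => e ∈ A) := by
    ext e
    simp only [Finset.mem_sdiff, Finset.mem_filter]
    constructor
    · rintro ⟨h, h'⟩
      exact ⟨⟨hA h, h'⟩, h⟩
    · rintro ⟨⟨_, h'⟩, h⟩
      exact ⟨h, h'⟩
  rw [h1, Finset.card_filter, Nat.cast_sum]
  apply Finset.sum_congr rfl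
  intro e _
  by_cases he : e ∈ A
  · rw [ind_true he]; simp [he]
  · rw [ind_false he]; simp [he]

private theorem surf_E {D O : Finset (V × V)} {q : ℝ} (hq : 0 < q) {p : ℝ}
    (h0 : 0 < p) (h1 : p < 1) :
    E D (pr O p) q (fun A => ((A \ O).card : ℝ)) =
      ∑ e ∈ D \ O, p * (q⁻¹ + (1 - q⁻¹) * P D (pr O p) q (fun A => Conn A e.1 e.2)) := by
  rw [E_congr (G := fun A => ∑ e ∈ D \ O, ind (e ∈ A)) (fun A hA => surf_card hA), E_sum]
  apply Finset.sum_congr rfl
  intro e he
  have he' := Finset.mem_sdiff.1 he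
  have h := P_edge hq (adm_pr (O := O) h0.le h1.le) he'.1
  have hw : pr O p e = p := by simp [pr, he'.2]
  rw [hw] at h
  exact h

/-- the derivative in terms of the connection probabilities -/
private theorem surf_deriv2 {D O : Finset (V × V)} (hO : O ⊆ D) {q : ℝ} (hq : 0 < q) {p : ℝ}
    (h0 : 0 < p) (h1 : p < 1) :
    HasDerivAt (fun u : ℝ => Real.log (Z D (pr O u) q))
      (-((1 - q⁻¹) / (1 - p) *
        ∑ e ∈ D \ O, (1 - P D (pr O p) q (fun A => Conn A e.1 e.2)))) p := by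
  have h := surf_deriv hO hq h0 h1
  rw [surf_E hq h0 h1] at h
  have e1 : (∑ e ∈ D \ O, p * (q⁻¹ + (1 - q⁻¹) * P D (pr O p) q (fun A => Conn A e.1 e.2)) -
      p * ((D \ O).card : ℝ)) / (p * (1 - p)) =
      -((1 - q⁻¹) / (1 - p) *
        ∑ e ∈ D \ O, (1 - P D (pr O p) q (fun A => Conn A e.1 e.2))) := by
    have hc : p * ((D \ O).card : ℝ) = ∑ e ∈ D \ O, p := by
      rw [Finset.sum_const, nsmul_eq_mul]; ring
    rw [hc, ← Finset.sum_sub_distrib, Finset.mul_sum, Finset.sum_div, ← Finset.sum_neg_distrib]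
    apply Finset.sum_congr rfl
    intro e _
    have hp : p ≠ 0 := h0.ne'
    have hp1 : (1 - p) ≠ 0 := by linarith
    field_simp
    ring
  rw [e1] at h
  exact h

private theorem surf_one {D O : Finset (V × V)} {q : ℝ} (hq : 0 < q) {p : ℝ}
    (h0 : 0 ≤ p) (h1 : p ≤ 1) {e : V × V} (he : e ∈ O) (hD : e ∈ D) :
    P D (pr O p) q (fun A => Conn A e.1 e.2) = 1 := by
  apply le_antisymm (P_le_one hq (adm_pr h0 h1) _)
  have hc : P D (pr O p) q (fun _ => True) = 1 := by
    have := E_const (q := q) hq (adm_pr (D := D) (O := O) h0 h1) 1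
    simpa [P, ind_true trivial] using this
  calc (1 : ℝ) = P D (pr O p) q (fun _ => True) := hc.symm
    _ ≤ _ := P_mono hq (adm_pr h0 h1) (fun A _ hA1 _ _ => Conn.edge (hA1 e hD (by simp [pr, he])))

private theorem surf_split {M : Type*} [AddCommMonoid M] (s t : Finset (V × V))
    (hst : Disjoint s t) (f : Finset (V × V) → M) :
    ∑ A ∈ (s ∪ t).powerset, f A = ∑ A1 ∈ s.powerset, ∑ A2 ∈ t.powerset, f (A1 ∪ A2) := by
  rw [← Finset.sum_product']
  apply Finset.sum_bij' (fun A _ => (A ∩ s, A ∩ t)) (fun A _ => A.1 ∪ A.2)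
  · intro A _
    simp only [Finset.mem_product, Finset.mem_powerset]
    exact ⟨Finset.inter_subset_right, Finset.inter_subset_right⟩
  · intro A hA
    simp only [Finset.mem_product, Finset.mem_powerset] at hA ⊢
    exact Finset.union_subset_union hA.1 hA.2
  · intro A hA
    simp only [Finset.mem_powerset] at hA
    simp only
    rw [← Finset.inter_union_distrib_left]
    exact Finset.inter_eq_left.2 hA
  · intro A hA
    simp only [Finset.mem_product, Finset.mem_powerset] at hA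
    have hd : Disjoint A.1 t := Finset.disjoint_of_subset_left hA.1 hst
    have hd' : Disjoint A.2 s := Finset.disjoint_of_subset_left hA.2 hst.symm
    apply Prod.ext
    · simp only
      rw [Finset.union_inter_distrib_right, Finset.inter_eq_left.2 hA.1,
        Finset.disjoint_iff_inter_eq_empty.1 hd', Finset.union_empty]
    · simp only
      rw [Finset.union_inter_distrib_right, Finset.inter_eq_left.2 hA.2,
        Finset.disjoint_iff_inter_eq_empty.1 hd, Finset.empty_union]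
  · intro A hA
    simp only [Finset.mem_powerset] at hA
    simp only
    rw [← Finset.inter_union_distrib_left, Finset.inter_eq_left.2 hA]

private theorem surf_Z1 (L O : Finset (V × V)) (q p : ℝ) :
    Z (L ∪ O) (pr O p) q = ∑ A1 ∈ (L \ O).powerset,
      ((∏ _e ∈ A1, p) * ∏ _e ∈ (L \ O) \ A1, (1 - p)) * (q⁻¹) ^ rk (A1 ∪ O) := by
  have h1 : L ∪ O = (L \ O) ∪ O := by rw [Finset.sdiff_union_self_eq_union]
  have hd : Disjoint (L \ O) O := Finset.sdiff_disjoint
  rw [Z, h1, surf_split _ _ hd]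
  apply Finset.sum_congr rfl
  intro A1 hA1
  have hA1' := Finset.mem_powerset.1 hA1
  have hdA : Disjoint A1 O := Finset.disjoint_of_subset_left hA1' hd
  rw [Finset.sum_eq_single O]
  · rw [wt, Finset.prod_union hdA]
    have e1 : ∏ e ∈ A1, pr O p e = ∏ _e ∈ A1, p := by
      apply Finset.prod_congr rfl
      intro e he
      simp [pr, Finset.disjoint_left.1 hdA he]
    have e2 : ∏ e ∈ O, pr O p e = 1 := by
      apply Finset.prod_eq_one
      intro e he
      simp [pr, he]
    have e3 : ((L \ O) ∪ O) \ (A1 ∪ O) = (L \ O) \ A1 := by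
      ext e
      simp only [Finset.mem_sdiff, Finset.mem_union]
      tauto
    have e4 : ∏ e ∈ (L \ O) \ A1, (1 - pr O p e) = ∏ _e ∈ (L \ O) \ A1, (1 - p) := by
      apply Finset.prod_congr rfl
      intro e he
      have := (Finset.mem_sdiff.1 (Finset.mem_sdiff.1 he).1).2
      simp [pr, this]
    rw [e1, e2, e3, e4, mul_one]
  · intro A2 hA2 hne
    have hA2' := Finset.mem_powerset.1 hA2
    obtain ⟨e, he, he2⟩ : ∃ e ∈ O, e ∉ A2 := by
      by_contra hcon
      push Not at hcon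
      exact hne (Finset.Subset.antisymm hA2' hcon)
    have : ∏ e ∈ ((L \ O) ∪ O) \ (A1 ∪ A2), (1 - pr O p e) = 0 := by
      apply Finset.prod_eq_zero (i := e)
      · simp only [Finset.mem_sdiff, Finset.mem_union]
        refine ⟨Or.inr he, ?_⟩
        rintro (h | h)
        · exact Finset.disjoint_left.1 hdA h he
        · exact he2 h
      · simp [pr, he]
    rw [wt, this]
    ring
  · intro h
    exact absurd (Finset.mem_powerset.2 (Finset.Subset.refl O)) h

private theorem surf_Z0 (L O : Finset (V × V)) (q p : ℝ) :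
    Z L (fun _ => p) q = ∑ A1 ∈ (L \ O).powerset,
      ((∏ _e ∈ A1, p) * ∏ _e ∈ (L \ O) \ A1, (1 - p)) *
        ∑ A2 ∈ (L ∩ O).powerset, ((∏ _e ∈ A2, p) * ∏ _e ∈ (L ∩ O) \ A2, (1 - p)) *
          (q⁻¹) ^ rk (A1 ∪ A2) := by
  have h1 : L = (L \ O) ∪ (L ∩ O) := (Finset.sdiff_union_inter L O).symm
  have hd : Disjoint (L \ O) (L ∩ O) := by
    rw [Finset.disjoint_left]
    intro e he he'
    exact (Finset.mem_sdiff.1 he).2 (Finset.mem_inter.1 he').2
  have h2 : Z L (fun _ => p) q = Z ((L \ O) ∪ (L ∩ O)) (fun _ => p) q := by rw [← h1]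
  rw [h2, Z, surf_split _ _ hd]
  apply Finset.sum_congr rfl
  intro A1 hA1
  rw [Finset.mul_sum]
  apply Finset.sum_congr rfl
  intro A2 hA2
  have hA1' := Finset.mem_powerset.1 hA1
  have hA2' := Finset.mem_powerset.1 hA2
  have hdA : Disjoint A1 A2 :=
    Finset.disjoint_of_subset_left hA1' (Finset.disjoint_of_subset_right hA2' hd)
  have e3 : ((L \ O) ∪ (L ∩ O)) \ (A1 ∪ A2) = ((L \ O) \ A1) ∪ ((L ∩ O) \ A2) := by
    ext e
    simp only [Finset.mem_sdiff, Finset.mem_union, Finset.mem_inter]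
    constructor
    · rintro ⟨h | h, h'⟩
      · exact Or.inl ⟨h, fun h3 => h' (Or.inl h3)⟩
      · exact Or.inr ⟨h, fun h3 => h' (Or.inr h3)⟩
    · rintro (⟨h, h'⟩ | ⟨h, h'⟩)
      · refine ⟨Or.inl h, ?_⟩
        rintro (h3 | h3)
        · exact h' h3
        · exact h.2 (Finset.mem_inter.1 (hA2' h3)).2
      · refine ⟨Or.inr h, ?_⟩
        rintro (h3 | h3)
        · exact (Finset.mem_sdiff.1 (hA1' h3)).2 h.2
        · exact h' h3
  have hd3 : Disjoint ((L \ O) \ A1) ((L ∩ O) \ A2) :=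
    Finset.disjoint_of_subset_left Finset.sdiff_subset
      (Finset.disjoint_of_subset_right Finset.sdiff_subset hd)
  rw [wt, Finset.prod_union hdA, e3, Finset.prod_union hd3]
  ring

private theorem surf_binom (T : Finset (V × V)) (p : ℝ) :
    ∑ A2 ∈ T.powerset, ((∏ _e ∈ A2, p) * ∏ _e ∈ T \ A2, (1 - p)) = 1 := by
  have h := Finset.prod_add (fun _ : V × V => p) (fun _ => 1 - p) T
  rw [← h]
  simp

private theorem surf_Z_le (L O : Finset (V × V)) {q p : ℝ} (hq : 1 ≤ q) (h0 : 0 ≤ p)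
    (h1 : p ≤ 1) : Z (L ∪ O) (pr O p) q ≤ Z L (fun _ => p) q := by
  rw [surf_Z1, surf_Z0 L O]
  apply Finset.sum_le_sum
  intro A1 _
  have hq0 : 0 < q := by linarith
  have hnn : 0 ≤ ((∏ _e ∈ A1, p) * ∏ _e ∈ (L \ O) \ A1, (1 - p)) :=
    mul_nonneg (Finset.prod_nonneg fun _ _ => h0)
      (Finset.prod_nonneg fun _ _ => by linarith)
  apply mul_le_mul_of_nonneg_left _ hnn
  calc (q⁻¹) ^ rk (A1 ∪ O)
      = ∑ A2 ∈ (L ∩ O).powerset, ((∏ _e ∈ A2, p) * ∏ _e ∈ (L ∩ O) \ A2, (1 - p)) *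
          (q⁻¹) ^ rk (A1 ∪ O) := by rw [← Finset.sum_mul, surf_binom, one_mul]
    _ ≤ _ := by
      apply Finset.sum_le_sum
      intro A2 hA2
      have hA2' := Finset.mem_powerset.1 hA2
      have hnn2 : 0 ≤ ((∏ _e ∈ A2, p) * ∏ _e ∈ (L ∩ O) \ A2, (1 - p)) :=
        mul_nonneg (Finset.prod_nonneg fun _ _ => h0)
          (Finset.prod_nonneg fun _ _ => by linarith)
      apply mul_le_mul_of_nonneg_left _ hnn2
      apply pow_le_pow_of_le_one (by positivity) (inv_le_one_of_one_le₀ hq)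
      exact rk_mono (Finset.union_subset_union_right
        (fun e he => (Finset.mem_inter.1 (hA2' he)).2))

private theorem surf_Z_ge (L O : Finset (V × V)) {q p : ℝ} (hq : 1 ≤ q) (h0 : 0 ≤ p)
    (h1 : p ≤ 1) : Z L (fun _ => p) q ≤ q ^ rk O * Z (L ∪ O) (pr O p) q := by
  rw [surf_Z1, surf_Z0 L O, Finset.mul_sum]
  apply Finset.sum_le_sum
  intro A1 _
  have hq0 : 0 < q := by linarith
  have hnn : 0 ≤ ((∏ _e ∈ A1, p) * ∏ _e ∈ (L \ O) \ A1, (1 - p)) :=
    mul_nonneg (Finset.prod_nonneg fun _ _ => h0)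
      (Finset.prod_nonneg fun _ _ => by linarith)
  have key : ∑ A2 ∈ (L ∩ O).powerset, ((∏ _e ∈ A2, p) * ∏ _e ∈ (L ∩ O) \ A2, (1 - p)) *
          (q⁻¹) ^ rk (A1 ∪ A2) ≤ q ^ rk O * (q⁻¹) ^ rk (A1 ∪ O) := by
    calc _ ≤ ∑ A2 ∈ (L ∩ O).powerset, ((∏ _e ∈ A2, p) * ∏ _e ∈ (L ∩ O) \ A2, (1 - p)) *
          (q ^ rk O * (q⁻¹) ^ rk (A1 ∪ O)) := by
          apply Finset.sum_le_sum
          intro A2 hA2
          have hA2' := Finset.mem_powerset.1 hA2
          have hnn2 : 0 ≤ ((∏ _e ∈ A2, p) * ∏ _e ∈ (L ∩ O) \ A2, (1 - p)) :=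
            mul_nonneg (Finset.prod_nonneg fun _ _ => h0)
              (Finset.prod_nonneg fun _ _ => by linarith)
          apply mul_le_mul_of_nonneg_left _ hnn2
          have hr : rk (A1 ∪ O) ≤ rk (A1 ∪ A2) + rk O := by
            have h3 := rk_submod (A1 ∪ A2) O
            have h4 : A1 ∪ A2 ∪ O = A1 ∪ O := by
              rw [Finset.union_assoc, Finset.union_eq_right.2
                (fun e he => (Finset.mem_inter.1 (hA2' he)).2)]
            rw [h4] at h3
            omega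
          calc (q⁻¹) ^ rk (A1 ∪ A2)
              = q ^ rk O * (q⁻¹) ^ (rk (A1 ∪ A2) + rk O) := by
                rw [pow_add, inv_pow, inv_pow]
                field_simp
            _ ≤ q ^ rk O * (q⁻¹) ^ rk (A1 ∪ O) := by
                apply mul_le_mul_of_nonneg_left _ (by positivity)
                exact pow_le_pow_of_le_one (by positivity) (inv_le_one_of_one_le₀ hq) hr
      _ = _ := by rw [← Finset.sum_mul, surf_binom, one_mul]
  calc _ ≤ ((∏ _e ∈ A1, p) * ∏ _e ∈ (L \ O) \ A1, (1 - p)) *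
        (q ^ rk O * (q⁻¹) ^ rk (A1 ∪ O)) := mul_le_mul_of_nonneg_left key hnn
    _ = _ := by ring

end surf

section surfcube

variable {d : ℕ}

private theorem surf_bd (n : ℕ) :
    (bd (cube (0 : Pt d) n)).card ≤ d * (2 * (2 * n + 1) ^ (d - 1)) := by
  classical
  have hsub : bd (cube (0 : Pt d) n) ⊆ (Finset.univ : Finset (Fin d)).biUnion (fun i =>
      (Fintype.piFinset (fun j => if j = i then ({(n : ℤ)} : Finset ℤ) else
        Finset.Icc (-(n : ℤ)) n)) ∪
      (Fintype.piFinset (fun j => if j = i then ({-(n : ℤ)} : Finset ℤ) else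
        Finset.Icc (-(n : ℤ)) n))) := by
    intro x hx
    obtain ⟨hx1, i, hi⟩ := mem_bd_cube.1 hx
    rw [mem_cube] at hx1
    simp only [Finset.mem_biUnion, Finset.mem_univ, true_and, Finset.mem_union,
      Fintype.mem_piFinset]
    refine ⟨i, ?_⟩
    have hother : ∀ j, x j ∈ Finset.Icc (-(n : ℤ)) n := by
      intro j
      have := hx1 j
      simp only [Pi.zero_apply, sub_zero] at this
      rw [Finset.mem_Icc]
      exact abs_le.1 this
    simp only [Pi.zero_apply, sub_zero] at hi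
    rcases abs_eq (by positivity : (0 : ℤ) ≤ n) |>.1 hi with h | h
    · left
      intro j
      by_cases hj : j = i
      · subst hj; simp [h]
      · rw [if_neg hj]; exact hother j
    · right
      intro j
      by_cases hj : j = i
      · subst hj; simp [h]
      · rw [if_neg hj]; exact hother j
  have hcard : ∀ (i : Fin d) (a : ℤ), (Fintype.piFinset (fun j => if j = i then
      ({a} : Finset ℤ) else Finset.Icc (-(n : ℤ)) n)).card = (2 * n + 1) ^ (d - 1) := by
    intro i a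
    rw [Fintype.card_piFinset, ← Finset.mul_prod_erase _ _ (Finset.mem_univ i)]
    simp only [if_true, Finset.card_singleton, one_mul]
    have : ∀ j ∈ (Finset.univ : Finset (Fin d)).erase i, (if j = i then
      ({a} : Finset ℤ) else Finset.Icc (-(n : ℤ)) n).card = 2 * n + 1 := by
      intro j hj
      rw [if_neg (Finset.ne_of_mem_erase hj), Int.card_Icc]
      omega
    rw [Finset.prod_congr rfl this, Finset.prod_const, Finset.card_erase_of_mem
      (Finset.mem_univ i), Finset.card_univ, Fintype.card_fin]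
  calc (bd (cube (0 : Pt d) n)).card ≤ _ := Finset.card_le_card hsub
    _ ≤ ∑ i : Fin d, _ := Finset.card_biUnion_le
    _ ≤ ∑ _i : Fin d, (2 * (2 * n + 1) ^ (d - 1)) := by
        apply Finset.sum_le_sum
        intro i _
        refine (Finset.card_union_le _ _).trans ?_
        rw [hcard, hcard]
        omega
    _ = d * (2 * (2 * n + 1) ^ (d - 1)) := by simp

end surfcube

theorem surface {d : ℕ} (hd : 1 ≤ d) {q p0 p1 : ℝ} (hq : 1 < q) (h0 : 0 < p0) (h01 : p0 < p1)
    (h1 : p1 < 1) :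
    ∃ C : ℝ, 0 < C ∧ ∀ n : ℕ, 1 ≤ n → ∃ pn : ℝ, p0 < pn ∧ pn < p1 ∧
      ∑ e ∈ lat (cube (0 : Pt d) n), (wP (cube (0 : Pt d) n) pn q e.1 e.2 -
        fP (cube (0 : Pt d) n) pn q e.1 e.2) ≤ C * n ^ (d - 1) := by
  have hq0 : 0 < q := by linarith
  have hlog : 0 < Real.log q := Real.log_pos hq
  have hqi : 0 < 1 - q⁻¹ := by
    have := inv_lt_one_of_one_lt₀ hq
    linarith
  refine ⟨(d * (2 * 3 ^ (d - 1)) : ℝ) * Real.log q / ((1 - q⁻¹) * (p1 - p0)), ?_, ?_⟩
  · have : (0 : ℝ) < d := by exact_mod_cast hd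
    have h2 : 0 < p1 - p0 := by linarith
    positivity
  intro n hn
  set K := cube (0 : Pt d) n with hK
  set L := lat K with hL
  set O := wO K with hO
  have hDdef : wD K = L ∪ O := rfl
  have hOsub : O ⊆ L ∪ O := Finset.subset_union_right
  have hsd : (L ∪ O) \ O = L \ O := by
    ext e; simp only [Finset.mem_sdiff, Finset.mem_union]; tauto
  -- the function
  set g : ℝ → ℝ := fun u => Real.log (Z (L ∪ O) (pr O u) q) - Real.log (Z L (pr ∅ u) q) with hg
  have hpr : ∀ u, pr (∅ : Finset (Pt d × Pt d)) u = fun _ => u := by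
    intro u; funext e; simp [pr]
  have hder : ∀ p, 0 < p → p < 1 → HasDerivAt g ((1 - q⁻¹) / (1 - p) *
      ∑ e ∈ L, (wP K p q e.1 e.2 - fP K p q e.1 e.2)) p := by
    intro p hp hp1
    have hA := surf_deriv2 hOsub hq0 hp hp1
    have hB := surf_deriv2 (D := L) (O := ∅) (Finset.empty_subset _) hq0 hp hp1
    rw [hsd] at hA
    rw [Finset.sdiff_empty] at hB
    have hAB := hA.fun_sub hB
    have hval : (1 - q⁻¹) / (1 - p) * ∑ e ∈ L, (wP K p q e.1 e.2 - fP K p q e.1 e.2) =
        -((1 - q⁻¹) / (1 - p) * ∑ e ∈ L \ O, (1 - P (L ∪ O) (pr O p) q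
          (fun A => Conn A e.1 e.2))) -
        -((1 - q⁻¹) / (1 - p) * ∑ e ∈ L, (1 - P L (pr ∅ p) q (fun A => Conn A e.1 e.2))) := ?_
    · rw [hval]
      exact hAB
    have e1 : ∑ e ∈ L \ O, (1 - P (L ∪ O) (pr O p) q (fun A => Conn A e.1 e.2)) =
        ∑ e ∈ L, (1 - wP K p q e.1 e.2) := by
      rw [← Finset.sum_sdiff (Finset.inter_subset_left : L ∩ O ⊆ L)]
      have : ∑ e ∈ L ∩ O, (1 - wP K p q e.1 e.2) = 0 := by
        apply Finset.sum_eq_zero
        intro e he
        have he' := Finset.mem_inter.1 he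
        have : wP K p q e.1 e.2 = 1 := by
          rw [wP]
          exact surf_one hq0 hp.le hp1.le he'.2 (Finset.mem_union_left _ he'.1)
        rw [this, sub_self]
      rw [this, add_zero, Finset.sdiff_inter_self_left]
      rfl
    have e2 : ∑ e ∈ L, (1 - P L (pr ∅ p) q (fun A => Conn A e.1 e.2)) =
        ∑ e ∈ L, (1 - fP K p q e.1 e.2) := by
      rw [hpr]; rfl
    rw [e1, e2]
    have e3 : ∑ e ∈ L, (wP K p q e.1 e.2 - fP K p q e.1 e.2) =
        ∑ e ∈ L, (1 - fP K p q e.1 e.2) - ∑ e ∈ L, (1 - wP K p q e.1 e.2) := by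
      rw [← Finset.sum_sub_distrib]
      apply Finset.sum_congr rfl
      intro e _
      ring
    rw [e3]
    ring
  -- bounds
  have hup : ∀ p, 0 < p → p < 1 → g p ≤ 0 := by
    intro p hp hp1
    have hle := surf_Z_le L O hq.le hp.le hp1.le
    have hpos : 0 < Z (L ∪ O) (pr O p) q := Z_pos hq0 (adm_pr hp.le hp1.le)
    have := Real.log_le_log hpos hle
    simp only [hg, hpr]
    linarith
  have hlo : ∀ p, 0 < p → p < 1 → -((bd K).card * Real.log q) ≤ g p := by
    intro p hp hp1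
    have hge := surf_Z_ge L O hq.le hp.le hp1.le
    have hpos : 0 < Z (L ∪ O) (pr O p) q := Z_pos hq0 (adm_pr hp.le hp1.le)
    have hpos0 : 0 < Z L (fun _ => p) q := Z_pos hq0 (fun e _ => ⟨hp.le, hp1.le⟩)
    have h3 := Real.log_le_log hpos0 hge
    rw [Real.log_mul (by positivity) hpos.ne', Real.log_pow] at h3
    have h4 : (rk O : ℝ) ≤ (bd K).card := by exact_mod_cast rk_square_le (bd K)
    have h5 : (rk O : ℝ) * Real.log q ≤ (bd K).card * Real.log q :=
      mul_le_mul_of_nonneg_right h4 hlog.le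
    simp only [hg, hpr]
    linarith
  -- mean value theorem
  have hcont : ContinuousOn g (Set.Icc p0 p1) := by
    intro x hx
    exact (hder x (lt_of_lt_of_le h0 hx.1) (lt_of_le_of_lt hx.2 h1)).continuousAt.continuousWithinAt
  obtain ⟨pn, hpn, hmv⟩ := exists_hasDerivAt_eq_slope g (fun p => (1 - q⁻¹) / (1 - p) *
      ∑ e ∈ L, (wP K p q e.1 e.2 - fP K p q e.1 e.2)) h01 hcont
    (fun x hx => hder x (lt_trans h0 hx.1) (lt_trans hx.2 h1))
  refine ⟨pn, hpn.1, hpn.2, ?_⟩
  have hpn0 : 0 < pn := lt_trans h0 hpn.1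
  have hpn1 : pn < 1 := lt_trans hpn.2 h1
  have h2 : 0 < p1 - p0 := by linarith
  set Sg := ∑ e ∈ L, (wP K pn q e.1 e.2 - fP K pn q e.1 e.2) with hSg
  have hdiff : g p1 - g p0 ≤ (bd K).card * Real.log q := by
    have := hup p1 (by linarith) h1
    have := hlo p0 h0 (by linarith)
    linarith
  have h6 : (1 - q⁻¹) / (1 - pn) * Sg * (p1 - p0) ≤ (bd K).card * Real.log q := by
    rw [hmv]
    rw [div_mul_cancel₀ _ h2.ne']
    exact hdiff
  have h7 : (1 - q⁻¹) * (p1 - p0) * Sg ≤ (bd K).card * Real.log q := by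
    have h8 : (1 - q⁻¹) * (p1 - p0) * Sg =
        (1 - pn) * ((1 - q⁻¹) / (1 - pn) * Sg * (p1 - p0)) := by
      have : (1 - pn) ≠ 0 := by linarith
      field_simp
    rw [h8]
    have h9 : 0 ≤ (bd K).card * Real.log q := by positivity
    calc (1 - pn) * ((1 - q⁻¹) / (1 - pn) * Sg * (p1 - p0))
        ≤ (1 - pn) * ((bd K).card * Real.log q) :=
          mul_le_mul_of_nonneg_left h6 (by linarith)
      _ ≤ 1 * ((bd K).card * Real.log q) :=
          mul_le_mul_of_nonneg_right (by linarith) h9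
      _ = _ := one_mul _
  have h10 : ((bd K).card : ℝ) ≤ (d * (2 * 3 ^ (d - 1)) : ℝ) * n ^ (d - 1) := by
    have h11 : ((bd K).card : ℝ) ≤ d * (2 * (2 * n + 1) ^ (d - 1)) := by
      exact_mod_cast surf_bd n
    have h12 : ((2 * n + 1 : ℝ)) ^ (d - 1) ≤ (3 * n) ^ (d - 1) := by
      apply pow_le_pow_left₀ (by positivity)
      have : (1 : ℝ) ≤ n := by exact_mod_cast hn
      linarith
    calc ((bd K).card : ℝ) ≤ d * (2 * (2 * n + 1) ^ (d - 1)) := h11
      _ ≤ d * (2 * (3 * n) ^ (d - 1)) := by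
          apply mul_le_mul_of_nonneg_left _ (by positivity)
          apply mul_le_mul_of_nonneg_left h12 (by norm_num)
      _ = _ := by rw [mul_pow]; ring
  have hden : 0 < (1 - q⁻¹) * (p1 - p0) := by positivity
  calc Sg = ((1 - q⁻¹) * (p1 - p0) * Sg) / ((1 - q⁻¹) * (p1 - p0)) := by
        rw [mul_comm _ Sg, mul_div_assoc, div_self hden.ne', mul_one]
    _ ≤ ((bd K).card * Real.log q) / ((1 - q⁻¹) * (p1 - p0)) :=
        div_le_div_of_nonneg_right h7 hden.le
    _ ≤ (((d * (2 * 3 ^ (d - 1)) : ℝ) * n ^ (d - 1)) * Real.log q) /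
          ((1 - q⁻¹) * (p1 - p0)) := by
        apply div_le_div_of_nonneg_right _ hden.le
        exact mul_le_mul_of_nonneg_right h10 hlog.le
    _ = _ := by ring

end FKB
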